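import Pool.Agent.TH515.J523a

set_option autoImplicit false

namespace Pool.Agent.TH515.J523

open Pool.Agent.TH716.C3 Pool.Agent.Helper281.Sc

abbrev UU : Type := (ℕ × ℕ) ⊕ (ℕ × ℕ)

theorem isCx_Lc {K : Set (Finset ℕ)} (hK : IsCx K) (rs : List (List (ℕ × Bool))) :
    IsCx (Lc K rs) := by
  have hP := isCx_Pr hK (isCx_Th rs.length)
  constructor
  · rintro (⟨t, ht, h⟩ | ⟨j, hj, h⟩)
    · have : t = ∅ := by
        rw [← Finset.image_eq_empty (f := (Sum.inl : ℕ × ℕ → UU))]; exact h.symm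
      rw [this] at ht
      exact hP.1 ht
    · exact (isCx_Gad' _ _ _ _).1 h
  · rintro s (⟨t, ht, rfl⟩ | ⟨j, hj, h⟩) t' hts htn
    · obtain ⟨t'', ht'', rfl⟩ := Finset.subset_image_iff.1 hts
      exact Or.inl ⟨t'', hP.2 _ ht _ (by exact_mod_cast ht'') (Finset.image_nonempty.1 htn), rfl⟩
    · exact Or.inr ⟨j, hj, (isCx_Gad' _ _ _ _).2 _ h _ hts htn⟩

theorem finite_Lc {K : Set (Finset ℕ)} (hK : K.Finite) (rs : List (List (ℕ × Bool))) :
    (Lc K rs).Finite := by
  refine Set.Finite.union ?_ ?_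
  · have := (finite_Pr hK (finite_Th rs.length)).image
      (fun t : Finset (ℕ × ℕ) => (t.image Sum.inl : Finset UU))
    refine this.subset ?_
    rintro s ⟨t, ht, rfl⟩
    exact ⟨t, ht, rfl⟩
  · have := Set.Finite.biUnion (Set.finite_lt_nat rs.length)
      (fun j _ => finite_Gad (2 + 3 * (rs.getD j []).length)
      (fun i => (Sum.inl (wk j (rs.getD j []) i) : UU)) (fun i => Sum.inr (j, i))
      (Sum.inr (j, 3 + 3 * (rs.getD j []).length)))
    refine this.subset ?_
    rintro s ⟨j, hj, hs⟩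
    rw [Set.mem_iUnion₂]
    exact ⟨j, hj, hs⟩

theorem Pr_mono {K K' T : Set (Finset ℕ)} (h : K ⊆ K') : Pr K T ⊆ Pr K' T :=
  fun _ hs => ⟨h hs.1, hs.2⟩

theorem Lc_mono {K K' : Set (Finset ℕ)} (h : K ⊆ K') (rs : List (List (ℕ × Bool))) :
    Lc K rs ⊆ Lc K' rs := by
  rintro s (⟨t, ht, rfl⟩ | h1)
  · exact Or.inl ⟨t, Pr_mono h ht, rfl⟩
  · exact Or.inr h1

theorem lc_of_pair {K : Set (Finset ℕ)} {rs : List (List (ℕ × Bool))} {x y : ℕ × ℕ}
    (h : ({x, y} : Finset (ℕ × ℕ)) ∈ Pr K (Th rs.length)) :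
    ({Sum.inl x, Sum.inl y} : Finset UU) ∈ Lc K rs :=
  Or.inl ⟨_, h, by simp [Finset.image_insert, Finset.image_singleton]⟩

theorem Lcx (hS : S_Kcx) : S_Lcx := by
  intro N g hg rs hrs
  obtain ⟨hK, hfin, hcard, hv, hconn⟩ := hS N g hg
  have hTK : Th N ⊆ Kp N g := fun s hs => Or.inl hs
  have hLc := isCx_Lc hK rs
  refine ⟨hLc, finite_Lc hfin rs, ?_, ?_, ?_⟩
  · rintro s (⟨t, ht, rfl⟩ | ⟨j, hj, h⟩)
    · refine Finset.card_image_le.trans ?_
      exact card_chain t ht.2.2 (A := 2) (B := 1) (hcard _ ht.1) (card_Th ht.2.1)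
    · exact (card_Gad h).trans (by norm_num)
  · apply Lc_mono
    intro s hs
    have hne : s.Nonempty := by
      rw [Finset.nonempty_iff_ne_empty]
      rintro rfl
      exact hK.1 hs
    refine ⟨hne, Or.inr ?_⟩
    rw [Finset.erase_eq_of_notMem]
    · exact hs
    · intro hc
      exact (hv s hs _ hc).false
  · -- connectivity
    have base : ∀ x : ℕ × ℕ, ({x} : Finset (ℕ × ℕ)) ∈ Pr (Kp N g) (Th rs.length) →
        Relation.ReflTransGen (fun a b => ({a, b} : Finset UU) ∈ Lc (Kp N g) rs) (Sum.inl x)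
          (Sum.inl (0, 0)) := by
      rintro ⟨u, a⟩ ⟨h1, h2, -⟩
      simp only [Finset.image_singleton] at h1 h2
      refine Relation.ReflTransGen.head (b := Sum.inl (u, 0)) ?_ ?_
      · exact lc_of_pair (pr_v h1 (th_zero h2))
      · refine (hconn u h1).lift (fun v => (Sum.inl (v, 0) : UU)) ?_
        intro v w hvw
        exact lc_of_pair (pr_h hvw (th0 _))
    intro v hv'
    have hsing : ∀ x : ℕ × ℕ, Sum.inl x = v → ({x} : Finset (ℕ × ℕ)) ∈
        Pr (Kp N g) (Th rs.length) →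
        Relation.ReflTransGen (fun a b => ({a, b} : Finset UU) ∈ Lc (Kp N g) rs) v
          (Sum.inl (0, 0)) := by
      rintro x rfl hx
      exact base x hx
    rcases hv' with ⟨t, ht, h⟩ | ⟨j, hj, h⟩
    · have hcard1 : t.card = 1 := by
        rw [← Finset.card_image_of_injective t (Sum.inl_injective (β := ℕ × ℕ)), ← h]
        simp
      obtain ⟨x, rfl⟩ := Finset.card_eq_one.1 hcard1
      rw [Finset.image_singleton, Finset.singleton_inj] at h
      exact hsing x h.symm ht
    · set r := rs.getD j [] with hr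
      have hrmem : r ∈ rs := by
        rw [hr, List.getD_eq_getElem rs [] hj]
        exact List.getElem_mem hj
      have hletters := (hrs r hrmem).2
      have hwk : ∀ i, ({wk j r i} : Finset (ℕ × ℕ)) ∈ Pr (Kp N g) (Th rs.length) :=
        wk_mem hTK hj hletters
      have ring : ∀ i ≤ 2 + 3 * r.length, Relation.ReflTransGen
          (fun a b => ({a, b} : Finset UU) ∈ Lc (Kp N g) rs) (Sum.inr (j, i)) (Sum.inl (0, 0)) := by
        intro i hi
        refine Relation.ReflTransGen.head (b := Sum.inl (wk j r i)) ?_ (base _ (hwk i))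
        refine Or.inr ⟨j, hj, by simp, i, hi, Or.inl ?_⟩
        intro x hx
        simp only [Finset.mem_insert, Finset.mem_singleton] at hx ⊢
        rcases hx with rfl | rfl
        · exact Or.inr (Or.inr rfl)
        · exact Or.inl rfl
      obtain ⟨-, i, hi, h⟩ := h
      have hni := nx_le (2 + 3 * r.length) i
      rw [Finset.singleton_subset_iff, Finset.singleton_subset_iff,
        Finset.singleton_subset_iff] at h
      simp only [Finset.mem_insert, Finset.mem_singleton] at h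
      have apex : Relation.ReflTransGen (fun a b => ({a, b} : Finset UU) ∈ Lc (Kp N g) rs)
          (Sum.inr (j, 3 + 3 * r.length)) (Sum.inl (0, 0)) := by
        refine Relation.ReflTransGen.head (b := Sum.inr (j, 0)) ?_ (ring 0 (Nat.zero_le _))
        refine Or.inr ⟨j, hj, by simp, 0, Nat.zero_le _, Or.inr (Or.inr ?_)⟩
        intro x hx
        simp only [Finset.mem_insert, Finset.mem_singleton] at hx ⊢
        rcases hx with rfl | rfl
        · exact Or.inr (Or.inr rfl)
        · exact Or.inl rfl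
      rcases h with (h | h | h) | (h | h | h) | (h | h | h)
      · exact hsing _ h.symm (hwk _)
      · exact hsing _ h.symm (hwk _)
      · rw [h]; exact ring i hi
      · exact hsing _ h.symm (hwk _)
      · rw [h]; exact ring i hi
      · rw [h]; exact ring _ hni
      · rw [h]; exact ring i hi
      · rw [h]; exact ring _ hni
      · rw [h]; exact apex

/-! ### cocycles -/

section coc

variable {V G : Type} [DecidableEq V] [Group G] {L : Set (Finset V)} {C : V → V → G}

theorem coc_self (hC : Coc L C) {u : V} (h : ({u} : Finset V) ∈ L) : C u u = 1 := by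
  have := hC _ h u (by simp) u (by simp) u (by simp)
  simpa using this

theorem coc_inv (hL : IsCx L) (hC : Coc L C) {u v : V} (h : ({u, v} : Finset V) ∈ L) :
    C v u = (C u v)⁻¹ := by
  have h1 := hC _ h u (by simp) v (by simp) u (by simp)
  rw [coc_self hC (hL.2 _ h _ (by simp) (by simp))] at h1
  exact (inv_eq_of_mul_eq_one_right h1).symm

theorem coc_tri (hC : Coc L C) {u v w : V} (h : ({u, v, w} : Finset V) ∈ L) :
    C u v * C v w = C u w := hC _ h u (by simp) v (by simp) w (by simp)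

end coc

/-- the square relation in a product -/
theorem square {K T : Set (Finset ℕ)} (hK : IsCx K) (hT : IsCx T) {G : Type} [Group G]
    {D : ℕ × ℕ → ℕ × ℕ → G} (hD : Coc (Pr K T) D) {u v a b : ℕ}
    (h1 : ({u, v} : Finset ℕ) ∈ K) (h2 : ({a, b} : Finset ℕ) ∈ T) :
    D (u, a) (v, a) * D (v, a) (v, b) = D (u, a) (u, b) * D (u, b) (v, b) := by
  have hP := isCx_Pr hK hT
  have basic : ∀ {u v a b : ℕ}, ({u, v} : Finset ℕ) ∈ K → ({a, b} : Finset ℕ) ∈ T → u ≤ v →
      a ≤ b → D (u, a) (v, a) * D (v, a) (v, b) = D (u, a) (u, b) * D (u, b) (v, b) := by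
    intro u v a b h1 h2 huv hab
    rw [coc_tri hD (pr_tri1 h1 h2 huv hab), coc_tri hD (pr_tri2 h1 h2 huv hab)]
  -- reversal in the first variable
  have ku : ({u} : Finset ℕ) ∈ K := hK.2 _ h1 _ (by simp) (by simp)
  have kv : ({v} : Finset ℕ) ∈ K := hK.2 _ h1 _ (by simp) (by simp)
  have ta : ({a} : Finset ℕ) ∈ T := hT.2 _ h2 _ (by simp) (by simp)
  have tb : ({b} : Finset ℕ) ∈ T := hT.2 _ h2 _ (by simp) (by simp)
  have i1 := coc_inv hP hD (pr_h h1 ta)
  have i2 := coc_inv hP hD (pr_h h1 tb)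
  have i3 := coc_inv hP hD (pr_v ku h2)
  have i4 := coc_inv hP hD (pr_v kv h2)
  have h1' : ({v, u} : Finset ℕ) ∈ K := by rwa [Finset.pair_comm]
  have h2' : ({b, a} : Finset ℕ) ∈ T := by rwa [Finset.pair_comm]
  rcases le_total u v with huv | huv <;> rcases le_total a b with hab | hab
  · exact basic h1 h2 huv hab
  · have := basic h1 h2' huv hab
    rw [i3, i4] at this
    -- D ub vb * (D va vb)⁻¹ = (D ua ub)⁻¹ * D ua va
    have e : D (u, a) (v, a) = D (u, a) (u, b) * (D (u, b) (v, b) * (D (v, a) (v, b))⁻¹) := by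
      rw [this]; group
    rw [e]; group
  · have := basic h1' h2 huv hab
    rw [i1, i2] at this
    -- (D ua va)⁻¹ * D ua ub = D va vb * (D ub vb)⁻¹
    have e : D (u, a) (u, b) = D (u, a) (v, a) * (D (v, a) (v, b) * (D (u, b) (v, b))⁻¹) := by
      rw [← this]; group
    rw [e]; group
  · have := basic h1' h2' huv hab
    rw [i1, i2, i3, i4] at this
    -- (D ub vb)⁻¹ * (D ua ub)⁻¹ = (D va vb)⁻¹ * (D ua va)⁻¹
    have e := congrArg (fun x => x⁻¹) this
    simp only [mul_inv_rev, inv_inv] at e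
    exact e.symm

/-- the ordered product around a gadget is trivial -/
theorem gad_prod {V G : Type} [DecidableEq V] [Group G] {C : V → V → G} {l : ℕ} {p y : ℕ → V}
    {z : V} (hC : Coc (Gad l p y z) C) (hp : p (l + 1) = p 0) :
    pr (fun i => C (p i) (p (i + 1))) (l + 1) = 1 := by
  have hmem : ∀ i ≤ l, ({p i, p (nx l i), y i} : Finset V) ∈ Gad l p y z ∧
      ({p (nx l i), y i, y (nx l i)} : Finset V) ∈ Gad l p y z ∧
      ({y i, y (nx l i), z} : Finset V) ∈ Gad l p y z := by
    intro i hi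
    exact ⟨⟨by simp, i, hi, Or.inl (Finset.Subset.refl _)⟩,
      ⟨by simp, i, hi, Or.inr (Or.inl (Finset.Subset.refl _))⟩,
      ⟨by simp, i, hi, Or.inr (Or.inr (Finset.Subset.refl _))⟩⟩
  set b : ℕ → G := fun i => C (p i) (y i) * C (y i) z with hb
  have step : ∀ i ≤ l, C (p i) (p (nx l i)) * b (nx l i) = b i := by
    intro i hi
    obtain ⟨m1, m2, m3⟩ := hmem i hi
    have e1 := coc_tri hC m1
    have e2 := coc_tri hC m2
    have e3 := coc_tri hC m3
    simp only [hb]
    rw [← e1, ← e2, ← e3]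
    group
  have tele : ∀ n ≤ l, pr (fun i => C (p i) (p (i + 1))) n * b n = b 0 := by
    intro n
    induction n with
    | zero => intro _; simp [pr]
    | succ n ih =>
      intro hn
      have := step n (by omega)
      rw [nx, if_pos (by omega : n < l)] at this
      simp only [pr]
      rw [mul_assoc, this]
      exact ih (by omega)
  have e1 := tele l le_rfl
  have e2 := step l le_rfl
  rw [nx, if_neg (lt_irrefl l)] at e2
  simp only [pr]
  rw [hp]
  have : pr (fun i => C (p i) (p (i + 1))) l * C (p l) (p 0) * b 0 = b 0 := by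
    rw [mul_assoc, e2, e1]
  exact mul_eq_right.1 this

theorem Lcomm (hS : S_Kcx) : S_Lcomm := by
  intro N g hg rs hrs G _ C hC r hr h hh
  obtain ⟨hK, -⟩ := hS N g hg
  have hTK : Th N ⊆ Kp N g := fun s hs => Or.inl hs
  obtain ⟨j, hj, hjr⟩ := List.getElem_of_mem hr
  have hget : rs.getD j [] = r := by rw [List.getD_eq_getElem rs [] hj]; exact hjr
  obtain ⟨hne, hletters⟩ := hrs r hr
  set D : ℕ × ℕ → ℕ × ℕ → G := fun x y => C (Sum.inl x) (Sum.inl y) with hDdef
  have hD : Coc (Pr (Kp N g) (Th rs.length)) D := by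
    intro t ht x hx y hy z hz
    exact hC (t.image Sum.inl) (Or.inl ⟨t, ht, rfl⟩) _ (Finset.mem_image_of_mem _ hx) _
      (Finset.mem_image_of_mem _ hy) _ (Finset.mem_image_of_mem _ hz)
  have hP := isCx_Pr hK (isCx_Th rs.length)
  set C0 : ℕ → ℕ → G := fun u v => C (Sum.inl (u, 0)) (Sum.inl (v, 0)) with hC0
  have hC0D : ∀ u v, C0 u v = D (u, 0) (v, 0) := fun _ _ => rfl
  set T : ℕ → G := fun u => D (u, 0) (u, 2 * j + 1) * D (u, 2 * j + 1) (u, 2 * j + 2) *
    D (u, 2 * j + 2) (u, 0) with hT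
  have e3' : ({2 * j + 2, 0} : Finset ℕ) ∈ Th rs.length := by
    rw [Finset.pair_comm]; exact th_e3 hj
  have comm : ∀ u v, ({u, v} : Finset ℕ) ∈ Kp N g → C0 u v * T v = T u * C0 u v := by
    intro u v huv
    have s1 := square hK (isCx_Th rs.length) hD huv (th_e1 hj)
    have s2 := square hK (isCx_Th rs.length) hD huv (th_e2 hj)
    have s3 := square hK (isCx_Th rs.length) hD huv e3'
    rw [hC0D]
    simp only [hT]
    calc D (u, 0) (v, 0) * (D (v, 0) (v, 2 * j + 1) * D (v, 2 * j + 1) (v, 2 * j + 2) *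
          D (v, 2 * j + 2) (v, 0))
        = (D (u, 0) (v, 0) * D (v, 0) (v, 2 * j + 1)) * D (v, 2 * j + 1) (v, 2 * j + 2) *
          D (v, 2 * j + 2) (v, 0) := by group
      _ = D (u, 0) (u, 2 * j + 1) * (D (u, 2 * j + 1) (v, 2 * j + 1) *
          D (v, 2 * j + 1) (v, 2 * j + 2)) * D (v, 2 * j + 2) (v, 0) := by rw [s1]; group
      _ = D (u, 0) (u, 2 * j + 1) * D (u, 2 * j + 1) (u, 2 * j + 2) *
          (D (u, 2 * j + 2) (v, 2 * j + 2) * D (v, 2 * j + 2) (v, 0)) := by rw [s2]; group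
      _ = _ := by rw [s3]; group
  have k1 : ({0, 2 * h + 1} : Finset ℕ) ∈ Kp N g := hTK (th_e1 hh)
  have k2 : ({2 * h + 1, 2 * h + 2} : Finset ℕ) ∈ Kp N g := hTK (th_e2 hh)
  have k3 : ({2 * h + 2, 0} : Finset ℕ) ∈ Kp N g := by
    rw [Finset.pair_comm]; exact hTK (th_e3 hh)
  have hcom : hl C0 h * T 0 = T 0 * hl C0 h := by
    unfold hl
    calc C0 0 (2 * h + 1) * C0 (2 * h + 1) (2 * h + 2) * C0 (2 * h + 2) 0 * T 0
        = C0 0 (2 * h + 1) * C0 (2 * h + 1) (2 * h + 2) * (C0 (2 * h + 2) 0 * T 0) := by group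
      _ = C0 0 (2 * h + 1) * (C0 (2 * h + 1) (2 * h + 2) * T (2 * h + 2)) *
          C0 (2 * h + 2) 0 := by rw [comm _ _ k3]; group
      _ = (C0 0 (2 * h + 1) * T (2 * h + 1)) * C0 (2 * h + 1) (2 * h + 2) *
          C0 (2 * h + 2) 0 := by rw [comm _ _ k2]; group
      _ = _ := by rw [comm _ _ k1]; group
  -- the gadget
  have hL : Coc (Gad (2 + 3 * r.length) (fun i => (Sum.inl (wk j r i) : UU))
      (fun i => Sum.inr (j, i)) (Sum.inr (j, 3 + 3 * r.length))) C := by
    intro s hs
    refine hC s (Or.inr ⟨j, hj, ?_⟩)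
    rw [hget]; exact hs
  have hw0 : wk j r 0 = (0, 0) := rfl
  have hw3 : ∀ i, wk j r (3 + i) = (wv r i, 0) := by
    intro i
    unfold wk
    rw [if_neg (by omega), if_neg (by omega), if_neg (by omega), show 3 + i - 3 = i by omega]
  have hprod := gad_prod hL (by
    show (Sum.inl (wk j r (2 + 3 * r.length + 1)) : UU) = Sum.inl (wk j r 0)
    rw [show 2 + 3 * r.length + 1 = 3 + 3 * r.length by ring, hw3, wv_zero, hw0])
  rw [show 2 + 3 * r.length + 1 = 3 + 3 * r.length by ring] at hprod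
  have inv0 : ∀ u v, ({u, v} : Finset ℕ) ∈ Kp N g → C0 v u = (C0 u v)⁻¹ := by
    intro u v huv
    exact coc_inv hP hD (pr_h huv (th0 _))
  rw [pr_walk (N := N) C0 (fun x hx => inv0 _ _ (hTK (th_e1 hx)))
    (fun x hx => inv0 _ _ (hTK (th_e2 hx)))
    (fun x hx => inv0 _ _ (by rw [Finset.pair_comm]; exact hTK (th_e3 hx))) r hletters _
    (fun i => by
      show C (Sum.inl (wk j r (3 + i))) (Sum.inl (wk j r (3 + i + 1))) = _
      rw [hw3, show 3 + i + 1 = 3 + (i + 1) by ring, hw3]) r.length le_rfl,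
    List.take_length] at hprod
  have hpr3 : pr (fun i => C (Sum.inl (wk j r i)) (Sum.inl (wk j r (i + 1)))) 3 = T 0 := by
    simp only [pr, one_mul]
    have : wk j r 3 = (0, 0) := by
      rw [show 3 = 3 + 0 from rfl, hw3, show (0 : ℕ) = 3 * 0 from rfl, wv_zero]
    show C (Sum.inl (wk j r 0)) (Sum.inl (wk j r 1)) * C (Sum.inl (wk j r 1)) (Sum.inl (wk j r 2))
      * C (Sum.inl (wk j r 2)) (Sum.inl (wk j r 3)) = _
    rw [this]
    rfl
  rw [hpr3] at hprod
  have hev : ev (hl C0) r = (T 0)⁻¹ := (inv_eq_of_mul_eq_one_right hprod).symm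
  have hc : Commute (hl C0 h) (T 0) := hcom
  rw [hev]
  exact hc.symm.inv_left

theorem wv_edge {r : List (ℕ × Bool)} {N : ℕ} (hr : ∀ x ∈ r, x.1 < N) (i : ℕ) :
    ({wv r i, wv r (i + 1)} : Finset ℕ) ∈ Th N := by
  have h00 : ({0, 0} : Finset ℕ) ∈ Th N := by
    rw [Finset.pair_eq_singleton]; exact th0 N
  obtain ⟨m, hm⟩ : ∃ m, i = 3 * m ∨ i = 3 * m + 1 ∨ i = 3 * m + 2 := ⟨i / 3, by omega⟩
  have e0 := wv_zero r m
  have e3 : wv r (3 * m + 2 + 1) = 0 := by
    rw [show 3 * m + 2 + 1 = 3 * (m + 1) by ring]; exact wv_zero _ _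
  cases h : r[m]? with
  | none =>
    have f1 : wv r (3 * m + 1) = 0 := by
      unfold wv
      rw [show (3 * m + 1) / 3 = m by omega, h]
    have f2 : wv r (3 * m + 2) = 0 := by
      unfold wv
      rw [show (3 * m + 2) / 3 = m by omega, h]
    rcases hm with rfl | rfl | rfl
    · rw [e0, f1]; exact h00
    · rw [f1, show 3 * m + 1 + 1 = 3 * m + 2 by ring, f2]; exact h00
    · rw [f2, e3]; exact h00
  | some y =>
    obtain ⟨x, b⟩ := y
    have hx : x < N := hr (x, b) (List.mem_of_getElem? h)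
    have f1 := wv_one r m x b h
    have f2 := wv_two r m x b h
    rcases hm with rfl | rfl | rfl
    · rw [e0, f1]
      split_ifs
      · exact th_e1 hx
      · exact th_e3 hx
    · rw [f1, show 3 * m + 1 + 1 = 3 * m + 2 by ring, f2]
      split_ifs
      · exact th_e2 hx
      · rw [Finset.pair_comm]; exact th_e2 hx
    · rw [f2, e3, Finset.pair_comm]
      split_ifs
      · exact th_e3 hx
      · exact th_e1 hx

theorem wk_edge {r : List (ℕ × Bool)} {N j : ℕ} (hr : ∀ x ∈ r, x.1 < N) (i : ℕ) :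
    ({(wk j r i).1, (wk j r (i + 1)).1} : Finset ℕ) ∈ Th N := by
  have h00 : ({0, 0} : Finset ℕ) ∈ Th N := by
    rw [Finset.pair_eq_singleton]; exact th0 N
  have hw3 : ∀ i, (wk j r (3 + i)).1 = wv r i := by
    intro i
    unfold wk
    rw [if_neg (by omega), if_neg (by omega), if_neg (by omega), show 3 + i - 3 = i by omega]
  have w0 : (wk j r 0).1 = 0 := rfl
  have w1 : (wk j r 1).1 = 0 := rfl
  have w2 : (wk j r 2).1 = 0 := rfl
  have w3 : (wk j r 3).1 = 0 := (hw3 0).trans (wv_zero r 0)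
  rcases lt_or_ge i 3 with hi | hi
  · interval_cases i
    · rw [w0, w1]; exact h00
    · rw [w1, w2]; exact h00
    · rw [w2, w3]; exact h00
  · obtain ⟨k, rfl⟩ := Nat.exists_eq_add_of_le hi
    rw [hw3, show 3 + k + 1 = 3 + (k + 1) by ring, hw3]
    exact wv_edge hr k

theorem coc3 {V G : Type} [Group G] [DecidableEq V] (C : V → V → G) (a b c : V) (x y z : G)
    (haa : C a a = 1) (hbb : C b b = 1) (hcc : C c c = 1) (hab : C a b = x * y⁻¹)
    (hba : C b a = y * x⁻¹) (hac : C a c = x * z⁻¹) (hca : C c a = z * x⁻¹)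
    (hbc : C b c = y * z⁻¹) (hcb : C c b = z * y⁻¹) (s : Finset V) (hs : s ⊆ {a, b, c}) :
    ∀ u ∈ s, ∀ v ∈ s, ∀ w ∈ s, C u v * C v w = C u w := by
  intro u hu v hv w hw
  have hu := hs hu
  have hv := hs hv
  have hw := hs hw
  simp only [Finset.mem_insert, Finset.mem_singleton] at hu hv hw
  rcases hu with rfl | rfl | rfl <;> rcases hv with rfl | rfl | rfl <;>
    rcases hw with rfl | rfl | rfl <;>
    simp only [haa, hbb, hcc, hab, hba, hac, hca, hbc, hcb] <;> group

theorem Lext (hS : S_Kcx) : S_Lext := by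
  classical
  intro N g hg rs hrs G _ C hC hev
  obtain ⟨hK, -⟩ := hS N g hg
  have hTK : Th N ⊆ Kp N g := fun s hs => Or.inl hs
  have hC00 : C 0 0 = 1 := coc_self hC (hTK (th0 N))
  set R : ℕ → List (ℕ × Bool) := fun j => rs.getD j [] with hR
  set W : ℕ → ℕ → G := fun j => pr (fun i => C (wk j (R j) i).1 (wk j (R j) (i + 1)).1) with hW
  set b : ℕ → ℕ → G := fun j i => (W j i)⁻¹ with hb
  set E : ℕ × ℕ → ℕ × ℕ → G := fun x y =>
    if x = wk y.1 (R y.1) y.2 then b y.1 y.2 else b y.1 (nx (2 + 3 * (R y.1).length) y.2) with hE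
  set C' : UU → UU → G := fun v w =>
    match v, w with
    | Sum.inl x, Sum.inl y => C x.1 y.1
    | Sum.inl x, Sum.inr y => E x y
    | Sum.inr y, Sum.inl x => (E x y)⁻¹
    | Sum.inr _, Sum.inr _ => 1 with hC'
  refine ⟨C', ?_, fun u v => rfl⟩
  rintro s (⟨t, ht, rfl⟩ | ⟨j, hj, hs⟩)
  · intro u hu v hv w hw
    rw [Finset.mem_image] at hu hv hw
    obtain ⟨x, hx, rfl⟩ := hu
    obtain ⟨y, hy, rfl⟩ := hv
    obtain ⟨z, hz, rfl⟩ := hw
    exact hC _ ht.1 _ (Finset.mem_image_of_mem _ hx) _ (Finset.mem_image_of_mem _ hy) _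
      (Finset.mem_image_of_mem _ hz)
  · have hRj : rs.getD j [] = R j := rfl
    rw [hRj] at hs
    have hrmem : R j ∈ rs := by
      rw [← hRj, List.getD_eq_getElem rs [] hj]
      exact List.getElem_mem hj
    obtain ⟨hne, hletters⟩ := hrs _ hrmem
    set r := R j with hr
    set l := 2 + 3 * r.length with hl'
    have hw3 : ∀ i, wk j r (3 + i) = (wv r i, 0) := by
      intro i
      unfold wk
      rw [if_neg (by omega), if_neg (by omega), if_neg (by omega), show 3 + i - 3 = i by omega]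
    -- closing up
    have hclose : W j (l + 1) = 1 := by
      have inv0 : ∀ u v, ({u, v} : Finset ℕ) ∈ Kp N g → C v u = (C u v)⁻¹ :=
        fun u v huv => coc_inv hK hC huv
      have e := pr_walk (N := N) C (fun x hx => inv0 _ _ (hTK (th_e1 hx)))
        (fun x hx => inv0 _ _ (hTK (th_e2 hx)))
        (fun x hx => inv0 _ _ (by rw [Finset.pair_comm]; exact hTK (th_e3 hx))) r hletters
        (fun i => C (wk j r i).1 (wk j r (i + 1)).1)
        (fun i => by
          show C (wk j r (3 + i)).1 (wk j r (3 + i + 1)).1 = _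
          rw [hw3, show 3 + i + 1 = 3 + (i + 1) by ring, hw3]) r.length le_rfl
      rw [List.take_length, hev r hrmem, mul_one] at e
      have hpr3 : pr (fun i => C (wk j r i).1 (wk j r (i + 1)).1) 3 = 1 := by
        simp only [pr, one_mul]
        have h3 : wk j r 3 = (0, 0) := by
          rw [show 3 = 3 + 0 from rfl, hw3, show (0 : ℕ) = 3 * 0 from rfl, wv_zero]
        show C (wk j r 0).1 (wk j r 1).1 * C (wk j r 1).1 (wk j r 2).1 *
          C (wk j r 2).1 (wk j r 3).1 = 1
        rw [h3]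
        show C 0 0 * C 0 0 * C 0 0 = 1
        rw [hC00]; simp
      rw [hpr3] at e
      have : l + 1 = 3 + 3 * r.length := by omega
      rw [this]
      exact e
    have hstep : ∀ i ≤ l, C (wk j r i).1 (wk j r (nx l i)).1 = b j i * (b j (nx l i))⁻¹ := by
      intro i hi
      have hsucc : W j (i + 1) = W j i * C (wk j r i).1 (wk j r (i + 1)).1 := rfl
      rcases hi.lt_or_eq with hlt | heq
      · rw [nx, if_pos hlt]
        simp only [hb, inv_inv]
        rw [hsucc]; group
      · have hp : wk j r (i + 1) = wk j r 0 := by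
          rw [show i + 1 = 3 + 3 * r.length by omega, hw3, wv_zero]; rfl
        have h0 : W j 0 = 1 := rfl
        have hnx : nx l i = 0 := by rw [nx, if_neg (by omega)]
        rw [hnx]
        simp only [hb, inv_inv]
        rw [h0, mul_one, ← hp]
        rw [heq] at hsucc ⊢
        rw [hclose] at hsucc
        exact eq_inv_of_mul_eq_one_right hsucc.symm
    obtain ⟨-, i, hi, hs⟩ := hs
    have hwK : ∀ i, ({(wk j r i).1} : Finset ℕ) ∈ Kp N g := by
      intro i
      have := (wk_mem (K := Kp N g) (p := rs.length) hTK hj hletters i).1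
      rwa [Finset.image_singleton] at this
    have hpp : ∀ i, C (wk j r i).1 (wk j r i).1 = 1 := fun i => coc_self hC (hwK i)
    have hst := hstep i hi
    set n := nx l i with hn
    have hbeq : wk j r n = wk j r i → b j n = b j i := by
      intro h
      rw [h, hpp] at hst
      exact (mul_inv_eq_one.1 hst.symm).symm
    -- the reverse step
    have hedge : ({(wk j r i).1, (wk j r n).1} : Finset ℕ) ∈ Kp N g := by
      have e := hTK (wk_edge (j := j) hletters i)
      rcases hi.lt_or_eq with hlt | heq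
      · rw [hn, nx, if_pos hlt]; exact e
      · have hp : wk j r (i + 1) = wk j r 0 := by
          rw [show i + 1 = 3 + 3 * r.length by omega, hw3, wv_zero]; rfl
        rw [hp] at e
        rw [hn, nx, if_neg (by omega)]; exact e
    have hst' : C (wk j r n).1 (wk j r i).1 = b j n * (b j i)⁻¹ := by
      rw [coc_inv hK hC hedge, hst]; group
    have E1 : E (wk j r i) (j, i) = b j i := by
      simp only [hE]
      rw [if_pos rfl]
    have E2 : E (wk j r n) (j, i) = b j n := by
      simp only [hE]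
      split_ifs with h
      · exact (hbeq h).symm
      · rfl
    have E3 : E (wk j r n) (j, n) = b j n := by
      simp only [hE]
      rw [if_pos rfl]
    rcases hs with hs | hs | hs
    · exact coc3 C' (Sum.inl (wk j r i)) (Sum.inl (wk j r n)) (Sum.inr (j, i)) (b j i) (b j n) 1
        (hpp i) (hpp n) rfl hst hst' (by rw [inv_one, mul_one]; exact E1)
        (by rw [one_mul]; exact congrArg (·⁻¹) E1) (by rw [inv_one, mul_one]; exact E2)
        (by rw [one_mul]; exact congrArg (·⁻¹) E2) s hs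
    · exact coc3 C' (Sum.inl (wk j r n)) (Sum.inr (j, i)) (Sum.inr (j, n)) (b j n) 1 1
        (hpp n) rfl rfl (by rw [inv_one, mul_one]; exact E2)
        (by rw [one_mul]; exact congrArg (·⁻¹) E2) (by rw [inv_one, mul_one]; exact E3)
        (by rw [one_mul]; exact congrArg (·⁻¹) E3) (by simp [hC']) (by simp [hC']) s hs
    · exact coc3 C' (Sum.inr (j, i)) (Sum.inr (j, n)) (Sum.inr (j, 3 + 3 * r.length)) 1 1 1
        rfl rfl rfl (by simp [hC']) (by simp [hC']) (by simp [hC']) (by simp [hC'])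
        (by simp [hC']) (by simp [hC']) s hs

theorem result (hS : S_Kcx) : S_Lcx ∧ S_Lcomm ∧ S_Lext := ⟨Lcx hS, Lcomm hS, Lext hS⟩


end Pool.Agent.TH515.J523
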