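import Pool.Agent.TH91.LG.Defs
import Pool.Agent.TH91.RF.Core
import Pool.Agent.TH73.J887
import Pool.Agent.TH444.J1003

/-!
# The unitriangular model of a nilpotent Lie group with a unipotent element (LG-2c)
-/

set_option autoImplicit false

namespace Pool.Agent.TH91.LG

open Topology Filter
open scoped ContDiff Manifold

namespace J1261

open Finset Pool.Agent.TH91.RF Pool.Agent.TH91.NB

/-! ### A general lemma: a functional relation which is a subgroup gives a homomorphism. -/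

theorem exists_hom {A B : Type*} [Group A] [Group B] (S : Subgroup (A × B))
    (hS : ∀ p ∈ S, ∀ q ∈ S, p.1 = q.1 → p.2 = q.2) :
    ∃ (H : Subgroup A) (φ : H →* B), (∀ a, a ∈ H ↔ ∃ b, (a, b) ∈ S) ∧
      ∀ (a : A) (ha : a ∈ H) (b : B), (a, b) ∈ S → φ ⟨a, ha⟩ = b := by
  classical
  let H : Subgroup A := S.map (MonoidHom.fst A B)
  have hH : ∀ a, a ∈ H ↔ ∃ b, (a, b) ∈ S := by
    intro a
    constructor
    · rintro ⟨⟨a', b⟩, hp, rfl⟩
      exact ⟨b, hp⟩
    · rintro ⟨b, hb⟩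
      exact ⟨(a, b), hb, rfl⟩
  have hex : ∀ a : H, ∃ b, ((a : A), b) ∈ S := fun a => (hH a).1 a.2
  choose f hf using hex
  refine ⟨H, { toFun := f, map_one' := ?_, map_mul' := ?_ }, hH, ?_⟩
  · exact hS _ (hf 1) 1 S.one_mem rfl
  · intro x y
    exact hS _ (hf (x * y)) _ (S.mul_mem (hf x) (hf y)) rfl
  · intro a ha b hb
    exact hS _ (hf ⟨a, ha⟩) _ hb rfl

/-! ### Units -/

section units

variable {N : ℕ}

/-- the exponential as a unit -/
noncomputable def ue (x : Matrix (Fin N) (Fin N) ℝ) (hx : x ∈ (J887.matFiltR N).F 1) :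
    (Matrix (Fin N) (Fin N) ℝ)ˣ :=
  ⟨IsNilpotent.exp x, IsNilpotent.exp (-x),
    IsNilpotent.exp_mul_exp_neg_self ((J887.matFiltR N).nilp hx),
    IsNilpotent.exp_neg_mul_exp_self ((J887.matFiltR N).nilp hx)⟩

theorem ue_val (x : Matrix (Fin N) (Fin N) ℝ) (hx : x ∈ (J887.matFiltR N).F 1) :
    (ue x hx : Matrix (Fin N) (Fin N) ℝ) = IsNilpotent.exp x := rfl

theorem ue_inv_val (x : Matrix (Fin N) (Fin N) ℝ) (hx : x ∈ (J887.matFiltR N).F 1) :
    (((ue x hx)⁻¹ : (Matrix (Fin N) (Fin N) ℝ)ˣ) : Matrix (Fin N) (Fin N) ℝ) =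
      IsNilpotent.exp (-x) := rfl

theorem smul_mem {x : Matrix (Fin N) (Fin N) ℝ} (hx : x ∈ (J887.matFiltR N).F 1) (t : ℝ) :
    t • x ∈ (J887.matFiltR N).F 1 := (J887.FR N 1).smul_mem t hx

theorem ue_zpow (x : Matrix (Fin N) (Fin N) ℝ) (hx : x ∈ (J887.matFiltR N).F 1) (k : ℤ) :
    (((ue x hx) ^ k : (Matrix (Fin N) (Fin N) ℝ)ˣ) : Matrix (Fin N) (Fin N) ℝ) =
      IsNilpotent.exp ((k : ℝ) • x) := by
  have key : ∀ k : ℤ, (ue x hx) ^ k = ue ((k : ℝ) • x) (smul_mem hx k) := by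
    have hadd : ∀ s t : ℝ, ue ((s + t) • x) (smul_mem hx (s + t)) =
        ue (s • x) (smul_mem hx s) * ue (t • x) (smul_mem hx t) := by
      intro s t
      apply Units.ext
      rw [Units.val_mul, ue_val, ue_val, ue_val, add_smul]
      exact IsNilpotent.exp_add_of_commute (((Commute.refl x).smul_left s).smul_right t)
        ((J887.matFiltR N).nilp (smul_mem hx s)) ((J887.matFiltR N).nilp (smul_mem hx t))
    have h0 : ue ((0 : ℝ) • x) (smul_mem hx 0) = 1 := by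
      apply Units.ext
      rw [ue_val, zero_smul, IsNilpotent.exp_zero, Units.val_one]
    let f : Multiplicative ℤ →* (Matrix (Fin N) (Fin N) ℝ)ˣ :=
      { toFun := fun k => ue (((Multiplicative.toAdd k : ℤ) : ℝ) • x) (smul_mem hx _)
        map_one' := by
          have : ((Multiplicative.toAdd (1 : Multiplicative ℤ) : ℤ) : ℝ) = 0 := by simp
          simp only [this]
          exact h0
        map_mul' := by
          intro a b
          have : ((Multiplicative.toAdd (a * b) : ℤ) : ℝ) =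
            ((Multiplicative.toAdd a : ℤ) : ℝ) + ((Multiplicative.toAdd b : ℤ) : ℝ) := by simp
          simp only [this]
          exact hadd _ _ }
    intro k
    have h1 : f (Multiplicative.ofAdd 1) = ue x hx := by
      apply Units.ext
      change IsNilpotent.exp (((1 : ℤ) : ℝ) • x) = _
      rw [Int.cast_one, one_smul, ue_val]
    have h2 : f (Multiplicative.ofAdd k) = (f (Multiplicative.ofAdd 1)) ^ k := by
      rw [← map_zpow, ← ofAdd_zsmul, smul_eq_mul, mul_one]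
    rw [← h1, ← h2]
    rfl
  rw [key, ue_val]

theorem tri_of_mem {x : Matrix (Fin N) (Fin N) ℝ} (hx : x - 1 ∈ (J887.matFiltR N).F 1) :
    (∀ i, x i i = 1) ∧ ∀ i j, j < i → x i j = 0 := by
  have h := J887.sup_iff.2 hx
  constructor
  · intro i
    have := h i i le_rfl
    rw [Matrix.sub_apply, Matrix.one_apply_eq, sub_eq_zero] at this
    exact this
  · intro i j hij
    have := h i j hij.le
    rw [Matrix.sub_apply, Matrix.one_apply_ne (ne_of_gt hij), sub_zero] at this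
    exact this

end units

/-! ### Conjugation -/

section conj

variable {E : Type*} [NormedAddCommGroup E] [NormedSpace ℝ E]
  {B : E →ₗ[ℝ] E →ₗ[ℝ] E} {D : Module.End ℝ E} {N : ℕ} (R : NilRepD B D N)

theorem rho_mem (X : E) : R.ρ X ∈ (J887.matFiltR N).F 1 := J887.sup_iff.1 (R.sup X)

theorem M_mem : R.M ∈ (J887.matFiltR N).F 1 := J887.sup_iff.1 R.supM

theorem adr_iter (X : E) (k : ℕ) : (adr (-R.M))^[k] (R.ρ X) = R.ρ ((D ^ k) X) := by
  induction k with
  | zero => simp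
  | succ k ih =>
    rw [Function.iterate_succ_apply', ih, pow_succ', Module.End.mul_apply, R.der]
    unfold adr
    noncomm_ring

theorem fexp_eq [FiniteDimensional ℝ E] (hD : IsNilpotent D) (X : E) :
    ∑ k ∈ range (N + 1), ((k.factorial : ℚ))⁻¹ • (adr (-R.M))^[k] (R.ρ X) = R.ρ (fexp D X) := by
  have e1 : ∀ k : ℕ, ((k.factorial : ℚ))⁻¹ • (adr (-R.M))^[k] (R.ρ X) =
      R.ρ (((k.factorial : ℝ))⁻¹ • (D ^ k) X) := by
    intro k
    rw [adr_iter, map_smul, ← Rat.cast_smul_eq_qsmul ℝ]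
    push_cast
    rfl
  have hDf : D ^ Module.finrank ℝ E = 0 := by
    have h1 := LinearMap.aeval_self_charpoly D
    rw [IsNilpotent.charpoly_eq_X_pow_finrank hD, map_pow, Polynomial.aeval_X] at h1
    exact h1
  have hz1 : ∀ k, N + 1 ≤ k → ((k.factorial : ℝ))⁻¹ • (D ^ k) X = 0 := by
    intro k hk
    apply R.inj
    rw [← e1, map_zero]
    have h1 := (J887.matFiltR N).adr_iter_mem (Submodule.neg_mem _ (M_mem R)) (rho_mem R X) k
    rw [(J887.matFiltR N).eq_zero_of_le (by omega) h1, smul_zero]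
  have hz2 : ∀ k, Module.finrank ℝ E + 1 ≤ k → ((k.factorial : ℝ))⁻¹ • (D ^ k) X = 0 := by
    intro k hk
    rw [pow_eq_zero_of_le (by omega) hDf]
    simp
  have e2 : fexp D X = ∑ k ∈ range (Module.finrank ℝ E + 1),
      ((k.factorial : ℝ))⁻¹ • (D ^ k) X := by
    unfold fexp
    rw [LinearMap.sum_apply]
    rfl
  rw [sum_congr rfl fun k _ => e1 k, ← map_sum, e2]
  congr 1
  have h1 : ∑ k ∈ range (N + 1), ((k.factorial : ℝ))⁻¹ • (D ^ k) X =
      ∑ k ∈ range (N + 1 + (Module.finrank ℝ E + 1)), ((k.factorial : ℝ))⁻¹ • (D ^ k) X := by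
    refine sum_subset (range_mono (by omega)) fun k _ hk => hz1 k ?_
    simpa using hk
  have h2 : ∑ k ∈ range (Module.finrank ℝ E + 1), ((k.factorial : ℝ))⁻¹ • (D ^ k) X =
      ∑ k ∈ range (N + 1 + (Module.finrank ℝ E + 1)), ((k.factorial : ℝ))⁻¹ • (D ^ k) X := by
    refine sum_subset (range_mono (by omega)) fun k _ hk => hz2 k ?_
    simpa using hk
  rw [h1, h2]

theorem conj_exp [FiniteDimensional ℝ E] (hD : IsNilpotent D) (X : E) :
    ue R.M (M_mem R) * ue (R.ρ X) (rho_mem R X) * (ue R.M (M_mem R))⁻¹ =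
      ue (R.ρ (fexp D X)) (rho_mem R _) := by
  apply Units.ext
  rw [Units.val_mul, Units.val_mul, ue_val, ue_val, ue_val, ue_inv_val,
    (J887.matFiltR N).lieLat.exp_conj_eq (M_mem R) (rho_mem R X), fexp_eq R hD]

/-- the Lie algebra spanned by the image and `M` -/
def TT : AddSubgroup (Matrix (Fin N) (Fin N) ℝ) where
  carrier := {x | ∃ (a : E) (s : ℝ), x = R.ρ a + s • R.M}
  add_mem' := by
    rintro x y ⟨a, s, rfl⟩ ⟨b, t, rfl⟩
    refine ⟨a + b, s + t, ?_⟩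
    rw [map_add, add_smul]
    abel
  zero_mem' := ⟨0, 0, by simp⟩
  neg_mem' := by
    rintro x ⟨a, s, rfl⟩
    refine ⟨-a, -s, ?_⟩
    rw [map_neg, neg_smul]
    abel

theorem TT_br {x y : Matrix (Fin N) (Fin N) ℝ} (hx : x ∈ TT R) (hy : y ∈ TT R) :
    ∃ a : E, (bigM N : ℚ)⁻¹ • (x * y - y * x) = R.ρ a := by
  obtain ⟨a, s, rfl⟩ := hx
  obtain ⟨b, t, rfl⟩ := hy
  have h : (R.ρ a + s • R.M) * (R.ρ b + t • R.M) - (R.ρ b + t • R.M) * (R.ρ a + s • R.M) =
      R.ρ (B a b + s • D b - t • D a) := by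
    rw [map_sub, map_add, map_smul, map_smul, R.br, R.der, R.der]
    simp only [add_mul, mul_add, smul_mul_assoc, mul_smul_comm, smul_sub, smul_add, smul_smul,
      mul_comm s t]
    abel
  rw [h, ← Rat.cast_smul_eq_qsmul ℝ]
  exact ⟨_, (map_smul _ _ _).symm⟩

theorem TT_lat : LieLat (J887.matFiltR N) (TT R) := by
  constructor
  · rintro x ⟨a, s, rfl⟩
    exact Submodule.add_mem _ (rho_mem R a) (smul_mem (M_mem R) s)
  · intro u hu v hv
    obtain ⟨a, ha⟩ := TT_br R hu hv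
    rw [ha]
    exact ⟨a, 0, by simp⟩

theorem TT_idl : LieIdl N (TT R) (LinearMap.range R.ρ).toAddSubgroup := by
  have h1 : (LinearMap.range R.ρ).toAddSubgroup ≤ TT R := by
    rintro x ⟨a, rfl⟩
    exact ⟨a, 0, by simp⟩
  refine ⟨h1, fun u hu v hv => ?_⟩
  obtain ⟨a, ha⟩ := TT_br R hu (h1 hv)
  rw [ha]
  exact ⟨a, rfl⟩

theorem exp_mul_form (X : E) (t : ℝ) : ∃ X' : E,
    IsNilpotent.exp (R.ρ X) * IsNilpotent.exp (t • R.M) =
      IsNilpotent.exp (R.ρ X' + t • R.M) := by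
  have hx : R.ρ X ∈ TT R := ⟨X, 0, by simp⟩
  have hy : t • R.M ∈ TT R := ⟨0, t, by simp⟩
  obtain ⟨j, ⟨a, rfl⟩, h⟩ := (TT_lat R).exp_mul_add (TT_idl R) hx hy (by
    obtain ⟨a, ha⟩ := TT_br R hx hy
    rw [ha]
    exact ⟨a, rfl⟩)
  refine ⟨X + a, ?_⟩
  rw [h, map_add]
  congr 1
  abel

end conj

end J1261

open J1261 Pool.Agent.TH91.RF Pool.Agent.TH91.NB in
theorem model_of_facts {G : Type*} [Group G] [TopologicalSpace G] [IsTopologicalGroup G]
    {E : Type*} [NormedAddCommGroup E] [NormedSpace ℝ E] [FiniteDimensional ℝ E] (L : LieStr G E)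
    (g : G)
    (hconj : ∀ (g : G) (X : E) (t : ℝ), g * L.c X t * g⁻¹ = L.c (L.Ad g X) t)
    (hsmul : ∀ (a : ℝ) (X : E) (t : ℝ), L.c (a • X) t = L.c X (a * t))
    (D : Module.End ℝ E) (hDn : IsNilpotent D) (hD : fexp D = L.Ad g)
    {N : ℕ} (R : NilRepD L.ad D N)
    (hcl : ∀ X Y : E, ∃ Z : E, IsNilpotent.exp (R.ρ X) * IsNilpotent.exp (R.ρ Y) =
      IsNilpotent.exp (R.ρ Z))
    (hhom : ∀ X Y Z : E, IsNilpotent.exp (R.ρ X) * IsNilpotent.exp (R.ρ Y) =
      IsNilpotent.exp (R.ρ Z) → L.c X 1 * L.c Y 1 = L.c Z 1)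
    (hcont : Continuous (fun X => L.c X 1)) :
    ∃ (H : Subgroup (Matrix (Fin N) (Fin N) ℝ)ˣ) (φ : H →* G),
      (∀ h ∈ H, (∀ i, (h : Matrix (Fin N) (Fin N) ℝ) i i = 1) ∧
        ∀ i j, j < i → (h : Matrix (Fin N) (Fin N) ℝ) i j = 0) ∧
      Continuous φ ∧ IsOpenMap φ ∧ g ∈ Set.range φ := by
  classical
  set Φ := J887.matFiltR N with hΦ
  set m : (Matrix (Fin N) (Fin N) ℝ)ˣ := ue R.M (M_mem R) with hm
  set e : E → (Matrix (Fin N) (Fin N) ℝ)ˣ := fun X => ue (R.ρ X) (rho_mem R X) with he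
  have he_val : ∀ X, (e X : Matrix (Fin N) (Fin N) ℝ) = IsNilpotent.exp (R.ρ X) := fun X => rfl
  have he_inv : ∀ X, (e X)⁻¹ = e (-X) := by
    intro X
    apply Units.ext
    rw [he_val, map_neg]
    rfl
  have he0 : e 0 = 1 := by
    apply Units.ext
    rw [he_val, map_zero, IsNilpotent.exp_zero, Units.val_one]
  have he_mul : ∀ X Y, ∃ Z, e X * e Y = e Z ∧ L.c X 1 * L.c Y 1 = L.c Z 1 := by
    intro X Y
    obtain ⟨Z, hZ⟩ := hcl X Y
    refine ⟨Z, Units.ext ?_, hhom X Y Z hZ⟩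
    rw [Units.val_mul, he_val, he_val, he_val, hZ]
  have he_inj : ∀ X Y, e X = e Y → X = Y := by
    intro X Y h
    apply R.inj
    refine Φ.exp_inj (rho_mem R X) (rho_mem R Y) ?_
    rw [← he_val, ← he_val, h]
  -- one-parameter subgroups
  have hc0 : ∀ X, L.c X 0 = 1 := by
    intro X
    have h := L.c_add X 0 0
    rw [add_zero] at h
    exact left_eq_mul.1 h
  have hc1 : L.c 0 1 = 1 := by
    have h := hsmul 0 0 1
    rw [zero_smul, zero_mul, hc0] at h
    exact h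
  have hcneg : ∀ X, (L.c X 1)⁻¹ = L.c (-X) 1 := by
    intro X
    have h := hsmul (-1) X 1
    rw [neg_smul, one_smul, mul_one] at h
    rw [h, inv_eq_iff_mul_eq_one, ← L.c_add]
    simp [hc0]
  have hAd : ∀ Y, L.Ad g (L.Ad g⁻¹ Y) = Y := by
    intro Y
    have h1 : L.c (L.Ad g (L.Ad g⁻¹ Y)) = L.c Y := by
      funext t
      rw [← hconj, ← hconj]
      group
    have h2 := L.c_T (L.Ad g (L.Ad g⁻¹ Y))
    rw [h1] at h2
    exact L.T_unique h2 (L.c_T Y)
  -- the conjugation property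
  let P : (Matrix (Fin N) (Fin N) ℝ)ˣ × G → Prop := fun p =>
    ∀ Y, ∃ Y', p.1 * e Y * p.1⁻¹ = e Y' ∧ p.2 * L.c Y 1 * p.2⁻¹ = L.c Y' 1
  have hP_mul : ∀ p q, P p → P q → P (p * q) := by
    intro p q hp hq Y
    obtain ⟨Y', h1, h2⟩ := hq Y
    obtain ⟨Y'', h3, h4⟩ := hp Y'
    refine ⟨Y'', ?_, ?_⟩
    · rw [← h3, ← h1, Prod.fst_mul]
      group
    · rw [← h4, ← h2, Prod.snd_mul]
      group
  have hP1 : P (m, g) := by
    intro Y
    refine ⟨L.Ad g Y, ?_, hconj g Y 1⟩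
    rw [← hD]
    exact conj_exp R hDn Y
  have hP2 : P (m, g)⁻¹ := by
    intro Y
    obtain ⟨Y', h1, h2⟩ := hP1 (L.Ad g⁻¹ Y)
    have h3 : Y' = Y := by
      have h4 : m * e (L.Ad g⁻¹ Y) * m⁻¹ = e (L.Ad g (L.Ad g⁻¹ Y)) := by
        rw [← hD]
        exact conj_exp R hDn _
      rw [hAd] at h4
      exact he_inj _ _ (h1.symm.trans h4)
    rw [h3] at h1 h2
    refine ⟨L.Ad g⁻¹ Y, ?_, ?_⟩
    · rw [← h1]
      change m⁻¹ * (m * e (L.Ad g⁻¹ Y) * m⁻¹) * m⁻¹⁻¹ = _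
      group
    · rw [← h2]
      change g⁻¹ * (g * L.c (L.Ad g⁻¹ Y) 1 * g⁻¹) * g⁻¹⁻¹ = _
      group
  have hP1' : P 1 := by
    intro Y
    exact ⟨Y, by simp, by simp⟩
  have hPz : ∀ k : ℤ, P ((m, g) ^ k) := by
    let Q : Subgroup ((Matrix (Fin N) (Fin N) ℝ)ˣ × G) :=
      { carrier := {p | P p ∧ P p⁻¹}
        one_mem' := ⟨hP1', by rw [inv_one]; exact hP1'⟩
        mul_mem' := by
          rintro a b ⟨ha, ha'⟩ ⟨hb, hb'⟩
          refine ⟨hP_mul _ _ ha hb, ?_⟩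
          rw [mul_inv_rev]
          exact hP_mul _ _ hb' ha'
        inv_mem' := by
          rintro a ⟨ha, ha'⟩
          exact ⟨ha', by rw [inv_inv]; exact ha⟩ }
    have hQ : (m, g) ∈ Q := ⟨hP1, hP2⟩
    intro k
    exact (Q.zpow_mem hQ k).1
  have hPz' : ∀ (k : ℤ) (Y : E), ∃ Y', m ^ k * e Y * (m ^ k)⁻¹ = e Y' ∧
      g ^ k * L.c Y 1 * (g ^ k)⁻¹ = L.c Y' 1 := fun k Y => hPz k Y
  -- the graph
  let S : Subgroup ((Matrix (Fin N) (Fin N) ℝ)ˣ × G) :=
    { carrier := {p | ∃ (X : E) (k : ℤ), p = (e X * m ^ k, L.c X 1 * g ^ k)}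
      one_mem' := ⟨0, 0, by rw [he0, hc1, zpow_zero, zpow_zero, one_mul, one_mul]; rfl⟩
      mul_mem' := by
        rintro a b ⟨X, k, rfl⟩ ⟨Y, l, rfl⟩
        obtain ⟨Y', h1, h2⟩ := hPz' k Y
        obtain ⟨Z, h3, h4⟩ := he_mul X Y'
        refine ⟨Z, k + l, ?_⟩
        rw [← h3, ← h4, ← h1, ← h2, zpow_add, zpow_add, Prod.mk_mul_mk]
        congr 1 <;> group
      inv_mem' := by
        rintro a ⟨X, k, rfl⟩
        obtain ⟨Y', h1, h2⟩ := hPz' (-k) (-X)
        refine ⟨Y', -k, ?_⟩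
        rw [← h1, ← h2, Prod.inv_mk, mul_inv_rev, mul_inv_rev, he_inv, hcneg, zpow_neg, zpow_neg]
        congr 1 <;> group }
  have hval : ∀ (X : E) (k : ℤ), ((e X * m ^ k : (Matrix (Fin N) (Fin N) ℝ)ˣ) :
      Matrix (Fin N) (Fin N) ℝ) = IsNilpotent.exp (R.ρ X) * IsNilpotent.exp ((k : ℝ) • R.M) := by
    intro X k
    rw [Units.val_mul, he_val, hm, ue_zpow]
  have hform : ∀ (X : E) (k : ℤ), ∃ X', ((e X * m ^ k : (Matrix (Fin N) (Fin N) ℝ)ˣ) :
      Matrix (Fin N) (Fin N) ℝ) = IsNilpotent.exp (R.ρ X' + (k : ℝ) • R.M) := by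
    intro X k
    rw [hval]
    exact exp_mul_form R X k
  have hmemF : ∀ (X : E) (t : ℝ), R.ρ X + t • R.M ∈ Φ.F 1 := fun X t =>
    Submodule.add_mem _ (rho_mem R X) (smul_mem (M_mem R) t)
  have huniq : ∀ (X Y : E) (k l : ℤ), e X * m ^ k = e Y * m ^ l → X = Y ∧ k = l := by
    intro X Y k l h
    obtain ⟨X', hX'⟩ := hform X k
    obtain ⟨Y', hY'⟩ := hform Y l
    rw [h, hY'] at hX'
    have h1 := Φ.exp_inj (hmemF _ _) (hmemF _ _) hX'
    have h2 : R.ρ (Y' - X') = ((k : ℝ) - l) • R.M := by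
      rw [map_sub, sub_smul, sub_eq_sub_iff_add_eq_add, h1, add_comm]
    have h3 := R.indep _ _ h2
    have h4 : k = l := by
      rw [sub_eq_zero] at h3
      exact_mod_cast h3
    subst h4
    exact ⟨he_inj _ _ (mul_right_cancel h), rfl⟩
  obtain ⟨H, φ, hH, hφ⟩ := exists_hom S (by
    rintro p ⟨X, k, rfl⟩ q ⟨Y, l, rfl⟩ h
    obtain ⟨rfl, rfl⟩ := huniq X Y k l h
    rfl)
  have hmemH : ∀ (X : E) (k : ℤ), e X * m ^ k ∈ H := fun X k => (hH _).2 ⟨_, X, k, rfl⟩
  have hformH : ∀ h : H, ∃ (X : E) (k : ℤ), (h : (Matrix (Fin N) (Fin N) ℝ)ˣ) = e X * m ^ k ∧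
      φ h = L.c X 1 * g ^ k := by
    rintro ⟨h, hh⟩
    obtain ⟨b, X, k, hb⟩ := (hH _).1 hh
    rw [Prod.mk.injEq] at hb
    refine ⟨X, k, hb.1, ?_⟩
    exact hφ h hh _ ⟨X, k, by rw [hb.1]⟩
  have hφe : ∀ (X : E) (hX : e X ∈ H), φ ⟨e X, hX⟩ = L.c X 1 := by
    intro X hX
    exact hφ _ _ _ ⟨X, 0, by simp⟩
  have htri : ∀ h ∈ H, (∀ i, (h : Matrix (Fin N) (Fin N) ℝ) i i = 1) ∧
        ∀ i j, j < i → (h : Matrix (Fin N) (Fin N) ℝ) i j = 0 := by
    intro h hh
    obtain ⟨X, k, h1, -⟩ := hformH ⟨h, hh⟩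
    have h2 : h = e X * m ^ k := h1
    apply tri_of_mem
    rw [h2, hval]
    exact Φ.one_add_mul_mem (Φ.exp_sub_one_mem (rho_mem R X))
      (Φ.exp_sub_one_mem (smul_mem (M_mem R) _))
  have hind := TH444.NB.inducing_val H htri
  -- the logarithm
  let lg : H → Matrix (Fin N) (Fin N) ℝ := fun h =>
    J887.Lg N N ((h : (Matrix (Fin N) (Fin N) ℝ)ˣ) : Matrix (Fin N) (Fin N) ℝ)
  have hlg : Continuous lg := (J887.Lg_continuous N).comp hind.continuous
  have hlg1 : lg 1 = 0 := by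
    have h1 : lg 1 = J887.Lg N N (IsNilpotent.exp 0) := by
      rw [IsNilpotent.exp_zero]
      rfl
    rw [h1, J887.Lg_exp (Submodule.zero_mem _)]
  -- a functional
  have hMn : R.M ∉ LinearMap.range R.ρ := by
    rintro ⟨x, hx⟩
    have := R.indep x 1 (by rw [one_smul]; exact hx)
    exact one_ne_zero this
  obtain ⟨χ, hχM, hχ⟩ := Submodule.exists_le_ker_of_notMem hMn
  have hχ0 : ∀ x, χ (R.ρ x) = 0 := fun x => hχ ⟨x, rfl⟩
  have hχc : Continuous χ := LinearMap.continuous_of_finiteDimensional χ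
  obtain ⟨σ, hσ⟩ := R.ρ.exists_leftInverse_of_injective (LinearMap.ker_eq_bot.2 R.inj)
  have hσ' : ∀ x, σ (R.ρ x) = x := fun x => by
    rw [← LinearMap.comp_apply, hσ, LinearMap.id_apply]
  have hσc : Continuous σ := LinearMap.continuous_of_finiteDimensional σ
  have hφcont : Continuous φ := by
    apply continuous_of_continuousAt_one
    have h1 : ContinuousAt (fun h : H => L.c (σ (lg h)) 1) 1 :=
      (hcont.comp (hσc.comp hlg)).continuousAt
    refine h1.congr ?_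
    have h2 : ∀ᶠ h in 𝓝 (1 : H), |χ (lg h)| < |χ R.M| := by
      have h3 : Continuous fun h : H => |χ (lg h)| := (hχc.comp hlg).abs
      have h4 : |χ (lg 1)| < |χ R.M| := by
        rw [hlg1, map_zero, abs_zero]
        exact abs_pos.2 hχM
      exact h3.continuousAt.eventually_lt continuousAt_const h4
    filter_upwards [h2] with h hh
    obtain ⟨X, k, hX, hφX⟩ := hformH h
    obtain ⟨X', hX'⟩ := hform X k
    have h5 : lg h = R.ρ X' + (k : ℝ) • R.M := by
      change J887.Lg N N _ = _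
      rw [hX, hX', J887.Lg_exp (hmemF _ _)]
    rw [h5, map_add, hχ0, zero_add, map_smul, smul_eq_mul, abs_mul] at hh
    have h6 : |(k : ℝ)| < 1 := by
      by_contra hcon
      push Not at hcon
      have := mul_le_mul_of_nonneg_right hcon (abs_nonneg (χ R.M))
      linarith
    have h7 : k = 0 := by
      have : |k| < 1 := by exact_mod_cast h6
      exact Int.abs_lt_one_iff.1 this
    subst h7
    rw [zpow_zero, mul_one] at hφX hX
    have h8 : lg h = R.ρ X := by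
      change J887.Lg N N _ = _
      rw [hX, he_val, J887.Lg_exp (rho_mem R X)]
    rw [h8, hσ', hφX]
  -- the curves
  have heH : ∀ X, e X ∈ H := fun X => by simpa using hmemH X 0
  let eH : E → H := fun X => ⟨e X, heH X⟩
  have hρc : Continuous R.ρ := LinearMap.continuous_of_finiteDimensional R.ρ
  have heHc : Continuous eH := by
    rw [hind.continuous_iff]
    have h1 : ((fun k : H => ((k : (Matrix (Fin N) (Fin N) ℝ)ˣ) : Matrix (Fin N) (Fin N) ℝ)) ∘ eH)
        = fun X => J887.Ex N (R.ρ X) := by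
      funext X
      change IsNilpotent.exp (R.ρ X) = _
      rw [Φ.exp_eq (rho_mem R X)]
      rfl
    rw [h1]
    exact J887.Ex_continuous.comp hρc
  have hφeH : ∀ X, φ (eH X) = L.c X 1 := fun X => hφe X _
  have heH0 : eH 0 = 1 := Subtype.ext he0
  have hφopen : IsOpenMap φ := by
    rw [IsTopologicalGroup.isOpenMap_iff_nhds_one]
    intro s hs
    rw [mem_map] at hs
    let b := Module.finBasis ℝ E
    let F : (Fin (Module.finrank ℝ E) → ℝ) → H := fun t => (List.ofFn fun i => eH (t i • b i)).prod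
    have hF : Continuous F := by
      have h1 : F = fun t => ((List.finRange (Module.finrank ℝ E)).map
          (fun i => eH (t i • b i))).prod := by
        funext t
        change (List.ofFn fun i => eH (t i • b i)).prod = _
        rw [List.ofFn_eq_map]
      rw [h1]
      exact continuous_list_prod _ fun i _ =>
        heHc.comp ((continuous_apply i).smul continuous_const)
    have hF0 : F 0 = 1 := by
      change (List.ofFn fun i => eH ((0 : Fin (Module.finrank ℝ E) → ℝ) i • b i)).prod = 1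
      apply List.prod_eq_one
      intro x hx
      rw [List.mem_ofFn] at hx
      obtain ⟨i, rfl⟩ := hx
      rw [Pi.zero_apply, zero_smul, heH0]
    have h2 : F ⁻¹' (φ ⁻¹' s) ∈ 𝓝 (0 : Fin (Module.finrank ℝ E) → ℝ) := by
      apply hF.continuousAt
      rw [hF0]
      exact hs
    obtain ⟨δ, hδ, hball⟩ := Metric.mem_nhds_iff.1 h2
    refine mem_of_superset (L.open_prod (fun i => b i) b.span_eq δ hδ) ?_
    rintro _ ⟨t, ht, rfl⟩
    have h3 : t ∈ Metric.ball (0 : Fin (Module.finrank ℝ E) → ℝ) δ := by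
      rw [Metric.mem_ball, dist_pi_lt_iff hδ]
      intro i
      rw [Pi.zero_apply, Real.dist_eq, sub_zero]
      exact ht i
    have h4 : φ (F t) ∈ s := hball h3
    have h5 : φ (F t) = (List.ofFn fun i => L.c (b i) (t i)).prod := by
      change φ (List.ofFn fun i => eH (t i • b i)).prod = _
      rw [map_list_prod, List.map_ofFn]
      congr 1
      congr 1
      funext i
      rw [Function.comp_apply, hφeH, hsmul, mul_one]
    rw [← h5]
    exact h4
  refine ⟨H, φ, htri, hφcont, hφopen, ⟨⟨e 0 * m ^ (1 : ℤ), hmemH 0 1⟩, ?_⟩⟩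
  rw [hφ _ _ (L.c 0 1 * g ^ (1 : ℤ)) ⟨0, 1, rfl⟩, hc1, one_mul, zpow_one]

end Pool.Agent.TH91.LG
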