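import Mathlib
import Pool.Agent.H438R2.RZ.P1
import Pool.Agent.H438R2.RZ.P5
import Pool.Agent.TH278.Defs
set_option autoImplicit false

namespace Pool.Agent.TH278

open MeasureTheory Set Complex
open scoped ENNReal RealInnerProductSpace
open Pool.Agent.H438R2.RZ (e Good ft Pl Bump mA mC Arc Win sl SL Bk gA TR)
open Pool.Agent.H789R2.FR (E)

namespace J631aux

/-- dilated function -/
noncomputable def dil (r : ℝ) (g : ℝ × ℝ → ℂ) (w : ℝ × ℝ) : ℂ := g (w.1 / r, w.2 / r)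

theorem dil_good {r : ℝ} (hr : 0 < r) {g : ℝ × ℝ → ℂ} (hg : Good g) : Good (dil r g) := by
  obtain ⟨hm, ⟨M, hM⟩, ⟨B, hB⟩⟩ := hg
  refine ⟨?_, ⟨M, fun z => hM _⟩, ⟨B * r, fun z hz => ?_⟩⟩
  · unfold dil
    exact hm.comp (by fun_prop)
  · have h := hB _ hz
    simp only [abs_div, abs_of_pos hr, div_le_iff₀ hr] at h
    exact h

theorem int_smul {r : ℝ} (hr : 0 < r) (f : ℝ × ℝ → ℂ) :
    ∫ z : ℝ × ℝ, f z = ((r ^ 2 : ℝ) : ℂ) * ∫ z : ℝ × ℝ, f (r * z.1, r * z.2) := by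
  have h := Measure.integral_comp_smul (volume : Measure (ℝ × ℝ)) f r
  have hf : Module.finrank ℝ (ℝ × ℝ) = 2 := by simp
  rw [hf, abs_of_pos (by positivity)] at h
  have h2 : (fun z : ℝ × ℝ => f (r • z)) = fun z : ℝ × ℝ => f (r * z.1, r * z.2) := rfl
  rw [show (∫ z : ℝ × ℝ, f (r * z.1, r * z.2)) = ∫ z : ℝ × ℝ, f (r • z) from rfl, h,
    Complex.real_smul, ← mul_assoc, ← Complex.ofReal_mul, mul_inv_cancel₀ (by positivity),
    Complex.ofReal_one, one_mul]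

theorem lint_smul {r : ℝ} (hr : 0 < r) (f : ℝ × ℝ → ℝ≥0∞) :
    ∫⁻ z : ℝ × ℝ, f z = ENNReal.ofReal (r ^ 2) * ∫⁻ z : ℝ × ℝ, f (r * z.1, r * z.2) := by
  have hf : Module.finrank ℝ (ℝ × ℝ) = 2 := by simp
  have hmap := Measure.map_addHaar_smul (volume : Measure (ℝ × ℝ)) hr.ne'
  rw [hf, abs_of_pos (by positivity)] at hmap
  have he : MeasurableEmbedding (fun z : ℝ × ℝ => r • z) :=
    (Homeomorph.smulOfNeZero r hr.ne').measurableEmbedding
  have h1 : ∫⁻ z : ℝ × ℝ, f (r * z.1, r * z.2) =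
      ∫⁻ z, f z ∂(Measure.map (fun z : ℝ × ℝ => r • z) volume) := (he.lintegral_map f).symm
  rw [h1, show Measure.map (fun z : ℝ × ℝ => r • z) volume =
    ENNReal.ofReal (r ^ 2)⁻¹ • (volume : Measure (ℝ × ℝ)) from hmap, lintegral_smul_measure,
    smul_eq_mul, ← mul_assoc, ← ENNReal.ofReal_mul (by positivity),
    mul_inv_cancel₀ (by positivity), ENNReal.ofReal_one, one_mul]

theorem aff1 (h : ℝ → ℂ) (c : ℝ) (hc : 0 < c) : ∫ y, h y = (c : ℂ) * ∫ y, h (c * y) := by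
  rw [Measure.integral_comp_mul_left h c, abs_of_pos (inv_pos.mpr hc), Complex.real_smul,
    ← mul_assoc, ← Complex.ofReal_mul, mul_inv_cancel₀ hc.ne', Complex.ofReal_one, one_mul]

theorem ft_dil {r : ℝ} (hr : 0 < r) (g : ℝ × ℝ → ℂ) (ξ : ℝ × ℝ) :
    ft (dil r g) ξ = ((r ^ 2 : ℝ) : ℂ) * ft g (r * ξ.1, r * ξ.2) := by
  unfold ft
  rw [int_smul hr]
  congr 1
  refine integral_congr_ae (Filter.Eventually.of_forall fun z => ?_)
  simp only [dil]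
  rw [mul_div_cancel_left₀ _ hr.ne', mul_div_cancel_left₀ _ hr.ne']
  congr 2
  ring

theorem Pl_dil {r : ℝ} (hr : 0 < r) (m : ℝ × ℝ → ℂ) (g : ℝ × ℝ → ℂ) (z : ℝ × ℝ) :
    Pl (fun ξ => m (ξ.1 / r, ξ.2 / r)) g z = Pl m (dil r g) (r * z.1, r * z.2) := by
  unfold Pl
  rw [int_smul hr, ← integral_const_mul]
  refine integral_congr_ae (Filter.Eventually.of_forall fun ξ => ?_)
  simp only []
  rw [mul_div_cancel_left₀ _ hr.ne', mul_div_cancel_left₀ _ hr.ne', ft_dil hr]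
  have h : e (z.1 * (r * ξ.1) + z.2 * (r * ξ.2)) = e (r * z.1 * ξ.1 + r * z.2 * ξ.2) := by
    congr 1
    ring
  rw [h]
  ring

theorem gA_dil {r : ℝ} (hr : 0 < r) (θ : ℝ → ℝ) (L : ℝ) (hL : 0 < L) (a : ℤ)
    (g : ℝ × ℝ → ℂ) (z : ℝ × ℝ) :
    gA θ (L * r) a (dil r g) (r * z.1, r * z.2) = gA θ L a g z := by
  unfold gA
  rw [aff1 _ r hr, ← integral_const_mul]
  refine integral_congr_ae (Filter.Eventually.of_forall fun x => ?_)
  simp only [dil]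
  have e1 : (r * x) / (L * r) = x / L := by
    field_simp
  have e2 : (a : ℝ) * (r * x) / (L * r) = (a : ℝ) * x / L := by
    field_simp
  have e3 : (r * z.1 - (r * x)) / r = z.1 - x := by
    field_simp
  have e4 : r * z.2 / r = z.2 := by
    field_simp
  rw [e1, e2, e3, e4]
  have e5 : ((1 / L : ℝ) : ℂ) = (r : ℂ) * ((1 / (L * r) : ℝ) : ℂ) := by
    rw [← Complex.ofReal_mul]
    congr 1
    field_simp
  rw [e5]
  ring

theorem Bk_dil {r : ℝ} (hr : 1 / 2 ≤ r) (hr1 : r ≤ 1) {L : ℝ} (hL : 0 < L) (γ : ℝ) (v : ℝ × ℝ) :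
    r ^ 2 * Bk (L * r) γ (r * v.1, r * v.2) ≤ 2 * Bk L γ v := by
  have hr0 : 0 < r := by linarith
  unfold Bk
  have e1 : (r * v.1 + γ * (r * v.2)) / (L * r) = (v.1 + γ * v.2) / L := by
    field_simp
  have e2 : r * v.2 / (L * r) ^ 2 = v.2 / L ^ 2 / r := by
    field_simp
  simp only [e1, e2]
  set A : ℝ := 1 + ((v.1 + γ * v.2) / L) ^ 2 with hA
  have hA0 : 0 < A := by positivity
  set t : ℝ := v.2 / L ^ 2 with ht
  have h1 : 1 + t ^ 2 ≤ 1 + (t / r) ^ 2 := by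
    have : t ^ 2 ≤ (t / r) ^ 2 := by
      rw [div_pow t r]
      rw [le_div_iff₀ (by positivity)]
      have h2 : r ^ 2 ≤ 1 := by nlinarith
      nlinarith [sq_nonneg t]
    linarith
  rw [mul_one_div, mul_one_div, div_le_div_iff₀ (by positivity) (by positivity)]
  have h3 : r ^ 2 ≤ 2 * r ^ 3 := by nlinarith [sq_nonneg r]
  calc r ^ 2 * (L ^ 3 * (A * (1 + t ^ 2))) ≤ (2 * r ^ 3) * (L ^ 3 * (A * (1 + (t / r) ^ 2))) := by
        gcongr
    _ = 2 * ((L * r) ^ 3 * (A * (1 + (t / r) ^ 2))) := by ring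

end J631aux

open J631aux in
theorem cap_conv_r (ψ α β η θ : ℝ → ℝ) (hψ : Bump ψ) (hab : Arc α β) (hη : Win η)
    (hθ : ContDiff ℝ (⊤ : ℕ∞) θ) (hs : ∀ x, θ x ≠ 0 → |x| ≤ 2) (h1 : ∀ x, |x| ≤ 1 → θ x = 1) :
    ∃ C : ℝ, 0 < C ∧ CapConv ψ α β η θ C := by
  obtain ⟨C, hC, H⟩ := Pool.Agent.H438R2.RZ.cap_conv_of ψ α β η θ hψ hab hη hθ hs h1
    (Pool.Agent.H438R2.RZ.cap_kernel ψ α β η hψ hab hη)
  refine ⟨C * 2, by positivity, ?_⟩
  intro L hL r hr hr1 a ha g hg z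
  have hr0 : 0 < r := by linarith
  have hL0 : 0 < L := by linarith
  have h := H (L * r) (by nlinarith) a ha (dil r g) (dil_good hr0 hg) (r * z.1, r * z.2)
  have e1 : Pl (mCr ψ α β η L r a) g z = Pl (mC ψ α β η (L * r) a) (dil r g) (r * z.1, r * z.2) :=
    Pl_dil hr0 (mC ψ α β η (L * r) a) g z
  rw [e1]
  refine h.trans ?_
  rw [ENNReal.ofReal_mul hC.le, mul_assoc]
  refine mul_le_mul_right ?_ _
  rw [lint_smul hr0, ← lintegral_const_mul' _ _ ENNReal.ofReal_ne_top,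
    ← lintegral_const_mul' _ _ ENNReal.ofReal_ne_top]
  refine lintegral_mono fun w => ?_
  simp only []
  rw [gA_dil hr0 θ L hL0 a g w, ← mul_assoc, ← mul_assoc, ← ENNReal.ofReal_mul (by positivity),
    ← ENNReal.ofReal_mul (by positivity)]
  refine mul_le_mul_left (ENNReal.ofReal_le_ofReal ?_) _
  have e2 : ((r * z.1, r * z.2) : ℝ × ℝ) - (r * w.1, r * w.2) = (r * (z - w).1, r * (z - w).2) := by
    ext <;> simp <;> ring
  rw [e2]
  exact Bk_dil hr hr1 hL0 _ _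

end Pool.Agent.TH278
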