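import Mathlib
import Pool.Agent.TH278.Defs3
import Pool.Agent.TH554.J639
import Pool.Agent.Helper390.CovarioA
set_option autoImplicit false

namespace Pool.Agent.TH278

open MeasureTheory Set Complex
open scoped ENNReal RealInnerProductSpace
open Pool.Agent.H438R2.RZ (e Good ft Pl Bump TR)
open Pool.Agent.H789R2.FR (E)

namespace J713aux

open FourierTransform

theorem e_norm (x : ℝ) : ‖e x‖ = 1 := by
  unfold e
  exact Complex.norm_exp_ofReal_mul_I _

theorem e_cont : Continuous e := by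
  unfold e
  fun_prop

/-- bounded measurable functions with bounded support are integrable -/
theorem integrable_of {n : ℕ} {G : Type*} [NormedAddCommGroup G] {g : E n → G}
    (hm : AEStronglyMeasurable g volume) (M B : ℝ) (hM : ∀ z, ‖g z‖ ≤ M)
    (hB : ∀ z, g z ≠ 0 → ‖z‖ ≤ B) : Integrable g := by
  have h1 : IntegrableOn g (Metric.closedBall 0 B) volume :=
    Measure.integrableOn_of_bounded measure_closedBall_lt_top.ne hm
      (Filter.Eventually.of_forall hM)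
  refine h1.integrable_of_forall_notMem_eq_zero ?_
  intro z hz
  by_contra hne
  apply hz
  rw [mem_closedBall_zero_iff]
  exact hB z hne

theorem good_integrable {n : ℕ} {U : E n → ℂ} (hU : GoodN U) : Integrable U := by
  obtain ⟨hm, ⟨M, hM⟩, B, hB⟩ := hU
  exact integrable_of hm.aestronglyMeasurable M B hM hB

theorem good_memLp {n : ℕ} {U : E n → ℂ} (hU : GoodN U) : MemLp U 2 := by
  obtain ⟨hm, ⟨M, hM⟩, B, hB⟩ := hU
  rw [memLp_two_iff_integrable_sq_norm hm.aestronglyMeasurable]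
  refine integrable_of (hm.norm.pow_const 2).aestronglyMeasurable (M ^ 2) B ?_ ?_
  · intro z
    rw [Real.norm_of_nonneg (by positivity)]
    exact pow_le_pow_left₀ (norm_nonneg _) (hM z) 2
  · intro z hz
    refine hB z fun h => hz ?_
    simp [h]

theorem lint_sq {X : Type*} [MeasurableSpace X] {μ : Measure X} {h : X → ℂ} (hh : MemLp h 2 μ) :
    ∫⁻ x, ‖h x‖ₑ ^ 2 ∂μ = ENNReal.ofReal (∫ x, ‖h x‖ ^ 2 ∂μ) := by
  have h1 : Integrable (fun x => ‖h x‖ ^ 2) μ :=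
    (memLp_two_iff_integrable_sq_norm hh.1).1 hh
  rw [ofReal_integral_eq_lintegral_ofReal h1 (Filter.Eventually.of_forall fun x => by positivity)]
  refine lintegral_congr fun x => ?_
  rw [ENNReal.ofReal_pow (norm_nonneg _), ofReal_norm]

theorem fourier_e {n : ℕ} (U : E n → ℂ) (w : E n) :
    𝓕 U w = ∫ ζ : E n, e (-(⟪ζ, w⟫ : ℝ)) * U ζ := by
  rw [Real.fourier_eq']
  refine integral_congr_ae (Filter.Eventually.of_forall fun v => ?_)
  simp only [smul_eq_mul, e]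
  congr 2
  push_cast
  ring

theorem planch_neg {n : ℕ} {U : E n → ℂ} (hU : GoodN U) :
    ∫⁻ w : E n, ‖∫ ζ : E n, e (-(⟪ζ, w⟫ : ℝ)) * U ζ‖ₑ ^ 2 = ∫⁻ ζ, ‖U ζ‖ₑ ^ 2 := by
  obtain ⟨hF, hP⟩ := Pool.Agent.Helper390.Covario.plancherel (good_integrable hU) (good_memLp hU)
  have h : ∀ w, ∫ ζ : E n, e (-(⟪ζ, w⟫ : ℝ)) * U ζ = 𝓕 U w := fun w => (fourier_e U w).symm
  simp only [h]
  rw [lint_sq hF, hP, ← lint_sq (good_memLp hU)]

theorem planch_pos {n : ℕ} {U : E n → ℂ} (hU : GoodN U) :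
    ∫⁻ w : E n, ‖∫ ζ : E n, U ζ * e (⟪w, ζ⟫ : ℝ)‖ₑ ^ 2 = ∫⁻ ζ, ‖U ζ‖ₑ ^ 2 := by
  rw [← planch_neg hU]
  have h : ∀ w : E n, ‖∫ ζ : E n, U ζ * e (⟪w, ζ⟫ : ℝ)‖ₑ ^ 2 =
      (fun v : E n => ‖∫ ζ : E n, e (-(⟪ζ, v⟫ : ℝ)) * U ζ‖ₑ ^ 2) (-w) := by
    intro w
    simp only [inner_neg_right, neg_neg]
    congr 2
    refine integral_congr_ae (Filter.Eventually.of_forall fun v => ?_)
    simp only [real_inner_comm]
    rw [mul_comm]
  rw [lintegral_congr h]
  exact (Measure.measurePreserving_neg (volume : Measure (E n))).lintegral_comp_emb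
    (MeasurableEquiv.neg (E n)).measurableEmbedding
    (fun v : E n => ‖∫ ζ : E n, e (-(⟪ζ, v⟫ : ℝ)) * U ζ‖ₑ ^ 2)

theorem bound_int {X : Type*} [MeasurableSpace X] {μ : Measure X} {s : Set X} (hs : μ s < ∞)
    (h : X → ℂ) (C : ℝ) (hC : ∀ x, ‖h x‖ ≤ C) (h0 : ∀ x, x ∉ s → h x = 0) :
    ‖∫ x, h x ∂μ‖ ≤ C * μ.real s := by
  rw [← setIntegral_eq_integral_of_forall_compl_eq_zero h0]
  exact norm_setIntegral_le_of_norm_le_const hs (fun x _ => hC x)

theorem psi_bound {ψ : ℝ → ℝ} (hψ : Bump ψ) : ∃ M : ℝ, 0 ≤ M ∧ ∀ x, |ψ x| ≤ M := by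
  obtain ⟨M, hM⟩ := (isCompact_Icc (a := (1 / 2 : ℝ)) (b := 2)).exists_bound_of_continuousOn
    hψ.1.continuous.continuousOn
  refine ⟨max M 0, le_max_right _ _, fun x => ?_⟩
  by_cases h : ψ x = 0
  · rw [h, abs_zero]; exact le_max_right _ _
  · exact (hM x (hψ.2 x h)).trans (le_max_left _ _)

theorem mV_ne {ψ : ℝ → ℝ} (hψ : Bump ψ) {L v : ℝ} {ξ : ℝ × ℝ}
    (h : mV ψ L v ξ ≠ 0) : ξ.1 ^ 2 + ξ.2 ^ 2 < v := by
  unfold mV at h
  rw [Complex.ofReal_ne_zero] at h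
  have h1 := (hψ.2 _ h).1
  by_contra hc
  push Not at hc
  have h2 : L ^ 2 * (v - (ξ.1 ^ 2 + ξ.2 ^ 2)) ≤ 0 :=
    mul_nonpos_of_nonneg_of_nonpos (by positivity) (by linarith)
  linarith

end J713aux

open J713aux in
theorem Estar_of (k : ℕ) (ψ : ℝ → ℝ) (hψ : Bump ψ) (hVV : ∃ C : ℝ, 0 < C ∧ VV ψ C) :
    ∃ C : ℝ, 0 < C ∧ ∀ L : ℝ, 20 ≤ L → ∀ f : E (k + 2) → ℂ, GoodN f →
    ∫⁻ z : ℝ × ℝ, (∫⁻ w : E k, ‖TR (k + 2) (ML ψ L) f (inp z w)‖ₑ ^ 2) ^ 2 ≤
      ENNReal.ofReal (C * (1 + Real.log L) ^ 4) *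
        ∫⁻ z : ℝ × ℝ, (∫⁻ w : E k, ‖f (inp z w)‖ₑ ^ 2) ^ 2 := by
  obtain ⟨C, hC, hVV⟩ := hVV
  obtain ⟨ι, hι, hιm, hιi, hιn⟩ := Pool.Agent.TH554.J639.inp_equiv k
  refine ⟨C, hC, fun L hL f hf => ?_⟩
  have hfint := good_integrable hf
  obtain ⟨hfm, ⟨M, hM⟩, ⟨B, hB⟩⟩ := hf
  have hM0 : 0 ≤ M := (norm_nonneg _).trans (hM 0)
  obtain ⟨Mψ, hMψ0, hMψ⟩ := psi_bound hψ
  -- support of `f`
  have hsupp : ∀ (z : ℝ × ℝ) (y : E k), f (ι (z, y)) ≠ 0 → (|z.1| ≤ B ∧ |z.2| ≤ B) ∧ ‖y‖ ≤ B := by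
    intro z y h
    have h1 := hB _ h
    have h2 := hιn (z, y)
    simp only at h2
    have hB0 : 0 ≤ B := (norm_nonneg _).trans h1
    have h3 : ‖ι (z, y)‖ ^ 2 ≤ B ^ 2 := pow_le_pow_left₀ (norm_nonneg _) h1 2
    refine ⟨⟨abs_le_of_sq_le_sq (by nlinarith [sq_nonneg z.2, sq_nonneg ‖y‖]) hB0,
      abs_le_of_sq_le_sq (by nlinarith [sq_nonneg z.1, sq_nonneg ‖y‖]) hB0⟩, ?_⟩
    exact le_of_sq_le_sq (by nlinarith [sq_nonneg z.2, sq_nonneg z.1]) hB0
  set G : E k → ℝ × ℝ → ℂ := fun ζ z => ∫ y : E k, e (-(⟪y, ζ⟫ : ℝ)) * f (ι (z, y)) with hG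
  set v : E k → ℝ := fun ζ => 1 - ‖ζ‖ ^ 2 with hv
  set ν : Measure (E k) := volume.restrict (Metric.closedBall (0 : E k) 1) with hν
  have hνf : IsFiniteMeasure ν := ⟨by
    rw [hν, Measure.restrict_apply MeasurableSet.univ, univ_inter]
    exact measure_closedBall_lt_top⟩
  have hvm : Measurable v := by
    rw [hv]; fun_prop
  -- `G` is good
  have hGm : Measurable (Function.uncurry G) := by
    have h : Measurable (fun p : (E k × (ℝ × ℝ)) × E k =>
        e (-(⟪p.2, p.1.1⟫ : ℝ)) * f (ι (p.1.2, p.2))) := by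
      refine Measurable.mul (e_cont.measurable.comp ?_) (hfm.comp (ι.measurable.comp ?_))
      · fun_prop
      · fun_prop
    exact h.stronglyMeasurable.integral_prod_right'.measurable
  have hGb : ∀ ζ z, ‖G ζ z‖ ≤ M * (volume : Measure (E k)).real (Metric.closedBall 0 B) := by
    intro ζ z
    refine bound_int measure_closedBall_lt_top _ M (fun y => ?_) fun y hy => ?_
    · rw [norm_mul, e_norm, one_mul]; exact hM _
    · by_contra hne
      apply hy
      rw [mem_closedBall_zero_iff]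
      exact (hsupp z y (right_ne_zero_of_mul hne)).2
  have hGs : ∀ ζ z, G ζ z ≠ 0 → |z.1| ≤ B ∧ |z.2| ≤ B := by
    intro ζ z h
    by_contra hc
    apply h
    have h0 : ∀ y : E k, e (-(⟪y, ζ⟫ : ℝ)) * f (ι (z, y)) = 0 := by
      intro y
      by_contra hne
      exact hc (hsupp z y (right_ne_zero_of_mul hne)).1
    rw [hG]
    simp only [h0, integral_zero]
  have hGF : GoodF G := ⟨hGm, ⟨_, hGb⟩, B, hGs⟩
  -- the planar operator
  set P : E k → ℝ × ℝ → ℂ := fun ζ z => Pl (mV ψ L (v ζ)) (G ζ) z with hP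
  have hbox : (volume : Measure (ℝ × ℝ)) (Icc (-B) B ×ˢ Icc (-B) B) < ∞ := by
    rw [Measure.volume_eq_prod, Measure.prod_prod, Real.volume_Icc]
    exact ENNReal.mul_lt_top ENNReal.ofReal_lt_top ENNReal.ofReal_lt_top
  have hbox1 : (volume : Measure (ℝ × ℝ)) (Icc (-1) 1 ×ˢ Icc (-1) 1) < ∞ := by
    rw [Measure.volume_eq_prod, Measure.prod_prod, Real.volume_Icc]
    exact ENNReal.mul_lt_top ENNReal.ofReal_lt_top ENNReal.ofReal_lt_top
  have hftm : Measurable (fun p : E k × (ℝ × ℝ) => ft (G p.1) p.2) := by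
    have h : Measurable (fun p : (E k × (ℝ × ℝ)) × (ℝ × ℝ) =>
        e (-(p.2.1 * p.1.2.1 + p.2.2 * p.1.2.2)) * G p.1.1 p.2) := by
      refine Measurable.mul (e_cont.measurable.comp (by fun_prop)) ?_
      exact hGm.comp (by fun_prop : Measurable fun p : (E k × (ℝ × ℝ)) × (ℝ × ℝ) => (p.1.1, p.2))
    exact h.stronglyMeasurable.integral_prod_right'.measurable
  have hftb : ∀ ζ ξ, ‖ft (G ζ) ξ‖ ≤
      M * (volume : Measure (E k)).real (Metric.closedBall 0 B) *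
        (volume : Measure (ℝ × ℝ)).real (Icc (-B) B ×ˢ Icc (-B) B) := by
    intro ζ ξ
    refine bound_int hbox _ _ (fun z => ?_) fun z hz => ?_
    · rw [norm_mul, e_norm, one_mul]; exact hGb ζ z
    · by_contra hne
      apply hz
      obtain ⟨h1, h2⟩ := hGs ζ z (right_ne_zero_of_mul hne)
      exact ⟨abs_le.1 h1, abs_le.1 h2⟩
  have hPgood : ∀ z, GoodN (fun ζ => P ζ z) := by
    intro z
    refine ⟨?_, ⟨(Mψ * (M * (volume : Measure (E k)).real (Metric.closedBall 0 B) *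
        (volume : Measure (ℝ × ℝ)).real (Icc (-B) B ×ˢ Icc (-B) B))) *
        (volume : Measure (ℝ × ℝ)).real (Icc (-1) 1 ×ˢ Icc (-1) 1), fun ζ => ?_⟩, 1, fun ζ hζ => ?_⟩
    · have h : Measurable (fun p : E k × (ℝ × ℝ) =>
          mV ψ L (v p.1) p.2 * ft (G p.1) p.2 * e (z.1 * p.2.1 + z.2 * p.2.2)) := by
        refine Measurable.mul (Measurable.mul ?_ hftm) (e_cont.measurable.comp (by fun_prop))
        unfold mV
        refine Complex.measurable_ofReal.comp (hψ.1.continuous.measurable.comp ?_)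
        fun_prop
      exact h.stronglyMeasurable.integral_prod_right'.measurable
    · refine bound_int hbox1 _ _ (fun ξ => ?_) fun ξ hξ => ?_
      · rw [norm_mul, norm_mul, e_norm, mul_one]
        refine mul_le_mul ?_ (hftb ζ ξ) (norm_nonneg _) hMψ0
        unfold mV
        rw [Complex.norm_real]
        exact hMψ _
      · by_contra hne
        apply hξ
        have h1 := mV_ne hψ (left_ne_zero_of_mul (left_ne_zero_of_mul hne))
        have h2 : v ζ ≤ 1 := by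
          simp only [hv]
          nlinarith [sq_nonneg ‖ζ‖]
        refine ⟨abs_le.1 (abs_le_of_sq_le_sq (by nlinarith [sq_nonneg ξ.2]) zero_le_one),
          abs_le.1 (abs_le_of_sq_le_sq (by nlinarith [sq_nonneg ξ.1]) zero_le_one)⟩
    · by_contra hc
      push Not at hc
      apply hζ
      have h0 : ∀ ξ : ℝ × ℝ, mV ψ L (v ζ) ξ = 0 := by
        intro ξ
        by_contra hne
        have h1 := mV_ne hψ hne
        simp only [hv] at h1
        nlinarith [sq_nonneg ξ.1, sq_nonneg ξ.2]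
      simp only [hP, Pl, h0, zero_mul, integral_zero]
  -- representation
  have hrep : ∀ z w, TR (k + 2) (ML ψ L) f (inp z w) =
      ∫ ζ : E k, P ζ z * e (⟪w, ζ⟫ : ℝ) := by
    intro z w
    have hMc : Continuous (ML ψ L) := by
      unfold ML
      exact hψ.1.continuous.comp (by fun_prop)
    have hM2 : ∀ u, 2 < u → ML ψ L u = 0 := by
      intro u hu
      by_contra hne
      have h1 := (hψ.2 _ hne).1
      have h2 : L ^ 2 * (1 - u) ≤ 0 :=
        mul_nonpos_of_nonneg_of_nonpos (by positivity) (by linarith)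
      linarith
    have h := Pool.Agent.TH554.J639.TR_split (ML ψ L) hMc hM2 ι hιm
      (fun x y => x.1 * y.1 + x.2 * y.2) (fun x y => (⟪x, y⟫ : ℝ))
      (fun x => x.1 ^ 2 + x.2 ^ 2) (fun x => ‖x‖ ^ 2) hιi (by fun_prop) (by fun_prop) hιn f hfm
      hfint z w
    rw [← hι (z, w), h]
    refine integral_congr_ae (Filter.Eventually.of_forall fun ζ => ?_)
    simp only [hP, Pl]
    congr 1
    refine integral_congr_ae (Filter.Eventually.of_forall fun ξ => ?_)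
    simp only [hG, ft, mV, ML, hv]
    congr 3
    ring_nf
  have hPs : ∀ ζ z, ζ ∉ Metric.closedBall (0 : E k) 1 → P ζ z = 0 := by
    intro ζ z hζ
    rw [mem_closedBall_zero_iff, not_le] at hζ
    have h0 : ∀ ξ : ℝ × ℝ, mV ψ L (v ζ) ξ = 0 := by
      intro ξ
      by_contra hne
      have h1 := mV_ne hψ hne
      simp only [hv] at h1
      nlinarith [sq_nonneg ξ.1, sq_nonneg ξ.2]
    simp only [hP, Pl, h0, zero_mul, integral_zero]
  have hL1 : ∀ z, ∫⁻ w : E k, ‖TR (k + 2) (ML ψ L) f (inp z w)‖ₑ ^ 2 =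
      ∫⁻ ζ, ‖Pl (mV ψ L (v ζ)) (G ζ) z‖ₑ ^ 2 ∂ν := by
    intro z
    simp only [hrep]
    rw [planch_pos (hPgood z), hν, ← lintegral_indicator Metric.isClosed_closedBall.measurableSet]
    refine lintegral_congr fun ζ => ?_
    by_cases h : ζ ∈ Metric.closedBall (0 : E k) 1
    · rw [indicator_of_mem h]
    · rw [indicator_of_notMem h, hPs ζ z h]
      simp
  have hR : ∀ z, ∫⁻ ζ, ‖G ζ z‖ₑ ^ 2 ∂ν ≤ ∫⁻ w : E k, ‖f (inp z w)‖ₑ ^ 2 := by
    intro z
    have hU : GoodN (fun y : E k => f (ι (z, y))) :=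
      ⟨hfm.comp (ι.measurable.comp (by fun_prop)), ⟨M, fun y => hM _⟩, B, fun y hy => (hsupp z y hy).2⟩
    have h1 := planch_neg hU
    have h2 : ∀ w, f (inp z w) = f (ι (z, w)) := fun w => by rw [hι]
    simp only [h2]
    rw [← h1]
    exact setLIntegral_le_lintegral _ _
  have hkey := hVV L hL (E k) ν v hvm
    (fun ζ => by simp only [hv]; nlinarith [sq_nonneg ‖ζ‖]) G hGF
  simp only [hL1]
  refine hkey.trans ?_
  refine mul_le_mul_right (lintegral_mono fun z => ?_) _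
  exact pow_le_pow_left' (hR z) 2

end Pool.Agent.TH278
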