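import Pool.Agent.TH515.J875f
set_option autoImplicit false

/-! Job 875: the key lemma. -/
namespace Pool.Agent.TH515.J875
open Pool.Agent.TH547.Arc
open Finset Equiv

theorem nm_card (X : PW) : (W.nm X).card = X.ord.length :=
  List.toFinset_card_of_nodup X.ord_nodup

/-- Reduction of exactness to words in which no arc ends in the block of `p` -/
theorem G_lemma {θ : Perm Sy} {μ : PW} {P Dd : Finset Sy} (hE : Env θ μ P Dd) {p q : Sy}
    (hp : p ∈ P) (hq : q ∈ P) (hpq : p ≠ q) (Ψ : PW → Prop)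
    (hinv : Sys.Inv (S := W) (W.nm μ) (fun X => OvP μ P X ∧ Ψ X))
    (hcvx : Sys.Cvx (S := W) (W.nm μ) (fun X => OvP μ P X ∧ Ψ X))
    (hins : ∀ (X : PW) (c0 u v : Sy) (b : ℕ), OvP μ P X → c0 ∈ X.x → own μ.x X.x c0 = some p →
      (∀ t, (fp θ X.x).SameCycle c0 t → t ∉ P.erase p ∧
        (t ∈ μ.x ∨ (own μ.x X.x t = some p ∧ own μ.x X.x (θ t) = some p))) →
      ((u = c0 ∧ v = q) ∨ (u = q ∧ v = c0)) → [u, v].Sublist X.x → b ∉ X.ord → b ∉ μ.ord →
      (Ψ (insP u v b X) ↔ Ψ X))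
    (i : ℕ)
    (hfr : ∀ (μ' : PW) (P' : Finset Sy) (j : ℕ), Env θ μ' P' Dd → OvP μ P μ' →
      (∀ s ∈ μ.x, s ∈ μ'.x) → j + μ'.ord.length = i + μ.ord.length →
      (μ.ord.length < μ'.ord.length ∨ (μ' = μ ∧ P' = P.erase p)) →
      (∀ X, OvP μ' P' X → OvP μ P X) →
      Sys.Ex (S := W) (W.nm μ') (fun X => OvP μ' P' X ∧ Ψ X) j) :
    Sys.Ex (S := W) (W.nm μ) (fun X => OvP μ P X ∧ Ψ X) i := by
  have K : Ctx θ μ P Dd p q Ψ := ⟨hE, hp, hq, hpq, hinv, hcvx, hins⟩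
  -- step 1
  refine ex_pat (μ := μ) (P := P) (T := Tb p) (Pr := fun X => OvP μ P X ∧ Ψ X) (fun X hX => hX.1)
    (Finset.Subset.refl _) hinv hcvx (fun X hX => ?_) ?_
  · rw [nm_pat hX.1]
    exact Finset.subset_union_left
  rintro Y j hj hFY ⟨X1, hX1, hX1Y⟩
  have hYo : OvP μ P Y := pat_ov hX1.1 hX1Y
  -- step 2
  refine step2_all K hYo ?_
  -- step 3
  have hCY : ∀ s ∈ Cp θ μ P p Y, s ∈ Y.x := fun s hs => (mem_Cp.1 hs).1
  refine ex_pat (μ := μ) (P := P) (T := Ts p) (Pr := PC θ μ P p Ψ Y (Cp θ μ P p Y))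
    (fun X hX => hX.1.1.1) hFY (PC_inv K hFY hCY) (PC_cvx K hFY hCY) (fun X hX => ?_) ?_
  · rw [nm_pat hX.1.1.1, (pat_rs hX.1.1.1 hX.1.2).1]
    exact Finset.union_subset_union_right (tau_sub X)
  rintro Z k hk hYZ ⟨X0, hX0, hX0Z⟩
  have B : Bs θ μ P p Ψ Y Z X0 := ⟨hX0, hX0Z⟩
  have hZo := B.oZ
  have heq : (fun X => PC θ μ P p Ψ Y (Cp θ μ P p Y) X ∧ pat μ (Ts p) X = Z) =
      (fun X => OvP Z (Pp μ P p Z) X ∧ Ψ X) := by
    funext X
    exact propext (claimA hE B X)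
  suffices hS : Sys.Ex (S := W) (W.nm Z) (fun X : PW => OvP Z (Pp μ P p Z) X ∧ Ψ X) k by
    rw [← heq] at hS
    exact hS
  refine hfr Z (Pp μ P p Z) k (claimB hE hq hpq B) hZo (ov_sub hZo) ?_ ?_ (fun X hX => over_ov hZo hX)
  · have h1 := Finset.card_sdiff_add_card_eq_card hFY
    have h2 := Finset.card_sdiff_add_card_eq_card hYZ
    rw [← nm_card, ← nm_card]
    omega
  · by_cases hlt : μ.ord.length < Z.ord.length
    · exact Or.inl hlt
    · right
      have hnm : W.nm μ = W.nm Z := by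
        refine Finset.eq_of_subset_of_card_le (ov_nm hZo) ?_
        rw [nm_card, nm_card]
        omega
      have hx : Z.x = μ.x := by
        conv_rhs => rw [← hZo.1]
        symm
        rw [List.filter_eq_self]
        intro t ht
        rw [decide_eq_true_eq]
        rcases t with n | ⟨a, e⟩
        · exact hZo.2.1 n ht
        · rw [← nm_en, hnm, nm_en e]
          exact ht
      have hZμ : Z = μ := PW.ext hx
      refine ⟨hZμ, ?_⟩
      ext m
      rw [mem_Pp, hZμ]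
      constructor
      · rintro ⟨h1, o, ho, ho'⟩
        rw [own_self h1 h1] at ho'
        rw [Option.some.inj ho']
        exact ho
      · intro hm
        have h1 := (hE.sub m (Finset.mem_erase.1 hm).2).1
        exact ⟨h1, m, hm, own_self h1 h1⟩

end Pool.Agent.TH515.J875
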