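import Pool.Agent.TH182.NC.Defs
set_option autoImplicit false

/-! Job 1022: `s x ^ n` times the identity of a second syzygy factors through a projective. -/
open CategoryTheory Abelian
namespace Pool.Agent.TH515.J1022
open Pool.Agent.TH182.NC

section ext
variable {S : Type} [CommRing S]

/-- multiplication by a non-zero-divisor is surjective on the top `Ext` -/
theorem top_ext (hgl : ∀ M : ModuleCat.{0} S, HasProjectiveDimensionLT M 4)
    (L : Type) [AddCommGroup L] [Module S L] (x : S) (hx : ∀ v : L, x • v = 0 → v = 0)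
    (X : ModuleCat.{0} S) (e : Ext (ModuleCat.of S L) X 3) : ∃ e', e = x • e' := by
  set f : L →ₗ[S] L := LinearMap.lsmul S L x with hf
  have hse : (ModuleCat.shortComplexOfCompEqZero f (LinearMap.range f).mkQ
      (LinearMap.range_mkQ_comp f)).ShortExact := by
    refine ModuleCat.shortComplex_shortExact _ ?_ ?_ ?_
    · intro v
      show (LinearMap.range f).mkQ v = 0 ↔ v ∈ Set.range f
      rw [Submodule.mkQ_apply, Submodule.Quotient.mk_eq_zero]
      rfl
    · intro v w h
      have h1 : x • (v - w) = 0 := by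
        rw [smul_sub, sub_eq_zero]; exact h
      exact sub_eq_zero.1 (hx _ h1)
    · exact Submodule.mkQ_surjective _
  obtain ⟨e2, he2⟩ := Ext.contravariant_sequence_exact₁ hse X e (n₁ := 4) (by norm_num)
    (by
      have := hgl (ModuleCat.of S (L ⧸ LinearMap.range f))
      exact Ext.eq_zero_of_hasProjectiveDimensionLT _ 4 le_rfl)
  refine ⟨e2, ?_⟩
  rw [← he2]
  have h2 : (ModuleCat.ofHom f : ModuleCat.of S L ⟶ ModuleCat.of S L) =
      x • (𝟙 (ModuleCat.of S L)) := by
    ext v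
    rfl
  show (Ext.mk₀ (ModuleCat.ofHom f)).comp e2 (zero_add 3) = x • e2
  rw [h2, Ext.mk₀_smul, Ext.smul_comp, Ext.mk₀_id_comp]

/-- dimension shift of a surjectivity -/
theorem shift_ext {C : ShortComplex (ModuleCat.{0} S)} (hC : C.ShortExact) [Projective C.X₂]
    (x : S) (X : ModuleCat.{0} S) (n : ℕ)
    (h : ∀ e : Ext C.X₃ X (n + 1 + 1), ∃ e', e = x • e') (e : Ext C.X₁ X (n + 1)) :
    ∃ e', e = x • e' := by
  obtain ⟨e2, he2⟩ := h (hC.extClass.comp e (by omega))
  obtain ⟨e1, he1⟩ := Ext.contravariant_sequence_exact₃ hC X e2 (Ext.eq_zero_of_projective _)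
    (n₀ := n + 1) (by omega)
  refine ⟨e1, ?_⟩
  have h1 : hC.extClass.comp (e - x • e1) (by omega : 1 + (n + 1) = n + 1 + 1) = 0 := by
    rw [sub_eq_add_neg, Ext.comp_add, Ext.comp_neg, Ext.comp_smul, he1, ← he2, add_neg_cancel]
  obtain ⟨e0, he0⟩ := Ext.contravariant_sequence_exact₁ hC X (e - x • e1) (by omega) h1
  rw [Ext.eq_zero_of_projective e0, Ext.comp_zero] at he0
  exact sub_eq_zero.1 he0.symm

/-- `s` times the identity of the second syzygy `M'` of `L` factors through a free module -/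
theorem fac_syz [IsNoetherianRing S] (hgl : ∀ M : ModuleCat.{0} S, HasProjectiveDimensionLT M 4)
    (Q₁ : Type) [AddCommGroup Q₁] [Module S Q₁] [Module.Finite S Q₁] [Module.Projective S Q₁]
    (Z : Submodule S Q₁) (x : S) (hx : ∀ v : Q₁, x • v ∈ Z → v ∈ Z)
    (F : Type) [AddCommGroup F] [Module S F] [Module.Finite S F] [Module.Projective S F]
    (d' : F →ₗ[S] Z) (hd' : Function.Surjective d') :
    ∃ s : S, s - 1 ∈ Ideal.span {x} ∧ ∃ (P : Type) (_ : AddCommGroup P) (_ : Module S P),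
      Module.Projective S P ∧ ∃ (φ : LinearMap.ker d' →ₗ[S] P) (g : P →ₗ[S] LinearMap.ker d'),
        ∀ m, g (φ m) = s • m := by
  obtain ⟨P, _, _, _, _, g, hg⟩ := Module.exists_finite_presentation S (LinearMap.ker d')
  have h4 := LinearMap.shortExact_shortComplexKer hg
  have h3 := LinearMap.shortExact_shortComplexKer hd'
  have h2 : (ModuleCat.shortComplexOfCompEqZero Z.subtype Z.mkQ (by
      ext v; simp)).ShortExact := by
    refine ModuleCat.shortComplex_shortExact _ ?_ Z.injective_subtype (Submodule.mkQ_surjective Z)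
    intro v
    show Z.mkQ v = 0 ↔ v ∈ Set.range Z.subtype
    rw [Submodule.mkQ_apply, Submodule.Quotient.mk_eq_zero]
    simp
  have hpQ : Projective (ModuleCat.of S Q₁) := inferInstance
  have hpF : Projective (ModuleCat.of S F) := inferInstance
  let X := ModuleCat.of S (LinearMap.ker g)
  have e3 : ∀ e : Ext (ModuleCat.of S (Q₁ ⧸ Z)) X 3, ∃ e', e = x • e' := by
    refine top_ext hgl (Q₁ ⧸ Z) x ?_ X
    intro v hv
    obtain ⟨w, rfl⟩ := Submodule.mkQ_surjective Z v
    rw [← map_smul, Submodule.mkQ_apply, Submodule.Quotient.mk_eq_zero] at hv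
    rw [Submodule.mkQ_apply, Submodule.Quotient.mk_eq_zero]
    exact hx w hv
  have e2 : ∀ e : Ext (ModuleCat.of S Z) X 2, ∃ e', e = x • e' := shift_ext h2 x X 1 e3
  have e1 : ∀ e : Ext (ModuleCat.of S (LinearMap.ker d')) X 1, ∃ e', e = x • e' :=
    shift_ext h3 x X 0 e2
  obtain ⟨s, hs, hs'⟩ := Submodule.exists_sub_one_mem_and_smul_eq_zero_of_fg_of_le_smul
    (Ideal.span {x}) (⊤ : Submodule S (Ext (ModuleCat.of S (LinearMap.ker d')) X 1))
    (Module.finite_def.1 (ModuleCat.finite_ext S _ _ 1)) (by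
      intro e _
      obtain ⟨e', rfl⟩ := e1 e
      exact Submodule.smul_mem_smul (Ideal.mem_span_singleton_self x) trivial)
  refine ⟨s, hs, P, inferInstance, inferInstance, inferInstance, ?_⟩
  obtain ⟨y, hy⟩ := Ext.covariant_sequence_exact₃ (ModuleCat.of S (LinearMap.ker d')) h4
    (Ext.mk₀ (s • 𝟙 (ModuleCat.of S (LinearMap.ker d')))) (n₁ := 1) (by norm_num) (by
      rw [Ext.mk₀_smul, Ext.smul_comp, Ext.mk₀_id_comp]
      exact hs' _ trivial)
  obtain ⟨φ, rfl⟩ := Ext.addEquiv₀.symm.surjective y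
  rw [Ext.addEquiv₀_symm_apply, Ext.mk₀_comp_mk₀] at hy
  have hy' := Ext.addEquiv₀.symm.injective hy
  refine ⟨φ.hom, g, fun m => ?_⟩
  have := congrArg (fun ψ => ψ.hom m) hy'
  exact this

end ext

theorem fac {S : Type} [CommRing S] [IsNoetherianRing S]
    (hgl : ∀ M : ModuleCat.{0} S, HasProjectiveDimensionLT M 4)
    (M Q₀ Q₁ : Type) [AddCommGroup M] [Module S M] [AddCommGroup Q₀] [Module S Q₀]
    [AddCommGroup Q₁] [Module S Q₁] [Module.Finite S Q₀] [Module.Projective S Q₀]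
    [Module.Finite S Q₁] [Module.Projective S Q₁] (ι : M →ₗ[S] Q₀) (d : Q₀ →ₗ[S] Q₁)
    (hι : Function.Injective ι) (hex : LinearMap.range ι = LinearMap.ker d) (x : S) :
    ∃ s : S, s - 1 ∈ Ideal.span {x} ∧ ∃ n : ℕ, Fac S M (s * x ^ n) := by
  -- the saturation of the range of `d`
  let Z : Submodule S Q₁ :=
    { carrier := {v | ∃ k : ℕ, x ^ k • v ∈ LinearMap.range d}
      zero_mem' := ⟨0, by simp⟩
      add_mem' := by
        rintro v w ⟨k, hk⟩ ⟨l, hl⟩
        refine ⟨k + l, ?_⟩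
        rw [smul_add]
        refine Submodule.add_mem _ ?_ ?_
        · rw [add_comm, pow_add, mul_smul]
          exact Submodule.smul_mem _ _ hk
        · rw [pow_add, mul_smul]
          exact Submodule.smul_mem _ _ hl
      smul_mem' := by
        rintro c v ⟨k, hk⟩
        refine ⟨k, ?_⟩
        rw [smul_comm]
        exact Submodule.smul_mem _ _ hk }
  have hZ : ∀ v, v ∈ Z ↔ ∃ k : ℕ, x ^ k • v ∈ LinearMap.range d := fun v => Iff.rfl
  have hx : ∀ v : Q₁, x • v ∈ Z → v ∈ Z := by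
    rintro v ⟨k, hk⟩
    refine ⟨k + 1, ?_⟩
    rw [pow_succ, mul_smul]
    exact hk
  -- a uniform exponent
  have hNoe : IsNoetherian S Q₁ := inferInstance
  have hfg : Z.FG := IsNoetherian.noetherian Z
  obtain ⟨N, hN⟩ : ∃ N : ℕ, ∀ v ∈ Z, x ^ N • v ∈ LinearMap.range d := by
    obtain ⟨T, hT⟩ := hfg
    have h1 : ∀ v : Q₁, ∃ k : ℕ, v ∈ T → x ^ k • v ∈ LinearMap.range d := by
      intro v
      by_cases hv : v ∈ T
      · obtain ⟨k, hk⟩ := (hZ v).1 (hT ▸ Submodule.subset_span hv)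
        exact ⟨k, fun _ => hk⟩
      · exact ⟨0, fun h => absurd h hv⟩
    choose k hk using h1
    refine ⟨T.sup k, fun v hv => ?_⟩
    rw [← hT] at hv
    induction hv using Submodule.span_induction with
    | mem w hw =>
      have h2 : k w ≤ T.sup k := Finset.le_sup hw
      obtain ⟨m, hm⟩ := Nat.exists_eq_add_of_le h2
      rw [hm, add_comm, pow_add, mul_smul]
      exact Submodule.smul_mem _ _ (hk w hw)
    | zero => simp
    | add v w _ _ hv hw => rw [smul_add]; exact Submodule.add_mem _ hv hw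
    | smul c v _ hv => rw [smul_comm]; exact Submodule.smul_mem _ _ hv
  -- the cover of `Z`
  obtain ⟨F, _, _, _, _, d', hd'⟩ := Module.exists_finite_presentation S Z
  obtain ⟨s, hs, P, _, _, hP, φ, g, hφ⟩ := fac_syz hgl Q₁ Z x hx F d' hd'
  refine ⟨s, hs, N, ?_⟩
  -- the map `α`
  let dZ : Q₀ →ₗ[S] Z := d.codRestrict Z (fun v => ⟨0, by simp⟩)
  obtain ⟨α, hα⟩ := Module.projective_lifting_property d' dZ hd'
  have hα' : ∀ v, ((d' (α v) : Z) : Q₁) = d v := fun v => by
    have := congrArg (fun ψ => ((ψ v : Z) : Q₁)) hα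
    exact this
  -- the map `β`
  let xd : F →ₗ[S] LinearMap.range d :=
    (((x ^ N) • Z.subtype.comp d').codRestrict (LinearMap.range d) (fun v => hN _ (d' v).2))
  obtain ⟨β, hβ⟩ := Module.projective_lifting_property d.rangeRestrict xd
    d.surjective_rangeRestrict
  have hβ' : ∀ v, d (β v) = x ^ N • ((d' v : Z) : Q₁) := fun v => by
    have := congrArg (fun ψ => ((ψ v : LinearMap.range d) : Q₁)) hβ
    exact this
  -- the inverse of `ι`
  have hinv : ∀ {A : Type} [AddCommGroup A] [Module S A] (ψ : A →ₗ[S] Q₀), (∀ a, d (ψ a) = 0) →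
      ∃ u : A →ₗ[S] M, ∀ a, ι (u a) = ψ a := by
    intro A _ _ ψ hψ
    have h1 : ∀ a, ψ a ∈ LinearMap.range ι := fun a => by
      rw [hex]; exact hψ a
    refine ⟨(LinearEquiv.ofInjective ι hι).symm.toLinearMap ∘ₗ (ψ.codRestrict _ h1), fun a => ?_⟩
    have h2 := (LinearEquiv.ofInjective ι hι).apply_symm_apply (ψ.codRestrict _ h1 a)
    have h3 := congrArg Subtype.val h2
    exact h3
  have hdι : ∀ m, d (ι m) = 0 := fun m => by
    have : ι m ∈ LinearMap.ker d := by rw [← hex]; exact ⟨m, rfl⟩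
    exact this
  obtain ⟨u, hu⟩ := hinv (β ∘ₗ α - (x ^ N) • LinearMap.id) (fun v => by
    show d (β (α v) - x ^ N • v) = 0
    rw [map_sub, hβ', hα', map_smul, sub_self])
  obtain ⟨βM, hβM⟩ := hinv (β ∘ₗ (LinearMap.ker d').subtype) (fun v => by
    show d (β (v : F)) = 0
    rw [hβ', show d' (v : F) = 0 from v.2]
    simp)
  let αM : M →ₗ[S] LinearMap.ker d' := (α ∘ₗ ι).codRestrict _ (fun m => by
    rw [LinearMap.mem_ker]
    apply Subtype.ext
    show ((d' (α (ι m)) : Z) : Q₁) = 0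
    rw [hα', hdι])
  refine ⟨P × Q₀, inferInstance, inferInstance, inferInstance, (φ ∘ₗ αM).prod ι,
    (βM ∘ₗ g).coprod (-(s • u)), fun m => ?_⟩
  apply hι
  have h1 : ι (βM (αM m)) = β (α (ι m)) := hβM _
  have h2 : ι (u (ι m)) = β (α (ι m)) - x ^ N • ι m := hu _
  have h3 : βM (g (φ (αM m))) = s • βM (αM m) := by rw [hφ, map_smul]
  show ι (βM (g (φ (αM m))) + (-(s • u)) (ι m)) = ι ((s * x ^ N) • m)
  rw [h3, LinearMap.neg_apply, LinearMap.smul_apply, map_add, map_neg, map_smul, map_smul, h1, h2,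
    smul_sub, map_smul, mul_smul]
  abel

end Pool.Agent.TH515.J1022
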