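import Pool.Agent.TH515.J1094s
set_option autoImplicit false

/-! Job 1094: Kuenneth for words with coloured blocks. -/
namespace Pool.Agent.TH515.J1094
open Pool.Agent.TH547.Arc
open Finset Equiv
open Pool.Agent.TH515.J875 (tau pat mem_tau nm_pat tau_rn pat_rn tau_dl pat_dl pat_rs pat_ov nmW
  nm_en nm_dlW ov_sub ov_nm ov_mr own_of_rs mem_of_rs nm_of_rs OvP_dl OvP_own_dl OvP_rsN
  OvP_own_rsN OvP_rn OvP_own_rn own_self own_spec rsN_dl dl_rsN rsN_rsN rsN_rn rsN_of_subset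
  rsN_congr mem_rsN nm_rsN fix_mem)

section
variable {θ : Perm Sy} {μ : PW} {κ : Sy → Sy}

theorem mem_PC {T : Finset Sy} {s : Sy} : s ∈ PC μ κ T ↔ s ∈ μ.x ∧ κ s ∈ T := by
  unfold PC
  rw [Finset.mem_filter, List.mem_toFinset]

theorem mem_DC {T : Finset Sy} {s : Sy} : s ∈ DC μ κ T ↔ s ∈ μ.x ∧ κ s ∉ T := by
  unfold DC
  rw [Finset.mem_filter, List.mem_toFinset]

theorem EnvK.env (hE : EnvK θ μ κ) {T : Finset Sy} (hT : ∃ s ∈ μ.x, κ s ∈ T) :
    Env θ μ (PC μ κ T) (DC μ κ T) where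
  flip := hE.flip
  pres := hE.pres
  last := hE.last
  sub s hs := by
    rw [mem_PC] at hs
    rw [mem_DC]
    exact ⟨hs.1, fun h => h.2 hs.2⟩
  dsub s hs := (mem_DC.1 hs).1
  dinv s hs := by
    rw [mem_DC] at hs ⊢
    refine ⟨?_, by rw [hE.inv s hs.1]; exact hs.2⟩
    exact List.formPerm_apply_mem_of_mem (hE.pres s hs.1)
  live s hs hsD := by
    refine ⟨s, mem_PC.2 ⟨hs, ?_⟩, Perm.SameCycle.refl _ _⟩
    by_contra h
    exact hsD (mem_DC.2 ⟨hs, h⟩)
  ne := by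
    obtain ⟨s, hs, h⟩ := hT
    exact ⟨s, mem_PC.2 ⟨hs, h⟩⟩

theorem OvP.mono {P P' : Finset Sy} (h : P ⊆ P') {X : PW} (hX : OvP μ P X) : OvP μ P' X := by
  refine ⟨hX.1, hX.2.1, fun s hs hsμ => ?_⟩
  obtain ⟨p, hp, hp'⟩ := hX.2.2 s hs hsμ
  exact ⟨p, h hp, hp'⟩

theorem PC_sub (T : Finset Sy) : PC μ κ T ⊆ μ.x.toFinset := by
  unfold PC
  exact Finset.filter_subset _ _

/-- colour `t` -/
def Tc (κ : Sy → Sy) (t : Sy) (x _y : Option Sy) : Prop := x.map κ = some t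

/-- not colour `t` -/
def Tn (κ : Sy → Sy) (t : Sy) (x _y : Option Sy) : Prop := ¬ x.map κ = some t

theorem arcsC_eq (t : Sy) (X : PW) : arcsC μ κ t X = tau μ (Tc κ t) X := by
  ext a
  rw [mem_tau]
  unfold arcsC
  rw [Finset.mem_filter, Finset.mem_sdiff]
  rfl

theorem pc_eq (t : Sy) (X : PW) : pc μ κ t X = pat μ (Tc κ t) X := by
  unfold pc pat
  rw [arcsC_eq]

theorem pat_dl' {P : Finset Sy} {T : Option Sy → Option Sy → Prop} {X : PW} (hX : OvP μ P X)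
    {a : ℕ} (ha : a ∉ W.nm μ) : pat μ T (X.dl a) = (pat μ T X).dl a := by
  unfold pat
  rw [tau_dl hX ha, rsN_dl, dl_rsN]
  congr 1
  ext b
  simp only [Finset.mem_erase, Finset.mem_union]
  tauto

theorem pc_dl {X : PW} (hX : OvP μ μ.x.toFinset X) {a : ℕ} (ha : a ∈ W.nm X \ W.nm μ) (t : Sy) :
    pc μ κ t (X.dl a) = (pc μ κ t X).dl a := by
  rw [pc_eq, pc_eq]
  exact pat_dl' hX (Finset.mem_sdiff.1 ha).2

/-- the owner of a free end -/
theorem free_end {P : Finset Sy} {X : PW} (hX : OvP μ P X) {a : ℕ} (ha : a ∈ W.nm X \ W.nm μ)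
    (e : Bool) : ∃ p ∈ P, own μ.x X.x (en a e) = some p := by
  rw [Finset.mem_sdiff] at ha
  exact hX.2.2 _ ((nm_en e).1 ha.1) (fun h => ha.2 ((nm_en e).2 h))

theorem pc_self {X : PW} {t : Sy} (hX : OvP μ (PC μ κ {t}) X) : pc μ κ t X = X := by
  rw [pc_eq]
  refine rsN_of_subset fun a ha => ?_
  rw [Finset.mem_union]
  by_cases h : a ∈ W.nm μ
  · exact Or.inl h
  · right
    obtain ⟨p, hp, hp'⟩ := free_end hX (Finset.mem_sdiff.2 ⟨ha, h⟩) false
    rw [mem_tau]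
    refine ⟨⟨ha, h⟩, ?_⟩
    show (own μ.x X.x (en a false)).map κ = some t
    rw [hp', Option.map_some, Finset.mem_singleton.1 (mem_PC.1 hp).2]

theorem col_dl {P : Finset Sy} {X : PW} (hX : OvP μ P X) {a b : ℕ} (ha : a ∉ W.nm μ) (hab : b ≠ a)
    (e : Bool) : col μ κ (X.dl a) (en b e) = col μ κ X (en b e) := by
  unfold col
  rw [OvP_own_dl hX (fun h => ha (nmW.2 h)) ((offA_en a b e).2 hab)]

theorem CA_dl {X : PW} (hX : OvP μ μ.x.toFinset X) (hC : CA μ κ X) {a : ℕ}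
    (ha : a ∈ W.nm X \ W.nm μ) : CA μ κ (X.dl a) := by
  intro b hb
  rw [nm_dlW, Finset.mem_sdiff, Finset.mem_erase] at hb
  have haμ := (Finset.mem_sdiff.1 ha).2
  rw [col_dl hX haμ hb.1.1, col_dl hX haμ hb.1.1]
  exact hC b (Finset.mem_sdiff.2 ⟨hb.1.2, hb.2⟩)

theorem PK_inv (hE : EnvK θ μ κ) (c : Sy → ℕ) {T : Finset Sy} (hT : ∀ t ∈ T, ∃ s ∈ μ.x, κ s = t) :
    Sys.Inv (S := W) (W.nm μ) (PK θ μ κ c T) := by
  intro π hπ (X : PW) hX
  refine ⟨OvP_rn hX.1 hπ, ?_, fun t ht => ?_⟩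
  · intro b hb
    have h4 : W.nm (X.rn π) = (W.nm X).map π.toEmbedding := Sys.nm_rn (S := W) π X
    have hb' : b ∈ W.nm (X.rn π) \ W.nm μ := hb
    rw [Finset.mem_sdiff, h4, Finset.mem_map] at hb'
    obtain ⟨⟨a, ha, rfl⟩, h2⟩ := hb'
    simp only [Equiv.coe_toEmbedding] at h2 ⊢
    have haμ : a ∉ W.nm μ := fun h => h2 ((fix_mem hπ a).2 h)
    have e1 := OvP_own_rn hX.1 hπ (en a false)
    have e2 := OvP_own_rn hX.1 hπ (en a true)
    rw [rnS_en] at e1 e2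
    show (own μ.x (X.rn π).x (en (π a) false)).map κ = (own μ.x (X.rn π).x (en (π a) true)).map κ
    rw [e1, e2]
    exact hX.2.1 a (Finset.mem_sdiff.2 ⟨ha, haμ⟩)
  · obtain ⟨s, hs, hst⟩ := hT t ht
    have hEt := EnvK.env hE (T := {t}) ⟨s, hs, by rw [hst]; exact Finset.mem_singleton_self _⟩
    show PN θ μ (PC μ κ {t}) (DC μ κ {t}) (c t) (pc μ κ t (X.rn π))
    rw [pc_eq, pat_rn hX.1 hπ, ← pc_eq]
    exact PN_inv hEt (c t) π hπ _ (hX.2.2 t ht)

theorem dl_not {X : PW} {a : ℕ} (h : a ∉ W.nm X) : X.dl a = X :=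
  PW.dl_not_mem X a (fun h' => h (nmW.2 h'))

theorem PK_dl (hE : EnvK θ μ κ) (c : Sy → ℕ) {T : Finset Sy} (hT : ∀ t ∈ T, ∃ s ∈ μ.x, κ s = t)
    {X : PW} (hX : PK θ μ κ c T X) {a : ℕ} (ha : a ∈ W.nm X \ W.nm μ) :
    PK θ μ κ c T (X.dl a) := by
  have hX' : OvP μ μ.x.toFinset X := OvP.mono (PC_sub T) hX.1
  have haμ := (Finset.mem_sdiff.1 ha).2
  have haμ' : a ∉ μ.ord := fun h => haμ (nmW.2 h)
  refine ⟨OvP_dl hX.1 haμ', CA_dl hX' hX.2.1 ha, fun t ht => ?_⟩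
  obtain ⟨s, hs, hst⟩ := hT t ht
  have hEt := EnvK.env hE (T := {t}) ⟨s, hs, by rw [hst]; exact Finset.mem_singleton_self _⟩
  rw [pc_dl hX' ha]
  by_cases h : a ∈ W.nm (pc μ κ t X)
  · exact PN_dl hEt (hX.2.2 t ht) (nmW.1 h) haμ'
  · rw [dl_not h]
    exact hX.2.2 t ht

theorem PK_cvx (hE : EnvK θ μ κ) (c : Sy → ℕ) {T : Finset Sy} (hT : ∀ t ∈ T, ∃ s ∈ μ.x, κ s = t) :
    Sys.Cvx (S := W) (W.nm μ) (PK θ μ κ c T) :=
  fun _ hX _ ha _ _ _ _ => PK_dl hE c hT hX ha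

theorem col_own {X : PW} {s p : Sy} (h : own μ.x X.x s = some p) : col μ κ X s = some (κ p) := by
  unfold col
  rw [h, Option.map_some]

/-- `N`-restriction and colours -/
theorem col_rs {P : Finset Sy} {X Z : PW} (hX : OvP μ P X) (hF : W.nm μ ⊆ W.nm Z)
    (hZ : rsN (W.nm Z) X = Z) {s : Sy} (hs : s ∈ Z.x) : col μ κ X s = col μ κ Z s := by
  unfold col
  rw [own_of_rs hX hF hZ hs]

theorem nm_c {P : Finset Sy} {T : Option Sy → Option Sy → Prop} {X : PW} (hX : OvP μ P X) {a : ℕ} :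
    a ∈ W.nm (pat μ T X) \ W.nm μ ↔ a ∈ tau μ T X := by
  rw [nm_pat hX, Finset.mem_sdiff, Finset.mem_union]
  constructor
  · rintro ⟨h1, h2⟩
    exact h1.resolve_left h2
  · intro h
    exact ⟨Or.inr h, (mem_tau.1 h).1.2⟩

/-- pieces of the complementary part -/
theorem pc_pat {P : Finset Sy} {X : PW} (hX : OvP μ P X) {t t' : Sy} (h : t' ≠ t) :
    pc μ κ t' (pat μ (Tn κ t) X) = pc μ κ t' X := by
  have hrs := pat_rs (T := Tn κ t) hX rfl
  have hZo : OvP μ P (pat μ (Tn κ t) X) := pat_ov hX rfl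
  have htau : tau μ (Tc κ t') (pat μ (Tn κ t) X) = tau μ (Tc κ t') X := by
    ext a
    rw [mem_tau, mem_tau]
    constructor
    · rintro ⟨⟨h1, h2⟩, h3⟩
      refine ⟨⟨nm_of_rs hrs.2 h1, h2⟩, ?_⟩
      rw [own_of_rs hX (ov_nm hZo) hrs.2 ((nm_en false).1 h1),
        own_of_rs hX (ov_nm hZo) hrs.2 ((nm_en true).1 h1)]
      exact h3
    · rintro ⟨⟨h1, h2⟩, h3⟩
      have h4 : a ∈ W.nm (pat μ (Tn κ t) X) := by
        rw [hrs.1]
        refine Finset.mem_union_right _ (mem_tau.2 ⟨⟨h1, h2⟩, ?_⟩)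
        intro h5
        have h6 : (own μ.x X.x (en a false)).map κ = some t := h5
        have h7 : (own μ.x X.x (en a false)).map κ = some t' := h3
        rw [h6] at h7
        exact h (Option.some.inj h7).symm
      refine ⟨⟨h4, h2⟩, ?_⟩
      rw [← own_of_rs hX (ov_nm hZo) hrs.2 ((nm_en false).1 h4),
        ← own_of_rs hX (ov_nm hZo) hrs.2 ((nm_en true).1 h4)]
      exact h3
  rw [pc_eq, pc_eq]
  have hsub : W.nm μ ∪ tau μ (Tc κ t') X ⊆ W.nm (pat μ (Tn κ t) X) := by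
    rw [← htau]
    intro a ha
    rcases Finset.mem_union.1 ha with h1 | h1
    · exact ov_nm hZo h1
    · exact (mem_tau.1 h1).1.1
  calc pat μ (Tc κ t') (pat μ (Tn κ t) X)
      = rsN (W.nm μ ∪ tau μ (Tc κ t') X) (pat μ (Tn κ t) X) := by
        show rsN (W.nm μ ∪ tau μ (Tc κ t') (pat μ (Tn κ t) X)) (pat μ (Tn κ t) X) = _
        rw [htau]
    _ = rsN (W.nm μ ∪ tau μ (Tc κ t') X) (rsN (W.nm (pat μ (Tn κ t) X)) X) := by rw [hrs.2]
    _ = rsN ((W.nm μ ∪ tau μ (Tc κ t') X) ∩ W.nm (pat μ (Tn κ t) X)) X := rsN_rsN _ _ _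
    _ = pat μ (Tc κ t') X := by rw [Finset.inter_eq_left.2 hsub]; rfl

theorem PC_union {T : Finset Sy} (t : Sy) : PC μ κ (insert t T) = PC μ κ {t} ∪ PC μ κ T := by
  ext s
  rw [Finset.mem_union, mem_PC, mem_PC, mem_PC, Finset.mem_insert, Finset.mem_singleton]
  tauto

theorem PC_disj {T : Finset Sy} {t : Sy} (ht : t ∉ T) : Disjoint (PC μ κ {t}) (PC μ κ T) := by
  rw [Finset.disjoint_left]
  intro s h1 h2
  rw [mem_PC, Finset.mem_singleton] at h1
  rw [mem_PC, h1.2] at h2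
  exact ht h2.2

/-- the arcs of a word: colour `t` or not -/
theorem two_cases {T : Finset Sy} {t : Sy} {X : PW} (hX : OvP μ (PC μ κ (insert t T)) X)
    (hC : CA μ κ X) {a : ℕ} (ha : a ∈ W.nm X \ W.nm μ) (e : Bool) :
    (a ∈ tau μ (Tc κ t) X ∧ ∃ p ∈ PC μ κ {t}, own μ.x X.x (en a e) = some p) ∨
      (a ∈ tau μ (Tn κ t) X ∧ ∃ p ∈ PC μ κ T, own μ.x X.x (en a e) = some p) := by
  obtain ⟨p, hp, hp'⟩ := free_end hX ha e
  have hce : col μ κ X (en a false) = col μ κ X (en a e) := by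
    cases e
    · rfl
    · exact hC a ha
  have h1 := Finset.mem_sdiff.1 ha
  by_cases h : col μ κ X (en a false) = some t
  · left
    refine ⟨mem_tau.2 ⟨h1, h⟩, p, ?_, hp'⟩
    rw [hce, col_own hp'] at h
    exact mem_PC.2 ⟨(mem_PC.1 hp).1, by rw [Option.some.inj h]; exact Finset.mem_singleton_self _⟩
  · right
    refine ⟨mem_tau.2 ⟨h1, h⟩, p, ?_, hp'⟩
    rw [hce, col_own hp'] at h
    refine mem_PC.2 ⟨(mem_PC.1 hp).1, (Finset.mem_insert.1 (mem_PC.1 hp).2).resolve_left ?_⟩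
    intro h2
    exact h (by rw [h2])

/-- the complementary part -/
theorem PK_rest {c : Sy → ℕ} {T : Finset Sy} {t : Sy} (htT : t ∉ T) {X : PW}
    (hX : PK θ μ κ c (insert t T) X) : PK θ μ κ c T (pat μ (Tn κ t) X) := by
  have hne : ∀ t' ∈ T, t' ≠ t := fun t' ht' h => htT (h ▸ ht')
  have hZo := pat_ov (T := Tn κ t) hX.1 rfl
  have hrs := pat_rs (T := Tn κ t) hX.1 rfl
  refine ⟨⟨hZo.1, hZo.2.1, fun s hs hsμ => ?_⟩, ?_, fun t' ht' => ?_⟩
  · rcases s with n | ⟨a, e⟩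
    · exact absurd (ov_mr hZo hs) hsμ
    · have haZ : a ∈ W.nm (pat μ (Tn κ t) X) := (nm_en e).2 hs
      have haμ : a ∉ W.nm μ := fun h => hsμ ((nm_en e).1 h)
      have h1 := (nm_c hX.1).1 (Finset.mem_sdiff.2 ⟨haZ, haμ⟩)
      rw [← own_of_rs hX.1 (ov_nm hZo) hrs.2 hs]
      rcases two_cases hX.1 hX.2.1 (Finset.mem_sdiff.2 (mem_tau.1 h1).1) e with h2 | h2
      · exact absurd (mem_tau.1 h2.1).2 (mem_tau.1 h1).2
      · exact h2.2
  · intro a ha
    have h1 := Finset.mem_sdiff.1 ha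
    rw [← col_rs hX.1 (ov_nm hZo) hrs.2 ((nm_en false).1 h1.1),
      ← col_rs hX.1 (ov_nm hZo) hrs.2 ((nm_en true).1 h1.1)]
    exact hX.2.1 a (Finset.mem_sdiff.2 ⟨nm_of_rs hrs.2 h1.1, h1.2⟩)
  · show PN θ μ (PC μ κ {t'}) (DC μ κ {t'}) (c t') (pc μ κ t' (pat μ (Tn κ t) X))
    rw [pc_pat hX.1 (hne t' ht')]
    exact hX.2.2 t' (Finset.mem_insert_of_mem ht')

/-- exactness for several pieces, by the Kuenneth theorem -/
theorem PK_ex (hN : ∀ (P Dd : Finset Sy) (c : ℕ), Env θ μ P Dd →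
      (nf θ Dd μ.x + μ.ord.length) % 2 = c % 2 → ∀ i : ℕ, i + μ.ord.length + 1 < c →
      Sys.Ex (S := W) (W.nm μ) (PN θ μ P Dd c) i)
    (hE : EnvK θ μ κ) (c : Sy → ℕ) (T : Finset Sy) (hT : ∀ t ∈ T, ∃ s ∈ μ.x, κ s = t)
    (hpar : ∀ t ∈ T, (nf θ (DC μ κ {t}) μ.x + μ.ord.length) % 2 = c t % 2) :
    ∀ i : ℕ, i < ∑ t ∈ T, (c t - (μ.ord.length + 1)) →
      Sys.Ex (S := W) (W.nm μ) (PK θ μ κ c T) i := by
  induction T using Finset.induction_on with
  | empty => intro i hi; simp at hi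
  | insert t T htT ih =>
    have hT' : ∀ t ∈ T, ∃ s ∈ μ.x, κ s = t := fun t' ht' => hT t' (Finset.mem_insert_of_mem ht')
    have e2 := ih hT' (fun t' ht' => hpar t' (Finset.mem_insert_of_mem ht'))
    rw [Finset.sum_insert htT]
    obtain ⟨s0, hs0, hst0⟩ := hT t (Finset.mem_insert_self _ _)
    have hEt := EnvK.env hE (T := {t}) ⟨s0, hs0, by rw [hst0]; exact Finset.mem_singleton_self _⟩
    have e1 : ∀ i < c t - (μ.ord.length + 1),
        Sys.Ex (S := W) (W.nm μ) (PN θ μ (PC μ κ {t}) (DC μ κ {t}) (c t)) i := by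
      intro i hi
      exact hN _ _ _ hEt (hpar t (Finset.mem_insert_self _ _)) i (by omega)
    have hne : ∀ t' ∈ T, t' ≠ t := fun t' ht' h => htT (h ▸ ht')
    have htc : ∀ {X : PW}, PK θ μ κ c (insert t T) X →
        tau μ (Tc κ t) X ∪ tau μ (Tn κ t) X = W.nm X \ W.nm μ := by
      intro X hX
      ext a
      rw [Finset.mem_union, mem_tau, mem_tau, Finset.mem_sdiff]
      unfold Tc Tn
      tauto
    have hdj : ∀ {X : PW}, Disjoint (tau μ (Tc κ t) X) (tau μ (Tn κ t) X) := by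
      intro X
      rw [Finset.disjoint_left]
      intro a h1 h2
      exact (mem_tau.1 h2).2 (mem_tau.1 h1).2
    have hsd : ∀ {Tt : Option Sy → Option Sy → Prop} {X : PW}, PK θ μ κ c (insert t T) X →
        W.nm (pat μ Tt X) \ W.nm μ = tau μ Tt X := by
      intro Tt X hX
      ext a
      exact nm_c hX.1
    have hord : ∀ {Tt : Option Sy → Option Sy → Prop} {X : PW}, PK θ μ κ c (insert t T) X →
        (pat μ Tt X).ord = X.ord.filter (fun a => decide (a ∈ W.nm (pat μ Tt X))) := by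
      intro Tt X hX
      rw [nm_pat hX.1]
      exact Pool.Agent.TH286.J846.ord_rsN _ _
    refine Pool.Agent.TH745.J773.Sys.Ex_kunneth (S := W) (F := W.nm μ)
      (P := PK θ μ κ c (insert t T)) (P1 := PN θ μ (PC μ κ {t}) (DC μ κ {t}) (c t))
      (P2 := PK θ μ κ c T) (PK_inv hE c hT) (PN_inv hEt (c t)) (PK_inv hE c hT')
      (PN_cvx hEt (c t)) (PK_cvx hE c hT') (pat μ (Tc κ t)) (pat μ (Tn κ t))
      ?_ ?_ ?_ ?_ ?_ ?_ ?_ ?_ ?_ ?_ ?_ ?_ ?_ (c t - (μ.ord.length + 1)) _ e1 e2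
    · intro (X : PW) hX
      show PN θ μ (PC μ κ {t}) (DC μ κ {t}) (c t) (pat μ (Tc κ t) X)
      rw [← pc_eq]
      exact hX.2.2 t (Finset.mem_insert_self _ _)
    · intro (X : PW) hX
      exact PK_rest htT hX
    · intro (X : PW) hX
      rw [hsd hX, hsd hX]
      exact htc hX
    · intro (X : PW) hX
      rw [hsd hX, hsd hX]
      exact hdj
    · intro (X : PW) hX
      exact hord hX
    · intro (X : PW) hX
      exact hord hX
    · intro (X : PW) hX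
      rw [nm_pat hX.1, nm_pat hX.1]
      exact ⟨Finset.subset_union_left, Finset.subset_union_left⟩
    · intro (X : PW) hX π hπ
      exact pat_rn hX.1 hπ
    · intro (X : PW) hX π hπ
      exact pat_rn hX.1 hπ
    · intro (X : PW) hX a ha
      rw [hsd hX] at ha
      have h1 := (mem_tau.1 ha).1
      have haX := Finset.mem_sdiff.2 h1
      have hdl : PK θ μ κ c (insert t T) (X.dl a) := PK_dl hE c hT hX haX
      refine ⟨⟨fun _ => ?_, fun _ => hdl⟩, fun _ => ⟨pat_dl' hX.1 h1.2, ?_⟩⟩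
      · show PN θ μ (PC μ κ {t}) (DC μ κ {t}) (c t) ((pat μ (Tc κ t) X).dl a)
        have h2 := hX.2.2 t (Finset.mem_insert_self _ _)
        rw [pc_eq] at h2
        refine PN_dl hEt h2 (nmW.1 ?_) (fun h => h1.2 (nmW.2 h))
        rw [nm_pat hX.1]
        exact Finset.mem_union_right _ ha
      · refine pat_dl hX.1 h1.2 (fun h => ?_)
        exact (Finset.disjoint_left.1 hdj) ha h
    · intro (X : PW) hX a ha
      rw [hsd hX] at ha
      have h1 := (mem_tau.1 ha).1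
      have haX := Finset.mem_sdiff.2 h1
      have hdl : PK θ μ κ c (insert t T) (X.dl a) := PK_dl hE c hT hX haX
      refine ⟨⟨fun _ => ?_, fun _ => hdl⟩, fun _ => ⟨pat_dl' hX.1 h1.2, ?_⟩⟩
      · refine PK_dl hE c hT' (PK_rest htT hX) ?_
        show a ∈ W.nm (pat μ (Tn κ t) X) \ W.nm μ
        rw [hsd hX]
        exact ha
      · refine pat_dl hX.1 h1.2 (fun h => ?_)
        exact (Finset.disjoint_left.1 hdj) h ha
    · intro (X1 : PW) (X2 : PW) h1 h2 hdisj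
      obtain ⟨X, hX, hr1, hr2, hnm⟩ := exists_merge (PC_disj htT) h1.1 h2.1 hdisj
      rw [← PC_union] at hX
      have c1 : ∀ a ∈ W.nm X1 \ W.nm μ, ∀ e, col μ κ X (en a e) = some t := by
        intro a ha e
        have ha' := Finset.mem_sdiff.1 ha
        rw [col_rs hX (ov_nm h1.1) hr1 ((nm_en e).1 ha'.1)]
        obtain ⟨p, hp, hp'⟩ := free_end h1.1 ha e
        rw [col_own hp', Finset.mem_singleton.1 (mem_PC.1 hp).2]
      have c2 : ∀ a ∈ W.nm X2 \ W.nm μ, ∀ e, col μ κ X (en a e) ≠ some t := by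
        intro a ha e
        have ha' := Finset.mem_sdiff.1 ha
        rw [col_rs hX (ov_nm h2.1) hr2 ((nm_en e).1 ha'.1)]
        obtain ⟨p, hp, hp'⟩ := free_end h2.1 ha e
        rw [col_own hp']
        intro h
        exact htT (Option.some.inj h ▸ (mem_PC.1 hp).2)
      have hC : CA μ κ X := by
        intro a ha
        have ha' := Finset.mem_sdiff.1 ha
        rw [hnm, Finset.mem_union] at ha'
        rcases ha'.1 with h | h
        · rw [c1 a (Finset.mem_sdiff.2 ⟨h, ha'.2⟩), c1 a (Finset.mem_sdiff.2 ⟨h, ha'.2⟩)]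
        · rw [col_rs hX (ov_nm h2.1) hr2 ((nm_en false).1 h),
            col_rs hX (ov_nm h2.1) hr2 ((nm_en true).1 h)]
          exact h2.2.1 a (Finset.mem_sdiff.2 ⟨h, ha'.2⟩)
      have t1 : W.nm μ ∪ tau μ (Tc κ t) X = W.nm X1 := by
        ext a
        rw [Finset.mem_union, mem_tau, hnm, Finset.mem_union]
        constructor
        · rintro (h | ⟨⟨h3, h4⟩, h5⟩)
          · exact ov_nm h1.1 h
          · rcases h3 with h3 | h3
            · exact h3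
            · exact absurd h5 (c2 a (Finset.mem_sdiff.2 ⟨h3, h4⟩) false)
        · intro h
          by_cases haμ : a ∈ W.nm μ
          · exact Or.inl haμ
          · exact Or.inr ⟨⟨Or.inl h, haμ⟩, c1 a (Finset.mem_sdiff.2 ⟨h, haμ⟩) false⟩
      have t2 : W.nm μ ∪ tau μ (Tn κ t) X = W.nm X2 := by
        ext a
        rw [Finset.mem_union, mem_tau, hnm, Finset.mem_union]
        constructor
        · rintro (h | ⟨⟨h3, h4⟩, h5⟩)
          · exact ov_nm h2.1 h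
          · rcases h3 with h3 | h3
            · exact absurd (c1 a (Finset.mem_sdiff.2 ⟨h3, h4⟩) false) h5
            · exact h3
        · intro h
          by_cases haμ : a ∈ W.nm μ
          · exact Or.inl haμ
          · exact Or.inr ⟨⟨Or.inr h, haμ⟩, c2 a (Finset.mem_sdiff.2 ⟨h, haμ⟩) false⟩
      have p1 : pat μ (Tc κ t) X = X1 := by
        show rsN (W.nm μ ∪ tau μ (Tc κ t) X) X = X1
        rw [t1]; exact hr1
      have p2 : pat μ (Tn κ t) X = X2 := by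
        show rsN (W.nm μ ∪ tau μ (Tn κ t) X) X = X2
        rw [t2]; exact hr2
      refine ⟨X, ⟨hX, hC, fun t' ht' => ?_⟩, p1, p2⟩
      rcases Finset.mem_insert.1 ht' with rfl | ht'
      · rw [pc_eq, p1]
        exact h1
      · rw [← pc_pat hX (hne t' ht'), p2]
        exact h2.2.2 t' ht'
    · intro (X : PW) (Y : PW) hX hY h1 h2
      have hX1 := hX.1
      have hY1 := hY.1
      rw [PC_union] at hX1 hY1
      have n1 : W.nm (pat μ (Tc κ t) X) = W.nm (pat μ (Tc κ t) Y) := by rw [h1]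
      have n2 : W.nm (pat μ (Tn κ t) X) = W.nm (pat μ (Tn κ t) Y) := by rw [h2]
      refine merge_unique (PC_disj htT) (N1 := W.nm (pat μ (Tc κ t) X))
        (N2 := W.nm (pat μ (Tn κ t) X)) (ov_nm (pat_ov hX.1 rfl)) (ov_nm (pat_ov hX.1 rfl)) hX1 hY1
        ?_ ?_ ?_ ?_
      · intro a ha e
        rw [nm_pat hX.1, nm_pat hX.1]
        rcases two_cases hX.1 hX.2.1 ha e with h | h
        · exact Or.inl ⟨Finset.mem_union_right _ h.1, h.2⟩
        · exact Or.inr ⟨Finset.mem_union_right _ h.1, h.2⟩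
      · intro a ha e
        rw [n1, n2, nm_pat hY.1, nm_pat hY.1]
        rcases two_cases hY.1 hY.2.1 ha e with h | h
        · exact Or.inl ⟨Finset.mem_union_right _ h.1, h.2⟩
        · exact Or.inr ⟨Finset.mem_union_right _ h.1, h.2⟩
      · rw [(pat_rs hX.1 rfl).2, n1, (pat_rs hY.1 rfl).2]
        exact h1
      · rw [(pat_rs hX.1 rfl).2, n2, (pat_rs hY.1 rfl).2]
        exact h2

end

end Pool.Agent.TH515.J1094
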