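import Pool.Agent.TH515.J875b
set_option autoImplicit false

/-! Job 875, part c: step 2. -/
namespace Pool.Agent.TH515.J875
open Pool.Agent.TH547.Arc
open Finset Equiv

theorem order {α : Type} {l : List α} {s q : α} (hs : s ∈ l) (hq : q ∈ l) (hsq : s ≠ q) :
    [s, q].Sublist l ∨ [q, s].Sublist l := by
  obtain ⟨l1, l2, rfl⟩ := List.append_of_mem hs
  rcases List.mem_append.1 hq with h | h
  · right
    have h1 : [q].Sublist l1 := List.singleton_sublist.2 h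
    have h2 : [s].Sublist (s :: l2) := (List.nil_sublist _).cons_cons _
    exact h1.append h2
  · left
    rcases List.mem_cons.1 h with h | h
    · exact absurd h.symm hsq
    · have h1 : [q].Sublist l2 := List.singleton_sublist.2 h
      exact (h1.cons_cons s).trans (List.sublist_append_right _ _)

section
variable {θ : Perm Sy} {μ : PW} {P Dd : Finset Sy} {p q : Sy} {Ψ : PW → Prop} {X Y : PW}

/-- the corners for the new arc -/
structure Cor (θ : Perm Sy) (μ : PW) (P : Finset Sy) (p q : Sy) (Y : PW) (s u v : Sy) : Prop where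
  pure : Pure θ μ P p Y s
  uv : (u = s ∧ v = q) ∨ (u = q ∧ v = s)
  sub : [u, v].Sublist Y.x

theorem own_of_rs (hX : OvP μ P X) (hF : W.nm μ ⊆ W.nm Y) (hY : rsN (W.nm Y) X = Y) {s : Sy}
    (hs : s ∈ Y.x) : own μ.x X.x s = own μ.x Y.x s := by
  have h := OvP_own_rsN hX hF (mem_of_rs hY hs).2
  rw [hY] at h
  exact h.symm

theorem q_own (K : Ctx θ μ P Dd p q Ψ) (hX : OvP μ P X) : q ∈ X.x ∧ own μ.x X.x q = some q := by
  have h1 := (K.hE.sub q K.hq).1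
  exact ⟨ov_sub hX q h1, own_self h1 (ov_sub hX q h1)⟩

theorem cor_sc (K : Ctx θ μ P Dd p q Ψ) {s u v : Sy} (hc : Cor θ μ P p q Y s u v) :
    ¬ (fp θ Y.x).SameCycle s q := hc.pure.2.2 q (Finset.mem_erase.2 ⟨K.hpq.symm, K.hq⟩)

/-- facts on the inserted arc -/
theorem cor_facts (K : Ctx θ μ P Dd p q Ψ) {s u v : Sy} (hc : Cor θ μ P p q Y s u v)
    (hF : W.nm μ ⊆ W.nm Y) (hX : OvP μ P X) (hpat : pat μ (Tb p) X = Y) (hNE : ¬ NE θ Y s X)
    {b : ℕ} (hb : b ∉ W.nm X) :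
    (u ∈ X.x ∧ v ∈ X.x ∧ [u, v].Sublist X.x ∧ u ∉ Dd ∧ v ∉ Dd) ∧
    ¬ (fp θ X.x).SameCycle u v ∧
    OvP μ P (insP u v b X) ∧ pat μ (Tb p) (insP u v b X) = Y ∧ (Ψ (insP u v b X) ↔ Ψ X) := by
  obtain ⟨hnm, hrs⟩ := pat_rs hX hpat
  have hbX : b ∉ X.ord := fun h => hb (nmW.2 h)
  have hbμ' : b ∉ W.nm μ := fun h => hb (ov_nm hX h)
  have hbμ : b ∉ μ.ord := fun h => hbμ' (nmW.2 h)
  have hsX := (mem_of_rs hrs hc.pure.1).1
  have hso : own μ.x X.x s = some p := by rw [own_of_rs hX hF hrs hc.pure.1]; exact hc.pure.2.1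
  obtain ⟨hqX, hqo⟩ := q_own K hX
  have hsub : [u, v].Sublist X.x := hc.sub.trans (sub_of_rs hrs)
  have hsD := not_dead K.hE hX hso K.hp
  have hqD := not_dead K.hE hX hqo K.hq
  have hscY : ¬ (fp θ Y.x).SameCycle s q := cor_sc K hc
  have hcyc := cyc_eq K.hE hX hF hrs hc.pure.1 hNE
  have hscX : ¬ (fp θ X.x).SameCycle s q := fun h => hscY ((hcyc q).2 h)
  have huv : u ∈ X.x ∧ v ∈ X.x ∧ u ∉ Dd ∧ v ∉ Dd ∧ ¬ (fp θ X.x).SameCycle u v ∧
      (∃ p ∈ P, own μ.x X.x u = some p) ∧ (∃ p ∈ P, own μ.x X.x v = some p) ∧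
      ¬ (own μ.x X.x u = some p ∧ own μ.x X.x v = some p) := by
    have hne : ¬ (some q = some p) := fun h => K.hpq (Option.some.inj h).symm
    rcases hc.uv with ⟨rfl, rfl⟩ | ⟨rfl, rfl⟩
    · exact ⟨hsX, hqX, hsD, hqD, hscX, ⟨p, K.hp, hso⟩, ⟨v, K.hq, hqo⟩,
        fun h => hne (hqo.symm.trans h.2)⟩
    · exact ⟨hqX, hsX, hqD, hsD, fun h => hscX h.symm, ⟨u, K.hq, hqo⟩, ⟨p, K.hp, hso⟩,
        fun h => hne (hqo.symm.trans h.1)⟩
  obtain ⟨hu, hv, huD, hvD, hsc, huo, hvo, hno⟩ := huv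
  obtain ⟨i1, i2, i3, i4⟩ := OvP_insP hX hu hv (Or.inr hsub) hbX hbμ huo hvo
  refine ⟨⟨hu, hv, hsub, huD, hvD⟩, hsc, i1, ?_, ?_⟩
  · -- the pattern
    have htau : tau μ (Tb p) (insP u v b X) = tau μ (Tb p) X := by
      ext a
      rw [mem_tau, mem_tau, insP_nm hu hv (Or.inr hsub) hbX, Finset.mem_insert]
      by_cases hab : a = b
      · subst hab
        rw [i2, i3]
        constructor
        · rintro ⟨-, h⟩
          exact absurd h hno
        · rintro ⟨⟨h, -⟩, -⟩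
          exact absurd h hb
      · constructor
        · rintro ⟨⟨h1, h2⟩, h3⟩
          have h4 : a ∈ W.nm X := h1.resolve_left hab
          rw [i4 _ ((nm_en false).1 h4), i4 _ ((nm_en true).1 h4)] at h3
          exact ⟨⟨h4, h2⟩, h3⟩
        · rintro ⟨⟨h1, h2⟩, h3⟩
          rw [i4 _ ((nm_en false).1 h1), i4 _ ((nm_en true).1 h1)]
          exact ⟨⟨Or.inr h1, h2⟩, h3⟩
    have hbn : b ∉ W.nm μ ∪ tau μ (Tb p) X := by
      rw [Finset.mem_union]
      rintro (h | h)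
      · exact hbμ' h
      · exact hb (mem_tau.1 h).1.1
    unfold pat
    rw [htau, rsN_insP_of_not_mem hu hv (Or.inr hsub) hbX hbn]
    exact hpat
  · -- the condition
    refine K.hins X s u v b hX hsX hso ?_ hc.uv hsub hbX hbμ
    intro t ht
    have htY : t ∈ Y.x := by
      by_contra hcon
      exact hNE ⟨t, ht, hcon⟩
    refine ⟨fun hO => hc.pure.2.2 t hO ((hcyc t).2 ht), ?_⟩
    by_cases htμ : t ∈ μ.x
    · exact Or.inl htμ
    · right
      obtain ⟨a, e, rfl, haF, haτ⟩ := pat_letter hX hpat htY htμ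
      have h1 := (mem_tau.1 haτ).2
      have h2 : θ (en a e) = en a (!e) := K.hE.flip a (fun h => haF (nmW.2 h)) e
      rw [h2]
      cases e
      · exact ⟨h1.1, h1.2⟩
      · exact ⟨h1.2, h1.1⟩

theorem offA_Y {a : ℕ} (ha : a ∉ W.nm Y) {t : Sy} (ht : t ∈ Y.x) : offA a t = true := by
  rw [offA_iff]
  constructor
  · rintro rfl; exact ha ((nm_en false).2 ht)
  · rintro rfl; exact ha ((nm_en true).2 ht)

theorem step2 (K : Ctx θ μ P Dd p q Ψ) (hYo : OvP μ P Y) {C : Finset Sy}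
    (hC : ∀ s ∈ C, Pure θ μ P p Y s) {s : Sy} (hs : Pure θ μ P p Y s) {j : ℕ}
    (e : Sys.Ex (S := W) (W.nm Y) (PC θ μ P p Ψ Y (insert s C)) j) :
    Sys.Ex (S := W) (W.nm Y) (PC θ μ P p Ψ Y C) j := by
  classical
  have hF : W.nm μ ⊆ W.nm Y := ov_nm hYo
  have hCY : ∀ s ∈ C, s ∈ Y.x := fun t ht => (hC t ht).1
  have hP := PC_inv K hF hCY
  have hcv := PC_cvx K hF hCY
  obtain ⟨u, v, hcor⟩ : ∃ u v, Cor θ μ P p q Y s u v := by
    obtain ⟨hqY, hqo⟩ := q_own K hYo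
    have hne : s ≠ q := by
      rintro rfl
      rw [hs.2.1] at hqo
      exact K.hpq (Option.some.inj hqo)
    rcases order hs.1 hqY hne with h | h
    · exact ⟨s, q, hs, Or.inl ⟨rfl, rfl⟩, h⟩
    · exact ⟨q, s, hs, Or.inr ⟨rfl, rfl⟩, h⟩
  set P1 : PW → Prop := fun X => PC θ μ P p Ψ Y C X ∧ ¬ NE θ Y s X with hP1
  set P2 : PW → Prop := fun X => PC θ μ P p Ψ Y C X ∧ NE θ Y s X with hP2
  have h1 : Sys.Inv (S := W) (W.nm Y) P1 := by
    intro π hπ X hX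
    exact ⟨hP π hπ X hX.1, fun h => hX.2 ((NE_rn_iff K.hE hF hπ hs.1).1 h)⟩
  have h2 : Sys.Inv (S := W) (W.nm Y) P2 := by
    intro π hπ X hX
    exact ⟨hP π hπ X hX.1, NE_rn K.hE hF hπ hs.1 hX.2⟩
  have hsub : ∀ X : PW, P1 X → ∀ a ∈ W.nm X \ W.nm Y, PC θ μ P p Ψ Y C (X.dl a) → P1 (X.dl a) := by
    intro X hX a ha hdl
    refine ⟨hdl, ?_⟩
    exact NE_dl K.hE hX.1.1.1.1 hF (pat_rs hX.1.1.1.1 hX.1.1.2).2 hs.1 hX.2 (Finset.mem_sdiff.1 ha).2
  refine Pool.Agent.TH553.J769.Final.Ex_of_NH (S := W) (F := W.nm Y) (P := PC θ μ P p Ψ Y C) (P1 := P1) (P2 := P2) hP h1 h2 hcv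
    ?_ ?_ hsub ?_ ?_
  · intro X
    by_cases h : NE θ Y s X
    · exact ⟨fun hX => Or.inr ⟨hX, h⟩, fun hX => hX.elim (fun h => h.1) (fun h => h.1)⟩
    · exact ⟨fun hX => Or.inl ⟨hX, h⟩, fun hX => hX.elim (fun h => h.1) (fun h => h.1)⟩
  · intro X hX hX'
    exact hX.2 hX'.2
  · -- the null-homotopy
    refine Pool.Agent.TH304.J770.NH_of_ins (S := W) (F := W.nm Y) (P := PC θ μ P p Ψ Y C) (P1 := P1) hP h1 (fun X hX => hX.1) hsub (fun b X => insP u v b X)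
      ?_ ?_ ?_ ?_ ?_ ?_ j
    · intro (X : PW) b hX hb _
      have hf := cor_facts K hcor hF hX.1.1.1.1 hX.1.1.2 hX.2 hb
      exact insP_nm hf.1.1 hf.1.2.1 (Or.inr hf.1.2.2.1) (fun h => hb (nmW.2 h))
    · intro (X : PW) b hX hb _
      have hf := cor_facts K hcor hF hX.1.1.1.1 hX.1.1.2 hX.2 hb
      exact insP_dl_self hf.1.1 hf.1.2.1 (Or.inr hf.1.2.2.1) (fun h => hb (nmW.2 h))
    · -- `P_C (ins b X)`
      intro (X : PW) b hX hb hbY
      have hXo := hX.1.1.1.1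
      have hf := cor_facts K hcor hF hXo hX.1.1.2 hX.2 hb
      refine ⟨⟨⟨hf.2.2.1, hf.2.2.2.2.2 hX.1.1.1.2⟩, hf.2.2.2.1⟩, fun s' hs' => ?_⟩
      obtain ⟨t, ht1, ht2⟩ := hX.1.2 s' hs'
      have hrs := (pat_rs hXo hX.1.1.2).2
      have hs'X := (mem_of_rs hrs (hCY s' hs')).1
      have hs'o : own μ.x X.x s' = some p := by
        rw [own_of_rs hXo hF hrs (hCY s' hs')]; exact (hC s' hs').2.1
      have hs'D := not_dead K.hE hXo hs'o K.hp
      obtain ⟨htX, htD⟩ := sc_live K.hE hXo hs'X hs'D ht1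
      have hbμ : b ∉ μ.ord := fun h => hb (ov_nm hXo (nmW.2 h))
      refine ⟨t, ?_, ht2⟩
      refine (insP_sc_merge (fp_inv K.hE hXo) (fun s hs => ov_sub hXo s (K.hE.dsub s hs))
        (K.hE.flip b hbμ false) (K.hE.flip b hbμ true) hf.1.1 hf.1.2.2.2.1 hf.1.2.1
        hf.1.2.2.2.2 (Or.inr hf.1.2.2.1) (fun h => hb (nmW.2 h)) hf.2.1 hs'X hs'D htX htD).2 (Or.inl ht1)
    · -- commutation
      intro (X : PW) b hX hb hbY a ha _
      have hf := cor_facts K hcor hF hX.1.1.1.1 hX.1.1.2 hX.2 hb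
      have haX := (Finset.mem_sdiff.1 ha).1
      have haY := (Finset.mem_sdiff.1 ha).2
      refine insP_dl hf.1.1 hf.1.2.1 (Or.inr hf.1.2.2.1) (fun h => hb (nmW.2 h))
        (fun h => hb (h ▸ haX)) (offA_Y haY (hcor.sub.subset (by simp)))
        (offA_Y haY (hcor.sub.subset (by simp)))
    · -- new faces
      intro (X : PW) b hX hb hbY a ha (hd : PC θ μ P p Ψ Y C ((insP u v b X).dl a))
      have hXo := hX.1.1.1.1
      have hf := cor_facts K hcor hF hXo hX.1.1.2 hX.2 hb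
      have haX := (Finset.mem_sdiff.1 ha).1
      have haY := (Finset.mem_sdiff.1 ha).2
      have hcomm : (insP u v b X).dl a = insP u v b (X.dl a) :=
        insP_dl hf.1.1 hf.1.2.1 (Or.inr hf.1.2.2.1) (fun h => hb (nmW.2 h))
        (fun h => hb (h ▸ haX)) (offA_Y haY (hcor.sub.subset (by simp)))
        (offA_Y haY (hcor.sub.subset (by simp)))
      rw [hcomm] at hd
      have hrs := (pat_rs hXo hX.1.1.2).2
      have haτ := not_tau hXo hX.1.1.2 haY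
      have haμ : a ∉ μ.ord := fun h => haτ.1 (nmW.2 h)
      have hX'o : OvP μ P (X.dl a) := OvP_dl hXo haμ
      have hX'p : pat μ (Tb p) (X.dl a) = Y := by
        rw [pat_dl hXo haτ.1 haτ.2]; exact hX.1.1.2
      have hNE' : ¬ NE θ Y s (X.dl a) := NE_dl K.hE hXo hF hrs hs.1 hX.2 haY
      have hb' : b ∉ W.nm (X.dl a) := by
        rw [nm_dlW, Finset.mem_erase]; exact fun h => hb h.2
      have hf' := cor_facts K hcor hF hX'o hX'p hNE' hb'
      have hrs' := (pat_rs hX'o hX'p).2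
      have hbμ : b ∉ μ.ord := fun h => hb (ov_nm hXo (nmW.2 h))
      show PC θ μ P p Ψ Y C (X.dl a)
      refine ⟨⟨⟨hX'o, hf'.2.2.2.2.1 hd.1.1.2⟩, hX'p⟩, fun s' hs' => ?_⟩
      by_contra hcon
      have hs'Y := hCY s' hs'
      have hs'X' := (mem_of_rs hrs' hs'Y).1
      have hs'o : own μ.x (X.dl a).x s' = some p := by
        rw [own_of_rs hX'o hF hrs' hs'Y]; exact (hC s' hs').2.1
      have hs'D := not_dead K.hE hX'o hs'o K.hp
      -- `s'` is not on the cycle of `q`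
      have n1 : ¬ (fp θ (X.dl a).x).SameCycle q s' := by
        intro h
        have h3 := (cyc_eq K.hE hX'o hF hrs' hs'Y hcon q).2 h.symm
        exact (hC s' hs').2.2 q (Finset.mem_erase.2 ⟨K.hpq.symm, K.hq⟩) h3
      -- nor on the cycle of `s`
      have n2 : ¬ (fp θ (X.dl a).x).SameCycle s s' := by
        intro h
        have h3 := (cyc_dl K.hE hXo hF hrs hs.1 hX.2 haY s').1 h
        obtain ⟨t, ht1, ht2⟩ := hX.1.2 s' hs'
        exact hX.2 ⟨t, h3.trans ht1, ht2⟩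
      have n3 : ¬ (fp θ (X.dl a).x).SameCycle u s' ∧ ¬ (fp θ (X.dl a).x).SameCycle v s' := by
        rcases hcor.uv with ⟨rfl, rfl⟩ | ⟨rfl, rfl⟩
        · exact ⟨n2, n1⟩
        · exact ⟨n1, n2⟩
      obtain ⟨t, ht1, ht2⟩ := hd.2 s' hs'
      have hord' : b ∉ (X.dl a).ord := fun h => hb' (nmW.2 h)
      have hinv' := fp_inv K.hE hX'o
      have hD' : ∀ s ∈ Dd, s ∈ (X.dl a).x := fun s hs => ov_sub hX'o s (K.hE.dsub s hs)
      have hfar := insP_sc_far_new hinv' hD' (K.hE.flip b hbμ false) (K.hE.flip b hbμ true)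
        hf'.1.1 hf'.1.2.2.2.1 hf'.1.2.1 hf'.1.2.2.2.2 (Or.inr hf'.1.2.2.1) hord' hs'X' hs'D n3.1 n3.2
      have hmem := insP_mem hf'.1.1 hf'.1.2.1 (Or.inr hf'.1.2.2.1) hord'
      have ht3 : t ∈ (insP u v b (X.dl a)).x ∧ t ∉ Dd :=
        sc_live K.hE hd.1.1.1 ((hmem s').2 (Or.inl hs'X')) hs'D ht1
      rcases (hmem t).1 ht3.1 with h | h | h
      · have h4 := (insP_sc_far hinv' hD' (K.hE.flip b hbμ false) (K.hE.flip b hbμ true)
          hf'.1.1 hf'.1.2.2.2.1 hf'.1.2.1 hf'.1.2.2.2.2 (Or.inr hf'.1.2.2.1) hord' hs'X' hs'D h ht3.2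
          n3.1 n3.2).1 ht1
        exact hcon ⟨t, h4, ht2⟩
      · exact hfar.1 (h ▸ ht1)
      · exact hfar.2 (h ▸ ht1)
    · -- renaming
      intro (X : PW) b hX hb hbY π hπ
      have hf := cor_facts K hcor hF hX.1.1.1.1 hX.1.1.2 hX.2 hb
      have hfix := (rnS_fix hπ (Finset.Subset.refl _)).1
      exact insP_rn hf.1.1 hf.1.2.1 (Or.inr hf.1.2.2.1) (fun h => hb (nmW.2 h)) π
        (hfix u (hcor.sub.subset (by simp))) (hfix v (hcor.sub.subset (by simp)))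
  · -- the quotient
    have heq : PC θ μ P p Ψ Y (insert s C) = P2 := by
      funext X
      apply propext
      constructor
      · rintro ⟨h, h'⟩
        exact ⟨⟨h, fun t ht => h' t (Finset.mem_insert_of_mem ht)⟩, h' s (Finset.mem_insert_self _ _)⟩
      · rintro ⟨⟨h, h'⟩, h''⟩
        refine ⟨h, fun t ht => ?_⟩
        rcases Finset.mem_insert.1 ht with rfl | ht
        · exact h''
        · exact h' t ht
    rw [← heq]
    exact e

end

end Pool.Agent.TH515.J875
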