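import Pool.Agent.TH547.Arc.Piece
import Pool.Agent.TH515.J875c
import Pool.Agent.TH745.J773
import Pool.Agent.TH110.J874
import Pool.Agent.TH745.J1093
set_option autoImplicit false

/-! Job 1094: results of other jobs which are used. -/
namespace Pool.Agent.TH515.J1094
open Pool.Agent.TH547.Arc
open Finset Equiv

theorem PN_inv {θ : Perm Sy} {μ : PW} {P Dd : Finset Sy} (hE : Env θ μ P Dd) (c : ℕ) :
    Sys.Inv (S := W) (W.nm μ) (PN θ μ P Dd c) := by apply Pool.Agent.TH110.J874.PN_inv <;> assumption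
theorem PN_dl {θ : Perm Sy} {μ : PW} {P Dd : Finset Sy} (hE : Env θ μ P Dd) {c : ℕ} {X : PW}
    (hX : PN θ μ P Dd c X) {a : ℕ} (ha : a ∈ X.ord) (haμ : a ∉ μ.ord) :
    PN θ μ P Dd c (X.dl a) := by apply Pool.Agent.TH110.J874.PN_dl <;> assumption
theorem PN_cvx {θ : Perm Sy} {μ : PW} {P Dd : Finset Sy} (hE : Env θ μ P Dd) (c : ℕ) :
    Sys.Cvx (S := W) (W.nm μ) (PN θ μ P Dd c) := by apply Pool.Agent.TH110.J874.PN_cvx <;> assumption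

section
variable {μ : PW} {P1 P2 : Finset Sy} (hd : Disjoint P1 P2)
include hd

/-- Two words over `μ` with arcs in different blocks can be merged. -/
theorem exists_merge {X1 X2 : PW} (h1 : OvP μ P1 X1) (h2 : OvP μ P2 X2)
    (hn : Disjoint (W.nm X1 \ W.nm μ) (W.nm X2 \ W.nm μ)) :
    ∃ X : PW, OvP μ (P1 ∪ P2) X ∧ rsN (W.nm X1) X = X1 ∧ rsN (W.nm X2) X = X2 ∧
      W.nm X = W.nm X1 ∪ W.nm X2 := by apply Pool.Agent.TH745.J1093.exists_merge <;> assumption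

/-- The merged word is unique. -/
theorem merge_unique {X Y : PW} {N1 N2 : Finset ℕ} (hμ1 : W.nm μ ⊆ N1) (hμ2 : W.nm μ ⊆ N2)
    (hX : OvP μ (P1 ∪ P2) X) (hY : OvP μ (P1 ∪ P2) Y)
    (hX' : ∀ a ∈ W.nm X \ W.nm μ, ∀ e, (a ∈ N1 ∧ ∃ p ∈ P1, own μ.x X.x (en a e) = some p) ∨
      (a ∈ N2 ∧ ∃ p ∈ P2, own μ.x X.x (en a e) = some p))
    (hY' : ∀ a ∈ W.nm Y \ W.nm μ, ∀ e, (a ∈ N1 ∧ ∃ p ∈ P1, own μ.x Y.x (en a e) = some p) ∨
      (a ∈ N2 ∧ ∃ p ∈ P2, own μ.x Y.x (en a e) = some p))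
    (h1 : rsN N1 X = rsN N1 Y) (h2 : rsN N2 X = rsN N2 Y) : X = Y :=
  Pool.Agent.TH745.J1093.merge_unique hd hμ1 hμ2 hX hY hX' hY' h1 h2
end

end Pool.Agent.TH515.J1094
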