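import Pool.Agent.TH515.J1113b
set_option autoImplicit false

/-! Job 1113: regions with at most one puncture. -/
namespace Pool.Agent.TH515.J1113
open Pool.Agent.TH547.Arc
open Finset Equiv
open Pool.Agent.TH515.J875 (tau pat mem_tau nm_pat tau_rn pat_rn tau_dl pat_dl pat_rs pat_ov nmW
  nm_en nm_dlW ov_sub ov_nm ov_mr own_of_rs mem_of_rs nm_of_rs OvP_dl OvP_own_dl OvP_rsN
  OvP_own_rsN OvP_rn OvP_own_rn own_self own_spec own_exists rsN_dl dl_rsN rsN_rsN rsN_rn
  rsN_of_subset rsN_congr mem_rsN nm_rsN fix_mem last_mem own_ex fp_mem fp_letter)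
open Pool.Agent.TH515.J1094 (mem_PC mem_DC PC_sub pc_eq arcsC_eq free_end pc_self col_dl CA_dl
  PK_inv PK_dl PK_cvx PK_ex col_own nm_c)

section
variable {θ : Perm Sy} {E : RW}

/-- both sides of a free arc lie in the same region -/
theorem free_R (hE : EnvR θ E) (hdf : E.df = 0) {X : RW} (hX : OvR θ E X) {a : ℕ}
    (ha : a ∈ RWS.nm X \ RWS.nm E) : X.R (en a false) (en a true) := by
  by_contra hR
  have ha' := Finset.mem_sdiff.1 ha
  have haX : a ∈ X.w.ord := Pool.Agent.TH295.J986.mem_nm.1 ha'.1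
  have h1 := Pool.Agent.TH745.J984.RW.df_not_R hX.1 (Pool.Agent.TH295.J986.flipR hE ha'.2) haX hR
    (hX.2.2 a ha)
  have hX' := Pool.Agent.TH295.J986.OvR_dl hE hX ha
  obtain ⟨l, n, hl⟩ := hE.good.2.2.2
  have h2 := (Pool.Agent.TH295.J986.df_up hE hX' (m0 := mr n) (by rw [hl]; simp)).1
  omega

/-- colours of a free arc, and the region word is determined by its word -/
theorem OvR_main (hE : EnvR θ E) (hdf : E.df = 0) {X : RW} (hX : OvR θ E X) :
    CA E.w E.kap X.w ∧ mkR E X.w = X := by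
  refine Pool.Agent.TH295.J986.OvR_induct hE (p := fun X => CA E.w E.kap X.w ∧ mkR E X.w = X)
    ⟨?_, mkR_self⟩ ?_ X hX
  · intro a ha
    exact absurd (Finset.mem_sdiff.1 ha).1 (Finset.mem_sdiff.1 ha).2
  · intro X a hX ha hX' ih
    obtain ⟨ihC, ihX⟩ := ih
    have ha' := Finset.mem_sdiff.1 ha
    have haX : a ∈ X.w.ord := Pool.Agent.TH295.J986.mem_nm.1 ha'.1
    have haE : a ∉ E.w.ord := fun h => ha'.2 (Pool.Agent.TH295.J986.mem_nm.2 h)
    have hf := Pool.Agent.TH295.J986.flipR hE ha'.2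
    have hXo := OvR_ov hX
    have hXo' : OvP E.w E.w.x.toFinset (X.w.dl a) := OvR_ov hX'
    have hXR := free_R hE hdf hX ha
    have haW : a ∈ W.nm X.w \ RWS.nm E := ha
    have haμ : a ∉ W.nm E.w := ha'.2
    have hfree : ∀ e, en a e ∉ E.w.x := fun e h => haE ((PW.mem_ord' e).2 h)
    have ha0 : ∀ e, en a e ∈ X.w.x := fun e => (PW.mem_ord' e).1 haX
    have hcd : ∀ s ∈ (X.dl a).w.x, col E.w E.kap (X.w.dl a) s = col E.w E.kap X.w s := by
      intro s hs
      unfold col
      rw [OvP_own_dl hXo haE (Pool.Agent.TH295.J986.mem_dl.1 hs).2]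
    obtain ⟨u, hu, r, hr, hfp⟩ := Pool.Agent.TH745.J984.dat hX.1 haX
    have hu' := Pool.Agent.TH745.J984.mem_x'.1 hu
    have hr' := Pool.Agent.TH745.J984.mem_x'.1 hr
    have hval : ∀ s, fp θ X.w.x s =
        swap (en a true) r (swap (en a false) u (fp θ (X.dl a).w.x s)) := by
      intro s; rw [hfp]; rfl
    have h0 : fp θ X.w.x (en a false) = r := by
      rw [hval, Pool.Agent.TH745.J984.fp0 hf,
        swap_apply_of_ne_of_ne (Ne.symm Pool.Agent.TH745.J984.ne01) (Ne.symm hu'.2.2),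
        swap_apply_left]
    have hR0 : X.R (en a false) r := h0 ▸ hX.1.1 _ (ha0 false)
    have o0 : own E.w.x X.w.x r = own E.w.x X.w.x (en a true) := by
      have := fp_letter (envA hE) hXo (ha0 false) (hfree false)
      rwa [h0, hf.1] at this
    -- colours of the two ends
    have hcol : col E.w E.kap X.w (en a false) = col E.w E.kap X.w (en a true) := by
      have o1 := fp_letter (envA hE) hXo (ha0 true) (hfree true)
      rw [hf.2] at o1
      by_cases hur : u = r
      · have h1 : fp θ X.w.x (en a true) = en a true := by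
          rw [hval, Pool.Agent.TH745.J984.fp1 hf, swap_apply_left, hur, swap_apply_right]
        rw [h1] at o1
        unfold col
        rw [o1]
      · have h1 : fp θ X.w.x (en a true) = u := by
          rw [hval, Pool.Agent.TH745.J984.fp1 hf, swap_apply_left,
            swap_apply_of_ne_of_ne hu'.2.2 hur]
        rw [h1] at o1
        have hR1 : X.R (en a true) u := h1 ▸ hX.1.1 _ (ha0 true)
        have hRur : X.R u r := X.trans' _ _ _ (X.symm' _ _ hR1) (X.trans' _ _ _ (X.symm' _ _ hXR) hR0)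
        have hRur' : (X.dl a).R u r := Pool.Agent.TH745.J984.RW.R_dl_of_R hu hr hRur
        have hw : (mkR E (X.w.dl a)).R u r := by
          have : mkR E (X.w.dl a) = X.dl a := ihX
          rw [this]
          exact hRur'
        have h2 := (mkR_R hXo' hu hr).1 hw
        rw [hcd u hu, hcd r hr] at h2
        unfold col at h2 ⊢
        rw [← o0, ← o1]
        exact h2
    have hC : CA E.w E.kap X.w := by
      intro b hb
      by_cases hba : b = a
      · rw [hba]; exact hcol
      · have hb' := Finset.mem_sdiff.1 hb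
        have h3 := ihC b (by
          rw [Finset.mem_sdiff]
          refine ⟨?_, hb'.2⟩
          show b ∈ W.nm (X.w.dl a)
          rw [nm_dlW, Finset.mem_erase]
          exact ⟨hba, hb'.1⟩)
        have h4 : ∀ e, col E.w E.kap (X.dl a).w (en b e) = col E.w E.kap X.w (en b e) :=
          fun e => col_dl hXo haμ hba e
        rw [h4, h4] at h3
        exact h3
    refine ⟨hC, ?_⟩
    have hd : (mkR E X.w).dl a = X.dl a := by
      rw [mkR_dl hXo haW hcol]
      exact ihX
    refine rw_det (X := X) (Z := mkR E X.w) (u := r) rfl hd haX hXR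
      ((mkR_R hXo (ha0 false) (ha0 true)).2 hcol) hr hR0 ((mkR_R hXo (ha0 false) hr'.1).2 ?_)
    rw [hcol]
    unfold col
    rw [o0]

theorem OvR_mkR (hE : EnvR θ E) (hdf : E.df = 0) {X : RW} (hX : OvR θ E X) :
    mkR E X.w = X := (OvR_main hE hdf hX).2

theorem OvR_PK (hE : EnvR θ E) (hdf : E.df = 0) {X : RW} (hX : OvR θ E X) :
    PK θ E.w E.kap (cE E) E.reps X.w := by
  obtain ⟨hC, hXX⟩ := OvR_main hE hdf hX
  have hXo := OvR_ov hX
  have hK := EnvR.envK hE
  refine ⟨by rw [PC_reps]; exact hXo, hC, fun t ht => ⟨?_, ?_⟩⟩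
  · -- the piece is over `E.w`
    rw [pc_eq]
    have hZo := pat_ov (T := Pool.Agent.TH515.J1094.Tc E.kap t) hXo rfl
    have hrs := pat_rs (T := Pool.Agent.TH515.J1094.Tc E.kap t) hXo rfl
    refine ⟨hZo.1, hZo.2.1, fun s hs hsμ => ?_⟩
    rcases s with n | ⟨a, e⟩
    · exact absurd (ov_mr hZo hs) hsμ
    · have haZ := (nm_en e).2 hs
      have haμ : a ∉ W.nm E.w := fun h => hsμ ((nm_en e).1 h)
      have h1 := (nm_c hXo).1 (Finset.mem_sdiff.2 ⟨haZ, haμ⟩)
      have haX : a ∈ W.nm X.w \ W.nm E.w := Finset.mem_sdiff.2 (mem_tau.1 h1).1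
      obtain ⟨p, hp, hp'⟩ := free_end hXo haX e
      refine ⟨p, mem_PC.2 ⟨List.mem_toFinset.1 hp, ?_⟩, ?_⟩
      · have h2 : col E.w E.kap X.w (en a false) = some t := (mem_tau.1 h1).2
        have h3 : col E.w E.kap X.w (en a e) = some t := by
          cases e
          · exact h2
          · rw [← hC a haX]; exact h2
        rw [col_own hp'] at h3
        rw [Option.some.inj h3]
        exact Finset.mem_singleton_self _
      · rw [← own_of_rs hXo (ov_nm hZo) hrs.2 hs]
        exact hp'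
  · -- the bound
    obtain ⟨htE, hkt⟩ := kap_rep ht
    have htX : t ∈ X.w.x := Pool.Agent.TH295.J986.OvR_x hX htE
    have hto : own E.w.x X.w.x t = some t := own_self htE htX
    have hcol : col E.w E.kap X.w t = some t := by rw [col_own hto, hkt]
    obtain ⟨h, hh⟩ := hX.1.2.1 t htX
    rw [← hXX] at hh
    have h1 : (mkR E X.w).cls t =
        X.w.x.toFinset.filter (fun u => col E.w E.kap X.w u = some t) := by
      rw [mkR_cls hXo htX, hcol]
    have h2 : ncy (fp θ X.w.x) ((mkR E X.w).cls t) =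
        nf θ (DC E.w E.kap {t}) (pc E.w E.kap t X.w).x := by
      rw [nf_pc hK hXo hC t, h1]
    have h3 : (mkR E X.w).χ t = E.χ t + (arcsC E.w E.kap t X.w).card := by
      rw [mkR_χ htX hto, kE_eq hXo htE, hkt]
    have hh' : (ncy (fp θ X.w.x) ((mkR E X.w).cls t) : ℤ) + (mkR E X.w).χ t = 2 - 2 * h := hh
    rw [h2, h3] at hh'
    have h5 := length_pc (κ := E.kap) hXo t
    have h9 : cE E t = (2 - E.χ t).toNat + E.w.ord.length := rfl
    have h8 := chi_le hE.good htE
    rw [h5, h9]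
    omega

/-- at most one puncture in each region: exactness from the theorem for words -/
theorem D_thm (hN : ∀ (P Dd : Finset Sy) (c : ℕ), Env θ E.w P Dd →
      (nf θ Dd E.w.x + E.w.ord.length) % 2 = c % 2 → ∀ i : ℕ, i + E.w.ord.length + 1 < c →
      Sys.Ex (S := W) (W.nm E.w) (PN θ E.w P Dd c) i)
    (hE : EnvR θ E) (hdf : E.df = 0) (i : ℕ) (hi : (i : ℤ) < E.rk) :
    Sys.Ex (S := RWS) (RWS.nm E) (OvR θ E) i := by
  have hK := EnvR.envK hE
  have hT : ∀ t ∈ E.reps, ∃ s ∈ E.w.x, E.kap s = t := fun t ht =>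
    ⟨t, (kap_rep ht).1, (kap_rep ht).2⟩
  refine (Pool.Agent.TH745.J772.Sys.Ex_transfer (S := RWS) (T := W) (F := RWS.nm E)
    (P := OvR θ E) (R := PK θ E.w E.kap (cE E) E.reps) (Pool.Agent.TH295.J986.OvR_inv hE)
    (PK_inv hK (cE E) hT) (fun X => RW.w X) ?_ ?_ ?_ ?_ ?_ ?_ ?_).1 ?_
  · intro X _; rfl
  · intro X _ a _; rfl
  · intro X _ π _; rfl
  · intro (X : RW) hX a ha
    have h1 := Pool.Agent.TH295.J986.OvR_dl hE hX ha
    exact ⟨fun _ => h1, fun _ => OvR_PK hE hdf h1⟩
  · intro (X : RW) hX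
    exact OvR_PK hE hdf hX
  · intro (X : RW) (Y : RW) hX hY (h : X.w = Y.w)
    rw [← OvR_mkR hE hdf hX, ← OvR_mkR hE hdf hY, h]
  · intro (Y : PW) hY
    exact ⟨mkR E Y, mkR_OvR hE hY, rfl⟩
  · refine PK_ex hN hK (cE E) E.reps hT (fun t ht => cE_parity hE ht) i ?_
    rw [rk_cE hE.good hdf] at hi
    exact_mod_cast hi

end

end Pool.Agent.TH515.J1113
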