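import Pool.Agent.TH515.J1113s
set_option autoImplicit false

/-! Job 1113, part a: from words to region words. -/
namespace Pool.Agent.TH515.J1113
open Pool.Agent.TH547.Arc
open Finset Equiv
open Pool.Agent.TH515.J875 (tau pat mem_tau nm_pat tau_rn pat_rn tau_dl pat_dl pat_rs pat_ov nmW
  nm_en nm_dlW ov_sub ov_nm ov_mr own_of_rs mem_of_rs nm_of_rs OvP_dl OvP_own_dl OvP_rsN
  OvP_own_rsN OvP_rn OvP_own_rn own_self own_spec own_exists rsN_dl dl_rsN rsN_rsN rsN_rn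
  rsN_of_subset rsN_congr mem_rsN nm_rsN fix_mem last_mem own_ex fp_mem fp_letter)
open Pool.Agent.TH515.J1094 (mem_PC mem_DC PC_sub pc_eq arcsC_eq free_end pc_self col_dl CA_dl
  PK_inv PK_dl PK_cvx PK_ex col_own nm_c)

section
variable {θ : Perm Sy} {E : RW}

theorem envT (hE : EnvR θ E) {t : Sy} (ht : t ∈ E.reps) :
    Env θ E.w (PC E.w E.kap {t}) (DC E.w E.kap {t}) :=
  Pool.Agent.TH515.J1094.EnvK.env (EnvR.envK hE)
    ⟨t, (kap_rep ht).1, by rw [(kap_rep ht).2]; exact Finset.mem_singleton_self _⟩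

theorem ovF {X : PW} (hX : OvP E.w (PC E.w E.kap E.reps) X) : OvP E.w E.w.x.toFinset X := by
  rw [← PC_reps]
  exact hX

/-- the environment with all blocks allowed -/
theorem envA (hE : EnvR θ E) : Env θ E.w E.w.x.toFinset ∅ := by
  obtain ⟨l, n, hl⟩ := hE.good.2.2.2
  exact
  { flip := hE.flip
    pres := hE.pres
    last := ⟨l, n, hl⟩
    sub := fun s hs => ⟨List.mem_toFinset.1 hs, Finset.notMem_empty s⟩
    dsub := fun s hs => absurd hs (Finset.notMem_empty s)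
    dinv := fun s hs => absurd hs (Finset.notMem_empty s)
    live := fun s hs _ => ⟨s, List.mem_toFinset.2 hs, Perm.SameCycle.refl _ _⟩
    ne := ⟨mr n, by rw [List.mem_toFinset, hl]; simp⟩ }

/-- colour of a symbol -/
theorem col_ex (hE : EnvR θ E) {X : PW} (hX : OvP E.w E.w.x.toFinset X) {s : Sy} (hs : s ∈ X.x) :
    ∃ m ∈ E.w.x, own E.w.x X.x s = some m ∧ col E.w E.kap X s = some (E.kap m) := by
  obtain ⟨m, hm, hm'⟩ := own_ex (envA hE) hX hs
  exact ⟨m, hm, hm', col_own hm'⟩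

/-- the class of a symbol in `mkR` -/
theorem mkR_cls {X : PW} (hX : OvP E.w E.w.x.toFinset X) {s : Sy} (hs : s ∈ X.x) :
    (mkR E X).cls s = X.x.toFinset.filter (fun u => col E.w E.kap X u = col E.w E.kap X s) := by
  ext u
  rw [Pool.Agent.TH745.J984.mem_cls, Finset.mem_filter, List.mem_toFinset]
  constructor
  · intro h
    have hu : u ∈ X.x := (mkR E X).mem' _ _ ((mkR E X).symm' _ _ h)
    exact ⟨hu, ((mkR_R hX hs hu).1 h).symm⟩
  · rintro ⟨hu, h⟩
    exact (mkR_R hX hs hu).2 h.symm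

theorem mkR_χ {X : PW} {s m : Sy} (hs : s ∈ X.x) (hm : own E.w.x X.x s = some m) :
    (mkR E X).χ s = E.χ m + kE E X m := by
  show (if s ∈ X.x then (((own E.w.x X.x s).map (fun m => E.χ m + (kE E X m : ℤ))).getD 0) else 0) = _
  rw [if_pos hs, hm]
  rfl

theorem mkR_S {X : PW} {s m : Sy} (hs : s ∈ X.x) (hm : own E.w.x X.x s = some m) :
    (mkR E X).S s = E.S m := by
  show (if s ∈ X.x then (((own E.w.x X.x s).map E.S).getD ∅) else ∅) = _
  rw [if_pos hs, hm]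
  rfl

theorem mkR_good (hE : EnvR θ E) {X : PW} (hX : PK θ E.w E.kap (cE E) E.reps X) :
    RW.Good θ (mkR E X) := by
  have hXo := ovF hX.1
  have hK := EnvR.envK hE
  refine ⟨?_, ?_, ?_, ?_⟩
  · intro s hs
    obtain ⟨h1, h2⟩ := col_fp hK hXo hX.2.1 s hs
    exact (mkR_R hXo hs h1).2 h2.symm
  · intro s hs
    have hs' : s ∈ X.x := hs
    obtain ⟨m, hm, hm', hcol⟩ := col_ex hE hXo hs'
    set t := E.kap m with ht
    have htr : t ∈ E.reps := kap_reps hm
    have hmt : E.R m t := kap_R hm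
    have h1 : (mkR E X).cls s = X.x.toFinset.filter (fun u => col E.w E.kap X u = some t) := by
      rw [mkR_cls hXo hs', hcol]
    have h2 : ncy (fp θ X.x) ((mkR E X).cls s) = nf θ (DC E.w E.kap {t}) (pc E.w E.kap t X).x := by
      rw [nf_pc hK hXo hX.2.1 t, h1]
    have h3 : (mkR E X).χ s = E.χ t + (arcsC E.w E.kap t X).card := by
      rw [mkR_χ hs' hm', kE_eq hXo hm, E.χ_eq _ _ hmt]
    have hPN := hX.2.2 t htr
    have h4 := hPN.2
    have h5 := length_pc (κ := E.kap) hXo t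
    have h6 := Env.parity (envT hE htr) hPN.1
    have h7 := cE_parity hE htr
    have h8 := chi_le hE.good (kap_rep htr).1
    have h9 : cE E t = (2 - E.χ t).toNat + E.w.ord.length := rfl
    have h10 : ((2 - E.χ t).toNat : ℤ) = 2 - E.χ t := Int.toNat_of_nonneg (by omega)
    show ∃ h : ℕ, (ncy (fp θ X.x) ((mkR E X).cls s) : ℤ) + (mkR E X).χ s = 2 - 2 * h
    rw [h2, h3]
    rw [h5] at h4 h6
    rw [h9] at h4 h7
    refine ⟨((2 - E.χ t).toNat - (nf θ (DC E.w E.kap {t}) (pc E.w E.kap t X).x +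
      (arcsC E.w E.kap t X).card)) / 2, ?_⟩
    omega
  · intro s hs t ht hne
    have hs' : s ∈ X.x := hs
    have ht' : t ∈ X.x := ht
    obtain ⟨m, hm, hm', -⟩ := col_ex hE hXo hs'
    obtain ⟨n, hn, hn', -⟩ := col_ex hE hXo ht'
    rw [mkR_S hs' hm', mkR_S ht' hn'] at hne
    exact ⟨hs', ht', Or.inr ⟨m, n, hm', hn', hE.good.2.2.1 m hm n hn hne⟩⟩
  · obtain ⟨l, n, h, _⟩ := last_mem (envA hE) hXo
    exact ⟨l, n, h⟩

theorem mkR_OvR (hE : EnvR θ E) {X : PW} (hX : PK θ E.w E.kap (cE E) E.reps X) :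
    OvR θ E (mkR E X) :=
  ⟨mkR_good hE hX, mkR_res (ovF hX.1) hX.2.1, fun _ ha => mkR_loop (ovF hX.1) hX.2.1 ha⟩

end

end Pool.Agent.TH515.J1113
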