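import Pool.Agent.TH515.J1113a
set_option autoImplicit false

/-! Job 1113, part b: from region words to words. -/
namespace Pool.Agent.TH515.J1113
open Pool.Agent.TH547.Arc
open Finset Equiv
open Pool.Agent.TH515.J875 (tau pat mem_tau nm_pat tau_rn pat_rn tau_dl pat_dl pat_rs pat_ov nmW
  nm_en nm_dlW ov_sub ov_nm ov_mr own_of_rs mem_of_rs nm_of_rs OvP_dl OvP_own_dl OvP_rsN
  OvP_own_rsN OvP_rn OvP_own_rn own_self own_spec own_exists rsN_dl dl_rsN rsN_rsN rsN_rn
  rsN_of_subset rsN_congr mem_rsN nm_rsN fix_mem last_mem own_ex fp_mem fp_letter)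
open Pool.Agent.TH515.J1094 (mem_PC mem_DC PC_sub pc_eq arcsC_eq free_end pc_self col_dl CA_dl
  PK_inv PK_dl PK_cvx PK_ex col_own nm_c)

section
variable {θ : Perm Sy} {E : RW}

theorem foldl_w (l : List ℕ) (X : RW) : (l.foldl RW.dl X).w = l.foldl PW.dl X.w := by
  induction l generalizing X with
  | nil => rfl
  | cons a l ih =>
    rw [List.foldl_cons, List.foldl_cons, ih]
    rfl

theorem res_w (N : Finset ℕ) (X : RW) : (RWS.res N X).w = W.res N X.w :=
  foldl_w _ X

theorem res_filter {N : Finset ℕ} {X : RW} (h : RWS.res N X = E) :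
    E.w.x = X.w.x.filter (kp N) := by
  rw [← h, res_w, Pool.Agent.TH286.J835.W_res]
  refine List.filter_congr fun t _ => ?_
  rcases t with n | ⟨a, e⟩ <;> rfl

theorem OvR_ov {X : RW} (hX : OvR θ E X) : OvP E.w E.w.x.toFinset X.w := by
  have h1 := res_filter hX.2.1
  have hmem : ∀ {s : Sy}, s ∈ E.w.x ↔ s ∈ X.w.x ∧ kp (RWS.nm E) s = true :=
    Pool.Agent.TH295.J986.OvR_mem hX
  refine ⟨?_, fun n hn => hmem.2 ⟨hn, rfl⟩, fun s hs _ => ?_⟩
  · conv_rhs => rw [h1]
    refine List.filter_congr fun t ht => ?_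
    rw [Bool.eq_iff_iff, decide_eq_true_eq, hmem]
    exact ⟨fun h => h.2, fun h => ⟨ht, h⟩⟩
  · obtain ⟨l, n, hl⟩ := hX.1.2.2.2
    have hn : mr n ∈ E.w.x := hmem.2 ⟨by rw [hl]; simp, rfl⟩
    obtain ⟨m, hm⟩ := own_exists (μ := E.w.x) hs ⟨l, mr n, hl, hn⟩
    exact ⟨m, List.mem_toFinset.2 (own_spec hm).1, hm⟩

/-- a region word is determined by the deletion of an arc in one region -/
theorem rw_det {X Z : RW} {a : ℕ} {u : Sy} (hw : Z.w = X.w) (hd : Z.dl a = X.dl a)
    (ha : a ∈ X.w.ord) (hX : X.R (en a false) (en a true)) (hZ : Z.R (en a false) (en a true))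
    (hu : u ∈ (X.dl a).w.x) (hXu : X.R (en a false) u) (hZu : Z.R (en a false) u) : Z = X := by
  classical
  have hM : ∀ {V : RW}, V.R (en a false) (en a true) → ∀ s, V.M a s ↔ V.R (en a false) s := by
    intro V hV s
    constructor
    · rintro (h | h)
      · exact V.symm' _ _ h
      · exact V.trans' _ _ _ hV (V.symm' _ _ h)
    · intro h
      exact Or.inl (V.symm' _ _ h)
  -- the relation in terms of the deletion
  have hR : ∀ {V : RW}, V.w = X.w → V.R (en a false) (en a true) → V.dl a = X.dl a → ∀ s t,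
      s ∈ (X.dl a).w.x → t ∈ (X.dl a).w.x → (V.R s t ↔ (X.dl a).R s t) := by
    intro V hVw hV hVd s t hs ht
    rw [← hVd, Pool.Agent.TH745.J984.dl_R, hVd]
    constructor
    · intro h
      exact ⟨hs, ht, Or.inl h⟩
    · rintro ⟨_, _, h | h⟩
      · exact h
      · exact V.trans' _ _ _ (V.symm' _ _ ((hM hV s).1 h.1)) ((hM hV t).1 h.2)
  -- symbols: representatives in the deletion
  have hrep : ∀ {V : RW}, V.w = X.w → V.R (en a false) (en a true) → V.R (en a false) u →
      ∀ s ∈ X.w.x, V.R s (if s ∈ (X.dl a).w.x then s else u) := by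
    intro V hVw hV hVu s hs
    by_cases h : s ∈ (X.dl a).w.x
    · rw [if_pos h]
      exact V.rfl' s (by rw [hVw]; exact hs)
    · rw [if_neg h]
      have h1 : s = en a false ∨ s = en a true := by
        by_contra hc
        push Not at hc
        exact h (Pool.Agent.TH745.J984.mem_x'.2 ⟨hs, hc.1, hc.2⟩)
      rcases h1 with rfl | rfl
      · exact hVu
      · exact V.trans' _ _ _ (V.symm' _ _ hV) hVu
  have hr : ∀ s, (if s ∈ (X.dl a).w.x then s else u) ∈ (X.dl a).w.x := by
    intro s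
    split_ifs with h
    · exact h
    · exact hu
  have hRR : ∀ s t, Z.R s t ↔ X.R s t := by
    intro s t
    by_cases hs : s ∈ X.w.x
    · by_cases ht : t ∈ X.w.x
      · have key : ∀ {V : RW}, V.w = X.w → V.R (en a false) (en a true) → V.R (en a false) u →
            V.dl a = X.dl a → (V.R s t ↔ (X.dl a).R (if s ∈ (X.dl a).w.x then s else u)
              (if t ∈ (X.dl a).w.x then t else u)) := by
          intro V hVw hV hVu hVd
          rw [← hR hVw hV hVd _ _ (hr s) (hr t)]
          have h1 := hrep hVw hV hVu s hs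
          have h2 := hrep hVw hV hVu t ht
          constructor
          · intro h
            exact V.trans' _ _ _ (V.trans' _ _ _ (V.symm' _ _ h1) h) h2
          · intro h
            exact V.trans' _ _ _ (V.trans' _ _ _ h1 h) (V.symm' _ _ h2)
        rw [key hw hZ hZu hd, key rfl hX hXu rfl]
      · exact ⟨fun h => absurd (hw ▸ Z.mem' _ _ (Z.symm' _ _ h)) ht,
          fun h => absurd (X.mem' _ _ (X.symm' _ _ h)) ht⟩
    · exact ⟨fun h => absurd (hw ▸ Z.mem' _ _ h) hs, fun h => absurd (X.mem' _ _ h) hs⟩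
  have hMM : ∀ s, Z.M a s ↔ X.M a s := fun s => by
    rw [hM hZ, hM hX]
    exact hRR _ _
  refine Pool.Agent.TH286.J834.rw_ext hw hRR ?_ ?_
  · -- Euler characteristic
    have key : ∀ {V : RW}, V.w = X.w → V.R (en a false) (en a true) → V.R (en a false) u →
        V.dl a = X.dl a → ∀ s ∈ X.w.x, V.χ s = (X.dl a).χ (if s ∈ (X.dl a).w.x then s else u) +
          (if V.R (en a false) s then 1 else 0) := by
      intro V hVw hV hVu hVd s hs
      rw [V.χ_eq _ _ (hrep hVw hV hVu s hs), ← hVd]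
      set r := (if s ∈ (V.dl a).w.x then s else u) with hrd
      have hr' : r ∈ (V.dl a).w.x := by rw [hrd, hVd]; exact hr s
      have hrs : V.R (en a false) s ↔ V.M a r := by
        rw [hM hV]
        have h1 := hrep hVw hV hVu s hs
        rw [← hVd] at h1
        exact ⟨fun h => V.trans' _ _ _ h h1, fun h => V.trans' _ _ _ h (V.symm' _ _ h1)⟩
      by_cases hm : V.M a r
      · rw [Pool.Agent.TH745.J984.dl_χ_pos hr' hm, if_pos (hrs.2 hm),
          Pool.Agent.TH286.J834.χM_pos V a hV, V.χ_eq _ _ (V.symm' _ _ ((hM hV r).1 hm))]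
        ring
      · rw [Pool.Agent.TH745.J984.dl_χ_neg hr' hm, if_neg (fun h => hm (hrs.1 h)), add_zero]
    intro s
    by_cases hs : s ∈ X.w.x
    · rw [key hw hZ hZu hd s hs, key rfl hX hXu rfl s hs]
      congr 1
      by_cases h : X.R (en a false) s
      · rw [if_pos h, if_pos ((hRR _ _).2 h)]
      · rw [if_neg h, if_neg (fun h' => h ((hRR _ _).1 h'))]
    · rw [X.χ_off s hs, Z.χ_off s (by rw [hw]; exact hs)]
  · -- punctures
    have key : ∀ {V : RW}, V.w = X.w → V.R (en a false) (en a true) → V.R (en a false) u →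
        V.dl a = X.dl a → ∀ s ∈ X.w.x, V.S s = (X.dl a).S (if s ∈ (X.dl a).w.x then s else u) := by
      intro V hVw hV hVu hVd s hs
      rw [V.S_eq _ _ (hrep hVw hV hVu s hs), ← hVd]
      set r := (if s ∈ (V.dl a).w.x then s else u) with hrd
      have hr' : r ∈ (V.dl a).w.x := by rw [hrd, hVd]; exact hr s
      by_cases hm : V.M a r
      · rw [Pool.Agent.TH745.J984.dl_S_pos hr' hm, ← V.S_eq _ _ hV, Finset.union_self,
          V.S_eq _ _ ((hM hV r).1 hm)]
      · rw [Pool.Agent.TH745.J984.dl_S_neg hr' hm]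
    intro s
    by_cases hs : s ∈ X.w.x
    · rw [key hw hZ hZu hd s hs, key rfl hX hXu rfl s hs]
    · rw [X.S_off s hs, Z.S_off s (by rw [hw]; exact hs)]

end

end Pool.Agent.TH515.J1113
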