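import Pool.Agent.TH515.J1094
import Pool.Agent.TH295.J986
import Pool.Agent.TH745.J772
import Pool.Agent.TH110.J874
import Pool.Agent.TH745.J1095
import Pool.Agent.TH295.J1112
set_option autoImplicit false

/-! Job 1113: results of other jobs which are used. -/
namespace Pool.Agent.TH515.J1113
open Pool.Agent.TH547.Arc
open Finset Equiv

/-! ### 874 -/
theorem Env.parity {θ : Perm Sy} {μ : PW} {P Dd : Finset Sy} {X : PW} (hE : Env θ μ P Dd)
    (hX : OvP μ P X) :
    (nf θ Dd X.x + X.ord.length) % 2 = (nf θ Dd μ.x + μ.ord.length) % 2 := by apply Pool.Agent.TH110.J874.Env.parity <;> assumption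

/-! ### 1095 -/
section
variable {θ : Perm Sy} {μ : PW} {κ : Sy → Sy} {X : PW}

/-- the boundary cycles are monochromatic -/
theorem col_fp (hE : EnvK θ μ κ) (hX : OvP μ μ.x.toFinset X) (hC : CA μ κ X) :
    ∀ s ∈ X.x, fp θ X.x s ∈ X.x ∧ col μ κ X (fp θ X.x s) = col μ κ X s := by apply Pool.Agent.TH745.J1095.col_fp <;> assumption
/-- number of boundary cycles of a given colour -/
theorem nf_pc (hE : EnvK θ μ κ) (hX : OvP μ μ.x.toFinset X) (hC : CA μ κ X) (t : Sy) :
    nf θ (DC μ κ {t}) (pc μ κ t X).x =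
      ncy (fp θ X.x) (X.x.toFinset.filter (fun s => col μ κ X s = some t)) := by apply Pool.Agent.TH745.J1095.nf_pc <;> assumption
theorem length_pc (hX : OvP μ μ.x.toFinset X) (t : Sy) :
    (pc μ κ t X).ord.length = μ.ord.length + (arcsC μ κ t X).card := by apply Pool.Agent.TH745.J1095.length_pc <;> assumption
end

/-! ### 1112 -/
section
variable {θ : Perm Sy} {E : RW}

theorem kap_R {s : Sy} (hs : s ∈ E.w.x) : E.R s (E.kap s) := by apply Pool.Agent.TH295.J1112.kap_R <;> assumption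
theorem kap_reps {s : Sy} (hs : s ∈ E.w.x) : E.kap s ∈ E.reps := by apply Pool.Agent.TH295.J1112.kap_reps <;> assumption
theorem kap_eq {s t : Sy} (hs : s ∈ E.w.x) (ht : t ∈ E.w.x) : E.kap s = E.kap t ↔ E.R s t := by apply Pool.Agent.TH295.J1112.kap_eq <;> assumption
theorem kap_rep {t : Sy} (ht : t ∈ E.reps) : t ∈ E.w.x ∧ E.kap t = t := by apply Pool.Agent.TH295.J1112.kap_rep <;> assumption
theorem EnvR.envK (hE : EnvR θ E) : EnvK θ E.w E.kap := by apply Pool.Agent.TH295.J1112.EnvR.envK <;> assumption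
theorem PC_reps : PC E.w E.kap E.reps = E.w.x.toFinset := by apply Pool.Agent.TH295.J1112.PC_reps <;> assumption
theorem chi_le (hG : RW.Good θ E) {s : Sy} (hs : s ∈ E.w.x) : E.χ s ≤ 1 := by apply Pool.Agent.TH295.J1112.chi_le <;> assumption
theorem rk_cE (hG : RW.Good θ E) (hdf : E.df = 0) :
    E.rk = ((∑ t ∈ E.reps, (cE E t - (E.w.ord.length + 1)) : ℕ) : ℤ) := by apply Pool.Agent.TH295.J1112.rk_cE <;> assumption
theorem cE_parity (hE : EnvR θ E) {t : Sy} (ht : t ∈ E.reps) :
    (nf θ (DC E.w E.kap {t}) E.w.x + E.w.ord.length) % 2 = cE E t % 2 := by apply Pool.Agent.TH295.J1112.cE_parity <;> assumption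

theorem mkR_self : mkR E E.w = E := by apply Pool.Agent.TH295.J1112.mkR_self <;> assumption
theorem mkR_dl {X : PW} (hX : OvP E.w E.w.x.toFinset X) {a : ℕ} (ha : a ∈ W.nm X \ RWS.nm E)
    (hC : col E.w E.kap X (en a false) = col E.w E.kap X (en a true)) :
    (mkR E X).dl a = mkR E (X.dl a) := by apply Pool.Agent.TH295.J1112.mkR_dl <;> assumption
theorem mkR_res {X : PW} (hX : OvP E.w E.w.x.toFinset X) (hC : CA E.w E.kap X) :
    RWS.res (RWS.nm E) (mkR E X) = E := by apply Pool.Agent.TH295.J1112.mkR_res <;> assumption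
theorem mkR_R {X : PW} (hX : OvP E.w E.w.x.toFinset X) {s t : Sy} (hs : s ∈ X.x) (ht : t ∈ X.x) :
    (mkR E X).R s t ↔ col E.w E.kap X s = col E.w E.kap X t := by apply Pool.Agent.TH295.J1112.mkR_R <;> assumption
theorem mkR_loop {X : PW} (hX : OvP E.w E.w.x.toFinset X) (hC : CA E.w E.kap X) {a : ℕ}
    (ha : a ∈ W.nm X \ RWS.nm E) : (mkR E X).Loop a := by apply Pool.Agent.TH295.J1112.mkR_loop <;> assumption
theorem kE_eq {X : PW} (hX : OvP E.w E.w.x.toFinset X) {m : Sy} (hm : m ∈ E.w.x) :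
    kE E X m = (arcsC E.w E.kap (E.kap m) X).card := by apply Pool.Agent.TH295.J1112.kE_eq <;> assumption
end

end Pool.Agent.TH515.J1113
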