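import Pool.Agent.TH708.Ari.UpDefs
import Pool.Agent.TH484.J894

/-!
# Job 1358: small shallow multilinear circuits of full rank for all halves
-/

set_option autoImplicit false

namespace Pool.Agent.TH515.J1358

open Finset Pool.Agent.TH708.Ari Pool.Agent.TH708.Nar

/-! ### sharing -/

section Share

variable {K I : Type}

open Classical in
/-- The set of subformulas. -/
noncomputable def sub : Ex K I → Finset (Ex K I)
  | Ex.var i => {Ex.var i}
  | Ex.const c => {Ex.const c}
  | Ex.add F G => insert (Ex.add F G) (sub F ∪ sub G)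
  | Ex.mul F G => insert (Ex.mul F G) (sub F ∪ sub G)

theorem self_mem_sub (F : Ex K I) : F ∈ sub F := by
  classical
  cases F <;> simp [sub]

theorem sub_closed (F : Ex K I) : ∀ A B, (Ex.add A B ∈ sub F ∨ Ex.mul A B ∈ sub F) →
    A ∈ sub F ∧ B ∈ sub F := by
  classical
  induction F with
  | var i => intro A B h; simp [sub] at h
  | const b => intro A B h; simp [sub] at h
  | add F G ihF ihG =>
    intro A B h
    simp only [sub, mem_insert, mem_union] at h ⊢
    rcases h with (h | h | h) | (h | h | h)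
    · injection h with h1 h2
      subst h1 h2
      exact ⟨Or.inr (Or.inl (self_mem_sub _)), Or.inr (Or.inr (self_mem_sub _))⟩
    · have := ihF A B (Or.inl h)
      exact ⟨Or.inr (Or.inl this.1), Or.inr (Or.inl this.2)⟩
    · have := ihG A B (Or.inl h)
      exact ⟨Or.inr (Or.inr this.1), Or.inr (Or.inr this.2)⟩
    · cases h
    · have := ihF A B (Or.inr h)
      exact ⟨Or.inr (Or.inl this.1), Or.inr (Or.inl this.2)⟩
    · have := ihG A B (Or.inr h)
      exact ⟨Or.inr (Or.inr this.1), Or.inr (Or.inr this.2)⟩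
  | mul F G ihF ihG =>
    intro A B h
    simp only [sub, mem_insert, mem_union] at h ⊢
    rcases h with (h | h | h) | (h | h | h)
    · cases h
    · have := ihF A B (Or.inl h)
      exact ⟨Or.inr (Or.inl this.1), Or.inr (Or.inl this.2)⟩
    · have := ihG A B (Or.inl h)
      exact ⟨Or.inr (Or.inr this.1), Or.inr (Or.inr this.2)⟩
    · injection h with h1 h2
      subst h1 h2
      exact ⟨Or.inr (Or.inl (self_mem_sub _)), Or.inr (Or.inr (self_mem_sub _))⟩
    · have := ihF A B (Or.inr h)
      exact ⟨Or.inr (Or.inl this.1), Or.inr (Or.inl this.2)⟩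
    · have := ihG A B (Or.inr h)
      exact ⟨Or.inr (Or.inr this.1), Or.inr (Or.inr this.2)⟩

/-- The kind of a subformula as a node. -/
def kindOf (S : Finset (Ex K I)) (hS : ∀ A B, (Ex.add A B ∈ S ∨ Ex.mul A B ∈ S) → A ∈ S ∧ B ∈ S) :
    ↥S → Kind K I ↥S
  | ⟨Ex.var i, _⟩ => Kind.var i
  | ⟨Ex.const c, _⟩ => Kind.const c
  | ⟨Ex.add A B, h⟩ => Kind.add ⟨A, (hS A B (Or.inl h)).1⟩ ⟨B, (hS A B (Or.inl h)).2⟩
  | ⟨Ex.mul A B, h⟩ => Kind.mul ⟨A, (hS A B (Or.inr h)).1⟩ ⟨B, (hS A B (Or.inr h)).2⟩

/-- The circuit whose nodes are the subformulas of `F`. -/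
noncomputable def share (F : Ex K I) : Ckt K I where
  G := ↥(sub F)
  kind := kindOf (sub F) (sub_closed F)
  rank := fun g => g.1.depth
  add_lt := by
    rintro ⟨A, hA⟩ a b h
    cases A with
    | var i => simp [kindOf] at h
    | const b => simp [kindOf] at h
    | add A B =>
      simp only [kindOf, Kind.add.injEq] at h
      rw [← h.1, ← h.2]
      simp only [Ex.depth]
      omega
    | mul A B => simp [kindOf] at h
  mul_lt := by
    rintro ⟨A, hA⟩ a b h
    cases A with
    | var i => simp [kindOf] at h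
    | const b => simp [kindOf] at h
    | mul A B =>
      simp only [kindOf, Kind.mul.injEq] at h
      rw [← h.1, ← h.2]
      simp only [Ex.depth]
      omega
    | add A B => simp [kindOf] at h
  out := ⟨F, self_mem_sub F⟩

theorem share_tree (F : Ex K I) : ∀ (A : Ex K I) (h : A ∈ sub F),
    (share F).tree (⟨A, h⟩ : ↥(sub F)) = A := by
  intro A
  induction A with
  | var i => exact fun h => tree_var (share F) _ i rfl
  | const b => exact fun h => tree_const (share F) _ b rfl
  | add A B ihA ihB =>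
    intro h
    have hc := sub_closed F A B (Or.inl h)
    exact (tree_add (share F) (⟨_, h⟩ : ↥(sub F)) (⟨A, hc.1⟩ : ↥(sub F))
      (⟨B, hc.2⟩ : ↥(sub F)) rfl).trans (congrArg₂ Ex.add (ihA hc.1) (ihB hc.2))
  | mul A B ihA ihB =>
    intro h
    have hc := sub_closed F A B (Or.inr h)
    exact (tree_mul (share F) (⟨_, h⟩ : ↥(sub F)) (⟨A, hc.1⟩ : ↥(sub F))
      (⟨B, hc.2⟩ : ↥(sub F)) rfl).trans (congrArg₂ Ex.mul (ihA hc.1) (ihB hc.2))

theorem share_out (F : Ex K I) : (share F).tree (share F).out = F := share_tree F F _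

theorem share_size (F : Ex K I) : (share F).size = (sub F).card := by
  unfold Ckt.size
  show Fintype.card ↥(sub F) = _
  exact Fintype.card_coe _

/-! ### balanced sums -/

/-- balanced sum -/
def bor : ℕ → (ℕ → Ex K I) → ℕ → Ex K I
  | 0, f, i => f i
  | d + 1, f, i => Ex.add (bor d f (2 * i)) (bor d f (2 * i + 1))

lemma bor_eval [Field K] (z : I → K) (f : ℕ → Ex K I) : ∀ d i : ℕ,
    (bor d f i).eval z = ∑ t ∈ range (2 ^ d), (f (i * 2 ^ d + t)).eval z := by
  intro d
  induction d with
  | zero =>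
    intro i
    simp [bor]
  | succ d ih =>
    intro i
    simp only [bor, Ex.eval, ih]
    have hp : 2 ^ (d + 1) = 2 ^ d + 2 ^ d := by rw [pow_succ]; ring
    rw [hp, sum_range_add]
    congr 1
    · refine sum_congr rfl fun t _ => ?_
      rw [show 2 * i * 2 ^ d + t = i * (2 ^ d + 2 ^ d) + t by ring]
    · refine sum_congr rfl fun t _ => ?_
      rw [show (2 * i + 1) * 2 ^ d + t = i * (2 ^ d + 2 ^ d) + (2 ^ d + t) by ring]

lemma bor_depth (f : ℕ → Ex K I) (B : ℕ) (h : ∀ t, (f t).depth ≤ B) : ∀ d i : ℕ,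
    (bor d f i).depth ≤ B + d := by
  intro d
  induction d with
  | zero => intro i; exact h i
  | succ d ih =>
    intro i
    simp only [bor, Ex.depth]
    have h1 := ih (2 * i)
    have h2 := ih (2 * i + 1)
    omega

lemma bor_deg [DecidableEq I] (v : I) (f : ℕ → Ex K I) (B : ℕ) (h : ∀ t, (f t).deg v ≤ B) :
    ∀ d i : ℕ, (bor d f i).deg v ≤ B := by
  intro d
  induction d with
  | zero => intro i; exact h i
  | succ d ih =>
    intro i
    simp only [bor, Ex.deg]
    exact max_le (ih _) (ih _)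

open Classical in
lemma cost_add (S : Finset (Ex K I)) (F G : Ex K I) :
    (sub (Ex.add F G) \ S).card ≤ 1 + (sub F \ S).card + (sub G \ S).card := by
  have h : sub (Ex.add F G) \ S ⊆ {Ex.add F G} ∪ (sub F \ S) ∪ (sub G \ S) := by
    intro x hx
    simp only [sub, mem_sdiff, mem_insert, mem_union, mem_singleton] at hx ⊢
    tauto
  refine (card_le_card h).trans ((card_union_le _ _).trans ?_)
  have := card_union_le {Ex.add F G} (sub F \ S)
  rw [card_singleton] at this
  omega

open Classical in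
lemma cost_mul (S : Finset (Ex K I)) (F G : Ex K I) :
    (sub (Ex.mul F G) \ S).card ≤ 1 + (sub F \ S).card + (sub G \ S).card := by
  have h : sub (Ex.mul F G) \ S ⊆ {Ex.mul F G} ∪ (sub F \ S) ∪ (sub G \ S) := by
    intro x hx
    simp only [sub, mem_sdiff, mem_insert, mem_union, mem_singleton] at hx ⊢
    tauto
  refine (card_le_card h).trans ((card_union_le _ _).trans ?_)
  have := card_union_le {Ex.mul F G} (sub F \ S)
  rw [card_singleton] at this
  omega

open Classical in
lemma cost_var (S : Finset (Ex K I)) (i : I) : (sub (Ex.var i : Ex K I) \ S).card ≤ 1 := by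
  refine (card_le_card sdiff_subset).trans ?_
  simp [sub]

open Classical in
lemma cost_const (S : Finset (Ex K I)) (b : K) : (sub (Ex.const b : Ex K I) \ S).card ≤ 1 := by
  refine (card_le_card sdiff_subset).trans ?_
  simp [sub]

open Classical in
lemma cost_bor (S : Finset (Ex K I)) (f : ℕ → Ex K I) (B : ℕ)
    (h : ∀ t, (sub (f t) \ S).card ≤ B) : ∀ d i : ℕ,
    (sub (bor d f i) \ S).card + 1 ≤ 2 ^ d * (B + 1) := by
  intro d
  induction d with
  | zero => intro i; simpa [bor] using h i
  | succ d ih =>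
    intro i
    have h1 := ih (2 * i)
    have h2 := ih (2 * i + 1)
    have h3 := cost_add S (bor d f (2 * i)) (bor d f (2 * i + 1))
    have h4 : 2 ^ (d + 1) * (B + 1) = 2 ^ d * (B + 1) + 2 ^ d * (B + 1) := by
      rw [pow_succ]; ring
    rw [h4]
    simp only [bor]
    omega

variable {T : Type} [Fintype T]

/-- enumerate a family -/
noncomputable def enum [Field K] (g : T → Ex K I) (j : ℕ) : Ex K I :=
  if h : j < Fintype.card T then g ((Fintype.equivFin T).symm ⟨j, h⟩) else Ex.const 0

/-- balanced sum of a family -/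
noncomputable def bs [Field K] (d : ℕ) (g : T → Ex K I) : Ex K I := bor d (enum g) 0

lemma bs_eval [Field K] (d : ℕ) (hd : Fintype.card T ≤ 2 ^ d) (g : T → Ex K I) (z : I → K) :
    (bs d g).eval z = ∑ t, (g t).eval z := by
  unfold bs
  rw [bor_eval]
  have h1 : ∑ t ∈ range (2 ^ d), (enum g (0 * 2 ^ d + t)).eval z =
      ∑ t ∈ range (Fintype.card T), (enum g t).eval z := by
    symm
    have h2 : ∀ t, 0 * 2 ^ d + t = t := fun t => by ring
    simp_rw [h2]
    refine sum_subset (range_mono hd) fun t _ ht => ?_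
    rw [mem_range] at ht
    unfold enum
    rw [dif_neg ht]
    rfl
  rw [h1, ← Fin.sum_univ_eq_sum_range (fun t => (enum g t).eval z)]
  rw [← (Fintype.equivFin T).symm.sum_comp]
  refine sum_congr rfl fun j _ => ?_
  unfold enum
  rw [dif_pos j.2]

lemma bs_depth [Field K] (d : ℕ) (g : T → Ex K I) (B : ℕ) (h : ∀ t, (g t).depth ≤ B) :
    (bs d g).depth ≤ B + d := by
  refine bor_depth _ _ (fun t => ?_) _ _
  unfold enum
  split_ifs
  · exact h _
  · exact Nat.zero_le _

lemma bs_deg [Field K] [DecidableEq I] (v : I) (d : ℕ) (g : T → Ex K I) (B : ℕ)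
    (h : ∀ t, (g t).deg v ≤ B) : (bs d g).deg v ≤ B := by
  refine bor_deg _ _ _ (fun t => ?_) _ _
  unfold enum
  split_ifs
  · exact h _
  · exact Nat.zero_le _

open Classical in
lemma cost_bs [Field K] (S : Finset (Ex K I)) (d : ℕ) (g : T → Ex K I) (B : ℕ) (hB : 1 ≤ B)
    (h : ∀ t, (sub (g t) \ S).card ≤ B) : (sub (bs d g) \ S).card ≤ 2 ^ d * (B + 1) := by
  have := cost_bor S (enum g) B (fun t => by
    unfold enum
    split_ifs
    · exact h _
    · exact (cost_const S _).trans hB) d 0
  unfold bs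
  omega

end Share

/-! ### the formulas -/

/-- quadruples -/
abbrev Q (n : ℕ) : Type := Fin (n + 1) × Fin (n + 1) × Fin (n + 1) × Fin (n + 1)

/-- triples of quadruples -/
abbrev T (n : ℕ) : Type := Q n × Q n × Q n

lemma card_Q (n : ℕ) : Fintype.card (Q n) = (n + 1) ^ 4 := by
  simp only [Q, Fintype.card_prod, Fintype.card_fin]
  ring

lemma card_T (n : ℕ) : Fintype.card (T n) = (n + 1) ^ 12 := by
  simp only [T, Q, Fintype.card_prod, Fintype.card_fin]
  ring

/-- the set of a quadruple -/
def st {n : ℕ} (q : Q n) : Finset ℕ := Ico (q.1 : ℕ) q.2.1 ∪ Ico (q.2.2.1 : ℕ) q.2.2.2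

lemma st_lt {n : ℕ} (q : Q n) {v : ℕ} (h : v ∈ st q) : v < n := by
  unfold st at h
  simp only [mem_union, mem_Ico] at h
  have h1 := q.2.1.2
  have h2 := q.2.2.2.2
  omega

lemma exists_st {n : ℕ} {A : Finset ℕ} (h : OneHole n A) : ∃ q : Q n, st q = A := by
  obtain ⟨i, k, l, j, h1, h2, h3, h4, rfl⟩ := h
  exact ⟨(⟨i, by omega⟩, ⟨k, by omega⟩, ⟨l, by omega⟩, ⟨j, by omega⟩), rfl⟩

/-- valid splittings -/
def Val {n : ℕ} (q : Q n) (t : T n) : Prop :=
  Disjoint (st t.1) (st t.2.1) ∧ Disjoint (st t.1) (st t.2.2) ∧ Disjoint (st t.2.1) (st t.2.2) ∧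
    st q = st t.1 ∪ st t.2.1 ∪ st t.2.2

/-- the variables -/
abbrev II (n M : ℕ) : Type := Fin n ⊕ (Fin M × (Q n × T n))

section FF

variable (K : Type) [Field K] (n M d : ℕ)

open Classical in
/-- the formulas of level zero -/
noncomputable def base (q : Q n) : Ex K (II n M) :=
  if st q = ∅ then Ex.const 1
  else if h : ∃ p : Fin n × Fin n, p.1 ≠ p.2 ∧ st q = {(p.1 : ℕ), (p.2 : ℕ)} then
    Ex.add (Ex.mul (Ex.var (Sum.inl h.choose.1)) (Ex.var (Sum.inl h.choose.2))) (Ex.const 1)
  else Ex.const 0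

open Classical in
/-- a term -/
noncomputable def term (G : Q n → Ex K (II n M)) (m : ℕ) (q : Q n) (t : T n) : Ex K (II n M) :=
  if h : m < M ∧ Val q t then
    Ex.mul (Ex.var (Sum.inr (⟨m, h.1⟩, q, t))) (Ex.mul (G t.1) (Ex.mul (G t.2.1) (G t.2.2)))
  else Ex.const 0

open Classical in
/-- the formulas -/
noncomputable def FF : ℕ → Q n → Ex K (II n M)
  | 0 => base K n M
  | m + 1 => fun q => if st q = ∅ then Ex.const 1 else bs d (term K n M (FF m) m q)

variable {K n M d}

/-! ### depth -/

lemma FF_depth : ∀ (m : ℕ) (q : Q n), (FF K n M d m q).depth ≤ 2 + m * (d + 3) := by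
  intro m
  induction m with
  | zero =>
    intro q
    simp only [FF, base]
    split_ifs <;> simp [Ex.depth]
  | succ m ih =>
    intro q
    simp only [FF]
    split_ifs
    · simp [Ex.depth]
    · have h1 : (bs d (term K n M (FF K n M d m) m q)).depth ≤ (2 + m * (d + 3) + 3) + d := by
        apply bs_depth
        intro t
        unfold term
        split_ifs
        · simp only [Ex.depth]
          have := ih t.1
          have := ih t.2.1
          have := ih t.2.2
          omega
        · simp [Ex.depth]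
      have h2 : (m + 1) * (d + 3) = m * (d + 3) + (d + 3) := by ring
      omega

/-! ### size -/

variable (K n M d) in
open Classical in
/-- all subformulas at level `m` -/
noncomputable def SS (m : ℕ) : Finset (Ex K (II n M)) :=
  univ.biUnion fun q : Q n => sub (FF K n M d m q)

open Classical in
lemma cost_SS (m : ℕ) (q : Q n) : (sub (FF K n M d m q) \ SS K n M d m).card = 0 := by
  rw [card_eq_zero, sdiff_eq_empty_iff_subset]
  exact subset_biUnion_of_mem (fun q : Q n => sub (FF K n M d m q)) (mem_univ q)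

open Classical in
lemma cost_succ (m : ℕ) (q : Q n) :
    (sub (FF K n M d (m + 1) q) \ SS K n M d m).card ≤ 2 ^ d * 5 := by
  simp only [FF]
  split_ifs
  · refine (cost_const _ _).trans ?_
    have : 1 ≤ 2 ^ d := Nat.one_le_two_pow
    omega
  · refine cost_bs _ _ _ 4 (by norm_num) fun t => ?_
    unfold term
    split_ifs
    · have h1 := cost_mul (SS K n M d m) (Ex.var (Sum.inr (⟨m, by tauto⟩, q, t)))
        (Ex.mul (FF K n M d m t.1) (Ex.mul (FF K n M d m t.2.1) (FF K n M d m t.2.2)))
      have h2 := cost_mul (SS K n M d m) (FF K n M d m t.1)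
        (Ex.mul (FF K n M d m t.2.1) (FF K n M d m t.2.2))
      have h3 := cost_mul (SS K n M d m) (FF K n M d m t.2.1) (FF K n M d m t.2.2)
      rw [cost_SS, cost_SS] at h3
      rw [cost_SS] at h2
      have h4 := cost_var (SS K n M d m) (Sum.inr (⟨m, by tauto⟩, q, t))
      omega
    · exact (cost_const _ _).trans (by norm_num)

open Classical in
lemma card_SS_succ (m : ℕ) :
    (SS K n M d (m + 1)).card ≤ (SS K n M d m).card + (n + 1) ^ 4 * (2 ^ d * 5) := by
  have h1 : SS K n M d (m + 1) ⊆ SS K n M d m ∪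
      univ.biUnion fun q : Q n => sub (FF K n M d (m + 1) q) \ SS K n M d m := by
    intro x hx
    by_cases h : x ∈ SS K n M d m
    · exact mem_union_left _ h
    · apply mem_union_right
      have hx' := hx
      unfold SS at hx'
      rw [mem_biUnion] at hx' ⊢
      obtain ⟨q, hq, hxq⟩ := hx'
      exact ⟨q, hq, mem_sdiff.2 ⟨hxq, h⟩⟩
  refine (card_le_card h1).trans ((card_union_le _ _).trans ?_)
  gcongr
  refine card_biUnion_le.trans ?_
  rw [← card_Q n, ← smul_eq_mul, ← Finset.card_univ, ← sum_const]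
  exact sum_le_sum fun q _ => cost_succ m q

open Classical in
lemma card_SS_zero : (SS K n M d 0).card ≤ (n + 1) ^ 4 * 5 := by
  unfold SS
  refine card_biUnion_le.trans ?_
  rw [← card_Q n, ← smul_eq_mul, ← Finset.card_univ, ← sum_const]
  refine sum_le_sum fun q _ => ?_
  have hc : ∀ c : K, (sub (Ex.const c : Ex K (II n M))).card ≤ 1 := by
    intro c
    simpa using cost_const ∅ c
  simp only [FF, base]
  split_ifs with h1 h2
  · exact (hc _).trans (by norm_num)
  · have k1 := cost_add ∅ (Ex.mul (Ex.var (Sum.inl h2.choose.1)) (Ex.var (Sum.inl h2.choose.2)))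
      (Ex.const 1 : Ex K (II n M))
    have k2 := cost_mul ∅ (Ex.var (Sum.inl h2.choose.1) : Ex K (II n M))
      (Ex.var (Sum.inl h2.choose.2))
    have k3 := cost_var ∅ (Sum.inl h2.choose.1 : II n M) (K := K)
    have k4 := cost_var ∅ (Sum.inl h2.choose.2 : II n M) (K := K)
    have k5 := hc 1
    simp only [sdiff_empty] at k1 k2 k3 k4
    omega
  · exact (hc _).trans (by norm_num)

open Classical in
lemma card_SS (m : ℕ) :
    (SS K n M d m).card ≤ (n + 1) ^ 4 * 5 + m * ((n + 1) ^ 4 * (2 ^ d * 5)) := by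
  induction m with
  | zero => simpa using card_SS_zero
  | succ m ih =>
    have := card_SS_succ (K := K) (n := n) (M := M) (d := d) m
    rw [add_mul, one_mul]
    omega

/-! ### degrees -/

/-- the bound for the degrees -/
def Rd {n M : ℕ} (m : ℕ) (A : Finset ℕ) : II n M → Prop
  | Sum.inl v => (v : ℕ) ∈ A
  | Sum.inr s => (s.1 : ℕ) < m ∧ (st s.2.1).Nonempty ∧ st s.2.1 ⊆ A

lemma Rd_mono {m m' : ℕ} {A A' : Finset ℕ} (hm : m ≤ m') (hA : A ⊆ A') {v : II n M}
    (h : Rd m A v) : Rd m' A' v := by
  rcases v with v | s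
  · exact hA h
  · exact ⟨lt_of_lt_of_le h.1 hm, h.2.1, h.2.2.trans hA⟩

lemma Rd_disj {m : ℕ} {A A' : Finset ℕ} (hd : Disjoint A A') {v : II n M}
    (h : Rd m A v) (h' : Rd m A' v) : False := by
  rcases v with v | s
  · exact disjoint_left.1 hd h h'
  · obtain ⟨x, hx⟩ := h.2.1
    exact disjoint_left.1 hd (h.2.2 hx) (h'.2.2 hx)

open Classical in
lemma base_deg [DecidableEq (II n M)] (q : Q n) (v : II n M) :
    (base K n M q).deg v ≤ if Rd 0 (st q) v then 1 else 0 := by
  unfold base
  by_cases h1 : st q = ∅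
  · rw [if_pos h1]
    simp [Ex.deg]
  rw [if_neg h1]
  by_cases h2 : ∃ p : Fin n × Fin n, p.1 ≠ p.2 ∧ st q = {(p.1 : ℕ), (p.2 : ℕ)}
  · rw [dif_pos h2]
    obtain ⟨h4, h5⟩ := h2.choose_spec
    simp only [Ex.deg]
    by_cases h3 : Rd 0 (st q) v
    · rw [if_pos h3]
      by_cases e1 : (Sum.inl h2.choose.1 : II n M) = v
      · have e2 : (Sum.inl h2.choose.2 : II n M) ≠ v :=
          fun e2 => h4 (Sum.inl.inj (e1.trans e2.symm))
        rw [if_pos e1, if_neg e2]
        simp
      · rw [if_neg e1]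
        split_ifs <;> simp
    · have h6 : (Sum.inl h2.choose.1 : II n M) ≠ v := by
        intro he
        apply h3
        rw [← he]
        change ((h2.choose.1 : Fin n) : ℕ) ∈ st q
        exact (Finset.ext_iff.1 h5 _).2 (mem_insert_self _ _)
      have h7 : (Sum.inl h2.choose.2 : II n M) ≠ v := by
        intro he
        apply h3
        rw [← he]
        change ((h2.choose.2 : Fin n) : ℕ) ∈ st q
        exact (Finset.ext_iff.1 h5 _).2 (mem_insert_of_mem (mem_singleton_self _))
      rw [if_neg h6, if_neg h7]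
      simp
  · rw [dif_neg h2]
    simp [Ex.deg]

open Classical in
lemma FF_deg [DecidableEq (II n M)] : ∀ (m : ℕ) (q : Q n) (v : II n M),
    (FF K n M d m q).deg v ≤ if Rd m (st q) v then 1 else 0 := by
  intro m
  induction m with
  | zero => exact base_deg
  | succ m ih =>
    intro q v
    simp only [FF]
    split_ifs with h0 h1 h1
    · simp [Ex.deg]
    · simp [Ex.deg]
    · apply bs_deg
      intro t
      unfold term
      split_ifs with h2
      · obtain ⟨hm, d1, d2, d3, hq⟩ := h2
        simp only [Ex.deg]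
        have k1 := ih t.1 v
        have k2 := ih t.2.1 v
        have k3 := ih t.2.2 v
        by_cases hv : (Sum.inr (⟨m, hm⟩, q, t) : II n M) = v
        · have hz : ∀ A, ¬ Rd m A v := by
            intro A hA
            rw [← hv] at hA
            exact lt_irrefl _ hA.1
          rw [if_neg (hz _)] at k1 k2 k3
          rw [if_pos hv]
          omega
        · rw [if_neg hv]
          by_cases c1 : Rd m (st t.1) v
          · have c2 : ¬ Rd m (st t.2.1) v := fun h => Rd_disj d1 c1 h
            have c3 : ¬ Rd m (st t.2.2) v := fun h => Rd_disj d2 c1 h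
            rw [if_pos c1] at k1
            rw [if_neg c2] at k2
            rw [if_neg c3] at k3
            omega
          · rw [if_neg c1] at k1
            by_cases c2 : Rd m (st t.2.1) v
            · have c3 : ¬ Rd m (st t.2.2) v := fun h => Rd_disj d3 c2 h
              rw [if_pos c2] at k2
              rw [if_neg c3] at k3
              omega
            · rw [if_neg c2] at k2
              split_ifs at k3 <;> omega
      · simp [Ex.deg]
    · apply bs_deg
      intro t
      unfold term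
      split_ifs with h2
      · obtain ⟨hm, d1, d2, d3, hq⟩ := h2
        simp only [Ex.deg]
        have k1 := ih t.1 v
        have k2 := ih t.2.1 v
        have k3 := ih t.2.2 v
        have c1 : ¬ Rd m (st t.1) v := fun h => h1 (Rd_mono (Nat.le_succ m) (by
          rw [hq]; exact subset_union_left.trans subset_union_left) h)
        have c2 : ¬ Rd m (st t.2.1) v := fun h => h1 (Rd_mono (Nat.le_succ m) (by
          rw [hq]; exact subset_union_right.trans subset_union_left) h)
        have c3 : ¬ Rd m (st t.2.2) v := fun h => h1 (Rd_mono (Nat.le_succ m) (by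
          rw [hq]; exact subset_union_right) h)
        rw [if_neg c1] at k1
        rw [if_neg c2] at k2
        rw [if_neg c3] at k3
        have hv : (Sum.inr (⟨m, hm⟩, q, t) : II n M) ≠ v := by
          rintro rfl
          apply h1
          exact ⟨Nat.lt_succ_self m, nonempty_iff_ne_empty.2 h0, Subset.rfl⟩
        rw [if_neg hv]
        omega
      · simp [Ex.deg]

/-! ### values -/

/-- the coordinate is true -/
def X {n : ℕ} (x : Fin n → Bool) (v : ℕ) : Prop := ∃ h : v < n, x ⟨v, h⟩ = true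

open Classical in
/-- the function is a product over a matching of `A ∩ Y` with `A \ Y` -/
def Mt (n : ℕ) (K : Type) [Field K] (Y A : Finset ℕ) (g : (Fin n → Bool) → K) : Prop :=
  ∃ σ : ℕ → ℕ, (∀ y ∈ A ∩ Y, σ y ∈ A \ Y) ∧ Set.InjOn σ ↑(A ∩ Y) ∧
    ∀ x, g x = ∏ y ∈ A ∩ Y, ((if X x y ∧ X x (σ y) then 1 else 0) + 1)

lemma Mt.empty (Y : Finset ℕ) : Mt n K Y ∅ fun _ => 1 := by
  refine ⟨id, ?_, ?_, ?_⟩
  · simp
  · simp
  · simp

lemma Mt.union {Y A B : Finset ℕ} (hAB : Disjoint A B) {g h : (Fin n → Bool) → K}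
    (hg : Mt n K Y A g) (hh : Mt n K Y B h) : Mt n K Y (A ∪ B) fun x => g x * h x := by
  classical
  obtain ⟨σ, a1, a2, a3⟩ := hg
  obtain ⟨τ, b1, b2, b3⟩ := hh
  have hBA : ∀ y ∈ B, y ∉ A := fun y hy hy' => disjoint_left.1 hAB hy' hy
  have hσ : ∀ y ∈ A ∩ Y, σ y ∈ A ∧ σ y ∉ Y := fun y hy => by
    have := a1 y hy
    rw [mem_sdiff] at this
    exact this
  have hτ : ∀ y ∈ B ∩ Y, τ y ∈ B ∧ τ y ∉ Y := fun y hy => by
    have := b1 y hy
    rw [mem_sdiff] at this
    exact this
  refine ⟨fun y => if y ∈ A then σ y else τ y, ?_, ?_, ?_⟩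
  · intro y hy
    rw [mem_inter, mem_union] at hy
    rw [mem_sdiff, mem_union]
    beta_reduce
    by_cases hA : y ∈ A
    · rw [if_pos hA]
      have := hσ y (mem_inter.2 ⟨hA, hy.2⟩)
      exact ⟨Or.inl this.1, this.2⟩
    · rw [if_neg hA]
      have := hτ y (mem_inter.2 ⟨hy.1.resolve_left hA, hy.2⟩)
      exact ⟨Or.inr this.1, this.2⟩
  · intro y hy y' hy' he
    rw [mem_coe, mem_inter, mem_union] at hy hy'
    simp only at he
    by_cases hA : y ∈ A
    · by_cases hA' : y' ∈ A
      · rw [if_pos hA, if_pos hA'] at he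
        exact a2 (mem_coe.2 (mem_inter.2 ⟨hA, hy.2⟩)) (mem_coe.2 (mem_inter.2 ⟨hA', hy'.2⟩)) he
      · rw [if_pos hA, if_neg hA'] at he
        exfalso
        have h1 := hσ y (mem_inter.2 ⟨hA, hy.2⟩)
        have h2 := hτ y' (mem_inter.2 ⟨hy'.1.resolve_left hA', hy'.2⟩)
        rw [he] at h1
        exact hBA _ h2.1 h1.1
    · by_cases hA' : y' ∈ A
      · rw [if_neg hA, if_pos hA'] at he
        exfalso
        have h1 := hσ y' (mem_inter.2 ⟨hA', hy'.2⟩)
        have h2 := hτ y (mem_inter.2 ⟨hy.1.resolve_left hA, hy.2⟩)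
        rw [he] at h2
        exact hBA _ h2.1 h1.1
      · rw [if_neg hA, if_neg hA'] at he
        exact b2 (mem_coe.2 (mem_inter.2 ⟨hy.1.resolve_left hA, hy.2⟩))
          (mem_coe.2 (mem_inter.2 ⟨hy'.1.resolve_left hA', hy'.2⟩)) he
  · intro x
    have hd : Disjoint (A ∩ Y) (B ∩ Y) :=
      disjoint_of_subset_left inter_subset_left (disjoint_of_subset_right inter_subset_left hAB)
    rw [union_inter_distrib_right, prod_union hd]
    beta_reduce
    rw [a3, b3]
    congr 1
    · refine prod_congr rfl fun y hy => ?_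
      rw [if_pos (mem_inter.1 hy).1]
    · refine prod_congr rfl fun y hy => ?_
      rw [if_neg (hBA y (mem_inter.1 hy).1)]

lemma splits_zero {Y A : Finset ℕ} (h : Splits n Y 0 A) :
    A = ∅ ∨ ∃ a b, a ∈ Y ∧ b ∉ Y ∧ A = {a, b} := by
  cases h with
  | empty => exact Or.inl rfl
  | pair a b ha hb => exact Or.inr ⟨a, b, ha, hb, rfl⟩

lemma splits_succ {Y A : Finset ℕ} {m : ℕ} (h : Splits n Y (m + 1) A) :
    A = ∅ ∨ ∃ B C D, OneHole n B ∧ OneHole n C ∧ OneHole n D ∧ Disjoint B C ∧ Disjoint B D ∧
      Disjoint C D ∧ Splits n Y m B ∧ Splits n Y m C ∧ Splits n Y m D ∧ A = B ∪ C ∪ D := by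
  cases h with
  | empty => exact Or.inl rfl
  | split _ B C D h1 h2 h3 h4 h5 h6 h7 h8 h9 =>
    exact Or.inr ⟨B, C, D, h1, h2, h3, h4, h5, h6, h7, h8, h9, rfl⟩

/-- good splittings -/
def Good (Y : Finset ℕ) (m : ℕ) (q : Q n) (t : T n) : Prop :=
  Val q t ∧ Splits n Y m (st t.1) ∧ Splits n Y m (st t.2.1) ∧ Splits n Y m (st t.2.2)

open Classical in
/-- the values of the selectors -/
noncomputable def rho (K : Type) [Field K] {n M : ℕ} (Y : Finset ℕ) : II n M → K
  | Sum.inl _ => 0
  | Sum.inr s => if h : ∃ t, Good Y (s.1 : ℕ) s.2.1 t then (if s.2.2 = h.choose then 1 else 0)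
    else 0

lemma FF_val (Y : Finset ℕ) (hd : Fintype.card (T n) ≤ 2 ^ d) [DecidableEq (II n M)] :
    ∀ (m : ℕ), m ≤ M → ∀ q : Q n, Splits n Y m (st q) →
    Mt n K Y (st q) fun x => (FF K n M d m q).eval
      (point (Sum.inl : Fin n → II n M) (rho K Y) x) := by
  classical
  intro m
  induction m with
  | zero =>
    intro _ q hq
    rcases splits_zero hq with h | ⟨a, b, ha, hb, h⟩
    · rw [h]
      have : ∀ x, (FF K n M d 0 q).eval (point (Sum.inl : Fin n → II n M) (rho K Y) x) = 1 := by
        intro x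
        simp only [FF, base]
        rw [if_pos h]
        rfl
      simp_rw [this]
      exact Mt.empty Y
    · have hab : a ≠ b := by
        rintro rfl
        exact hb ha
      have han : a < n := st_lt q (by rw [h]; simp)
      have hbn : b < n := st_lt q (by rw [h]; simp)
      have hne : st q ≠ ∅ := by
        rw [h]
        exact insert_ne_empty _ _
      have hex : ∃ p : Fin n × Fin n, p.1 ≠ p.2 ∧ st q = {(p.1 : ℕ), (p.2 : ℕ)} :=
        ⟨(⟨a, han⟩, ⟨b, hbn⟩), fun h => hab (by simpa using h), h⟩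
      have hAY : ({a, b} : Finset ℕ) ∩ Y = {a} := by
        ext v
        simp only [mem_inter, mem_insert, mem_singleton]
        constructor
        · rintro ⟨rfl | rfl, hv⟩
          · rfl
          · exact absurd hv hb
        · rintro rfl
          exact ⟨Or.inl rfl, ha⟩
      have hAY' : ∀ v, v ∈ ({a, b} : Finset ℕ) \ Y ↔ v = b := by
        intro v
        simp only [mem_sdiff, mem_insert, mem_singleton]
        constructor
        · rintro ⟨rfl | rfl, hv⟩
          · exact absurd ha hv
          · rfl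
        · rintro rfl
          exact ⟨Or.inr rfl, hb⟩
      refine ⟨fun _ => b, ?_, ?_, ?_⟩
      · intro y _
        rw [h]
        exact (hAY' b).2 rfl
      · rw [h, hAY]
        simp
      · intro x
        rw [h, hAY, prod_singleton]
        simp only [FF, base]
        rw [if_neg hne, dif_pos hex]
        simp only [Ex.eval]
        rw [point_e Sum.inl_injective, point_e Sum.inl_injective]
        obtain ⟨h4, h5⟩ := hex.choose_spec
        have hX : ∀ v : Fin n, (x v = true) ↔ X x v := fun v =>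
          ⟨fun h => ⟨v.2, h⟩, fun ⟨_, h⟩ => h⟩
        have h6 : (X x hex.choose.1 ∧ X x hex.choose.2) ↔ (X x a ∧ X x b) := by
          have h7 : ({(hex.choose.1 : ℕ), (hex.choose.2 : ℕ)} : Finset ℕ) = {a, b} :=
            h5.symm.trans h
          have m1 : a ∈ ({(hex.choose.1 : ℕ), (hex.choose.2 : ℕ)} : Finset ℕ) := by
            rw [h7]; simp
          have m2 : b ∈ ({(hex.choose.1 : ℕ), (hex.choose.2 : ℕ)} : Finset ℕ) := by
            rw [h7]; simp
          rw [mem_insert, mem_singleton] at m1 m2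
          rcases m1 with m1 | m1 <;> rcases m2 with m2 | m2
          · exact absurd (m1.trans m2.symm) hab
          · rw [m1, m2]
          · rw [m1, m2, and_comm]
          · exact absurd (m1.trans m2.symm) hab
        congr 1
        simp only [hX]
        by_cases c1 : X x hex.choose.1 <;> by_cases c2 : X x hex.choose.2
        · rw [if_pos c1, if_pos c2, if_pos (h6.1 ⟨c1, c2⟩), mul_one]
        · rw [if_pos c1, if_neg c2, if_neg (fun h => c2 (h6.2 h).2), mul_zero]
        · rw [if_neg c1, if_pos c2, if_neg (fun h => c1 (h6.2 h).1), zero_mul]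
        · rw [if_neg c1, if_neg c2, if_neg (fun h => c1 (h6.2 h).1), zero_mul]
  | succ m ih =>
    intro hmM q hq
    by_cases h0 : st q = ∅
    · have : ∀ x, (FF K n M d (m + 1) q).eval
          (point (Sum.inl : Fin n → II n M) (rho K Y) x) = 1 := by
        intro x
        simp only [FF]
        rw [if_pos h0]
        rfl
      simp_rw [this]
      rw [h0]
      exact Mt.empty Y
    · have hex : ∃ t : T n, Good Y m q t := by
        rcases splits_succ hq with h | ⟨B, C, D, h1, h2, h3, h4, h5, h6, h7, h8, h9, h10⟩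
        · exact absurd h h0
        · obtain ⟨qB, rfl⟩ := exists_st h1
          obtain ⟨qC, rfl⟩ := exists_st h2
          obtain ⟨qD, rfl⟩ := exists_st h3
          exact ⟨(qB, qC, qD), ⟨h4, h5, h6, h10⟩, h7, h8, h9⟩
      set t := hex.choose with ht
      obtain ⟨⟨d1, d2, d3, hU⟩, s1, s2, s3⟩ : Good Y m q t := hex.choose_spec
      have hval : ∀ x, (FF K n M d (m + 1) q).eval
          (point (Sum.inl : Fin n → II n M) (rho K Y) x) =
          (FF K n M d m t.1).eval (point (Sum.inl : Fin n → II n M) (rho K Y) x) *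
          (FF K n M d m t.2.1).eval (point (Sum.inl : Fin n → II n M) (rho K Y) x) *
          (FF K n M d m t.2.2).eval (point (Sum.inl : Fin n → II n M) (rho K Y) x) := by
        intro x
        simp only [FF]
        rw [if_neg h0, bs_eval d hd, sum_eq_single t]
        · unfold term
          rw [dif_pos ⟨Nat.lt_of_succ_le hmM, d1, d2, d3, hU⟩]
          simp only [Ex.eval]
          rw [point_off _ _ _ (fun i => Sum.inl_ne_inr)]
          have : rho K Y (Sum.inr (⟨m, Nat.lt_of_succ_le hmM⟩, q, t) : II n M) = 1 := by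
            simp only [rho]
            rw [dif_pos hex, if_pos ht]
          rw [this]
          ring
        · intro t' _ ht'
          unfold term
          split_ifs with h1
          · simp only [Ex.eval]
            rw [point_off _ _ _ (fun i => Sum.inl_ne_inr)]
            have : rho K Y (Sum.inr (⟨m, h1.1⟩, q, t') : II n M) = 0 := by
              simp only [rho]
              rw [dif_pos hex, if_neg (fun h => ht' (h.trans ht.symm))]
            rw [this, zero_mul]
          · rfl
        · intro h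
          exact absurd (mem_univ _) h
      simp_rw [hval]
      rw [hU]
      have hm' : m ≤ M := by omega
      exact ((ih hm' t.1 s1).union d1 (ih hm' t.2.1 s2)).union
        (disjoint_union_left.2 ⟨d2, d3⟩) (ih hm' t.2.2 s3)

end FF

/-! ### the theorem -/

theorem up : Pool.Agent.TH708.Ari.T_up := by
  classical
  refine ⟨200, fun K _ N hN => ?_⟩
  set n := 2 ^ N with hn
  set M := 2 * N + 1 with hM
  set d := 12 * (N + 1) with hd
  have hn1 : n + 1 ≤ 2 ^ (N + 1) := by
    have : 1 ≤ 2 ^ N := Nat.one_le_two_pow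
    rw [pow_succ]
    omega
  have hn2 : n + 1 ≤ 2 ^ (2 * N) := hn1.trans (Nat.pow_le_pow_right (by norm_num) (by omega))
  have hM2 : M ≤ 2 ^ (2 * N) := by
    have h1 : N < 2 ^ N := Nat.lt_two_pow_self
    have h2 : N + 1 ≤ 2 ^ N := h1
    have h3 : (N + 1) * (N + 1) ≤ 2 ^ (2 * N) := by
      calc (N + 1) * (N + 1) ≤ 2 ^ N * 2 ^ N := Nat.mul_le_mul h2 h2
        _ = 2 ^ (2 * N) := by rw [← pow_add]; congr 1; omega
    nlinarith
  have hdT : Fintype.card (T n) ≤ 2 ^ d := by
    rw [card_T, hd, mul_comm 12, pow_mul]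
    exact Nat.pow_le_pow_left hn1 12
  have h2d : 2 ^ d ≤ 2 ^ (24 * N) := Nat.pow_le_pow_right (by norm_num) (by omega)
  let whole : Q n := (⟨0, by omega⟩, ⟨n, by omega⟩, ⟨n, by omega⟩, ⟨n, by omega⟩)
  have hwhole : st whole = range n := by
    ext v
    simp [st, whole]
  have h8 : 8 ≤ 2 ^ (3 * N) := by
    calc 8 = 2 ^ 3 := by norm_num
      _ ≤ 2 ^ (3 * N) := Nat.pow_le_pow_right (by norm_num) (by omega)
  have hQ8 : (n + 1) ^ 4 ≤ 2 ^ (8 * N) := by
    calc (n + 1) ^ 4 ≤ (2 ^ (2 * N)) ^ 4 := Nat.pow_le_pow_left hn2 4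
      _ = 2 ^ (8 * N) := by rw [← pow_mul]; congr 1; omega
  refine ⟨II n M, inferInstance, inferInstance, Sum.inl, share (FF K n M d M whole),
    Sum.inl_injective, ?_, ?_, ?_, ?_, ?_⟩
  · -- number of variables
    have h1 : Fintype.card (II n M) = n + M * ((n + 1) ^ 4 * (n + 1) ^ 12) := by
      simp only [II, Fintype.card_sum, Fintype.card_prod, Fintype.card_fin]
      ring
    rw [h1]
    have h2 : (n + 1) ^ 12 ≤ 2 ^ (24 * N) := by
      calc (n + 1) ^ 12 ≤ (2 ^ (2 * N)) ^ 12 := Nat.pow_le_pow_left hn2 12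
        _ = 2 ^ (24 * N) := by rw [← pow_mul]; congr 1; omega
    have h3 : n ≤ 2 ^ (34 * N) := by
      rw [hn]
      exact Nat.pow_le_pow_right (by norm_num) (by omega)
    calc n + M * ((n + 1) ^ 4 * (n + 1) ^ 12)
        ≤ 2 ^ (34 * N) + 2 ^ (2 * N) * (2 ^ (8 * N) * 2 ^ (24 * N)) := by gcongr
      _ = 2 * 2 ^ (34 * N) := by
          rw [← pow_add, ← pow_add, show 2 * N + (8 * N + 24 * N) = 34 * N by ring]
          ring
      _ ≤ 2 ^ (3 * N) * 2 ^ (34 * N) := by gcongr; omega
      _ = 2 ^ (37 * N) := by rw [← pow_add]; congr 1; ring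
      _ ≤ 2 ^ (200 * N) := Nat.pow_le_pow_right (by norm_num) (by omega)
  · -- size
    rw [share_size]
    have h1 : (sub (FF K n M d M whole)).card ≤ (SS K n M d M).card :=
      card_le_card (subset_biUnion_of_mem (fun q : Q n => sub (FF K n M d M q))
        (mem_univ whole))
    refine h1.trans ((card_SS M).trans ?_)
    calc (n + 1) ^ 4 * 5 + M * ((n + 1) ^ 4 * (2 ^ d * 5))
        ≤ 2 ^ (8 * N) * 2 ^ (3 * N) + 2 ^ (2 * N) * (2 ^ (8 * N) * (2 ^ (24 * N) * 2 ^ (3 * N))) := by
          gcongr <;> omega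
      _ = 2 ^ (11 * N) + 2 ^ (37 * N) := by
          rw [← pow_add, ← pow_add, ← pow_add, ← pow_add]
          congr 2 <;> ring
      _ ≤ 2 ^ (37 * N) + 2 ^ (37 * N) := by
          gcongr
          · norm_num
          · norm_num
      _ = 2 * 2 ^ (37 * N) := by ring
      _ ≤ 2 ^ (3 * N) * 2 ^ (37 * N) := by gcongr; omega
      _ = 2 ^ (40 * N) := by rw [← pow_add]; congr 1; ring
      _ ≤ 2 ^ (200 * N) := Nat.pow_le_pow_right (by norm_num) (by omega)
  · -- depth
    unfold Ckt.depth
    rw [share_out]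
    refine (FF_depth M whole).trans ?_
    rw [hM, hd]
    nlinarith [hN, Nat.mul_le_mul hN hN]
  · -- degree
    intro i
    unfold Ckt.deg
    rw [share_out]
    refine (FF_deg M whole i).trans ?_
    split_ifs <;> omega
  · -- values
    intro Y hY
    let Y' : Finset ℕ := Y.map Fin.valEmbedding
    have hY' : ∀ v : Fin n, (v : ℕ) ∈ Y' ↔ v ∈ Y := by
      intro v
      simp only [Y', mem_map, Fin.valEmbedding_apply]
      constructor
      · rintro ⟨a, ha, hav⟩
        have : a = v := Fin.ext hav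
        exact this ▸ ha
      · intro h
        exact ⟨v, h, rfl⟩
    have hYn : ∀ v ∈ Y', v < n := by
      intro v hv
      simp only [Y', mem_map, Fin.valEmbedding_apply] at hv
      obtain ⟨a, _, rfl⟩ := hv
      exact a.2
    have hinter : range n ∩ Y' = Y' := by
      ext v
      simp only [mem_inter, mem_range]
      exact ⟨fun h => h.2, fun h => ⟨hYn v h, h⟩⟩
    have hcard : Y'.card = Y.card := card_map _
    have hsp : Splits n Y' M (st whole) := by
      rw [hwhole]
      refine Pool.Agent.TH484.J894.splits n Y' N (range n) ⟨0, n, n, n, by omega, le_rfl, le_rfl,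
        le_rfl, ?_⟩ ?_ ?_
      · ext v
        simp
      · rw [hinter, hcard, card_range]
        exact hY.symm
      · rw [card_range, hn, pow_add]
        have : 1 ≤ 2 ^ N := Nat.one_le_two_pow
        omega
    obtain ⟨σ, a1, a2, a3⟩ := FF_val (K := K) Y' hdT M le_rfl whole hsp
    rw [hwhole, hinter] at a1 a2 a3
    have hσn : ∀ y ∈ Y', σ y < n := fun y hy => mem_range.1 (mem_sdiff.1 (a1 y hy)).1
    have hσY : ∀ y ∈ Y', σ y ∉ Y' := fun y hy => (mem_sdiff.1 (a1 y hy)).2
    refine ⟨rho K Y', fun v => if h : σ v < n then ⟨σ v, h⟩ else v, ?_, ?_, ?_, ?_⟩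
    · rintro (v | s)
      · exact Or.inl rfl
      · simp only [rho]
        split_ifs
        · exact Or.inr rfl
        · exact Or.inl rfl
        · exact Or.inl rfl
    · intro y hy
      have hy' := (hY' y).2 hy
      beta_reduce
      rw [dif_pos (hσn y hy'), ← hY']
      exact hσY y hy'
    · intro y hy z hz h
      have hy' := (hY' y).2 hy
      have hz' := (hY' z).2 hz
      simp only at h
      rw [dif_pos (hσn y hy'), dif_pos (hσn z hz'), Fin.mk.injEq] at h
      exact Fin.ext (a2 hy' hz' h)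
    · intro x
      unfold Ckt.eval
      rw [share_out]
      have h1 := a3 x
      have h2 : ∏ y ∈ Y', ((if X x y ∧ X x (σ y) then 1 else 0) + 1 : K) =
          ∏ y ∈ Y, ((if X x (y : ℕ) ∧ X x (σ (y : ℕ)) then 1 else 0) + 1 : K) := prod_map _ _ _
      rw [h2] at h1
      convert h1 using 1
      refine prod_congr rfl fun y hy => ?_
      have hy' := (hY' y).2 hy
      have e1 : (x y = true ∧ x (if h : σ y < n then ⟨σ y, h⟩ else y) = true) ↔
          (X x (y : ℕ) ∧ X x (σ (y : ℕ))) := by
        rw [dif_pos (hσn y hy')]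
        constructor
        · rintro ⟨h3, h4⟩
          exact ⟨⟨y.2, h3⟩, ⟨hσn y hy', h4⟩⟩
        · rintro ⟨⟨_, h3⟩, ⟨_, h4⟩⟩
          exact ⟨h3, h4⟩
      congr 1
      by_cases c : X x (y : ℕ) ∧ X x (σ (y : ℕ))
      · rw [if_pos c, if_pos (e1.2 c)]
      · rw [if_neg c, if_neg (fun h => c (e1.1 h))]

end Pool.Agent.TH515.J1358
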