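import Pool.Agent.TH716.TW.Defs

set_option autoImplicit false

/-!
# TW15: invariant ideal classes of `M` come from `K`
-/

namespace Pool.Agent.TH515.J1419

open Pool.Agent.TH716.TW NumberField

section alg

variable {R : Type*} [CommRing R] {t : R}

/-- the three conjugates -/
theorem conj_eq1 (h : t ^ 3 + t ^ 2 - 2 * t - 1 = 0) :
    (t ^ 2 - 2) ^ 2 - 2 = 1 - t - t ^ 2 := by
  linear_combination (t - 1) * h

theorem conj_eq2 (h : t ^ 3 + t ^ 2 - 2 * t - 1 = 0) :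
    (1 - t - t ^ 2) ^ 2 - 2 = t := by
  linear_combination (t + 1) * h

theorem disc_eq (h : t ^ 3 + t ^ 2 - 2 * t - 1 = 0) :
    (t - (t ^ 2 - 2)) * ((t ^ 2 - 2) - (1 - t - t ^ 2)) * ((1 - t - t ^ 2) - t) = -7 := by
  linear_combination (2 * t ^ 3 + t ^ 2 - 9 * t - 1) * h

theorem seven_eq (h : t ^ 3 + t ^ 2 - 2 * t - 1 = 0) :
    (2 - t) ^ 3 * ((2 + t) * t) ^ 2 = 7 := by
  linear_combination (-(t ^ 4) + 3 * t ^ 3 + 3 * t ^ 2 - 14 * t + 7) * h

theorem unit_eq (h : t ^ 3 + t ^ 2 - 2 * t - 1 = 0) :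
    ((2 + t) * t) * ((t ^ 2 - t) * (t ^ 2 + t - 2)) = 1 := by
  linear_combination (t ^ 3 + t ^ 2 - 2 * t + 1) * h

end alg

section main

variable {K M : Type} [Field K] [NumberField K] [Field M] [NumberField M] [Algebra K M]
  {θ : 𝓞 M} (hS : Sit K M θ) {σ : 𝓞 M ≃ₐ[𝓞 K] 𝓞 M} (hσ : Aut3 K M θ σ)

include hS in
theorem ne_sub : θ - (θ ^ 2 - 2) ≠ 0 := by
  intro h
  have h1 := disc_eq hS.eq
  rw [h, zero_mul, zero_mul] at h1
  have h2 : (7 : 𝓞 M) = 0 := by linear_combination h1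
  norm_num at h2

include hS in
theorem ne_sub' : θ - (1 - θ - θ ^ 2) ≠ 0 := by
  intro h
  have h1 := disc_eq hS.eq
  have h3 : 1 - θ - θ ^ 2 - θ = 0 := by linear_combination -h
  rw [h3, mul_zero] at h1
  have h2 : (7 : 𝓞 M) = 0 := by linear_combination h1
  norm_num at h2

include hσ in
theorem s1 : σ θ = θ ^ 2 - 2 := hσ

include hσ hS in
theorem s2 : σ (θ ^ 2 - 2) = 1 - θ - θ ^ 2 := by
  rw [map_sub, map_pow, s1 hσ, ← conj_eq1 hS.eq, map_ofNat]

include hσ hS in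
theorem s3 : σ (1 - θ - θ ^ 2) = θ := by
  have h := conj_eq2 hS.eq
  rw [map_sub, map_sub, map_pow, map_one, s1 hσ]
  linear_combination -conj_eq1 hS.eq

/-- extension of `σ` to the field -/
noncomputable def ext (σ : 𝓞 M ≃ₐ[𝓞 K] 𝓞 M) : M ≃ₐ[K] M :=
  (galRestrict (𝓞 K) K M (𝓞 M)).symm σ

theorem ext_apply (σ : 𝓞 M ≃ₐ[𝓞 K] 𝓞 M) (x : 𝓞 M) : ext σ (x : M) = ((σ x : 𝓞 M) : M) :=
  galRestrict_symm_algebraMap_apply (𝓞 K) K σ x

include hS hσ in
theorem theta_notMem : (θ : M) ∉ (⊥ : Subalgebra K M) := by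
  rintro ⟨k, hk⟩
  have h1 : ext σ (θ : M) = (θ : M) := by
    rw [← hk]
    exact (ext σ).commutes k
  rw [ext_apply, s1 hσ] at h1
  have h2 : θ ^ 2 - 2 = θ := RingOfIntegers.coe_injective h1
  exact ne_sub hS (by rw [h2, sub_self])

include hS in
theorem alt (E : Subalgebra K M) : E = ⊥ ∨ E = ⊤ := by
  have h := Subalgebra.isSimpleOrder_of_finrank_prime K M (by rw [hS.three]; norm_num)
  exact h.eq_bot_or_eq_top E

include hS hσ in
theorem fixed {y : 𝓞 M} (hy : σ y = y) : ∃ k : 𝓞 K, algebraMap (𝓞 K) (𝓞 M) k = y := by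
  set E : Subalgebra K M := AlgHom.equalizer (ext σ : M →ₐ[K] M) (AlgHom.id K M) with hE
  have hyE : (y : M) ∈ E := by
    change ext σ (y : M) = (y : M)
    rw [ext_apply, hy]
  have hθE : (θ : M) ∉ E := by
    intro h
    have h1 : ext σ (θ : M) = (θ : M) := h
    rw [ext_apply, s1 hσ] at h1
    have h2 : θ ^ 2 - 2 = θ := RingOfIntegers.coe_injective h1
    exact ne_sub hS (by rw [h2, sub_self])
  rcases alt hS E with h | h
  · rw [h] at hyE
    obtain ⟨k, hk⟩ := hyE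
    have hk' : algebraMap K M k = (y : M) := hk
    have hint : IsIntegral ℤ k := by
      have h1 : IsIntegral ℤ (algebraMap K M k) := by
        rw [hk']
        exact y.isIntegral_coe
      exact (isIntegral_algebraMap_iff (algebraMap K M).injective).1 h1
    exact ⟨⟨k, hint⟩, RingOfIntegers.coe_injective hk'⟩
  · exact absurd (h ▸ Algebra.mem_top) hθE

include hS hσ in
theorem cube (x : 𝓞 M) : σ (σ (σ x)) = x := by
  set E : Subalgebra K M := AlgHom.equalizer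
    (((ext σ).trans ((ext σ).trans (ext σ)) : M ≃ₐ[K] M) : M →ₐ[K] M) (AlgHom.id K M) with hE
  have hmem : ∀ x : 𝓞 M, (x : M) ∈ E ↔ σ (σ (σ x)) = x := by
    intro x
    have h1 : (x : M) ∈ E ↔ ext σ (ext σ (ext σ (x : M))) = (x : M) := Iff.rfl
    rw [h1, ext_apply, ext_apply, ext_apply]
    exact ⟨fun h => RingOfIntegers.coe_injective h, fun h => by rw [h]⟩
  have hθE : (θ : M) ∈ E := by
    rw [hmem, s1 hσ, s2 hS hσ, s3 hS hσ]
  rcases alt hS E with h | h
  · rw [h] at hθE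
    exact absurd hθE (theta_notMem hS hσ)
  · exact (hmem x).1 (h ▸ Algebra.mem_top)

include hS hσ in
/-- Lagrange interpolation -/
theorem interp {I : Ideal (𝓞 M)} {x : 𝓞 M} (h0 : x ∈ I) (h1 : σ x ∈ I) (h2 : σ (σ x) ∈ I) :
    7 * x ∈ (I.comap (algebraMap (𝓞 K) (𝓞 M))).map (algebraMap (𝓞 K) (𝓞 M)) := by
  have hd := disc_eq hS.eq
  have e1 := s1 hσ
  have e2 := s2 hS hσ
  have e3 := s3 hS hσ
  have e4 := cube hS hσ x
  generalize θ ^ 2 - 2 = θ1 at hd e1 e2
  generalize 1 - θ - θ ^ 2 = θ2 at hd e2 e3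
  generalize hx1 : σ x = x1 at h1 h2 e4
  generalize hx2 : σ x1 = x2 at h2 e4
  have key : ∀ a : 𝓞 M, σ a = a → a ∈ I →
      a ∈ (I.comap (algebraMap (𝓞 K) (𝓞 M))).map (algebraMap (𝓞 K) (𝓞 M)) := by
    intro a ha haI
    obtain ⟨k, rfl⟩ := fixed hS hσ ha
    exact Ideal.mem_map_of_mem _ haI
  have a2 := key (x * (θ2 - θ1) + x1 * (θ - θ2) + x2 * (θ1 - θ))
    (by simp only [map_add, map_mul, map_sub, e1, e2, e3, hx1, hx2, e4]; ring)
    (I.add_mem (I.add_mem (I.mul_mem_right _ h0) (I.mul_mem_right _ h1)) (I.mul_mem_right _ h2))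
  have a1 := key (x * ((θ2 - θ1) * (θ1 + θ2)) + x1 * ((θ - θ2) * (θ2 + θ)) +
      x2 * ((θ1 - θ) * (θ + θ1)))
    (by simp only [map_add, map_mul, map_sub, e1, e2, e3, hx1, hx2, e4]; ring)
    (I.add_mem (I.add_mem (I.mul_mem_right _ h0) (I.mul_mem_right _ h1)) (I.mul_mem_right _ h2))
  have a0 := key (x * ((θ2 - θ1) * (θ1 * θ2)) + x1 * ((θ - θ2) * (θ2 * θ)) +
      x2 * ((θ1 - θ) * (θ * θ1)))
    (by simp only [map_add, map_mul, map_sub, e1, e2, e3, hx1, hx2, e4]; ring)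
    (I.add_mem (I.add_mem (I.mul_mem_right _ h0) (I.mul_mem_right _ h1)) (I.mul_mem_right _ h2))
  set J := (I.comap (algebraMap (𝓞 K) (𝓞 M))).map (algebraMap (𝓞 K) (𝓞 M))
  have h7 : 7 * x = -((x * ((θ2 - θ1) * (θ1 * θ2)) + x1 * ((θ - θ2) * (θ2 * θ)) +
      x2 * ((θ1 - θ) * (θ * θ1))) - (x * ((θ2 - θ1) * (θ1 + θ2)) + x1 * ((θ - θ2) * (θ2 + θ)) +
      x2 * ((θ1 - θ) * (θ + θ1))) * θ + (x * (θ2 - θ1) + x1 * (θ - θ2) + x2 * (θ1 - θ)) * θ ^ 2) := by
    linear_combination x * hd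
  rw [h7]
  exact J.neg_mem (J.add_mem (J.sub_mem a0 (J.mul_mem_right _ a1)) (J.mul_mem_right _ a2))

include hS hσ in
theorem coprime_case {I : Ideal (𝓞 M)} (hI : ∀ x ∈ I, σ x ∈ I) (h7 : I ⊔ Ideal.span {7} = ⊤) :
    (I.comap (algebraMap (𝓞 K) (𝓞 M))).map (algebraMap (𝓞 K) (𝓞 M)) = I := by
  apply le_antisymm Ideal.map_comap_le
  have h1 : (1 : 𝓞 M) ∈ I ⊔ Ideal.span {7} := h7 ▸ Submodule.mem_top
  obtain ⟨c, hc, y, hy, hcy⟩ := Submodule.mem_sup.1 h1
  obtain ⟨t, rfl⟩ := Ideal.mem_span_singleton'.1 hy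
  intro x hx
  have hc' := cube hS hσ c
  have ht' := cube hS hσ t
  have hN : σ (c * σ c * σ (σ c)) = c * σ c * σ (σ c) := by
    rw [map_mul, map_mul, hc']
    ring
  obtain ⟨k, hk⟩ := fixed hS hσ hN
  have hkI : k ∈ I.comap (algebraMap (𝓞 K) (𝓞 M)) := by
    rw [Ideal.mem_comap, hk]
    exact I.mul_mem_right _ (I.mul_mem_right _ hc)
  set J := (I.comap (algebraMap (𝓞 K) (𝓞 M))).map (algebraMap (𝓞 K) (𝓞 M)) with hJ
  have h2 : c * σ c * σ (σ c) ∈ J := by
    rw [← hk]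
    exact Ideal.mem_map_of_mem _ hkI
  have h3 : 7 * x ∈ J := interp hS hσ hx (hI _ hx) (hI _ (hI _ hx))
  have e0 : c = 1 - t * 7 := by linear_combination hcy
  have e1 : σ c = 1 - σ t * 7 := by rw [e0, map_sub, map_mul, map_one, map_ofNat]
  have e2 : σ (σ c) = 1 - σ (σ t) * 7 := by rw [e1, map_sub, map_mul, map_one, map_ofNat]
  have h4 : x = x * (c * σ c * σ (σ c)) + ((t + σ t + σ (σ t)) -
      7 * (t * σ t + σ t * σ (σ t) + t * σ (σ t)) + 49 * (t * σ t * σ (σ t))) * (7 * x) := by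
    rw [e2, e1, e0]
    ring
  rw [h4]
  exact J.add_mem (J.mul_mem_left _ h2) (J.mul_mem_left _ h3)

include hS hσ in
theorem exists_P : ∃ (p : Ideal (𝓞 K)) (P : Ideal (𝓞 M)), P.IsPrime ∧ P ≠ ⊥ ∧
    P ^ 6 = Ideal.span {7} ∧ P.map (σ : 𝓞 M →+* 𝓞 M) = P ∧
    Ideal.span {2 - θ} * P = p.map (algebraMap (𝓞 K) (𝓞 M)) := by
  obtain ⟨p, hp⟩ := hS.ram
  set a : Ideal (𝓞 M) := p.map (algebraMap (𝓞 K) (𝓞 M)) with ha
  set b : Ideal (𝓞 M) := Ideal.span {2 - θ} with hb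
  have h7 : (7 : 𝓞 M) ≠ 0 := by norm_num
  have ha2 : a ^ 2 = Ideal.span {7} := by
    rw [ha, ← Ideal.map_pow, hp, Ideal.map_span, Set.image_singleton, map_ofNat]
  have hu : IsUnit (((2 + θ) * θ) ^ 2) := by
    apply IsUnit.pow
    exact IsUnit.of_mul_eq_one _ (unit_eq hS.eq)
  have hb3 : b ^ 3 = Ideal.span {7} := by
    rw [hb, Ideal.span_singleton_pow, ← seven_eq hS.eq]
    exact (Ideal.span_singleton_mul_right_unit hu _).symm
  have hb0 : b ≠ ⊥ := by
    intro h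
    rw [h] at hb3
    have : (7 : 𝓞 M) ∈ (⊥ : Ideal (𝓞 M)) ^ 3 := by
      rw [hb3]; exact Ideal.mem_span_singleton_self _
    rw [← Ideal.zero_eq_bot, zero_pow (by norm_num), Ideal.zero_eq_bot, Ideal.mem_bot] at this
    exact h7 this
  have hdvd : b ∣ a := by
    have h1 : b ^ 2 ∣ a ^ 2 := ⟨b, by rw [ha2, ← hb3]; ring⟩
    exact (UniqueFactorizationMonoid.pow_dvd_pow_iff_dvd (by norm_num : (2 : ℕ) ≠ 0)).1 h1
  obtain ⟨P, hP⟩ := hdvd
  have hP2 : P ^ 2 = b := by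
    have h1 : b ^ 2 * P ^ 2 = b ^ 2 * b := by
      rw [← mul_pow, ← hP, ha2, ← hb3]; ring
    exact mul_left_cancel₀ (pow_ne_zero 2 hb0) h1
  have hP6 : P ^ 6 = Ideal.span {7} := by
    rw [← hb3, ← hP2]; ring
  have hP0 : P ≠ ⊥ := by
    rintro rfl
    apply hb0
    rw [← hP2, ← Ideal.zero_eq_bot]
    exact zero_pow (by norm_num)
  have hN : Ideal.absNorm P = 7 := by
    have h1 : Ideal.absNorm P ^ 6 = 7 ^ 6 := by
      have h2 : Ideal.absNorm (Ideal.span {((7 : ℕ) : 𝓞 M)}) = 7 ^ Module.finrank ℤ (𝓞 M) :=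
        Ideal.absNorm_span_natCast 7
      have h3 : Module.finrank ℤ (𝓞 M) = 6 := by
        rw [RingOfIntegers.rank, ← Module.finrank_mul_finrank ℚ K M, hS.two, hS.three]
      rw [h3] at h2
      rw [← map_pow, hP6, ← h2]
      norm_num
    exact Nat.pow_left_injective (by norm_num : 6 ≠ 0) h1
  refine ⟨p, P, ?_, hP0, hP6, ?_, hP.symm⟩
  · apply Ideal.isPrime_of_irreducible_absNorm
    rw [hN]
    exact (by norm_num : Nat.Prime 7)
  · have h1 : a.map (σ : 𝓞 M →+* 𝓞 M) = a := by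
      rw [ha, Ideal.map_map]
      congr 1
      ext k
      simp
    have h2 : b.map (σ : 𝓞 M →+* 𝓞 M) = b := by
      rw [hb, Ideal.map_span, Set.image_singleton]
      have h3 : (σ : 𝓞 M →+* 𝓞 M) (2 - θ) = (2 - θ) * (2 + θ) := by
        change σ (2 - θ) = _
        rw [map_sub, map_ofNat, s1 hσ]
        ring
      rw [h3]
      exact Ideal.span_singleton_mul_right_unit
        (isUnit_of_mul_isUnit_left (IsUnit.of_mul_eq_one _ (unit_eq hS.eq))) _
    have h3 : b * P.map (σ : 𝓞 M →+* 𝓞 M) = b * P := by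
      conv_lhs => rw [← h2]
      rw [← Ideal.map_mul, ← hP, h1]
    exact mul_left_cancel₀ hb0 h3

include hS hσ in
theorem invariant_ideal {C : Ideal (𝓞 M)} (hC0 : C ≠ ⊥) (hC : C.map (σ : 𝓞 M →+* 𝓞 M) = C) :
    ∃ (D : Ideal (𝓞 K)) (u : 𝓞 M), D ≠ ⊥ ∧ u ≠ 0 ∧
      Ideal.span {u} * C = D.map (algebraMap (𝓞 K) (𝓞 M)) := by
  obtain ⟨p, P, hPp, hP0, hP6, hPσ, hPa⟩ := exists_P hS hσ
  have hirr : Irreducible P := (Ideal.prime_of_isPrime hP0 hPp).irreducible
  obtain ⟨k, C', hPC', hC'⟩ := WfDvdMonoid.max_power_factor hC0 hirr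
  have hPk : P ^ k ≠ 0 := pow_ne_zero k hP0
  have hC'σ : C'.map (σ : 𝓞 M →+* 𝓞 M) = C' := by
    have h1 : P ^ k * C'.map (σ : 𝓞 M →+* 𝓞 M) = P ^ k * C' := by
      conv_lhs => rw [← hPσ]
      rw [← Ideal.map_pow, ← Ideal.map_mul, ← hC', hC]
    exact mul_left_cancel₀ hPk h1
  have hmem : ∀ x ∈ C', σ x ∈ C' := by
    intro x hx
    have : (σ : 𝓞 M →+* 𝓞 M) x ∈ C'.map (σ : 𝓞 M →+* 𝓞 M) := Ideal.mem_map_of_mem _ hx
    rw [hC'σ] at this
    exact this
  have hmax : P.IsMaximal := hPp.isMaximal hP0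
  have hsup : C' ⊔ Ideal.span {7} = ⊤ := by
    have h1 : IsCoprime C' P := by
      rw [Ideal.isCoprime_iff_sup_eq]
      by_contra hcon
      have h2 : P = C' ⊔ P := hmax.eq_of_le hcon le_sup_right
      apply hPC'
      rw [Ideal.dvd_iff_le, h2]
      exact le_sup_left
    have h2 : IsCoprime C' (P ^ 6) := h1.pow_right
    rw [hP6, Ideal.isCoprime_iff_sup_eq] at h2
    exact h2
  have hn := coprime_case hS hσ hmem hsup
  set n := C'.comap (algebraMap (𝓞 K) (𝓞 M)) with hndef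
  have hθ : (2 - θ) ≠ 0 := by
    intro h
    have := seven_eq hS.eq
    rw [h] at this
    norm_num at this
  have heq : Ideal.span {(2 - θ) ^ k} * C = (p ^ k * n).map (algebraMap (𝓞 K) (𝓞 M)) := by
    rw [Ideal.map_mul, Ideal.map_pow, hn, ← hPa, hC', ← Ideal.span_singleton_pow, mul_pow,
      mul_assoc]
  refine ⟨p ^ k * n, (2 - θ) ^ k, ?_, pow_ne_zero k hθ, heq⟩
  intro h
  rw [h, Ideal.map_bot, ← Ideal.zero_eq_bot, mul_eq_zero] at heq
  rcases heq with h1 | h1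
  · rw [Ideal.zero_eq_bot, Ideal.span_singleton_eq_bot] at h1
    exact pow_ne_zero k hθ h1
  · exact hC0 h1

end main

/-! ### units -/

section units

variable {K : Type} [Field K] [NumberField K]

/-- elements of a quadratic ring of integers satisfy a monic quadratic equation -/
theorem quad (h2 : Module.finrank ℚ K = 2) (a : 𝓞 K) :
    ∃ s t : ℤ, a ^ 2 + (s : 𝓞 K) * a + (t : 𝓞 K) = 0 := by
  set f : Module.End ℤ (𝓞 K) := Algebra.lmul ℤ (𝓞 K) a with hf
  have h1 : Polynomial.aeval f f.charpoly = 0 := f.aeval_self_charpoly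
  rw [hf, Polynomial.aeval_algHom_apply, ← hf] at h1
  have h3 : Polynomial.aeval a f.charpoly = 0 := by
    have h4 := congrArg (fun g : Module.End ℤ (𝓞 K) => g 1) h1
    simpa using h4
  have hdeg : f.charpoly.natDegree = 2 := by
    rw [LinearMap.charpoly_natDegree, RingOfIntegers.rank, h2]
  have hmon : f.charpoly.coeff 2 = 1 := by
    have := f.charpoly_monic
    rw [Polynomial.Monic, Polynomial.leadingCoeff, hdeg] at this
    exact this
  rw [Polynomial.aeval_eq_sum_range, hdeg, Finset.sum_range_succ, Finset.sum_range_succ,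
    Finset.sum_range_succ, Finset.sum_range_zero, hmon] at h3
  refine ⟨f.charpoly.coeff 1, f.charpoly.coeff 0, ?_⟩
  simp only [zsmul_eq_mul, pow_zero, pow_one, Int.cast_one] at h3
  linear_combination h3

theorem no_root (h2 : Module.finrank ℚ K = 2) (a : 𝓞 K) : 7 * a ^ 2 - 5 * a + 1 ≠ 0 := by
  intro h
  obtain ⟨s, t, hst⟩ := quad h2 a
  set u : ℤ := 7 * s + 5 with hu
  set v : ℤ := 7 * t - 1 with hv
  have h1 : (u : 𝓞 K) * a + (v : 𝓞 K) = 0 := by
    rw [hu, hv]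
    push_cast
    linear_combination 7 * hst - h
  have h3 : ((7 * v ^ 2 + 5 * u * v + u ^ 2 : ℤ) : 𝓞 K) = 0 := by
    push_cast
    have e : (v : 𝓞 K) = -((u : 𝓞 K) * a) := by linear_combination h1
    rw [e]
    linear_combination (u : 𝓞 K) ^ 2 * h
  have h4 : 7 * v ^ 2 + 5 * u * v + u ^ 2 = 0 := by exact_mod_cast h3
  have h5 : (14 * v + 5 * u) ^ 2 + 3 * u ^ 2 = 0 := by linear_combination 28 * h4
  have h6 : u = 0 := by nlinarith [sq_nonneg (14 * v + 5 * u), sq_nonneg u]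
  omega

theorem no_omega (h2 : Module.finrank ℚ K = 2) (ram : ∃ p : Ideal (𝓞 K), p ^ 2 = Ideal.span {7})
    (w : 𝓞 K) : w ^ 2 + w + 1 ≠ 0 := by
  intro hw
  obtain ⟨p, hp⟩ := ram
  have h7 : (7 : 𝓞 K) ≠ 0 := by norm_num
  have hN : Ideal.absNorm p = 7 := by
    have h1 : Ideal.absNorm p ^ 2 = 7 ^ 2 := by
      have h3 : Ideal.absNorm (Ideal.span {((7 : ℕ) : 𝓞 K)}) = 7 ^ Module.finrank ℤ (𝓞 K) :=
        Ideal.absNorm_span_natCast 7
      rw [RingOfIntegers.rank, h2] at h3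
      rw [← map_pow, hp, ← h3]
      norm_num
    exact Nat.pow_left_injective (by norm_num : 2 ≠ 0) h1
  have hpp : p.IsPrime := by
    apply Ideal.isPrime_of_irreducible_absNorm
    rw [hN]
    exact (by norm_num : Nat.Prime 7)
  have hp0 : p ≠ ⊥ := by
    rintro rfl
    rw [Ideal.absNorm_bot] at hN
    norm_num at hN
  have hprime : Prime p := Ideal.prime_of_isPrime hp0 hpp
  have h7p : (7 : 𝓞 K) ∈ p := by
    have h1 : (7 : 𝓞 K) ∈ p ^ 2 := by
      rw [hp]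
      exact Ideal.mem_span_singleton_self _
    exact Ideal.pow_le_self (by norm_num) h1
  have hprod : (3 + w) * (2 - w) = 7 := by linear_combination -hw
  have hnot : ¬ ((3 + w) ∈ p ∧ (2 - w) ∈ p) := by
    rintro ⟨h1, h3⟩
    apply hpp.ne_top
    rw [Ideal.eq_top_iff_one]
    have h5 : (1 : 𝓞 K) = 3 * ((3 + w) + (2 - w)) - 2 * 7 := by ring
    rw [h5]
    exact p.sub_mem (p.mul_mem_left _ (p.add_mem h1 h3)) (p.mul_mem_left _ h7p)
  have key : ∀ b c : 𝓞 K, b * c = 7 → b ∉ p → ∃ a, c = 7 * a := by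
    intro b c hbc hb
    have h1 : p ^ 2 ∣ Ideal.span {b} * Ideal.span {c} := by
      rw [Ideal.span_singleton_mul_span_singleton, hbc, hp]
    have h3 : ¬ p ∣ Ideal.span {b} := by
      rw [Ideal.dvd_span_singleton]
      exact hb
    have h4 := hprime.pow_dvd_of_dvd_mul_left 2 h3 h1
    rw [hp, Ideal.dvd_span_singleton, Ideal.mem_span_singleton] at h4
    exact h4
  by_cases h3 : (3 + w) ∈ p
  · have h4 : (2 - w) ∉ p := fun h => hnot ⟨h3, h⟩
    obtain ⟨a, ha⟩ := key (2 - w) (3 + w) (by rw [mul_comm, hprod]) h4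
    apply no_root h2 a
    have h5 : w = 7 * a - 3 := by linear_combination ha
    rw [h5] at hw
    have h6 : (7 : 𝓞 K) * (7 * a ^ 2 - 5 * a + 1) = 0 := by linear_combination hw
    exact (mul_eq_zero.1 h6).resolve_left h7
  · obtain ⟨a, ha⟩ := key (3 + w) (2 - w) hprod h3
    apply no_root h2 a
    have h5 : w = 2 - 7 * a := by linear_combination -ha
    rw [h5] at hw
    have h6 : (7 : 𝓞 K) * (7 * a ^ 2 - 5 * a + 1) = 0 := by linear_combination hw
    exact (mul_eq_zero.1 h6).resolve_left h7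

theorem rank_zero (h2 : Module.finrank ℚ K = 2) (cx : IsEmpty (K →+* ℝ)) :
    NumberField.Units.rank K = 0 := by
  have htc : NumberField.IsTotallyComplex K := by
    refine ⟨fun v => ?_⟩
    rw [← NumberField.InfinitePlace.not_isReal_iff_isComplex]
    intro hv
    exact cx.elim (NumberField.InfinitePlace.embedding_of_isReal hv)
  have h3 := NumberField.InfinitePlace.card_add_two_mul_card_eq_rank K
  rw [NumberField.IsTotallyComplex.nrRealPlaces_eq_zero, h2] at h3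
  have h4 := NumberField.InfinitePlace.card_eq_nrRealPlaces_add_nrComplexPlaces K
  rw [NumberField.IsTotallyComplex.nrRealPlaces_eq_zero] at h4
  unfold NumberField.Units.rank
  omega

theorem unit_cube (h2 : Module.finrank ℚ K = 2) (cx : IsEmpty (K →+* ℝ))
    (ram : ∃ p : Ideal (𝓞 K), p ^ 2 = Ideal.span {7}) (ε : (𝓞 K)ˣ) : ∃ η : (𝓞 K)ˣ, η ^ 3 = ε := by
  have hr := rank_zero h2 cx
  have htor : ∀ ε : (𝓞 K)ˣ, ε ∈ NumberField.Units.torsion K := by
    intro ε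
    obtain ⟨⟨ζ, e⟩, h, -⟩ := NumberField.Units.exist_unique_eq_mul_prod K ε
    have h3 : ∏ i, (NumberField.Units.fundSystem K i) ^ (e i) = 1 := by
      apply Finset.prod_eq_one
      intro i _
      exact absurd i.2 (by omega)
    rw [h, h3, mul_one]
    exact ζ.2
  have hinj : Function.Injective (fun η : NumberField.Units.torsion K => η ^ 3) := by
    intro a b hab
    simp only at hab
    have h3 : (a * b⁻¹) ^ 3 = 1 := by rw [mul_pow, hab, ← mul_pow, mul_inv_cancel, one_pow]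
    set c : NumberField.Units.torsion K := a * b⁻¹ with hc
    by_contra hne
    have hc1 : c ≠ 1 := by
      intro h
      apply hne
      rw [hc, mul_inv_eq_one] at h
      exact h
    set w : 𝓞 K := ((c : (𝓞 K)ˣ) : 𝓞 K) with hw
    have hw3 : w ^ 3 = 1 := by
      have h4 : ((c : (𝓞 K)ˣ) : 𝓞 K) ^ 3 = 1 := by
        have h5 : (c : (𝓞 K)ˣ) ^ 3 = 1 := by
          rw [← Subgroup.coe_pow, h3, Subgroup.coe_one]
        rw [← Units.val_pow_eq_pow_val, h5, Units.val_one]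
      exact h4
    have hw1 : w ≠ 1 := by
      intro h
      apply hc1
      apply Subtype.ext
      apply Units.ext
      exact h
    have h4 : (w - 1) * (w ^ 2 + w + 1) = 0 := by linear_combination hw3
    rcases mul_eq_zero.1 h4 with h5 | h5
    · exact hw1 (sub_eq_zero.1 h5)
    · exact no_omega h2 ram w h5
  have hsurj : Function.Surjective (fun η : NumberField.Units.torsion K => η ^ 3) :=
    Finite.surjective_of_injective hinj
  obtain ⟨η, hη⟩ := hsurj ⟨ε, htor ε⟩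
  refine ⟨η, ?_⟩
  have := congrArg Subtype.val hη
  exact this

end units

section final

variable {K M : Type} [Field K] [NumberField K] [Field M] [NumberField M] [Algebra K M]
  {θ : 𝓞 M} (hS : Sit K M θ) {σ : 𝓞 M ≃ₐ[𝓞 K] 𝓞 M} (hσ : Aut3 K M θ σ)

/-- the norm -/
def Nm (σ : 𝓞 M ≃ₐ[𝓞 K] 𝓞 M) (x : 𝓞 M) : 𝓞 M := x * σ x * σ (σ x)

include hS hσ in
theorem Nm_fixed (x : 𝓞 M) : σ (Nm σ x) = Nm σ x := by
  unfold Nm
  rw [map_mul, map_mul, cube hS hσ x]
  ring

theorem Nm_ne {x : 𝓞 M} (hx : x ≠ 0) : Nm σ x ≠ 0 := by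
  unfold Nm
  have h1 : σ x ≠ 0 := fun h => hx ((map_eq_zero_iff σ σ.injective).1 h)
  have h2 : σ (σ x) ≠ 0 := fun h => h1 ((map_eq_zero_iff σ σ.injective).1 h)
  exact mul_ne_zero (mul_ne_zero hx h1) h2

include hS hσ in
/-- Hilbert 90 -/
theorem hilbert90 {x y : 𝓞 M} (hx : x ≠ 0) (hxy : Nm σ x = Nm σ y) :
    ∃ z : 𝓞 M, z ≠ 0 ∧ x * z = y * σ z := by
  set z : 𝓞 M → 𝓞 M := fun a => Nm σ x * a + y * σ x * σ (σ x) * σ a +
    y * σ y * σ (σ x) * σ (σ a) with hz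
  have hx3 := cube hS hσ x
  have hy3 := cube hS hσ y
  have hzσ : ∀ a, x * z a = y * σ (z a) := by
    intro a
    have ha3 := cube hS hσ a
    simp only [hz]
    rw [map_add, map_add, map_mul, Nm_fixed hS hσ, map_mul, map_mul, map_mul, map_mul, map_mul,
      map_mul, hx3, ha3]
    have h1 : Nm σ x = y * σ y * σ (σ y) := hxy
    unfold Nm at h1 ⊢
    linear_combination x * a * h1 + 0 * h1
  by_contra hcon
  push Not at hcon
  have hz0 : ∀ a, z a = 0 := by
    intro a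
    by_contra h
    exact hcon (z a) h (hzσ a)
  have e1 := s1 hσ
  have e2 := s2 hS hσ
  have q1 := hz0 1
  have q2 := hz0 θ
  have q3 := hz0 (θ ^ 2)
  simp only [hz, map_one, map_pow, e1, e2] at q1 q2 q3
  set θ1 := θ ^ 2 - 2 with h1
  set θ2 := 1 - θ - θ ^ 2 with h2
  have h3 : Nm σ x * ((θ - θ1) * (θ - θ2)) = 0 := by
    linear_combination q3 - (θ1 + θ2) * q2 + θ1 * θ2 * q1
  rcases mul_eq_zero.1 h3 with h | h
  · exact Nm_ne hx h
  · rcases mul_eq_zero.1 h with h | h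
    · exact ne_sub hS h
    · exact ne_sub' hS h

include hS hσ in
theorem main {C : Ideal (𝓞 M)} (hC0 : C ≠ ⊥) {x y : 𝓞 M} (hx : x ≠ 0) (hy : y ≠ 0)
    (h : Ideal.span {x} * C = Ideal.span {y} * C.map (σ : 𝓞 M →+* 𝓞 M)) :
    ∃ (D : Ideal (𝓞 K)) (u w : 𝓞 M), D ≠ ⊥ ∧ u ≠ 0 ∧ w ≠ 0 ∧
    Ideal.span {u} * C = Ideal.span {w} * D.map (algebraMap (𝓞 K) (𝓞 M)) := by
  set s : 𝓞 M →+* 𝓞 M := (σ : 𝓞 M →+* 𝓞 M) with hs
  have hsσ : ∀ a, s a = σ a := fun a => rfl
  have hinj : Function.Injective s := σ.injective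
  have hmap0 : ∀ I : Ideal (𝓞 M), I ≠ ⊥ → I.map s ≠ ⊥ := by
    intro I hI h0
    exact hI ((Ideal.map_eq_bot_iff_of_injective hinj).1 h0)
  have hspan : ∀ a : 𝓞 M, (Ideal.span {a}).map s = Ideal.span {σ a} := by
    intro a
    rw [Ideal.map_span, Set.image_singleton, hsσ]
  have hC1 : C.map s ≠ ⊥ := hmap0 C hC0
  have hC2 : (C.map s).map s ≠ ⊥ := hmap0 _ hC1
  have hC3 : ((C.map s).map s).map s = C := by
    rw [Ideal.map_map, Ideal.map_map]
    have : (s.comp s).comp s = RingHom.id _ := by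
      ext a
      simp only [RingHom.comp_apply, RingHom.id_apply, hsσ]
      rw [cube hS hσ]
    rw [this, Ideal.map_id]
  have h1 : Ideal.span {σ x} * C.map s = Ideal.span {σ y} * (C.map s).map s := by
    have := congrArg (Ideal.map s) h
    rw [Ideal.map_mul, Ideal.map_mul, hspan, hspan] at this
    exact this
  have h2 : Ideal.span {σ (σ x)} * (C.map s).map s = Ideal.span {σ (σ y)} * C := by
    have := congrArg (Ideal.map s) h1
    rw [Ideal.map_mul, Ideal.map_mul, hspan, hspan, hC3] at this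
    exact this
  -- the norms generate the same ideal
  have hN : Ideal.span {Nm σ x} = Ideal.span {Nm σ y} := by
    have e : ∀ a : 𝓞 M, Ideal.span {Nm σ a} =
        Ideal.span {a} * Ideal.span {σ a} * Ideal.span {σ (σ a)} := by
      intro a
      rw [Ideal.span_singleton_mul_span_singleton, Ideal.span_singleton_mul_span_singleton]
      rfl
    have hne : C * C.map s * (C.map s).map s ≠ 0 := mul_ne_zero (mul_ne_zero hC0 hC1) hC2
    apply mul_right_cancel₀ hne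
    rw [e, e]
    calc Ideal.span {x} * Ideal.span {σ x} * Ideal.span {σ (σ x)} *
          (C * C.map s * (C.map s).map s)
        = (Ideal.span {x} * C) * (Ideal.span {σ x} * C.map s) *
          (Ideal.span {σ (σ x)} * (C.map s).map s) := by ring
      _ = (Ideal.span {y} * C.map s) * (Ideal.span {σ y} * (C.map s).map s) *
          (Ideal.span {σ (σ y)} * C) := by rw [h, h1, h2]
      _ = _ := by ring
  obtain ⟨v, hv⟩ := Ideal.span_singleton_eq_span_singleton.1 hN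
  have hNx := Nm_ne (σ := σ) hx
  have hvfix : σ (v : 𝓞 M) = v := by
    have h3 := congrArg σ hv
    rw [map_mul, Nm_fixed hS hσ, Nm_fixed hS hσ, ← hv] at h3
    exact mul_left_cancel₀ hNx h3
  have hvfix' : σ ((v⁻¹ : (𝓞 M)ˣ) : 𝓞 M) = ((v⁻¹ : (𝓞 M)ˣ) : 𝓞 M) := by
    have h3 : (v : 𝓞 M) * σ ((v⁻¹ : (𝓞 M)ˣ) : 𝓞 M) = (v : 𝓞 M) * ((v⁻¹ : (𝓞 M)ˣ) : 𝓞 M) := by
      conv_lhs => rw [← hvfix]
      rw [← map_mul, Units.mul_inv, map_one]
    exact mul_left_cancel₀ v.ne_zero h3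
  obtain ⟨k, hk⟩ := fixed hS hσ hvfix
  obtain ⟨k', hk'⟩ := fixed hS hσ hvfix'
  have hkk : k * k' = 1 := by
    have hinjK : Function.Injective (algebraMap (𝓞 K) (𝓞 M)) :=
      FaithfulSMul.algebraMap_injective (𝓞 K) (𝓞 M)
    apply hinjK
    rw [map_mul, hk, hk', map_one, Units.mul_inv]
  obtain ⟨η, hη⟩ := unit_cube hS.two hS.cx hS.ram ⟨k, k', hkk, by rw [mul_comm]; exact hkk⟩
  set e : 𝓞 M := algebraMap (𝓞 K) (𝓞 M) (η : 𝓞 K) with he
  have heu : IsUnit e := (Units.isUnit η).map _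
  have heσ : σ e = e := by
    rw [he]
    exact σ.commutes _
  have he3 : e ^ 3 = v := by
    rw [he, ← map_pow, ← hk]
    congr 1
    have := congrArg Units.val hη
    rw [Units.val_pow_eq_pow_val] at this
    exact this
  have hxe0 : e * x ≠ 0 := mul_ne_zero heu.ne_zero hx
  have hNe : Nm σ (e * x) = Nm σ y := by
    rw [← hv, ← he3]
    unfold Nm
    rw [map_mul, map_mul, heσ, heσ]
    ring
  have hspane : Ideal.span {e * x} = Ideal.span {x} := by
    rw [mul_comm]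
    exact Ideal.span_singleton_mul_right_unit heu _
  obtain ⟨z, hz0, hz⟩ := hilbert90 hS hσ hxe0 hNe
  set x' := e * x with hx'
  set w : 𝓞 M := σ z * σ (σ z) with hw
  have hσz0 : σ z ≠ 0 := fun h => hz0 ((map_eq_zero_iff σ σ.injective).1 h)
  have hσσz0 : σ (σ z) ≠ 0 := fun h => hσz0 ((map_eq_zero_iff σ σ.injective).1 h)
  have hw0 : w ≠ 0 := mul_ne_zero hσz0 hσσz0
  have hyw : y * w = x' * σ w := by
    rw [hw, map_mul, cube hS hσ z]
    linear_combination (-σ (σ z)) * hz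
  have hinv : (Ideal.span {w} * C).map s = Ideal.span {w} * C := by
    rw [Ideal.map_mul, hspan]
    have hy0 : Ideal.span {y} ≠ 0 := by
      rw [Ne, Ideal.zero_eq_bot, Ideal.span_singleton_eq_bot]
      exact hy
    apply mul_left_cancel₀ hy0
    calc Ideal.span {y} * (Ideal.span {σ w} * C.map s)
        = Ideal.span {σ w} * (Ideal.span {y} * C.map s) := by ring
      _ = Ideal.span {σ w} * (Ideal.span {x'} * C) := by rw [← h, hspane]
      _ = (Ideal.span {x'} * Ideal.span {σ w}) * C := by ring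
      _ = (Ideal.span {y} * Ideal.span {w}) * C := by
          rw [Ideal.span_singleton_mul_span_singleton, ← hyw,
            ← Ideal.span_singleton_mul_span_singleton]
      _ = _ := by ring
  have hwC0 : Ideal.span {w} * C ≠ ⊥ := by
    refine mul_ne_zero ?_ hC0
    rw [Ne, Ideal.zero_eq_bot, Ideal.span_singleton_eq_bot]
    exact hw0
  obtain ⟨D, u, hD, hu, hDu⟩ := invariant_ideal hS hσ hwC0 hinv
  refine ⟨D, u * w, 1, hD, mul_ne_zero hu hw0, one_ne_zero, ?_⟩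
  rw [← Ideal.span_singleton_mul_span_singleton, mul_assoc, hDu, Ideal.span_singleton_one,
    Ideal.top_mul]

end final

theorem result (_ha : S_aut) : S_amb := by
  intro K M _ _ _ _ _ θ hS σ hσ C hC0 x y hx hy h
  exact main hS hσ hC0 hx hy h

end Pool.Agent.TH515.J1419
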