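import Pool.Agent.TH716.C3.Stmts

set_option autoImplicit false

namespace Pool.Agent.TH515.J523

open Pool.Agent.TH716.C3 Pool.Agent.Helper281.Sc

/-! ### the wedge of circles -/

theorem th0 (p : ℕ) : ({0} : Finset ℕ) ∈ Th p := ⟨by simp, Or.inl rfl⟩

theorem th_e1 {p j : ℕ} (hj : j < p) : ({0, 2 * j + 1} : Finset ℕ) ∈ Th p :=
  ⟨by simp, Or.inr ⟨j, hj, Or.inl (Finset.Subset.refl _)⟩⟩

theorem th_e2 {p j : ℕ} (hj : j < p) : ({2 * j + 1, 2 * j + 2} : Finset ℕ) ∈ Th p :=
  ⟨by simp, Or.inr ⟨j, hj, Or.inr (Or.inl (Finset.Subset.refl _))⟩⟩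

theorem th_e3 {p j : ℕ} (hj : j < p) : ({0, 2 * j + 2} : Finset ℕ) ∈ Th p :=
  ⟨by simp, Or.inr ⟨j, hj, Or.inr (Or.inr (Finset.Subset.refl _))⟩⟩

theorem isCx_Th (p : ℕ) : IsCx (Th p) := by
  refine ⟨fun h => by simpa using h.1, ?_⟩
  rintro s ⟨-, h⟩ t hts htn
  refine ⟨htn, ?_⟩
  rcases h with rfl | ⟨j, hj, h | h | h⟩
  · left
    rcases Finset.subset_singleton_iff.1 hts with h | h
    · rw [h] at htn; simp at htn
    · exact h
  · exact Or.inr ⟨j, hj, Or.inl (hts.trans h)⟩
  · exact Or.inr ⟨j, hj, Or.inr (Or.inl (hts.trans h))⟩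
  · exact Or.inr ⟨j, hj, Or.inr (Or.inr (hts.trans h))⟩

theorem th_sub {p : ℕ} {s : Finset ℕ} (hs : s ∈ Th p) : s ⊆ Finset.range (2 * p + 1) := by
  intro x hx
  rw [Finset.mem_range]
  obtain ⟨-, h⟩ := hs
  rcases h with rfl | ⟨j, hj, h | h | h⟩
  · rw [Finset.mem_singleton] at hx; omega
  all_goals
    have := h hx
    rw [Finset.mem_insert, Finset.mem_singleton] at this
    omega

theorem finite_Th (p : ℕ) : (Th p).Finite :=
  (Finset.finite_toSet (Finset.powerset (Finset.range (2 * p + 1)))).subset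
    fun s hs => by
      rw [Finset.mem_coe, Finset.mem_powerset]
      exact th_sub hs

theorem card_Th {p : ℕ} {s : Finset ℕ} (hs : s ∈ Th p) : s.card ≤ 2 := by
  obtain ⟨-, h⟩ := hs
  rcases h with rfl | ⟨j, hj, h | h | h⟩
  · simp
  all_goals exact (Finset.card_le_card h).trans Finset.card_le_two

/-- vertices of the wedge are joined to `0` -/
theorem th_zero {p a : ℕ} (ha : ({a} : Finset ℕ) ∈ Th p) : ({a, 0} : Finset ℕ) ∈ Th p := by
  obtain ⟨-, h⟩ := ha
  rcases h with h | ⟨j, hj, h | h | h⟩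
  · rw [Finset.singleton_inj] at h
    subst h
    exact ⟨by simp, Or.inl (by simp)⟩
  all_goals
    rw [Finset.singleton_subset_iff, Finset.mem_insert, Finset.mem_singleton] at h
    rcases h with rfl | rfl
  · exact ⟨by simp, Or.inl (by simp)⟩
  · rw [Finset.pair_comm]; exact th_e1 hj
  · rw [Finset.pair_comm]; exact th_e1 hj
  · rw [Finset.pair_comm]; exact th_e3 hj
  · exact ⟨by simp, Or.inl (by simp)⟩
  · rw [Finset.pair_comm]; exact th_e3 hj

/-! ### products -/

theorem isCx_Pr {K T : Set (Finset ℕ)} (hK : IsCx K) (hT : IsCx T) : IsCx (Pr K T) := by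
  refine ⟨fun h => hK.1 (by simpa using h.1), ?_⟩
  rintro s ⟨h1, h2, h3⟩ t hts htn
  exact ⟨hK.2 _ h1 _ (Finset.image_subset_image hts) (htn.image _),
    hT.2 _ h2 _ (Finset.image_subset_image hts) (htn.image _),
    fun x hx y hy => h3 x (hts hx) y (hts hy)⟩

theorem finite_Pr {K T : Set (Finset ℕ)} (hK : K.Finite) (hT : T.Finite) : (Pr K T).Finite := by
  classical
  refine (Finset.finite_toSet (Finset.powerset ((hK.toFinset.biUnion id) ×ˢ
    (hT.toFinset.biUnion id)))).subset ?_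
  rintro s ⟨h1, h2, h3⟩
  rw [Finset.mem_coe, Finset.mem_powerset]
  intro x hx
  rw [Finset.mem_product, Finset.mem_biUnion, Finset.mem_biUnion]
  exact ⟨⟨_, hK.mem_toFinset.2 h1, Finset.mem_image_of_mem _ hx⟩,
    ⟨_, hT.mem_toFinset.2 h2, Finset.mem_image_of_mem _ hx⟩⟩

theorem card_chain (s : Finset (ℕ × ℕ)) (hs : ∀ x ∈ s, ∀ y ∈ s, x ≤ y ∨ y ≤ x) {A B : ℕ}
    (hA : (s.image Prod.fst).card ≤ A + 1) (hB : (s.image Prod.snd).card ≤ B + 1) :
    s.card ≤ A + B + 1 := by
  classical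
  set r : ℕ × ℕ → ℕ := fun x => ((s.image Prod.fst).filter (· < x.1)).card +
    ((s.image Prod.snd).filter (· < x.2)).card with hr
  have hmono : ∀ x ∈ s, ∀ y ∈ s, x ≤ y → x ≠ y → r x < r y := by
    rintro ⟨a, b⟩ hx ⟨c, d⟩ hy hxy hne
    have h1 : a ≤ c := hxy.1
    have h2 : b ≤ d := hxy.2
    have e1 : ((s.image Prod.fst).filter (· < a)).card ≤
        ((s.image Prod.fst).filter (· < c)).card := by
      apply Finset.card_le_card
      intro z hz
      rw [Finset.mem_filter] at hz ⊢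
      exact ⟨hz.1, hz.2.trans_le h1⟩
    have e2 : ((s.image Prod.snd).filter (· < b)).card ≤
        ((s.image Prod.snd).filter (· < d)).card := by
      apply Finset.card_le_card
      intro z hz
      rw [Finset.mem_filter] at hz ⊢
      exact ⟨hz.1, hz.2.trans_le h2⟩
    rcases h1.lt_or_eq with h3 | h3
    · have e3 : ((s.image Prod.fst).filter (· < a)).card <
          ((s.image Prod.fst).filter (· < c)).card := by
        apply Finset.card_lt_card
        rw [Finset.ssubset_iff_of_subset]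
        · refine ⟨a, ?_, ?_⟩
          · rw [Finset.mem_filter]
            exact ⟨Finset.mem_image_of_mem Prod.fst hx, h3⟩
          · simp
        · intro z hz
          rw [Finset.mem_filter] at hz ⊢
          exact ⟨hz.1, hz.2.trans_le h1⟩
      simp only [hr]; omega
    · have h4 : b < d := by
        rcases h2.lt_or_eq with h4 | h4
        · exact h4
        · exact absurd (Prod.ext h3 h4) hne
      have e3 : ((s.image Prod.snd).filter (· < b)).card <
          ((s.image Prod.snd).filter (· < d)).card := by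
        apply Finset.card_lt_card
        rw [Finset.ssubset_iff_of_subset]
        · refine ⟨b, ?_, ?_⟩
          · rw [Finset.mem_filter]
            exact ⟨Finset.mem_image_of_mem Prod.snd hx, h4⟩
          · simp
        · intro z hz
          rw [Finset.mem_filter] at hz ⊢
          exact ⟨hz.1, hz.2.trans_le h2⟩
      simp only [hr]; omega
  have hinj : Set.InjOn r s := by
    intro x hx y hy he
    by_contra hne
    rcases hs x hx y hy with h | h
    · exact absurd he (hmono x hx y hy h hne).ne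
    · exact absurd he (hmono y hy x hx h (Ne.symm hne)).ne'
  have hmaps : ∀ x ∈ s, r x ∈ Finset.range (A + B + 1) := by
    intro x hx
    have e1 : ((s.image Prod.fst).filter (· < x.1)).card < (s.image Prod.fst).card := by
      apply Finset.card_lt_card
      rw [Finset.ssubset_iff_of_subset (Finset.filter_subset _ _)]
      exact ⟨x.1, Finset.mem_image_of_mem _ hx, by simp⟩
    have e2 : ((s.image Prod.snd).filter (· < x.2)).card < (s.image Prod.snd).card := by
      apply Finset.card_lt_card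
      rw [Finset.ssubset_iff_of_subset (Finset.filter_subset _ _)]
      exact ⟨x.2, Finset.mem_image_of_mem _ hx, by simp⟩
    rw [Finset.mem_range]
    simp only [hr]; omega
  have := Finset.card_le_card_of_injOn r hmaps hinj
  simpa using this

theorem pr_tri1 {K T : Set (Finset ℕ)} {u v a b : ℕ} (h1 : ({u, v} : Finset ℕ) ∈ K)
    (h2 : ({a, b} : Finset ℕ) ∈ T) (huv : u ≤ v) (hab : a ≤ b) :
    ({(u, a), (v, a), (v, b)} : Finset (ℕ × ℕ)) ∈ Pr K T := by
  refine ⟨by simpa [Finset.image_insert, Finset.image_singleton] using h1,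
    by simpa [Finset.image_insert, Finset.image_singleton] using h2, ?_⟩
  have e1 : ((u, a) : ℕ × ℕ) ≤ (v, a) := ⟨huv, le_rfl⟩
  have e2 : ((v, a) : ℕ × ℕ) ≤ (v, b) := ⟨le_rfl, hab⟩
  have e3 := e1.trans e2
  intro x hx y hy
  simp only [Finset.mem_insert, Finset.mem_singleton] at hx hy
  rcases hx with rfl | rfl | rfl <;> rcases hy with rfl | rfl | rfl <;> simp [*]

theorem pr_tri2 {K T : Set (Finset ℕ)} {u v a b : ℕ} (h1 : ({u, v} : Finset ℕ) ∈ K)
    (h2 : ({a, b} : Finset ℕ) ∈ T) (huv : u ≤ v) (hab : a ≤ b) :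
    ({(u, a), (u, b), (v, b)} : Finset (ℕ × ℕ)) ∈ Pr K T := by
  refine ⟨by simpa [Finset.image_insert, Finset.image_singleton] using h1,
    by simpa [Finset.image_insert, Finset.image_singleton] using h2, ?_⟩
  have e1 : ((u, a) : ℕ × ℕ) ≤ (u, b) := ⟨le_rfl, hab⟩
  have e2 : ((u, b) : ℕ × ℕ) ≤ (v, b) := ⟨huv, le_rfl⟩
  have e3 := e1.trans e2
  intro x hx y hy
  simp only [Finset.mem_insert, Finset.mem_singleton] at hx hy
  rcases hx with rfl | rfl | rfl <;> rcases hy with rfl | rfl | rfl <;> simp [*]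

/-- horizontal edges -/
theorem pr_h {K T : Set (Finset ℕ)} {u v a : ℕ} (h1 : ({u, v} : Finset ℕ) ∈ K)
    (h2 : ({a} : Finset ℕ) ∈ T) : ({(u, a), (v, a)} : Finset (ℕ × ℕ)) ∈ Pr K T := by
  refine ⟨by simpa [Finset.image_insert, Finset.image_singleton] using h1,
    by simpa [Finset.image_insert, Finset.image_singleton] using h2, ?_⟩
  intro x hx y hy
  simp only [Finset.mem_insert, Finset.mem_singleton] at hx hy
  rcases hx with rfl | rfl <;> rcases hy with rfl | rfl <;> simp [Prod.le_def, le_total]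

/-- vertical edges -/
theorem pr_v {K T : Set (Finset ℕ)} {u a b : ℕ} (h1 : ({u} : Finset ℕ) ∈ K)
    (h2 : ({a, b} : Finset ℕ) ∈ T) : ({(u, a), (u, b)} : Finset (ℕ × ℕ)) ∈ Pr K T := by
  refine ⟨by simpa [Finset.image_insert, Finset.image_singleton] using h1,
    by simpa [Finset.image_insert, Finset.image_singleton] using h2, ?_⟩
  intro x hx y hy
  simp only [Finset.mem_insert, Finset.mem_singleton] at hx hy
  rcases hx with rfl | rfl <;> rcases hy with rfl | rfl <;> simp [Prod.le_def, le_total]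

/-! ### gadgets -/

theorem nx_le (l i : ℕ) : nx l i ≤ l := by
  unfold nx; split_ifs <;> omega

theorem isCx_Gad' {U : Type} [DecidableEq U] (l : ℕ) (p y : ℕ → U) (z : U) :
    IsCx (Gad l p y z) := by
  refine ⟨fun h => by simpa using h.1, ?_⟩
  rintro s ⟨-, i, hi, h⟩ t hts htn
  refine ⟨htn, i, hi, ?_⟩
  rcases h with h | h | h
  · exact Or.inl (hts.trans h)
  · exact Or.inr (Or.inl (hts.trans h))
  · exact Or.inr (Or.inr (hts.trans h))

theorem card_Gad {U : Type} [DecidableEq U] {l : ℕ} {p y : ℕ → U} {z : U} {s : Finset U}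
    (hs : s ∈ Gad l p y z) : s.card ≤ 3 := by
  obtain ⟨-, i, hi, h⟩ := hs
  rcases h with h | h | h <;> exact (Finset.card_le_card h).trans Finset.card_le_three

theorem finite_Gad {U : Type} [DecidableEq U] (l : ℕ) (p y : ℕ → U) (z : U) :
    (Gad l p y z).Finite := by
  refine (Finset.finite_toSet (Finset.powerset ((Finset.range (l + 1)).image p ∪
    ((Finset.range (l + 1)).image y ∪ {z})))).subset ?_
  rintro s ⟨-, i, hi, h⟩
  rw [Finset.mem_coe, Finset.mem_powerset]
  have hi' : i ∈ Finset.range (l + 1) := Finset.mem_range.2 (by omega)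
  have hn' : nx l i ∈ Finset.range (l + 1) := Finset.mem_range.2 (by have := nx_le l i; omega)
  intro x hx
  have m1 := Finset.mem_image_of_mem p hi'
  have m2 := Finset.mem_image_of_mem p hn'
  have m3 := Finset.mem_image_of_mem y hi'
  have m4 := Finset.mem_image_of_mem y hn'
  rw [Finset.mem_union, Finset.mem_union, Finset.mem_singleton]
  rcases h with h | h | h
  all_goals
    have := h hx
    simp only [Finset.mem_insert, Finset.mem_singleton] at this
    rcases this with rfl | rfl | rfl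
  · exact Or.inl m1
  · exact Or.inl m2
  · exact Or.inr (Or.inl m3)
  · exact Or.inl m2
  · exact Or.inr (Or.inl m3)
  · exact Or.inr (Or.inl m4)
  · exact Or.inr (Or.inl m3)
  · exact Or.inr (Or.inl m4)
  · exact Or.inr (Or.inr rfl)

/-! ### walks -/

theorem wv_zero (r : List (ℕ × Bool)) (m : ℕ) : wv r (3 * m) = 0 := by
  unfold wv
  rw [show 3 * m / 3 = m by omega, show 3 * m % 3 = 0 by omega]
  cases r[m]? <;> simp

theorem wv_one (r : List (ℕ × Bool)) (m x : ℕ) (b : Bool) (h : r[m]? = some (x, b)) :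
    wv r (3 * m + 1) = if b then 2 * x + 1 else 2 * x + 2 := by
  unfold wv
  rw [show (3 * m + 1) / 3 = m by omega, show (3 * m + 1) % 3 = 1 by omega, h]
  cases b <;> simp

theorem wv_two (r : List (ℕ × Bool)) (m x : ℕ) (b : Bool) (h : r[m]? = some (x, b)) :
    wv r (3 * m + 2) = if b then 2 * x + 2 else 2 * x + 1 := by
  unfold wv
  rw [show (3 * m + 2) / 3 = m by omega, show (3 * m + 2) % 3 = 2 by omega, h]
  cases b <;> simp

theorem wv_mem {r : List (ℕ × Bool)} {N : ℕ} (hr : ∀ x ∈ r, x.1 < N) (i : ℕ) :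
    ({wv r i} : Finset ℕ) ∈ Th N := by
  unfold wv
  cases h : r[i / 3]? with
  | none => exact th0 N
  | some y =>
    obtain ⟨x, b⟩ := y
    have hx : x < N := hr (x, b) (List.mem_of_getElem? h)
    dsimp only
    split_ifs
    · exact th0 N
    · exact (isCx_Th N).2 _ (th_e1 hx) _ (by simp) (by simp)
    · exact (isCx_Th N).2 _ (th_e3 hx) _ (by simp) (by simp)

theorem wk_mem {K : Set (Finset ℕ)} {N p j : ℕ} (hN : Th N ⊆ K) (hj : j < p)
    {r : List (ℕ × Bool)} (hr : ∀ x ∈ r, x.1 < N) (i : ℕ) :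
    ({wk j r i} : Finset (ℕ × ℕ)) ∈ Pr K (Th p) := by
  have aux : ∀ u a : ℕ, ({u} : Finset ℕ) ∈ K → ({a} : Finset ℕ) ∈ Th p →
      ({(u, a)} : Finset (ℕ × ℕ)) ∈ Pr K (Th p) := by
    intro u a hu ha
    refine ⟨by simpa using hu, by simpa using ha, ?_⟩
    intro x hx y hy
    rw [Finset.mem_singleton] at hx hy
    rw [hx, hy]
    exact Or.inl le_rfl
  unfold wk
  split_ifs
  · exact aux _ _ (hN (th0 N)) (th0 p)
  · exact aux _ _ (hN (th0 N)) ((isCx_Th p).2 _ (th_e1 hj) _ (by simp) (by simp))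
  · exact aux _ _ (hN (th0 N)) ((isCx_Th p).2 _ (th_e3 hj) _ (by simp) (by simp))
  · exact aux _ _ (hN (wv_mem hr _)) (th0 p)

/-! ### ordered products -/

variable {G : Type} [Group G]

/-- ordered product -/
def pr (f : ℕ → G) : ℕ → G
  | 0 => 1
  | n + 1 => pr f n * f n

theorem ev_append (γ : ℕ → G) (r s : List (ℕ × Bool)) : ev γ (r ++ s) = ev γ r * ev γ s := by
  simp [ev]

theorem pr_walk {N : ℕ} (C0 : ℕ → ℕ → G)
    (h1 : ∀ x < N, C0 (2 * x + 1) 0 = (C0 0 (2 * x + 1))⁻¹)
    (h2 : ∀ x < N, C0 (2 * x + 2) (2 * x + 1) = (C0 (2 * x + 1) (2 * x + 2))⁻¹)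
    (h3 : ∀ x < N, C0 0 (2 * x + 2) = (C0 (2 * x + 2) 0)⁻¹)
    (r : List (ℕ × Bool)) (hr : ∀ x ∈ r, x.1 < N) (f : ℕ → G)
    (hf : ∀ i, f (3 + i) = C0 (wv r i) (wv r (i + 1))) (m : ℕ) (hm : m ≤ r.length) :
    pr f (3 + 3 * m) = pr f 3 * ev (hl C0) (r.take m) := by
  induction m with
  | zero => simp [ev]
  | succ m ih =>
    have hlt : m < r.length := hm
    rcases hxb : r[m] with ⟨x, b⟩
    have hg : r[m]? = some (x, b) := by rw [List.getElem?_eq_getElem hlt, hxb]
    have hx : x < N := hr (x, b) (hxb ▸ List.getElem_mem hlt)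
    have e1 := wv_one r m x b hg
    have e2 := wv_two r m x b hg
    have e0 := wv_zero r m
    have e3 : wv r (3 * m + 3) = 0 := by rw [show 3 * m + 3 = 3 * (m + 1) by ring]; exact wv_zero _ _
    have key : pr f (3 + 3 * (m + 1)) = pr f (3 + 3 * m) *
        (C0 0 (wv r (3 * m + 1)) * C0 (wv r (3 * m + 1)) (wv r (3 * m + 2)) *
          C0 (wv r (3 * m + 2)) 0) := by
      rw [show 3 + 3 * (m + 1) = 3 + 3 * m + 1 + 1 + 1 by ring]
      simp only [pr]
      rw [show 3 + 3 * m + 1 + 1 = 3 + (3 * m + 2) by ring, show 3 + 3 * m + 1 = 3 + (3 * m + 1) by ring,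
        hf, hf, hf, e0, e3]
      group
    rw [key, ih (by omega), List.take_succ_eq_append_getElem hlt, ev_append, hxb, e1, e2, mul_assoc]
    congr 1
    congr 1
    cases b
    · simp [ev, hl, h1 x hx, h2 x hx, h3 x hx, mul_assoc]
    · simp [ev, hl]

end Pool.Agent.TH515.J523
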