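import Pool.Agent.TH760.ZDefs

/-!
# Job 665: building strong subtrees from a dense monochromatic matrix
-/

set_option autoImplicit false

universe u

namespace Pool.Agent.TH515.J665

open Cardinal Ordinal Set
open Pool.Agent.TH760
open Pool.Agent.H348R6.HLT (Node IsTree level ImmSucc cut unionNode snoc cut_len cut_fn cut_le
  le_cut le_of_len_le eq_of_len_eq cut_eq cut_mono unionNode_fn le_unionNode branch_of
  exists_maxChain add_one_lt_ord)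

/-! ### starts of intervals -/

/-- Starts of the intervals `[ρ, n ρ)` partitioning `[ζ, ∞)`. -/
def Start (ζ : Ordinal.{u}) (n : Ordinal.{u} → Ordinal.{u}) (ξ : Ordinal.{u}) : Prop :=
  ζ ≤ ξ ∧ ∀ ρ, ρ < ξ → Start ζ n ρ → n ρ ≤ ξ
termination_by ξ

section start
variable {ζ : Ordinal.{u}} {n : Ordinal.{u} → Ordinal.{u}}

theorem start_iff (ξ : Ordinal.{u}) :
    Start ζ n ξ ↔ ζ ≤ ξ ∧ ∀ ρ, ρ < ξ → Start ζ n ρ → n ρ ≤ ξ := by
  rw [Start]

theorem Start.le {ξ : Ordinal.{u}} (h : Start ζ n ξ) : ζ ≤ ξ := ((start_iff ξ).1 h).1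

theorem Start.next_le {ξ ρ : Ordinal.{u}} (h : Start ζ n ξ) (hρ : Start ζ n ρ) (hlt : ρ < ξ) :
    n ρ ≤ ξ := ((start_iff ξ).1 h).2 ρ hlt hρ

theorem exists_start (hn : ∀ ξ, ζ ≤ ξ → ξ < n ξ) {α : Ordinal.{u}} (hα : ζ ≤ α) :
    ∃ ρ, Start ζ n ρ ∧ ρ ≤ α ∧ α < n ρ := by
  by_cases h : ∃ ρ, Start ζ n ρ ∧ ρ < α ∧ α < n ρ
  · obtain ⟨ρ, h1, h2, h3⟩ := h
    exact ⟨ρ, h1, h2.le, h3⟩
  · push Not at h
    exact ⟨α, (start_iff α).2 ⟨hα, fun ρ hρ hs => h ρ hs hρ⟩, le_rfl, hn α hα⟩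

/-- the end of an interval is a start -/
theorem start_next (hn : ∀ ξ, ζ ≤ ξ → ξ < n ξ) {ρ : Ordinal.{u}} (hρ : Start ζ n ρ) :
    Start ζ n (n ρ) := by
  refine (start_iff _).2 ⟨hρ.le.trans (hn ρ hρ.le).le, fun σ hσ hs => ?_⟩
  rcases lt_trichotomy σ ρ with h | h | h
  · exact (hρ.next_le hs h).trans (hn ρ hρ.le).le
  · rw [h]
  · exact absurd (hs.next_le hρ h) (not_le.2 hσ)

end start

/-! ### comparability -/

/-- comparable nodes -/
def Cmp (x y : Node.{u}) : Prop := x ≤ y ∨ y ≤ x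

theorem Cmp.le {x y : Node.{u}} (h : Cmp x y) (hl : x.len ≤ y.len) : x ≤ y := by
  rcases h with h | h
  · exact h
  · exact le_of_len_le le_rfl h hl

theorem Cmp.ge {x y : Node.{u}} (h : Cmp x y) (hl : y.len ≤ x.len) : y ≤ x :=
  Cmp.le h.symm hl

theorem cmp_of_le {x y z : Node.{u}} (hx : x ≤ z) (hy : y ≤ z) : Cmp x y := by
  rcases le_total x.len y.len with h | h
  · exact Or.inl (le_of_len_le hx hy h)
  · exact Or.inr (le_of_len_le hy hx h)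

theorem Cmp.down {x y z : Node.{u}} (h : Cmp x z) (hy : y ≤ x) : Cmp y z := by
  rcases h with h | h
  · exact Or.inl (hy.trans h)
  · exact cmp_of_le hy h

/-- comparability passes to unions -/
theorem cmp_union {b : Set Node.{u}} (hb : IsChain (· ≤ ·) b) {γ : Ordinal.{u}}
    (hγ : ∀ x ∈ b, x.len ≤ γ) {G : Node.{u}} (h : ∀ β < γ, ∃ x ∈ b, β < x.len ∧ Cmp x G) :
    Cmp (unionNode b γ) G := by
  by_cases hG : ∃ x ∈ b, G ≤ x
  · obtain ⟨x, hx, hGx⟩ := hG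
    exact Or.inr (hGx.trans (le_unionNode hb hx (hγ x hx)))
  · push Not at hG
    have h' : ∀ β < γ, ∃ x ∈ b, β < x.len ∧ x ≤ G := by
      intro β hβ
      obtain ⟨x, hx, hxβ, hc⟩ := h β hβ
      exact ⟨x, hx, hxβ, hc.resolve_right (hG x hx)⟩
    left
    refine ⟨?_, fun β hβ => ?_⟩
    · by_contra hc
      push Not at hc
      obtain ⟨x, hx, hxβ, hxG⟩ := h' _ hc
      exact absurd hxG.1 (not_le.2 hxβ)
    · obtain ⟨x, hx, hxβ, hxG⟩ := h' β hβ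
      rw [unionNode_fn hb hx (hγ x hx) hxβ]
      exact hxG.2 β hxβ

theorem cut_union {b : Set Node.{u}} (hb : IsChain (· ≤ ·) b) {γ : Ordinal.{u}}
    (hγ : ∀ x ∈ b, x.len ≤ γ) {x : Node.{u}} (hx : x ∈ b) {ρ : Ordinal.{u}} (hρ : ρ ≤ x.len) :
    cut (unionNode b γ) ρ = cut x ρ :=
  (cut_mono (le_unionNode hb hx (hγ x hx)) hρ).symm

/-! ### `κ`-trees -/

variable {κ : Cardinal.{u}}

theorem union_mem (habove : Above κ) {T : Set Node.{u}} (hT : KTree κ T) {b : Set Node.{u}}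
    (hbT : b ⊆ T) (hb : IsChain (· ≤ ·) b) {γ : Ordinal.{u}} (hγ : γ < κ.ord)
    (hbγ : ∀ x ∈ b, x.len ≤ γ) (h : ∀ β < γ, ∃ x ∈ b, β < x.len) : unionNode b γ ∈ T := by
  obtain ⟨y, h1, h2, h3⟩ := habove hT hbT hb hγ hbγ
  have : unionNode b γ = y := by
    refine eq_of_len_eq (t := y) ?_ le_rfl h2.symm
    refine ⟨h2.ge, fun β hβ => ?_⟩
    obtain ⟨x, hx, hxβ⟩ := h β hβ
    rw [unionNode_fn hb hx (hbγ x hx) hxβ]
    exact (h3 x hx).2 β hxβ
  rw [this]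
  exact h1

/-- criterion for `κ`-trees -/
theorem ktree_of (hκ : κ.IsInaccessible) {T : Set Node.{u}} (hT : IsTree κ T)
    (hsmall : ∀ α < κ.ord, #(level T α) < Cardinal.lift.{u + 1} κ)
    (hle : #T ≤ Cardinal.lift.{u + 1} κ) (hne : T.Nonempty)
    (hU : ∀ b ⊆ T, IsChain (· ≤ ·) b → ∀ γ < κ.ord, (∀ x ∈ b, x.len ≤ γ) →
      (∀ β < γ, ∃ x ∈ b, β < x.len) → unionNode b γ ∈ T)
    (hS : ∀ x ∈ T, ∃ s, ImmSucc T x s) :
    KTree κ T ∧ ∀ x ∈ T, ∀ α < κ.ord, x.len ≤ α → ∃ y ∈ T, y.len = α ∧ x ≤ y := by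
  have hbr := branch_of hT hU hS
  have hext : ∀ x ∈ T, ∀ α < κ.ord, x.len ≤ α → ∃ y ∈ T, y.len = α ∧ x ≤ y := by
    intro x hx α hα hxα
    obtain ⟨M, hMT, hbM, hM, hmax⟩ := exists_maxChain (singleton_subset_iff.2 hx)
      (IsChain.singleton (a := x) (r := (· ≤ ·)))
    obtain ⟨y, hy, hyl⟩ := hbr M hMT hM hmax α hα
    refine ⟨y, hMT hy, hyl, ?_⟩
    have hxM : x ∈ M := hbM rfl
    exact Cmp.le (hM.total hxM hy) (hxα.trans hyl.ge)
  refine ⟨?_, hext⟩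
  refine { toIsTree := hT, card_eq := ?_, level_small := hsmall, branch := ?_ }
  · refine le_antisymm hle ?_
    obtain ⟨x, hx⟩ := hne
    have h0 : ∀ α < κ.ord, ∃ y ∈ T, y.len = α := by
      intro α hα
      obtain ⟨y, hy, hyl, -⟩ := hext x hx (max α x.len) (max_lt hα (hT.len_lt x hx))
        (le_max_right _ _)
      exact ⟨cut y α, hT.down y hy _ (cut_le _ _), cut_len (hyl ▸ le_max_left _ _)⟩
    choose f hf hfl using h0
    have hinj : Function.Injective (fun a : Iio κ.ord => (⟨f a.1 a.2, hf a.1 a.2⟩ : T)) := by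
      intro a b hab
      have h1 : (f a.1 a.2).len = (f b.1 b.2).len := congrArg (fun z : T => z.1.len) hab
      exact Subtype.ext ((hfl a.1 a.2).symm.trans (h1.trans (hfl b.1 b.2)))
    have h2 := Cardinal.mk_le_of_injective hinj
    rwa [Cardinal.mk_Iio_ordinal, Cardinal.card_ord] at h2
  · intro b hbT hb hmax
    have hmax' : ∀ t ∈ T, (∀ s ∈ b, s ≤ t ∨ t ≤ s) → t ∈ b := by
      intro t ht hc
      have h1 := hmax (insert t b) (insert_subset ht hbT)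
        (hb.insert fun s hs _ => (hc s hs).symm) (subset_insert _ _)
      rw [← h1]
      exact mem_insert _ _
    have hlev := hbr b hbT hb hmax'
    let f : b → Iio κ.ord := fun x => ⟨x.1.len, hT.len_lt _ (hbT x.2)⟩
    have hf : Function.Bijective f := by
      constructor
      · intro x y hxy
        have h1 : x.1.len = y.1.len := congrArg Subtype.val hxy
        apply Subtype.ext
        rcases hb.total x.2 y.2 with h | h
        · exact eq_of_len_eq h le_rfl h1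
        · exact eq_of_len_eq le_rfl h h1
      · rintro ⟨α, hα⟩
        obtain ⟨t, ht, htl⟩ := hlev α hα
        exact ⟨⟨t, ht⟩, Subtype.ext htl⟩
    let e : b ≃o Iio κ.ord :=
      { toEquiv := Equiv.ofBijective f hf
        map_rel_iff' := by
          intro x y
          constructor
          · intro h
            exact Cmp.le (hb.total x.2 y.2) h
          · intro h
            exact h.1 }
    rw [e.cof_congr, cof_Iio, ← lift_cof, hκ.isRegular.cof_ord]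

/-! ### the subtree -/

/-- The subtree of `T` following `t` and the extensions `F`. -/
def Sub (T : Set Node.{u}) (t : Node.{u}) (n : Ordinal.{u} → Ordinal.{u})
    (F : Ordinal.{u} → Node.{u} → Node.{u}) : Set Node.{u} :=
  {x | x ∈ T ∧ Cmp x t ∧ ∀ ρ, Start t.len n ρ → ρ ≤ x.len → Cmp x (F ρ (cut x ρ))}

section sub
variable {T : Set Node.{u}} {t : Node.{u}} {e : Ordinal.{u} → Ordinal.{u}}
  {F : Ordinal.{u} → Node.{u} → Node.{u}}

/-- the assumptions on `T`, `t`, `e`, `F` -/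
structure Data (κ : Cardinal.{u}) (T : Set Node.{u}) (t : Node.{u}) (e : Ordinal.{u} → Ordinal.{u})
    (F : Ordinal.{u} → Node.{u} → Node.{u}) : Prop where
  tree : KTree κ T
  tT : t ∈ T
  le_e : ∀ ξ, ξ ≤ e ξ
  e_lt : ∀ ξ < κ.ord, t.len ≤ ξ → e ξ < κ.ord
  F_mem : ∀ ξ < κ.ord, t.len ≤ ξ → ∀ s ∈ level T ξ, F ξ s ∈ level T (e ξ) ∧ s ≤ F ξ s

variable (D : Data κ T t e F)
include D

theorem Data.next (ξ : Ordinal.{u}) : ξ < e ξ + 1 :=
  (D.le_e ξ).trans_lt (Order.lt_add_one_iff.2 le_rfl)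

theorem Data.cut_mem {x : Node.{u}} (hx : x ∈ T) {ρ : Ordinal.{u}} (hρ : ρ ≤ x.len) :
    cut x ρ ∈ level T ρ :=
  ⟨D.tree.down x hx _ (cut_le _ _), cut_len hρ⟩

theorem Data.F_cut {x : Node.{u}} (hx : x ∈ T) {ρ : Ordinal.{u}} (h1 : t.len ≤ ρ)
    (hρ : ρ ≤ x.len) : F ρ (cut x ρ) ∈ T ∧ (F ρ (cut x ρ)).len = e ρ ∧ cut x ρ ≤ F ρ (cut x ρ) := by
  have h := D.F_mem ρ (hρ.trans_lt (D.tree.len_lt x hx)) h1 _ (D.cut_mem hx hρ)
  exact ⟨h.1.1, h.1.2, h.2⟩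

theorem Data.isTree : IsTree κ (Sub T t (fun ξ => e ξ + 1) F) where
  len_lt x hx := D.tree.len_lt x hx.1
  val_lt x hx := D.tree.val_lt x hx.1
  down x hx s hs := by
    refine ⟨D.tree.down x hx.1 s hs, hx.2.1.down hs, fun ρ hρ hρs => ?_⟩
    rw [cut_mono hs hρs]
    exact (hx.2.2 ρ hρ (hρs.trans hs.1)).down hs

theorem Data.t_mem : t ∈ Sub T t (fun ξ => e ξ + 1) F := by
  refine ⟨D.tT, Or.inl le_rfl, fun ρ hρ hρt => ?_⟩
  have h1 : ρ = t.len := le_antisymm hρt hρ.le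
  have h2 := D.F_cut D.tT hρ.le hρt
  left
  have h3 : cut t ρ = t := by rw [h1]; exact cut_eq le_rfl
  rw [h3] at h2 ⊢
  exact h2.2.2

/-- nodes at the end of an interval -/
theorem Data.above {x : Node.{u}} (hx : x ∈ Sub T t (fun ξ => e ξ + 1) F) (h : t.len ≤ x.len) :
    t ≤ x := hx.2.1.ge h

/-- extension inside an interval -/
theorem Data.F_sub {x : Node.{u}} (hx : x ∈ Sub T t (fun ξ => e ξ + 1) F) {ρ : Ordinal.{u}}
    (hρ : Start t.len (fun ξ => e ξ + 1) ρ) (h1 : ρ ≤ x.len) :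
    F ρ (cut x ρ) ∈ Sub T t (fun ξ => e ξ + 1) F := by
  obtain ⟨hG1, hG2, hG3⟩ := D.F_cut hx.1 hρ.le h1
  set G := F ρ (cut x ρ) with hG
  have hcl : (cut x ρ).len = ρ := cut_len h1
  have ht : t ≤ cut x ρ := le_cut (D.above hx (hρ.le.trans h1)) hρ.le
  refine ⟨hG1, Or.inr (ht.trans hG3), fun σ hσ hσG => ?_⟩
  have hσρ : σ ≤ ρ := by
    by_contra hc
    push Not at hc
    have := hσ.next_le hρ hc
    rw [hG2] at hσG
    exact absurd (this.trans hσG) (not_le.2 (Order.lt_add_one_iff.2 le_rfl))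
  have hcut : cut G σ = cut x σ := by
    rw [← cut_mono hG3 (by rw [hcl]; exact hσρ), cut_mono (cut_le _ _) (by rw [hcl]; exact hσρ)]
  rw [hcut]
  rcases hσρ.lt_or_eq with h | h
  · have h2 := D.F_cut hx.1 hσ.le (hσρ.trans h1)
    have h3 : e σ + 1 ≤ ρ := hρ.next_le hσ h
    have h4 : e σ ≤ ρ := (Order.lt_add_one_iff.2 le_rfl).le.trans h3
    have h5 : F σ (cut x σ) ≤ x := (hx.2.2 σ hσ (hσρ.trans h1)).ge (by rw [h2.2.1]; exact h4.trans h1)
    right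
    exact (le_cut h5 (by rw [h2.2.1]; exact h4)).trans hG3
  · rw [h]
    exact Or.inl le_rfl

/-- the immediate successor outside of the ends of the intervals -/
theorem Data.succ_unique {x : Node.{u}} (hx : x ∈ Sub T t (fun ξ => e ξ + 1) F)
    (hA : ¬ ∃ ρ, Start t.len (fun ξ => e ξ + 1) ρ ∧ x.len = e ρ) :
    ∃! s, ImmSucc (Sub T t (fun ξ => e ξ + 1) F) x s := by
  have key : ∀ G ∈ Sub T t (fun ξ => e ξ + 1) F, x ≤ G → x.len < G.len →
      (∀ s ∈ Sub T t (fun ξ => e ξ + 1) F, x ≤ s → s.len = x.len + 1 → Cmp s G) →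
      ∃! s, ImmSucc (Sub T t (fun ξ => e ξ + 1) F) x s := by
    intro G hG hxG hlt huni
    have hlt' : x.len + 1 ≤ G.len := Order.add_one_le_of_lt hlt
    refine ⟨cut G (x.len + 1), ⟨D.isTree.down G hG _ (cut_le _ _),
      le_cut hxG (Order.lt_add_one_iff.2 le_rfl).le, cut_len hlt'⟩, ?_⟩
    rintro s ⟨hs, hxs, hsl⟩
    have h1 : s ≤ G := (huni s hs hxs hsl).le (by rw [hsl]; exact hlt')
    rw [← hsl]
    exact (cut_eq h1).symm
  rcases lt_or_ge x.len t.len with h | h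
  · refine key t D.t_mem (hx.2.1.le h.le) h fun s hs _ _ => hs.2.1
  · obtain ⟨ρ, hρ, h1, h2⟩ := exists_start (n := fun ξ => e ξ + 1) (fun ξ _ => D.next ξ) h
    have h3 : x.len < e ρ := lt_of_le_of_ne (Order.lt_add_one_iff.1 h2) fun hc => hA ⟨ρ, hρ, hc⟩
    obtain ⟨hG1, hG2, hG3⟩ := D.F_cut hx.1 hρ.le h1
    refine key (F ρ (cut x ρ)) (D.F_sub hx hρ h1) ((hx.2.2 ρ hρ h1).le (by rw [hG2]; exact h3.le))
      (by rw [hG2]; exact h3) fun s hs hxs hsl => ?_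
    rw [cut_mono hxs h1]
    exact hs.2.2 ρ hρ (h1.trans hxs.1)

/-- immediate successors at the ends of the intervals -/
theorem Data.succ_mem {x : Node.{u}} (hx : x ∈ Sub T t (fun ξ => e ξ + 1) F) {ρ : Ordinal.{u}}
    (hρ : Start t.len (fun ξ => e ξ + 1) ρ) (hxl : x.len = e ρ) {s : Node.{u}}
    (hs : ImmSucc T x s) : s ∈ Sub T t (fun ξ => e ξ + 1) F := by
  obtain ⟨hsT, hxs, hsl⟩ := hs
  have hρx : ρ ≤ x.len := hxl ▸ D.le_e ρ
  have htx : t ≤ x := D.above hx (hρ.le.trans hρx)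
  refine ⟨hsT, Or.inr (htx.trans hxs), fun σ hσ hσs => ?_⟩
  rcases le_or_gt σ ρ with h | h
  · have h1 : σ ≤ x.len := h.trans hρx
    have h2 := D.F_cut hx.1 hσ.le h1
    rw [← cut_mono hxs h1]
    right
    refine le_trans ((hx.2.2 σ hσ h1).ge ?_) hxs
    rw [h2.2.1]
    rcases h.lt_or_eq with h3 | h3
    · have h4 : e σ + 1 ≤ ρ := hρ.next_le hσ h3
      exact ((Order.lt_add_one_iff.2 le_rfl).le.trans h4).trans hρx
    · rw [h3, hxl]
  · have h1 : e ρ + 1 ≤ σ := hσ.next_le hρ h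
    have h2 : σ = s.len := le_antisymm hσs (by rw [hsl, hxl]; exact h1)
    have h3 := D.F_cut hsT hσ.le hσs
    have h4 : cut s σ = s := by rw [h2]; exact cut_eq le_rfl
    rw [h4] at h3 ⊢
    exact Or.inl h3.2.2

theorem Data.union (habove : Above κ) :
    ∀ b ⊆ Sub T t (fun ξ => e ξ + 1) F, IsChain (· ≤ ·) b → ∀ γ < κ.ord, (∀ x ∈ b, x.len ≤ γ) →
      (∀ β < γ, ∃ x ∈ b, β < x.len) → unionNode b γ ∈ Sub T t (fun ξ => e ξ + 1) F := by
  intro b hbT hb γ hγ hbγ h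
  have hU := union_mem habove D.tree (fun x hx => (hbT hx).1) hb hγ hbγ h
  have hUl : (unionNode b γ).len = γ := rfl
  refine ⟨hU, cmp_union hb hbγ fun β hβ => ?_, fun ρ hρ hρU => ?_⟩
  · obtain ⟨x, hx, hxβ⟩ := h β hβ
    exact ⟨x, hx, hxβ, (hbT hx).2.1⟩
  · rcases lt_or_eq_of_le (show ρ ≤ γ from hρU) with h1 | h1
    · refine cmp_union hb hbγ fun β hβ => ?_
      obtain ⟨x, hx, hxβ⟩ := h (max β ρ) (max_lt hβ h1)
      refine ⟨x, hx, (le_max_left _ _).trans_lt hxβ, ?_⟩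
      have h2 : ρ ≤ x.len := (le_max_right _ _).trans hxβ.le
      rw [cut_union hb hbγ hx h2]
      exact (hbT hx).2.2 ρ hρ h2
    · have h3 := D.F_cut hU hρ.le hρU
      have h4 : cut (unionNode b γ) ρ = unionNode b γ := by
        rw [h1, ← hUl]; exact cut_eq le_rfl
      rw [h4] at h3 ⊢
      exact Or.inl h3.2.2

theorem Data.ktree (hκ : κ.IsInaccessible) (habove : Above κ) :
    KTree κ (Sub T t (fun ξ => e ξ + 1) F) ∧
      ∀ x ∈ Sub T t (fun ξ => e ξ + 1) F, ∀ α < κ.ord, x.len ≤ α →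
        ∃ y ∈ Sub T t (fun ξ => e ξ + 1) F, y.len = α ∧ x ≤ y := by
  refine ktree_of hκ D.isTree ?_ ?_ ⟨t, D.t_mem⟩ (D.union habove) ?_
  · intro α hα
    refine lt_of_le_of_lt (Cardinal.mk_le_mk_of_subset ?_) (D.tree.level_small α hα)
    rintro x ⟨hx, hxl⟩
    exact ⟨hx.1, hxl⟩
  · rw [← D.tree.card_eq]
    exact Cardinal.mk_le_mk_of_subset fun x hx => hx.1
  · intro x hx
    by_cases hA : ∃ ρ, Start t.len (fun ξ => e ξ + 1) ρ ∧ x.len = e ρ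
    · obtain ⟨ρ, hρ, hxl⟩ := hA
      obtain ⟨y, hy, hyl, hxy⟩ := habove D.tree (singleton_subset_iff.2 hx.1)
        (IsChain.singleton (a := x) (r := (· ≤ ·)))
        (add_one_lt_ord hκ.1.le (D.tree.len_lt x hx.1))
        (by rintro z rfl; exact (Order.lt_add_one_iff.2 le_rfl).le)
      have hs : ImmSucc T x y := ⟨hy, hxy x rfl, hyl⟩
      exact ⟨y, D.succ_mem hx hρ hxl hs, hs.2⟩
    · exact (D.succ_unique hx hA).exists

end sub

theorem strong_subtrees_of (hκ : κ.IsInaccessible) (habove : Above κ)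
    {d : ℕ} {T : Fin d → Set Node.{u}} (hT : ∀ i, KTree κ (T i))
    (c : (Fin d → Node.{u}) → Ordinal.{u}) {j : Ordinal.{u}} (hj : Good κ T c j) :
    ∃ A : Set Ordinal.{u}, (∀ α ∈ A, α < κ.ord) ∧ (∀ β < κ.ord, ∃ α ∈ A, β ≤ α) ∧
      ∃ T' : Fin d → Set Node.{u}, (∀ i, StrongSubtree κ (T i) A (T' i)) ∧
        (∀ i, (∀ t ∈ T i, Splits (T i) t) → RegularTree κ (T' i)) ∧
        ∀ α ∈ A, ∀ x : Fin d → Node.{u}, (∀ i, x i ∈ level (T' i) α) → c x = j := by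
  classical
  obtain ⟨ζ, hζ, t, ht, hG⟩ := hj
  haveI : Inhabited Node.{u} := ⟨⟨0, fun _ => 0, fun _ _ => rfl⟩⟩
  choose! e' he1 he2 F hF1 hF2 using hG
  set e : Ordinal.{u} → Ordinal.{u} := fun ξ => max ξ (e' ξ) with he
  have hee : ∀ ξ < κ.ord, ζ ≤ ξ → e ξ = e' ξ := fun ξ h1 h2 => max_eq_right (he2 ξ h1 h2)
  have D : ∀ i, Data κ (T i) (t i) e (fun ξ => F ξ i) := by
    intro i
    refine ⟨hT i, (ht i).1, fun ξ => le_max_left _ _, ?_, ?_⟩
    · rw [(ht i).2]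
      intro ξ h1 h2
      rw [hee ξ h1 h2]
      exact he1 ξ h1 h2
    · rw [(ht i).2]
      intro ξ h1 h2 s hs
      rw [hee ξ h1 h2]
      exact hF1 ξ h1 h2 i s hs
  set n : Ordinal.{u} → Ordinal.{u} := fun ξ => e ξ + 1 with hn
  have hnext : ∀ ξ, ζ ≤ ξ → ξ < n ξ := fun ξ _ =>
    (le_max_left ξ (e' ξ)).trans_lt (Order.lt_add_one_iff.2 le_rfl)
  set A : Set Ordinal.{u} := {α | ∃ ρ, Start ζ n ρ ∧ ρ < κ.ord ∧ α = e ρ} with hA
  have hSub : ∀ i, Sub (T i) (t i) (fun ξ => e ξ + 1) (fun ξ => F ξ i) =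
      Sub (T i) (t i) n (fun ξ => F ξ i) := fun i => rfl
  have hk := fun i => (D i).ktree hκ habove
  have hcof : ∀ β < κ.ord, ∃ α ∈ A, β ≤ α := by
    intro β hβ
    obtain ⟨ρ, h1, h2, h3⟩ := exists_start hnext (le_max_right β ζ)
    refine ⟨e ρ, ⟨ρ, h1, h2.trans_lt (max_lt hβ hζ), rfl⟩, ?_⟩
    exact (le_max_left _ _).trans (Order.lt_add_one_iff.1 h3)
  have hmem : ∀ i, ∀ x ∈ Sub (T i) (t i) (fun ξ => e ξ + 1) (fun ξ => F ξ i), x.len ∈ A →
      ∀ s, ImmSucc (T i) x s → s ∈ Sub (T i) (t i) (fun ξ => e ξ + 1) (fun ξ => F ξ i) := by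
    rintro i x hx ⟨ρ, hρ, hρκ, hxl⟩ s hs
    refine (D i).succ_mem hx (ρ := ρ) ?_ hxl hs
    rw [(ht i).2]
    exact hρ
  refine ⟨A, ?_, hcof, fun i => Sub (T i) (t i) (fun ξ => e ξ + 1) (fun ξ => F ξ i), ?_, ?_, ?_⟩
  · rintro α ⟨ρ, hρ, hρκ, rfl⟩
    rw [hee ρ hρκ hρ.le]
    exact he1 ρ hρκ hρ.le
  · intro i
    refine { toKTree := (hk i).1, sub := fun x hx => hx.1, of_not_mem := ?_, of_mem := hmem i }
    intro x hx hxA
    refine (D i).succ_unique hx ?_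
    rintro ⟨ρ, hρ, hxl⟩
    rw [(ht i).2] at hρ
    exact hxA ⟨ρ, hρ, ((le_max_left ρ (e' ρ)).trans hxl.ge).trans_lt ((hT i).len_lt x hx.1), hxl⟩
  · intro i hsp
    refine { toKTree := (hk i).1, split := ?_ }
    intro x hx
    obtain ⟨α, hαA, hxα⟩ := hcof x.len ((hT i).len_lt x hx.1)
    have hακ : α < κ.ord := by
      obtain ⟨ρ, hρ, hρκ, rfl⟩ := hαA
      rw [hee ρ hρκ hρ.le]
      exact he1 ρ hρκ hρ.le
    obtain ⟨y, hy, hyl, hxy⟩ := (hk i).2 x hx α hακ hxα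
    obtain ⟨s₁, s₂, h1, h2, h3⟩ := hsp y hy.1
    exact ⟨y, hy, hxy, s₁, s₂, ⟨hmem i y hy (hyl ▸ hαA) s₁ h1, h1.2⟩,
      ⟨hmem i y hy (hyl ▸ hαA) s₂ h2, h2.2⟩, h3⟩
  · rintro α ⟨ρ, hρ, hρκ, rfl⟩ x hx
    have hρe : ρ ≤ e ρ := le_max_left _ _
    have hx' : ∀ i, x i = F ρ i (cut (x i) ρ) := by
      intro i
      obtain ⟨hxi, hxl⟩ := hx i
      have h1 := hxi.2.2 ρ (by rw [(ht i).2]; exact hρ) (hxl ▸ hρe)
      have h2 := (D i).F_cut hxi.1 (by rw [(ht i).2]; exact hρ.le) (hxl ▸ hρe)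
      exact le_antisymm (h1.le (by rw [h2.2.1, hxl])) (h1.ge (by rw [h2.2.1, hxl]))
    have h3 := hF2 ρ hρκ hρ.le (fun i => cut (x i) ρ) ?_
    · rw [← h3]
      congr 1
      funext i
      exact hx' i
    · intro i
      obtain ⟨hxi, hxl⟩ := hx i
      refine ⟨(D i).cut_mem hxi.1 (hxl ▸ hρe), ?_⟩
      refine le_cut ((D i).above hxi ?_) ?_
      · rw [(ht i).2, hxl]
        exact hρ.le.trans hρe
      · rw [(ht i).2]
        exact hρ.le


end Pool.Agent.TH515.J665
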