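import Pool.Agent.TH515.J665

/-!
# Job 666: the literal `HL (2, 2, κ)` fails (parity example)
-/

set_option autoImplicit false

universe u

namespace Pool.Agent.TH515.J666

open Cardinal Ordinal Set
open Pool.Agent.TH760
open Pool.Agent.H348R6.HLT (Node IsTree level ImmSucc cut unionNode snoc cut_len cut_fn cut_le
  le_cut le_of_len_le eq_of_len_eq cut_eq cut_mono unionNode_fn le_unionNode branch_of
  exists_maxChain add_one_lt_ord le_snoc snoc_len snoc_fn snoc_fn_ne)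
open Pool.Agent.TH515.J665

theorem mod_two_cases (r : Ordinal.{u}) : r % 2 = 0 ∧ (r + 1) % 2 ≠ 0 ∨
    r % 2 ≠ 0 ∧ (r + 1) % 2 = 0 := by
  have h2 : (2 : Ordinal.{u}) ≠ 0 := two_ne_zero
  have h := Ordinal.mod_lt r h2
  have hd := Ordinal.div_add_mod r 2
  rcases lt_or_ge (r % 2) 1 with h4 | h4
  · left
    have h3 : r % 2 = 0 := Order.lt_one_iff.1 h4
    refine ⟨h3, ?_⟩
    rw [h3, add_zero] at hd
    rw [← hd, Ordinal.mul_add_mod_self, Ordinal.mod_eq_of_lt one_lt_two]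
    exact one_ne_zero
  · right
    have h3 : r % 2 = 1 := by
      refine le_antisymm ?_ h4
      have h5 : r % 2 < 1 + 1 := h.trans_eq one_add_one_eq_two.symm
      exact Order.lt_add_one_iff.1 h5
    refine ⟨by rw [h3]; exact one_ne_zero, ?_⟩
    rw [h3] at hd
    rw [← hd, add_assoc, one_add_one_eq_two, ← mul_add_one, Ordinal.mul_mod]

/-- The tree of the `0`-`1`-sequences which vanish outside of `P`. -/
def PT (κ : Cardinal.{u}) (P : Ordinal.{u} → Prop) : Set Node.{u} :=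
  {s | s.len < κ.ord ∧ (∀ β, s.fn β < 2) ∧ ∀ β, ¬ P β → s.fn β = 0}

variable {κ : Cardinal.{u}} {P : Ordinal.{u} → Prop}

theorem two_lt_ord (hκ : κ.IsInaccessible) : (2 : Ordinal.{u}) < κ.ord := by
  have h1 := (Cardinal.isSuccLimit_ord hκ.1.le)
  have h0 : (0 : Ordinal.{u}) < κ.ord := h1.pos
  have h2 := h1.add_one_lt (h1.add_one_lt h0)
  rwa [zero_add, one_add_one_eq_two] at h2

theorem isTree (hκ : κ.IsInaccessible) : IsTree κ (PT κ P) where
  len_lt t ht := ht.1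
  val_lt t ht β _ := (ht.2.1 β).trans (two_lt_ord hκ)
  down t ht s hs := by
    have h : ∀ β, s.fn β = t.fn β ∨ s.fn β = 0 := by
      intro β
      rcases lt_or_ge β s.len with h | h
      · exact Or.inl (hs.2 β h)
      · exact Or.inr (s.supp β h)
    refine ⟨hs.1.trans_lt ht.1, fun β => ?_, fun β hβ => ?_⟩
    · rcases h β with h1 | h1
      · rw [h1]; exact ht.2.1 β
      · rw [h1]; exact two_pos
    · rcases h β with h1 | h1
      · rw [h1]; exact ht.2.2 β hβ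
      · exact h1

theorem small (hκ : κ.IsInaccessible) (α : Ordinal.{u}) (hα : α < κ.ord) :
    #(level (PT κ P) α) < Cardinal.lift.{u + 1} κ := by
  have hinj : Function.Injective (fun s : level (PT κ P) α =>
      ({β | s.1.fn β.1 ≠ 0} : Set (Iio α))) := by
    rintro ⟨s, hs⟩ ⟨t, ht⟩ hst
    have h1 : ∀ β, β < α → (s.fn β ≠ 0 ↔ t.fn β ≠ 0) := by
      intro β hβ
      have := congrArg (fun X : Set (Iio α) => (⟨β, hβ⟩ : Iio α) ∈ X) hst
      simpa using this
    have h01 : ∀ x : Ordinal.{u}, x < 2 → x ≠ 0 → x = 1 := by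
      intro x hx h0
      refine le_antisymm ?_ (Order.one_le_iff_ne_zero.2 h0)
      have h5 : x < 1 + 1 := hx.trans_eq one_add_one_eq_two.symm
      exact Order.lt_add_one_iff.1 h5
    apply Subtype.ext
    refine Node.ext (hs.2.trans ht.2.symm) ?_
    funext β
    rcases lt_or_ge β α with h | h
    · by_cases h2 : s.fn β = 0
      · have h3 : t.fn β = 0 := by
          by_contra hc
          exact (h1 β h).2 hc h2
        rw [h2, h3]
      · rw [h01 _ (hs.1.2.1 β) h2, h01 _ (ht.1.2.1 β) ((h1 β h).1 h2)]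
    · rw [s.supp β (hs.2 ▸ h), t.supp β (ht.2 ▸ h)]
  refine (Cardinal.mk_le_of_injective hinj).trans_lt ?_
  rw [Cardinal.mk_set, Cardinal.mk_Iio_ordinal, ← Cardinal.lift_two_power, Cardinal.lift_lt]
  exact hκ.isStrongLimit.two_power_lt (Cardinal.lt_ord.1 hα)

theorem card_le (hκ : κ.IsInaccessible) : #(PT κ P) ≤ Cardinal.lift.{u + 1} κ := by
  have h1 : PT κ P ⊆ ⋃ α : Iio κ.ord, level (PT κ P) α.1 := by
    intro s hs
    rw [mem_iUnion]
    exact ⟨⟨s.len, hs.1⟩, hs, rfl⟩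
  have h2 : (⨆ α : Iio κ.ord, #(level (PT κ P) α.1)) ≤ Cardinal.lift.{u + 1} κ :=
    ciSup_le' fun α => (small hκ α.1 α.2).le
  have h3 : #(Iio κ.ord) = Cardinal.lift.{u + 1} κ := by
    rw [Cardinal.mk_Iio_ordinal, Cardinal.card_ord]
  have h4 : Cardinal.lift.{u + 1} κ * Cardinal.lift.{u + 1} κ = Cardinal.lift.{u + 1} κ :=
    Cardinal.mul_eq_self (Cardinal.aleph0_le_lift.2 hκ.1.le)
  calc #(PT κ P) ≤ #(⋃ α : Iio κ.ord, level (PT κ P) α.1 : Set Node.{u}) :=
        Cardinal.mk_le_mk_of_subset h1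
    _ ≤ #(Iio κ.ord) * ⨆ α : Iio κ.ord, #(level (PT κ P) α.1) := Cardinal.mk_iUnion_le _
    _ ≤ Cardinal.lift.{u + 1} κ * Cardinal.lift.{u + 1} κ := by
        rw [h3]
        exact mul_le_mul' le_rfl h2
    _ = _ := h4

theorem snoc_mem (hκ : κ.IsInaccessible) {t : Node.{u}} (ht : t ∈ PT κ P) {v : Ordinal.{u}}
    (hv : v < 2) (h : v ≠ 0 → P t.len) : ImmSucc (PT κ P) t (snoc t v) := by
  refine ⟨⟨?_, fun β => ?_, fun β hβ => ?_⟩, le_snoc t v, rfl⟩
  · exact add_one_lt_ord hκ.1.le ht.1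
  · by_cases hb : β = t.len
    · rw [hb, snoc_fn]; exact hv
    · rw [snoc_fn_ne t v hb]; exact ht.2.1 β
  · by_cases hb : β = t.len
    · rw [hb, snoc_fn]
      by_contra hc
      exact hβ (hb ▸ h hc)
    · rw [snoc_fn_ne t v hb]; exact ht.2.2 β hβ

/-- extension by zeros -/
noncomputable def zext (t : Node.{u}) (α : Ordinal.{u}) (h : t.len ≤ α) : Node.{u} where
  len := α
  fn := t.fn
  supp β hβ := t.supp β (h.trans hβ)

theorem zext_mem {t : Node.{u}} (ht : t ∈ PT κ P) {α : Ordinal.{u}} (h : t.len ≤ α)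
    (hα : α < κ.ord) : zext t α h ∈ PT κ P ∧ t ≤ zext t α h :=
  ⟨⟨hα, ht.2.1, ht.2.2⟩, ⟨h, fun _ _ => rfl⟩⟩

theorem regular (hκ : κ.IsInaccessible) (hP : ∀ α, P α ∨ P (α + 1)) : RegularTree κ (PT κ P) := by
  classical
  have hk := ktree_of hκ (isTree (P := P) hκ) (small hκ) (card_le hκ)
    ⟨⟨0, fun _ => 0, fun _ _ => rfl⟩, two_pos.trans (two_lt_ord hκ), fun _ => two_pos,
      fun _ _ => rfl⟩
    (by
      intro b hbT hb γ hγ hbγ h
      have h1 : ∀ β, (unionNode b γ).fn β = 0 ∨ ∃ x ∈ b, (unionNode b γ).fn β = x.fn β := by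
        intro β
        rcases lt_or_ge β γ with hβ | hβ
        · obtain ⟨x, hx, hxβ⟩ := h β hβ
          exact Or.inr ⟨x, hx, unionNode_fn hb hx (hbγ x hx) hxβ⟩
        · exact Or.inl ((unionNode b γ).supp β hβ)
      refine ⟨hγ, fun β => ?_, fun β hβ => ?_⟩
      · rcases h1 β with h2 | ⟨x, hx, h2⟩
        · rw [h2]; exact two_pos
        · rw [h2]; exact (hbT hx).2.1 β
      · rcases h1 β with h2 | ⟨x, hx, h2⟩
        · exact h2
        · rw [h2]; exact (hbT hx).2.2 β hβ)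
    (fun x hx => ⟨snoc x 0, snoc_mem hκ hx two_pos fun h => absurd rfl h⟩)
  refine { toKTree := hk.1, split := fun t ht => ?_ }
  obtain ⟨α, h1, h2, h3⟩ : ∃ α, t.len ≤ α ∧ α < κ.ord ∧ P α := by
    rcases hP t.len with h | h
    · exact ⟨t.len, le_rfl, ht.1, h⟩
    · exact ⟨t.len + 1, (Order.lt_add_one_iff.2 le_rfl).le, add_one_lt_ord hκ.1.le ht.1, h⟩
  obtain ⟨h4, h5⟩ := zext_mem ht h1 h2
  refine ⟨_, h4, h5, snoc _ 0, snoc _ 1, snoc_mem hκ h4 two_pos fun h => absurd rfl h,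
    snoc_mem hκ h4 one_lt_two fun _ => h3, fun h => ?_⟩
  have h6 := congrArg (fun s : Node.{u} => s.fn (zext t α h1).len) h
  simp only [snoc_fn] at h6
  exact zero_ne_one h6

theorem succ_eq {t s₁ s₂ : Node.{u}} (h : ¬ P t.len) (h₁ : ImmSucc (PT κ P) t s₁)
    (h₂ : ImmSucc (PT κ P) t s₂) : s₁ = s₂ := by
  refine Node.ext (h₁.2.2.trans h₂.2.2.symm) ?_
  funext β
  rcases lt_trichotomy β t.len with hβ | hβ | hβ
  · rw [← h₁.2.1.2 β hβ, ← h₂.2.1.2 β hβ]
  · rw [hβ, h₁.1.2.2 _ h, h₂.1.2.2 _ h]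
  · have h3 : t.len + 1 ≤ β := Order.add_one_le_of_lt hβ
    rw [s₁.supp β (h₁.2.2 ▸ h3), s₂.supp β (h₂.2.2 ▸ h3)]

theorem level_nonempty (hκ : κ.IsInaccessible) {T : Set Node.{u}} (hT : KTree κ T)
    {α : Ordinal.{u}} (hα : α < κ.ord) : (level T α).Nonempty := by
  obtain ⟨M, hMT, -, hM, hmax⟩ := exists_maxChain (T := T) (b := ∅) (empty_subset _)
    (by simp [IsChain])
  have hcof := hT.branch M hMT hM (by
    intro b' hb'T hb' hsub
    refine (subset_antisymm hsub fun t ht => hmax t (hb'T ht) fun s hs => ?_).symm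
    exact hb'.total (hsub hs) ht)
  by_contra hne
  have hlen : ∀ x ∈ M, x.len < α := by
    intro x hx
    by_contra hc
    push Not at hc
    exact hne ⟨cut x α, hT.down x (hMT hx) _ (cut_le _ _), cut_len hc⟩
  have hinj : Function.Injective (fun x : M => (⟨x.1.len, hlen x.1 x.2⟩ : Iio α)) := by
    intro x y hxy
    have h1 : x.1.len = y.1.len := congrArg Subtype.val hxy
    apply Subtype.ext
    rcases hM.total x.2 y.2 with h | h
    · exact eq_of_len_eq h le_rfl h1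
    · exact eq_of_len_eq le_rfl h h1
  have h1 := Cardinal.mk_le_of_injective hinj
  rw [Cardinal.mk_Iio_ordinal] at h1
  have h2 : Cardinal.lift.{u + 1} κ ≤ #M := hcof ▸ Order.cof_le_cardinalMk M
  have h3 := h2.trans h1
  rw [Cardinal.lift_le] at h3
  exact absurd (Cardinal.lt_ord.1 hα) (not_lt.2 h3)

theorem literal_HL_fails {κ : Cardinal.{u}} (hκ : κ.IsInaccessible) :
    ∃ (T : Fin 2 → Set Node.{u}) (c : (Fin 2 → Node.{u}) → Ordinal.{u}),
      (∀ i, RegularTree κ (T i)) ∧ (∀ x, c x < 2) ∧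
      ¬ ∃ A : Set Ordinal.{u}, (∀ α ∈ A, α < κ.ord) ∧ (∀ β < κ.ord, ∃ α ∈ A, β ≤ α) ∧
        ∃ T' : Fin 2 → Set Node.{u},
          (∀ i, StrongSubtree κ (T i) A (T' i) ∧ RegularTree κ (T' i)) ∧
          ∃ j : Ordinal.{u}, ∀ α ∈ A, ∀ x : Fin 2 → Node.{u}, (∀ i, x i ∈ level (T' i) α) →
            c x = j := by
  set Q : Fin 2 → Ordinal.{u} → Prop := fun i β => if i = 0 then β % 2 = 0 else β % 2 ≠ 0 with hQ
  refine ⟨fun i => PT κ (Q i), fun x => (x 0).len % 2, fun i => regular hκ fun α => ?_,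
    fun x => Ordinal.mod_lt _ two_ne_zero, ?_⟩
  · simp only [hQ]
    rcases mod_two_cases α with ⟨h1, h2⟩ | ⟨h1, h2⟩
    · split_ifs
      · exact Or.inl h1
      · exact Or.inr h2
    · split_ifs
      · exact Or.inr h2
      · exact Or.inl h1
  · rintro ⟨A, hA1, hA2, T', hT', j, hj⟩
    have hpar : ∀ α ∈ A, α % 2 = j := by
      intro α hα
      have h1 : ∀ i, (level (T' i) α).Nonempty := fun i =>
        level_nonempty hκ (hT' i).1.toKTree (hA1 α hα)
      choose x hx using h1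
      have h2 := hj α hα x hx
      simp only [] at h2
      rw [← h2, (hx 0).2]
    have key : ∀ i, ¬ ∀ α ∈ A, ¬ Q i α := by
      intro i hQi
      have hne : (T' i).Nonempty := by
        obtain ⟨x, hx⟩ := level_nonempty hκ (hT' i).1.toKTree (α := 0)
          (two_pos.trans (two_lt_ord hκ))
        exact ⟨x, hx.1⟩
      obtain ⟨t, ht⟩ := hne
      obtain ⟨s, hs, -, s₁, s₂, h1, h2, h3⟩ := (hT' i).2.split t ht
      by_cases hsA : s.len ∈ A
      · refine h3 (succ_eq (κ := κ) (hQi _ hsA) ⟨(hT' i).1.sub h1.1, h1.2⟩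
          ⟨(hT' i).1.sub h2.1, h2.2⟩)
      · obtain ⟨r, -, hr⟩ := (hT' i).1.of_not_mem s hs hsA
        exact h3 ((hr s₁ h1).trans (hr s₂ h2).symm)
    by_cases h0 : j = 0
    · refine key 1 fun α hα => ?_
      have h1 : Q 1 α ↔ α % 2 ≠ 0 := Iff.rfl
      rw [h1]
      exact not_not.2 ((hpar α hα).trans h0)
    · refine key 0 fun α hα => ?_
      have h1 : Q 0 α ↔ α % 2 = 0 := Iff.rfl
      rw [h1]
      exact fun h => h0 ((hpar α hα).symm.trans h)


end Pool.Agent.TH515.J666
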