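import Mathlib
import Pool.Agent.TH600.YT.Defs

/-!
# Job 744: the Möbius change of variables on the disc
-/

set_option autoImplicit false

open MeasureTheory Real Set
open scoped ContDiff

namespace Pool.Agent.TH515.J744

open Pool.Agent.TH600.YT

/-- the open unit disc -/
def Di : Set (ℝ × ℝ) := {p | p.1 ^ 2 + p.2 ^ 2 < 1}

/-- `|1 + t y|²` -/
def Nn (t : ℝ) (y : ℝ × ℝ) : ℝ := 1 + 2 * t * y.1 + t ^ 2 * (y.1 ^ 2 + y.2 ^ 2)

/-- real form of the disc automorphism `(y + t) / (1 + t y)` -/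
noncomputable def Ph (t : ℝ) (y : ℝ × ℝ) : ℝ × ℝ :=
  (((1 + t ^ 2) * y.1 + t * (1 + (y.1 ^ 2 + y.2 ^ 2))) / Nn t y, (1 - t ^ 2) * y.2 / Nn t y)

theorem Nn_eq (t : ℝ) (y : ℝ × ℝ) : Nn t y = (1 + t * y.1) ^ 2 + (t * y.2) ^ 2 := by
  unfold Nn; ring

theorem Nn_pos {t : ℝ} (ht : t ^ 2 < 1) {y : ℝ × ℝ} (hy : y.1 ^ 2 + y.2 ^ 2 ≤ 1) : 0 < Nn t y := by
  rw [Nn_eq]
  have h1 : (t * y.1) ^ 2 < 1 := by
    have : (t * y.1) ^ 2 = t ^ 2 * y.1 ^ 2 := by ring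
    rw [this]
    nlinarith [sq_nonneg t, sq_nonneg y.1, sq_nonneg y.2]
  have h2 : 0 < 1 + t * y.1 := by
    have := abs_lt_of_sq_lt_sq (by simpa using h1 : (t * y.1) ^ 2 < 1 ^ 2) zero_le_one
    linarith [(abs_lt.1 this).1]
  positivity

theorem Ph_sq {t : ℝ} {y : ℝ × ℝ} (hN : Nn t y ≠ 0) :
    1 - ((Ph t y).1 ^ 2 + (Ph t y).2 ^ 2) = (1 - t ^ 2) * (1 - (y.1 ^ 2 + y.2 ^ 2)) / Nn t y := by
  unfold Ph
  simp only
  rw [eq_div_iff hN]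
  field_simp
  unfold Nn
  ring

theorem Ph_inv {t : ℝ} (ht : 1 - t ^ 2 ≠ 0) {y : ℝ × ℝ} (hN : Nn t y ≠ 0) :
    Nn (-t) (Ph t y) ≠ 0 ∧ Ph (-t) (Ph t y) = y := by
  have h1 : (Ph t y).1 * Nn t y = (1 + t ^ 2) * y.1 + t * (1 + (y.1 ^ 2 + y.2 ^ 2)) := by
    unfold Ph; simp only; field_simp
  have h2 : (Ph t y).2 * Nn t y = (1 - t ^ 2) * y.2 := by
    unfold Ph; simp only; field_simp
  have h3 : ((Ph t y).1 ^ 2 + (Ph t y).2 ^ 2) * Nn t y = y.1 ^ 2 + y.2 ^ 2 + 2 * t * y.1 + t ^ 2 := by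
    have := Ph_sq hN
    rw [eq_div_iff hN] at this
    have h4 : Nn t y = 1 + 2 * t * y.1 + t ^ 2 * (y.1 ^ 2 + y.2 ^ 2) := rfl
    linarith
  have h5 : Nn (-t) (Ph t y) * Nn t y = (1 - t ^ 2) ^ 2 := by
    have : Nn (-t) (Ph t y) * Nn t y = Nn t y - 2 * t * ((Ph t y).1 * Nn t y) +
        t ^ 2 * (((Ph t y).1 ^ 2 + (Ph t y).2 ^ 2) * Nn t y) := by
      conv_lhs => rw [show Nn (-t) (Ph t y) = 1 + 2 * (-t) * (Ph t y).1 + (-t) ^ 2 *
        ((Ph t y).1 ^ 2 + (Ph t y).2 ^ 2) from rfl]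
      ring
    rw [this, h1, h3]
    unfold Nn
    ring
  have h6 : Nn (-t) (Ph t y) ≠ 0 := by
    intro h
    rw [h, zero_mul] at h5
    exact ht (by nlinarith [sq_eq_zero_iff.1 h5.symm])
  refine ⟨h6, ?_⟩
  have h7 : ((1 + (-t) ^ 2) * (Ph t y).1 + (-t) * (1 + ((Ph t y).1 ^ 2 + (Ph t y).2 ^ 2))) * Nn t y =
      (1 - t ^ 2) ^ 2 * y.1 := by
    have : ((1 + (-t) ^ 2) * (Ph t y).1 + (-t) * (1 + ((Ph t y).1 ^ 2 + (Ph t y).2 ^ 2))) * Nn t y =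
        (1 + t ^ 2) * ((Ph t y).1 * Nn t y) - t * (Nn t y +
          ((Ph t y).1 ^ 2 + (Ph t y).2 ^ 2) * Nn t y) := by ring
    rw [this, h1, h3]
    unfold Nn
    ring
  have h8 : ((1 - (-t) ^ 2) * (Ph t y).2) * Nn t y = (1 - t ^ 2) ^ 2 * y.2 := by
    have : ((1 - (-t) ^ 2) * (Ph t y).2) * Nn t y = (1 - t ^ 2) * ((Ph t y).2 * Nn t y) := by ring
    rw [this, h2]
    ring
  have hx : (Ph (-t) (Ph t y)).1 = y.1 := by
    show ((1 + (-t) ^ 2) * (Ph t y).1 + (-t) * (1 + ((Ph t y).1 ^ 2 + (Ph t y).2 ^ 2))) /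
      Nn (-t) (Ph t y) = y.1
    rw [div_eq_iff h6]
    apply mul_right_cancel₀ hN
    rw [h7, mul_assoc, h5]
    ring
  have hy : (Ph (-t) (Ph t y)).2 = y.2 := by
    show (1 - (-t) ^ 2) * (Ph t y).2 / Nn (-t) (Ph t y) = y.2
    rw [div_eq_iff h6]
    apply mul_right_cancel₀ hN
    rw [h8, mul_assoc, h5]
    ring
  exact Prod.ext hx hy

theorem Ph_le {t : ℝ} (ht : t ^ 2 < 1) {y : ℝ × ℝ} (hy : y.1 ^ 2 + y.2 ^ 2 ≤ 1) :
    (Ph t y).1 ^ 2 + (Ph t y).2 ^ 2 ≤ 1 := by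
  have h1 := Nn_pos ht hy
  have h2 := Ph_sq h1.ne'
  have h3 : 0 ≤ (1 - t ^ 2) * (1 - (y.1 ^ 2 + y.2 ^ 2)) / Nn t y :=
    div_nonneg (mul_nonneg (by linarith) (by linarith)) h1.le
  linarith

theorem Ph_mem {t : ℝ} (ht : t ^ 2 < 1) {y : ℝ × ℝ} (hy : y ∈ Di) : Ph t y ∈ Di := by
  have hy' : y.1 ^ 2 + y.2 ^ 2 < 1 := hy
  have h1 := Nn_pos ht hy'.le
  have h2 := Ph_sq h1.ne'
  have h3 : 0 < (1 - t ^ 2) * (1 - (y.1 ^ 2 + y.2 ^ 2)) / Nn t y :=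
    div_pos (mul_pos (by linarith) (by linarith)) h1
  show (Ph t y).1 ^ 2 + (Ph t y).2 ^ 2 < 1
  linarith

theorem Ph_image {t : ℝ} (ht : t ^ 2 < 1) : Ph t '' Di = Di := by
  apply Subset.antisymm
  · rintro _ ⟨y, hy, rfl⟩
    exact Ph_mem ht hy
  · intro x hx
    have ht' : (-t) ^ 2 < 1 := by rwa [neg_sq]
    refine ⟨Ph (-t) x, Ph_mem ht' hx, ?_⟩
    have h := (Ph_inv (t := -t) (y := x) (by rw [neg_sq]; linarith)
      (Nn_pos ht' (le_of_lt hx)).ne').2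
    rwa [neg_neg] at h

theorem Ph_inj {t : ℝ} (ht : t ^ 2 < 1) : InjOn (Ph t) Di := by
  intro x hx y hy h
  have h1 := (Ph_inv (t := t) (y := x) (by linarith) (Nn_pos ht (le_of_lt hx)).ne').2
  have h2 := (Ph_inv (t := t) (y := y) (by linarith) (Nn_pos ht (le_of_lt hy)).ne').2
  rw [← h1, ← h2, h]

/-- real part of the derivative -/
noncomputable def da (t : ℝ) (y : ℝ × ℝ) : ℝ :=
  (1 - t ^ 2) * ((1 + t * y.1) ^ 2 - (t * y.2) ^ 2) / Nn t y ^ 2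

/-- imaginary part of the derivative -/
noncomputable def db (t : ℝ) (y : ℝ × ℝ) : ℝ :=
  -(2 * (1 - t ^ 2) * (1 + t * y.1) * (t * y.2)) / Nn t y ^ 2

theorem dab {t : ℝ} {y : ℝ × ℝ} (hN : Nn t y ≠ 0) :
    da t y ^ 2 + db t y ^ 2 = (1 - t ^ 2) ^ 2 / Nn t y ^ 2 := by
  unfold da db
  rw [div_pow, div_pow, ← add_div, div_eq_div_iff (by positivity) (by positivity)]
  have h : ((1 - t ^ 2) * ((1 + t * y.1) ^ 2 - (t * y.2) ^ 2)) ^ 2 +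
      (-(2 * (1 - t ^ 2) * (1 + t * y.1) * (t * y.2))) ^ 2 = (1 - t ^ 2) ^ 2 * Nn t y ^ 2 := by
    rw [Nn_eq]; ring
  rw [h]
  ring

theorem hd_N1 (t y1 y2 : ℝ) :
    HasDerivAt (fun s => Nn t (s, y2)) (2 * t + t ^ 2 * (2 * y1)) y1 := by
  have h := (((hasDerivAt_id y1).const_mul (2 * t)).const_add 1).add
    ((((hasDerivAt_id y1).pow 2).add_const (y2 ^ 2)).const_mul (t ^ 2))
  refine HasDerivAt.congr_deriv h ?_
  simp

theorem hd_N2 (t y1 y2 : ℝ) :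
    HasDerivAt (fun s => Nn t (y1, s)) (t ^ 2 * (2 * y2)) y2 := by
  have h := ((((hasDerivAt_id y2).pow 2).const_add (y1 ^ 2)).const_mul (t ^ 2)).const_add
    (1 + 2 * t * y1)
  refine HasDerivAt.congr_deriv h ?_
  simp

theorem hd1 {t y1 y2 : ℝ} (hN : Nn t (y1, y2) ≠ 0) :
    HasDerivAt (fun s => Ph t (s, y2)) (da t (y1, y2), db t (y1, y2)) y1 := by
  have hA : HasDerivAt (fun s => (1 + t ^ 2) * s + t * (1 + (s ^ 2 + y2 ^ 2)))
      ((1 + t ^ 2) + t * (2 * y1)) y1 := by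
    have h := ((hasDerivAt_id y1).const_mul (1 + t ^ 2)).add
      (((((hasDerivAt_id y1).pow 2).add_const (y2 ^ 2)).const_add 1).const_mul t)
    refine HasDerivAt.congr_deriv h ?_
    simp
  have h1 := hA.div (hd_N1 t y1 y2) hN
  have h2 := (hasDerivAt_const y1 ((1 - t ^ 2) * y2)).div (hd_N1 t y1 y2) hN
  refine HasDerivAt.congr_deriv (h1.prodMk h2) ?_
  refine Prod.ext ?_ ?_
  · simp only [da]
    congr 1
    unfold Nn
    ring
  · simp only [db]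
    congr 1
    ring

theorem hd2 {t y1 y2 : ℝ} (hN : Nn t (y1, y2) ≠ 0) :
    HasDerivAt (fun s => Ph t (y1, s)) (-db t (y1, y2), da t (y1, y2)) y2 := by
  have hA : HasDerivAt (fun s => (1 + t ^ 2) * y1 + t * (1 + (y1 ^ 2 + s ^ 2)))
      (t * (2 * y2)) y2 := by
    have h := ((((((hasDerivAt_id y2).pow 2).const_add (y1 ^ 2)).const_add 1).const_mul t).const_add
      ((1 + t ^ 2) * y1))
    refine HasDerivAt.congr_deriv h ?_
    simp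
  have hB : HasDerivAt (fun s => (1 - t ^ 2) * s) (1 - t ^ 2) y2 := by
    have h := (hasDerivAt_id y2).const_mul (1 - t ^ 2)
    refine HasDerivAt.congr_deriv h ?_
    simp
  have h1 := hA.div (hd_N2 t y1 y2) hN
  have h2 := hB.div (hd_N2 t y1 y2) hN
  refine HasDerivAt.congr_deriv (h1.prodMk h2) ?_
  refine Prod.ext ?_ ?_
  · simp only [db]
    rw [← neg_div, neg_neg]
    congr 1
    unfold Nn
    ring
  · simp only [da]
    congr 1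
    unfold Nn
    ring

theorem Ph_contDiff {t : ℝ} {y : ℝ × ℝ} (hN : Nn t y ≠ 0) : ContDiffAt ℝ ∞ (Ph t) y := by
  unfold Ph
  have h : ContDiffAt ℝ ∞ (Nn t) y := by
    unfold Nn
    fun_prop
  refine ContDiffAt.prodMk ?_ ?_
  · exact ContDiffAt.div (by fun_prop) h hN
  · exact ContDiffAt.div (by fun_prop) h hN

theorem fd1 {t : ℝ} {y : ℝ × ℝ} (hN : Nn t y ≠ 0) :
    fderiv ℝ (Ph t) y (1, 0) = (da t y, db t y) := by
  have hd : HasFDerivAt (Ph t) (fderiv ℝ (Ph t) y) y :=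
    ((Ph_contDiff hN).differentiableAt (by simp)).hasFDerivAt
  have hl : HasDerivAt (fun s : ℝ => (s, y.2)) ((1 : ℝ), (0 : ℝ)) y.1 :=
    (hasDerivAt_id y.1).prodMk (hasDerivAt_const _ _)
  have h := HasFDerivAt.comp_hasDerivAt (x := y.1) (f := fun s : ℝ => (s, y.2)) hd hl
  exact h.unique (hd1 (y1 := y.1) (y2 := y.2) hN)

theorem fd2 {t : ℝ} {y : ℝ × ℝ} (hN : Nn t y ≠ 0) :
    fderiv ℝ (Ph t) y (0, 1) = (-db t y, da t y) := by
  have hd : HasFDerivAt (Ph t) (fderiv ℝ (Ph t) y) y :=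
    ((Ph_contDiff hN).differentiableAt (by simp)).hasFDerivAt
  have hl : HasDerivAt (fun s : ℝ => (y.1, s)) ((0 : ℝ), (1 : ℝ)) y.2 :=
    (hasDerivAt_const _ _).prodMk (hasDerivAt_id y.2)
  have h := HasFDerivAt.comp_hasDerivAt (x := y.2) (f := fun s : ℝ => (y.1, s)) hd hl
  exact h.unique (hd2 (y1 := y.1) (y2 := y.2) hN)

theorem det_eq {t : ℝ} {y : ℝ × ℝ} (hN : Nn t y ≠ 0) :
    (fderiv ℝ (Ph t) y).det = (1 - t ^ 2) ^ 2 / Nn t y ^ 2 := by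
  rw [← dab hN]
  show LinearMap.det (fderiv ℝ (Ph t) y : ℝ × ℝ →ₗ[ℝ] ℝ × ℝ) = _
  rw [← LinearMap.det_toMatrix (Module.Basis.finTwoProd ℝ), Matrix.det_fin_two]
  simp only [LinearMap.toMatrix_apply, Module.Basis.finTwoProd_zero, Module.Basis.finTwoProd_one,
    ContinuousLinearMap.coe_coe, fd1 hN, fd2 hN]
  simp
  ring

theorem Di_meas : MeasurableSet Di := by
  unfold Di
  exact measurableSet_lt (by fun_prop) (by fun_prop)

/-- change of variables -/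
theorem cov {t : ℝ} (ht : t ^ 2 < 1) (H : ℝ × ℝ → ℝ) :
    ∫ x in Di, H x = ∫ y in Di, (1 - t ^ 2) ^ 2 / Nn t y ^ 2 * H (Ph t y) := by
  have h := integral_image_eq_integral_abs_det_fderiv_smul (volume : Measure (ℝ × ℝ)) Di_meas
    (f := Ph t) (f' := fun y => fderiv ℝ (Ph t) y)
    (fun y hy => (((Ph_contDiff (Nn_pos ht (le_of_lt hy)).ne').differentiableAt
      (by simp)).hasFDerivAt).hasFDerivWithinAt) (Ph_inj ht) H
  rw [Ph_image ht] at h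
  rw [h]
  refine setIntegral_congr_fun Di_meas fun y hy => ?_
  simp only [smul_eq_mul]
  rw [det_eq (Nn_pos ht (le_of_lt hy)).ne', abs_of_nonneg (by positivity)]

end Pool.Agent.TH515.J744
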