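import Mathlib
import Pool.Agent.TH515.J744a

/-!
# Job 744: the substitution on the circle, Fubini on the cylinder
-/

set_option autoImplicit false

open MeasureTheory Real Set
open scoped ContDiff

namespace Pool.Agent.TH515.J744

open Pool.Agent.TH600.YT

/-- the parameter -/
noncomputable def T : ℝ := √2 - 1

theorem s2 : √2 * √2 = 2 := Real.mul_self_sqrt (by norm_num)

theorem s2_gt : (1.4 : ℝ) < √2 := by
  rw [Real.lt_sqrt (by norm_num)]; norm_num

theorem s2_lt : √2 < (1.5 : ℝ) := by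
  rw [Real.sqrt_lt' (by norm_num)]; norm_num

theorem T_sq : T ^ 2 = 1 - 2 * T := by
  unfold T; nlinarith [s2]

theorem T_pos : 0 < T := by
  unfold T; linarith [s2_gt]

theorem T_sq_lt : T ^ 2 < 1 := by
  rw [T_sq]; linarith [T_pos]

theorem T_tau : tau = T ^ 2 := by
  unfold tau T; nlinarith [s2]

theorem s2_T : √2 = 1 + T := by unfold T; ring

theorem den_pos (φ : ℝ) : 0 < √2 + cos φ := by
  linarith [neg_one_le_cos φ, s2_gt]

theorem Nn_circ (φ : ℝ) : Nn T (cos φ, sin φ) = 2 * T * (√2 + cos φ) := by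
  unfold Nn
  simp only
  rw [cos_sq_add_sin_sq, s2_T]
  nlinarith [T_sq]

theorem Ph_circ (φ : ℝ) : Ph T (cos φ, sin φ) =
    ((√2 * cos φ + 1) / (√2 + cos φ), sin φ / (√2 + cos φ)) := by
  have h1 := Nn_circ φ
  have h2 := den_pos φ
  have h3 := T_pos
  unfold Ph
  rw [h1]
  simp only
  rw [cos_sq_add_sin_sq]
  refine Prod.ext ?_ ?_
  · simp only
    rw [div_eq_div_iff (by positivity) (by positivity)]
    have h4 : (1 + T ^ 2) * cos φ + T * (1 + 1) = (√2 * cos φ + 1) * (2 * T) := by
      rw [s2_T]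
      linear_combination (-cos φ) * T_sq
    rw [h4]
    ring
  · simp only
    rw [div_eq_div_iff (by positivity) (by positivity), T_sq]
    ring

/-- the angle -/
noncomputable def th (φ : ℝ) : ℝ := ∫ s in (0 : ℝ)..φ, 1 / (√2 + cos s)

theorem den_cont : Continuous fun s : ℝ => 1 / (√2 + cos s) :=
  continuous_const.div (by fun_prop) fun s => (den_pos s).ne'

theorem th_deriv (φ : ℝ) : HasDerivAt th (1 / (√2 + cos φ)) φ := by
  unfold th
  exact intervalIntegral.integral_hasDerivAt_right (den_cont.intervalIntegrable _ _)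
    (den_cont.stronglyMeasurableAtFilter _ _) den_cont.continuousAt

theorem hc (φ : ℝ) : HasDerivAt (fun φ => (√2 * cos φ + 1) / (√2 + cos φ))
    (-(sin φ / (√2 + cos φ)) * (1 / (√2 + cos φ))) φ := by
  have h1 : HasDerivAt (fun φ => √2 * cos φ + 1) (√2 * (-sin φ)) φ :=
    ((hasDerivAt_cos φ).const_mul _).add_const _
  have h2 : HasDerivAt (fun φ => √2 + cos φ) (-sin φ) φ := (hasDerivAt_cos φ).const_add _
  refine HasDerivAt.congr_deriv (h1.div h2 (den_pos φ).ne') ?_
  have h3 := (den_pos φ).ne'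
  field_simp
  have h4 : √2 ^ 2 = 2 := by rw [pow_two]; exact s2
  ring_nf
  rw [h4]
  ring

theorem hs (φ : ℝ) : HasDerivAt (fun φ => sin φ / (√2 + cos φ))
    ((√2 * cos φ + 1) / (√2 + cos φ) * (1 / (√2 + cos φ))) φ := by
  have h2 : HasDerivAt (fun φ => √2 + cos φ) (-sin φ) φ := (hasDerivAt_cos φ).const_add _
  refine HasDerivAt.congr_deriv ((hasDerivAt_sin φ).div h2 (den_pos φ).ne') ?_
  have h3 := (den_pos φ).ne'
  field_simp
  nlinarith [sin_sq_add_cos_sq φ]

theorem cs_eq (φ : ℝ) : cos (th φ) = (√2 * cos φ + 1) / (√2 + cos φ) ∧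
    sin (th φ) = sin φ / (√2 + cos φ) := by
  have hf : ∀ φ, HasDerivAt (fun φ => (√2 * cos φ + 1) / (√2 + cos φ) * cos (th φ) +
      sin φ / (√2 + cos φ) * sin (th φ)) 0 φ := by
    intro φ
    have h1 := ((hc φ).mul (th_deriv φ).cos).add ((hs φ).mul (th_deriv φ).sin)
    refine HasDerivAt.congr_deriv h1 ?_
    ring
  have hg : ∀ φ, HasDerivAt (fun φ => sin φ / (√2 + cos φ) * cos (th φ) -
      (√2 * cos φ + 1) / (√2 + cos φ) * sin (th φ)) 0 φ := by
    intro φ
    have h1 := ((hs φ).mul (th_deriv φ).cos).sub ((hc φ).mul (th_deriv φ).sin)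
    refine HasDerivAt.congr_deriv h1 ?_
    ring
  have h0 : th 0 = 0 := by unfold th; simp
  have hf1 := is_const_of_deriv_eq_zero (fun φ => (hf φ).differentiableAt) (fun φ => (hf φ).deriv)
    φ 0
  have hg1 := is_const_of_deriv_eq_zero (fun φ => (hg φ).differentiableAt) (fun φ => (hg φ).deriv)
    φ 0
  simp only [h0, cos_zero, sin_zero] at hf1 hg1
  have h3 : √2 + 1 ≠ 0 := by linarith [s2_gt]
  simp only [mul_one, mul_zero, add_zero, zero_div, sub_zero, div_self h3] at hf1 hg1
  have h4 := sin_sq_add_cos_sq (th φ)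
  set c := (√2 * cos φ + 1) / (√2 + cos φ)
  set s := sin φ / (√2 + cos φ)
  constructor
  · have : c * (sin (th φ) ^ 2 + cos (th φ) ^ 2) = cos (th φ) * (c * cos (th φ) + s * sin (th φ)) -
        sin (th φ) * (s * cos (th φ) - c * sin (th φ)) := by ring
    rw [hf1, hg1, h4] at this
    linarith
  · have : s * (sin (th φ) ^ 2 + cos (th φ) ^ 2) = sin (th φ) * (c * cos (th φ) + s * sin (th φ)) +
        cos (th φ) * (s * cos (th φ) - c * sin (th φ)) := by ring
    rw [hf1, hg1, h4] at this
    linarith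

theorem th_two_pi : th (2 * π) = 2 * π := by
  have h1 := (cs_eq (2 * π)).1
  rw [cos_two_pi, mul_one, div_self (by linarith [s2_gt])] at h1
  obtain ⟨n, hn⟩ := (cos_eq_one_iff _).1 h1
  have hpos : 0 < th (2 * π) := by
    unfold th
    exact intervalIntegral.intervalIntegral_pos_of_pos (den_cont.intervalIntegrable _ _)
      (fun s => one_div_pos.2 (den_pos s)) (by positivity)
  have hlt : th (2 * π) < 2 * (2 * π) := by
    have h2 : th (2 * π) ≤ ∫ s in (0 : ℝ)..(2 * π), (√2 - cos s) := by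
      unfold th
      refine intervalIntegral.integral_mono_on (by positivity) (den_cont.intervalIntegrable _ _)
        (Continuous.intervalIntegrable (by fun_prop) _ _) fun s _ => ?_
      rw [div_le_iff₀ (den_pos s)]
      have h3 : (√2 - cos s) * (√2 + cos s) = 2 - cos s ^ 2 := by
        have := s2
        nlinarith
      rw [h3]
      linarith [cos_sq_le_one s]
    have h3 : ∫ s in (0 : ℝ)..(2 * π), (√2 - cos s) = 2 * π * √2 := by
      rw [intervalIntegral.integral_sub (by simp) (continuous_cos.intervalIntegrable _ _)]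
      simp
    rw [h3] at h2
    nlinarith [s2_lt, pi_pos]
  rw [← hn] at hpos hlt ⊢
  have hp := pi_pos
  have h5 : (0 : ℝ) < n := by
    by_contra hc
    push Not at hc
    nlinarith
  have h6 : (n : ℝ) < 2 := by
    by_contra hc
    push Not at hc
    nlinarith
  have h7 : n = 1 := by
    have a : (0 : ℤ) < n := by exact_mod_cast h5
    have b : n < 2 := by exact_mod_cast h6
    omega
  rw [h7]
  simp

/-- substitution on the circle -/
theorem circ (g : ℝ × ℝ → ℝ) (hg : Continuous fun θ : ℝ => g (cos θ, sin θ)) :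
    ∫ φ in (0 : ℝ)..(2 * π), g (Ph T (cos φ, sin φ)) * (1 / (√2 + cos φ)) =
      ∫ θ in (0 : ℝ)..(2 * π), g (cos θ, sin θ) := by
  have h := intervalIntegral.integral_comp_mul_deriv (a := 0) (b := 2 * π) (f := th)
    (f' := fun φ => 1 / (√2 + cos φ)) (g := fun θ => g (cos θ, sin θ)) (fun φ _ => th_deriv φ)
    den_cont.continuousOn hg
  have h0 : th 0 = 0 := by unfold th; simp
  rw [h0, th_two_pi] at h
  rw [← h]
  refine intervalIntegral.integral_congr fun φ _ => ?_
  simp only [Function.comp_apply]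
  rw [Ph_circ, (cs_eq φ).1, (cs_eq φ).2]

end Pool.Agent.TH515.J744
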