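import Mathlib
import Pool.Agent.TH515.J744b

/-!
# Job 744: Fubini on the cylinder, derivatives of the transformed function
-/

set_option autoImplicit false

open MeasureTheory Real Set
open scoped ContDiff

namespace Pool.Agent.TH515.J744

open Pool.Agent.TH600.YT

/-! ### Fubini -/

/-- reordering of the coordinates -/
noncomputable def eqv : ℝ × (ℝ × ℝ) ≃ᵐ ℝ × ℝ × ℝ :=
  (MeasurableEquiv.prodComm : ℝ × (ℝ × ℝ) ≃ᵐ (ℝ × ℝ) × ℝ).trans MeasurableEquiv.prodAssoc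

theorem eqv_apply (p : ℝ × (ℝ × ℝ)) : eqv p = (p.2.1, p.2.2, p.1) := rfl

theorem eqv_mp : MeasurePreserving eqv volume volume := by
  have h1 : MeasurePreserving (Prod.swap : ℝ × (ℝ × ℝ) → (ℝ × ℝ) × ℝ) volume volume :=
    Measure.measurePreserving_swap
  have h2 : MeasurePreserving (MeasurableEquiv.prodAssoc : (ℝ × ℝ) × ℝ ≃ᵐ ℝ × ℝ × ℝ)
      volume volume := ⟨MeasurableEquiv.prodAssoc.measurable, Measure.prodAssoc_prod⟩
  exact h2.comp h1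

theorem eqv_pre (L : ℝ) : eqv ⁻¹' Cyl L = Ioo 0 L ×ˢ Di := by
  ext p
  simp only [mem_preimage, eqv_apply, mem_prod, mem_Ioo]
  constructor
  · rintro ⟨h1, h2, h3⟩
    exact ⟨⟨h2, h3⟩, h1⟩
  · rintro ⟨⟨h2, h3⟩, h1⟩
    exact ⟨h1, h2, h3⟩

theorem cyl_integrable (L : ℝ) (F : ℝ × ℝ × ℝ → ℝ)
    (hF : ∀ x y z : ℝ, x ^ 2 + y ^ 2 ≤ 1 → ContinuousAt F (x, y, z)) :
    IntegrableOn F (Cyl L) := by
  set K : Set (ℝ × ℝ × ℝ) := {p | p.1 ^ 2 + p.2.1 ^ 2 ≤ 1 ∧ 0 ≤ p.2.2 ∧ p.2.2 ≤ L} with hK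
  have hKc : IsCompact K := by
    refine ((isCompact_Icc (a := (-1 : ℝ)) (b := 1)).prod
      ((isCompact_Icc (a := (-1 : ℝ)) (b := 1)).prod (isCompact_Icc (a := (0 : ℝ)) (b := L)))).of_isClosed_subset
      ?_ ?_
    · have e1 : IsClosed {p : ℝ × ℝ × ℝ | p.1 ^ 2 + p.2.1 ^ 2 ≤ 1} :=
        isClosed_le (by fun_prop) (by fun_prop)
      have e2 : IsClosed {p : ℝ × ℝ × ℝ | 0 ≤ p.2.2} := isClosed_le (by fun_prop) (by fun_prop)
      have e3 : IsClosed {p : ℝ × ℝ × ℝ | p.2.2 ≤ L} := isClosed_le (by fun_prop) (by fun_prop)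
      exact e1.inter (e2.inter e3)
    · rintro ⟨x, y, z⟩ ⟨h1, h2, h3⟩
      simp only at h1 h2 h3
      exact ⟨abs_le.1 (abs_le_of_sq_le_sq (by nlinarith [sq_nonneg y]) zero_le_one),
        abs_le.1 (abs_le_of_sq_le_sq (by nlinarith [sq_nonneg x]) zero_le_one), h2, h3⟩
  have h1 : ContinuousOn F K := by
    rintro ⟨x, y, z⟩ ⟨h1, h2, h3⟩
    exact (hF x y z h1).continuousWithinAt
  refine (h1.integrableOn_compact hKc).mono_set ?_
  rintro p ⟨h1, h2, h3⟩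
  exact ⟨h1.le, h2.le, h3.le⟩

theorem cyl_fub {L : ℝ} (hL : 0 ≤ L) (F : ℝ × ℝ × ℝ → ℝ)
    (hF : ∀ x y z : ℝ, x ^ 2 + y ^ 2 ≤ 1 → ContinuousAt F (x, y, z)) :
    ∫ p in Cyl L, F p = ∫ z in (0 : ℝ)..L, ∫ y in Di, F (y.1, y.2, z) := by
  have h0 := cyl_integrable L F hF
  have h1 := (eqv_mp.integrableOn_comp_preimage eqv.measurableEmbedding (f := F)
    (s := Cyl L)).2 h0
  rw [eqv_pre] at h1
  rw [← eqv_mp.setIntegral_preimage_emb eqv.measurableEmbedding F (Cyl L), eqv_pre,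
    intervalIntegral.integral_of_le hL, integral_Ioc_eq_integral_Ioo, Measure.volume_eq_prod]
  exact setIntegral_prod (fun p => F (eqv p)) h1

theorem cyl_slice {L : ℝ} (hL : 0 ≤ L) (F : ℝ × ℝ × ℝ → ℝ)
    (hF : ∀ x y z : ℝ, x ^ 2 + y ^ 2 ≤ 1 → ContinuousAt F (x, y, z)) :
    IntervalIntegrable (fun z => ∫ y in Di, F (y.1, y.2, z)) volume 0 L := by
  have h0 := cyl_integrable L F hF
  have h1 := (eqv_mp.integrableOn_comp_preimage eqv.measurableEmbedding (f := F)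
    (s := Cyl L)).2 h0
  rw [eqv_pre, IntegrableOn, Measure.volume_eq_prod, ← Measure.prod_restrict] at h1
  have h2 := h1.integral_prod_left
  rw [intervalIntegrable_iff_integrableOn_Ioc_of_le hL, integrableOn_Ioc_iff_integrableOn_Ioo]
  exact h2

theorem disc_integrable (G : ℝ × ℝ → ℝ)
    (hG : ∀ p : ℝ × ℝ, p.1 ^ 2 + p.2 ^ 2 ≤ 1 → ContinuousAt G p) : IntegrableOn G Di := by
  set K : Set (ℝ × ℝ) := {p | p.1 ^ 2 + p.2 ^ 2 ≤ 1} with hK
  have hKc : IsCompact K := by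
    refine ((isCompact_Icc (a := (-1 : ℝ)) (b := 1)).prod
      (isCompact_Icc (a := (-1 : ℝ)) (b := 1))).of_isClosed_subset ?_ ?_
    · exact isClosed_le (by fun_prop) (by fun_prop)
    · rintro ⟨x, y⟩ h1
      have h1 : x ^ 2 + y ^ 2 ≤ 1 := h1
      exact ⟨abs_le.1 (abs_le_of_sq_le_sq (by nlinarith [sq_nonneg y]) zero_le_one),
        abs_le.1 (abs_le_of_sq_le_sq (by nlinarith [sq_nonneg x]) zero_le_one)⟩
  have h1 : ContinuousOn G K := fun p hp => (hG p hp).continuousWithinAt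
  refine (h1.integrableOn_compact hKc).mono_set fun p hp => ?_
  have h2 : p.1 ^ 2 + p.2 ^ 2 < 1 := hp
  exact h2.le

/-! ### partial derivatives -/

section partials
variable {w : ℝ × ℝ × ℝ → ℝ} {x y z d : ℝ}

theorem D1_eq (hw : DifferentiableAt ℝ w (x, y, z)) (h : HasDerivAt (fun s => w (s, y, z)) d x) :
    D1 w (x, y, z) = d := by
  have hl : HasDerivAt (fun s : ℝ => (s, y, z)) ((1 : ℝ), (0 : ℝ), (0 : ℝ)) x :=
    (hasDerivAt_id x).prodMk ((hasDerivAt_const _ _).prodMk (hasDerivAt_const _ _))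
  exact (HasFDerivAt.comp_hasDerivAt (x := x) (f := fun s : ℝ => (s, y, z)) hw.hasFDerivAt hl).unique h

theorem D2_eq (hw : DifferentiableAt ℝ w (x, y, z)) (h : HasDerivAt (fun s => w (x, s, z)) d y) :
    D2 w (x, y, z) = d := by
  have hl : HasDerivAt (fun s : ℝ => (x, s, z)) ((0 : ℝ), (1 : ℝ), (0 : ℝ)) y :=
    (hasDerivAt_const _ _).prodMk ((hasDerivAt_id y).prodMk (hasDerivAt_const _ _))
  exact (HasFDerivAt.comp_hasDerivAt (x := y) (f := fun s : ℝ => (x, s, z)) hw.hasFDerivAt hl).unique h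

theorem D3_eq (hw : DifferentiableAt ℝ w (x, y, z)) (h : HasDerivAt (fun s => w (x, y, s)) d z) :
    D3 w (x, y, z) = d := by
  have hl : HasDerivAt (fun s : ℝ => (x, y, s)) ((0 : ℝ), (0 : ℝ), (1 : ℝ)) z :=
    (hasDerivAt_const _ _).prodMk ((hasDerivAt_const _ _).prodMk (hasDerivAt_id z))
  exact (HasFDerivAt.comp_hasDerivAt (x := z) (f := fun s : ℝ => (x, y, s)) hw.hasFDerivAt hl).unique h

/-- chain rule along a curve -/
theorem curve {a b c : ℝ → ℝ} {s a' b' c' : ℝ} (hw : DifferentiableAt ℝ w (a s, b s, c s))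
    (ha : HasDerivAt a a' s) (hb : HasDerivAt b b' s) (hc : HasDerivAt c c' s) :
    HasDerivAt (fun s => w (a s, b s, c s)) (a' * D1 w (a s, b s, c s) +
      b' * D2 w (a s, b s, c s) + c' * D3 w (a s, b s, c s)) s := by
  have hl : HasDerivAt (fun s : ℝ => (a s, b s, c s)) (a', b', c') s :=
    ha.prodMk (hb.prodMk hc)
  refine HasDerivAt.congr_deriv
    (HasFDerivAt.comp_hasDerivAt (x := s) (f := fun s : ℝ => (a s, b s, c s)) hw.hasFDerivAt hl) ?_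
  have h : ((a', b', c') : ℝ × ℝ × ℝ) = a' • ((1 : ℝ), (0 : ℝ), (0 : ℝ)) +
      b' • ((0 : ℝ), (1 : ℝ), (0 : ℝ)) + c' • ((0 : ℝ), (0 : ℝ), (1 : ℝ)) := by
    refine Prod.ext ?_ (Prod.ext ?_ ?_) <;> simp
  rw [h, map_add, map_add, map_smul, map_smul, map_smul]
  rfl

end partials

theorem D_cont {w : ℝ × ℝ × ℝ → ℝ} {p : ℝ × ℝ × ℝ} (hw : ContDiffAt ℝ ∞ w p) :
    ContinuousAt (D1 w) p ∧ ContinuousAt (D2 w) p ∧ ContinuousAt (D3 w) p := by
  have h : ContinuousAt (fderiv ℝ w) p :=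
    (hw.fderiv_right (m := ∞) (by simp)).continuousAt
  exact ⟨h.clm_apply continuousAt_const, h.clm_apply continuousAt_const,
    h.clm_apply continuousAt_const⟩

/-! ### the transformed function -/

/-- composition with the disc automorphism -/
noncomputable def Vf (v : ℝ × ℝ × ℝ → ℝ) (p : ℝ × ℝ × ℝ) : ℝ :=
  v ((Ph T (p.1, p.2.1)).1, (Ph T (p.1, p.2.1)).2, p.2.2)

/-- the test function on the torus -/
noncomputable def Uf (v : ℝ × ℝ × ℝ → ℝ) (p : ℝ × ℝ × ℝ) : ℝ := Vf v p / √(√2 + p.1)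

theorem rho_pos {x y : ℝ} (h : x ^ 2 + y ^ 2 ≤ 1) : 0 < √2 + x := by
  have : |x| ≤ 1 := abs_le_of_sq_le_sq (by nlinarith [sq_nonneg y]) zero_le_one
  linarith [(abs_le.1 this).1, s2_gt]

section trans
variable {v : ℝ × ℝ × ℝ → ℝ} (hv : ∀ x y z : ℝ, x ^ 2 + y ^ 2 ≤ 1 → ContDiffAt ℝ ∞ v (x, y, z))
  {x y z : ℝ} (h : x ^ 2 + y ^ 2 ≤ 1)
include hv h

theorem NT : 0 < Nn T (x, y) := Nn_pos T_sq_lt h

theorem v_at : ContDiffAt ℝ ∞ v ((Ph T (x, y)).1, (Ph T (x, y)).2, z) :=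
  hv _ _ _ (Ph_le T_sq_lt h)

theorem Vf_smooth : ContDiffAt ℝ ∞ (Vf v) (x, y, z) := by
  have hP : ContDiffAt ℝ ∞ (fun p : ℝ × ℝ × ℝ => Ph T (p.1, p.2.1)) (x, y, z) :=
    ContDiffAt.comp (x := (x, y, z)) (g := Ph T) (f := fun p : ℝ × ℝ × ℝ => (p.1, p.2.1))
      (Ph_contDiff (NT hv h).ne') (by fun_prop)
  have hQ : ContDiffAt ℝ ∞ (fun p : ℝ × ℝ × ℝ =>
      ((Ph T (p.1, p.2.1)).1, (Ph T (p.1, p.2.1)).2, p.2.2)) (x, y, z) :=
    (hP.fst).prodMk ((hP.snd).prodMk (by fun_prop))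
  exact ContDiffAt.comp (x := (x, y, z)) (g := v) (f := fun p : ℝ × ℝ × ℝ =>
      ((Ph T (p.1, p.2.1)).1, (Ph T (p.1, p.2.1)).2, p.2.2)) (v_at hv h) hQ

theorem Uf_smooth : ContDiffAt ℝ ∞ (Uf v) (x, y, z) := by
  have h1 : ContDiffAt ℝ ∞ (fun p : ℝ × ℝ × ℝ => √(√2 + p.1)) (x, y, z) :=
    ContDiffAt.sqrt (by fun_prop) (rho_pos h).ne'
  exact (Vf_smooth hv h).div h1 (Real.sqrt_pos.2 (rho_pos h)).ne'

theorem V_d1 : HasDerivAt (fun s => Vf v (s, y, z))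
    (da T (x, y) * D1 v ((Ph T (x, y)).1, (Ph T (x, y)).2, z) +
      db T (x, y) * D2 v ((Ph T (x, y)).1, (Ph T (x, y)).2, z)) x := by
  have hd := hd1 (t := T) (y1 := x) (y2 := y) (NT hv h).ne'
  have ha : HasDerivAt (fun s => (Ph T (s, y)).1) (da T (x, y)) x :=
    (ContinuousLinearMap.fst ℝ ℝ ℝ).hasFDerivAt.comp_hasDerivAt x hd
  have hb : HasDerivAt (fun s => (Ph T (s, y)).2) (db T (x, y)) x :=
    (ContinuousLinearMap.snd ℝ ℝ ℝ).hasFDerivAt.comp_hasDerivAt x hd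
  refine HasDerivAt.congr_deriv (curve (w := v) (s := x) ((v_at hv h).differentiableAt (by simp))
    ha hb (hasDerivAt_const x z)) ?_
  ring

theorem V_d2 : HasDerivAt (fun s => Vf v (x, s, z))
    (-db T (x, y) * D1 v ((Ph T (x, y)).1, (Ph T (x, y)).2, z) +
      da T (x, y) * D2 v ((Ph T (x, y)).1, (Ph T (x, y)).2, z)) y := by
  have hd := hd2 (t := T) (y1 := x) (y2 := y) (NT hv h).ne'
  have ha : HasDerivAt (fun s => (Ph T (x, s)).1) (-db T (x, y)) y :=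
    (ContinuousLinearMap.fst ℝ ℝ ℝ).hasFDerivAt.comp_hasDerivAt y hd
  have hb : HasDerivAt (fun s => (Ph T (x, s)).2) (da T (x, y)) y :=
    (ContinuousLinearMap.snd ℝ ℝ ℝ).hasFDerivAt.comp_hasDerivAt y hd
  refine HasDerivAt.congr_deriv (curve (w := v) (s := y) ((v_at hv h).differentiableAt (by simp))
    ha hb (hasDerivAt_const y z)) ?_
  ring

theorem V_d3 : HasDerivAt (fun s => Vf v (x, y, s))
    (D3 v ((Ph T (x, y)).1, (Ph T (x, y)).2, z)) z := by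
  refine HasDerivAt.congr_deriv (curve (w := v) (s := z) ((v_at hv h).differentiableAt (by simp))
    (hasDerivAt_const z (Ph T (x, y)).1) (hasDerivAt_const z (Ph T (x, y)).2) (hasDerivAt_id z)) ?_
  ring

end trans

/-- conformal factor -/
theorem Ay_eq {x y z : ℝ} (h : x ^ 2 + y ^ 2 ≤ 1) :
    (1 - T ^ 2) ^ 2 / Nn T (x, y) ^ 2 * Ay ((Ph T (x, y)).1, (Ph T (x, y)).2, z) =
      1 / (√2 + x) ^ 2 := by
  have hN : 0 < Nn T (x, y) := Nn_pos T_sq_lt h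
  have hr := rho_pos h
  have hT := T_pos
  have h1 := Ph_sq hN.ne'
  have h2 : 1 - T ^ 2 * ((Ph T (x, y)).1 ^ 2 + (Ph T (x, y)).2 ^ 2) =
      4 * T ^ 2 * (√2 + x) / Nn T (x, y) := by
    have h3 : (Ph T (x, y)).1 ^ 2 + (Ph T (x, y)).2 ^ 2 =
        1 - (1 - T ^ 2) * (1 - (x ^ 2 + y ^ 2)) / Nn T (x, y) := by
      have h4 : (1 - T ^ 2) * (1 - ((x, y) : ℝ × ℝ).1 ^ 2 - ((x, y) : ℝ × ℝ).2 ^ 2) =
        (1 - T ^ 2) * (1 - (x ^ 2 + y ^ 2)) := by simp only; ring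
      simp only at h1
      linarith
    rw [h3]
    have h5 : Nn T (x, y) = 1 + 2 * T * x + T ^ 2 * (x ^ 2 + y ^ 2) := rfl
    field_simp
    rw [h5, s2_T]
    have h6 := T_sq
    linear_combination (-(T ^ 2 + 2 * T + 1) - 2 * T * x) * h6
  unfold Ay
  rw [T_tau]
  simp only [TH600.YT.sq]
  have h7 : 1 - T ^ 2 = 2 * T := by rw [T_sq]; ring
  rw [h2, h7]
  field_simp
  ring

end Pool.Agent.TH515.J744
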