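import Mathlib
import Pool.Agent.TH515.J744c

/-!
# Job 744: the torus with core radius `√2` in the hyperbolic gauge
-/

set_option autoImplicit false

open MeasureTheory Real Set
open scoped ContDiff

namespace Pool.Agent.TH515.J744

open Pool.Agent.TH600.YT

/-- energy density in the hyperbolic gauge -/
noncomputable def Md (v : ℝ × ℝ × ℝ → ℝ) (p : ℝ × ℝ × ℝ) : ℝ :=
  8 * ((D1 v p) ^ 2 + (D2 v p) ^ 2) + Ay p * (8 * 1 * (D3 v p) ^ 2 - 2 * (v p) ^ 2)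

/-- energy density of the transformed function -/
noncomputable def Fu (u : ℝ × ℝ × ℝ → ℝ) (p : ℝ × ℝ × ℝ) : ℝ :=
  8 * ((D1 u p) ^ 2 + (D2 u p) ^ 2 + (D3 u p / (√2 + p.1)) ^ 2) * (√2 + p.1)

/-- the field of the divergence term -/
noncomputable def Xf (v : ℝ × ℝ × ℝ → ℝ) (z : ℝ) (q : ℝ × ℝ) : ℝ :=
  4 * Vf v (q.1, q.2, z) ^ 2 / (√2 + q.1)

section trans
variable {v : ℝ × ℝ × ℝ → ℝ} (hv : ∀ x y z : ℝ, x ^ 2 + y ^ 2 ≤ 1 → ContDiffAt ℝ ∞ v (x, y, z))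
  {x y z : ℝ} (h : x ^ 2 + y ^ 2 ≤ 1)
include hv h

theorem X_smooth : ContDiffAt ℝ ∞ (Xf v z) (x, y) := by
  have h1 : ContDiffAt ℝ ∞ (fun q : ℝ × ℝ => Vf v (q.1, q.2, z)) (x, y) :=
    ContDiffAt.comp (x := (x, y)) (g := Vf v) (f := fun q : ℝ × ℝ => (q.1, q.2, z))
      (Vf_smooth hv h) (by fun_prop)
  unfold Xf
  exact (contDiffAt_const.mul (h1.pow 2)).div (by fun_prop) (rho_pos h).ne'

theorem X_d1 {V1 : ℝ} (hV : HasDerivAt (fun s => Vf v (s, y, z)) V1 x) :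
    fderiv ℝ (Xf v z) (x, y) (1, 0) =
      (4 * (2 * Vf v (x, y, z) * V1) * (√2 + x) - 4 * Vf v (x, y, z) ^ 2) / (√2 + x) ^ 2 := by
  have hd : HasFDerivAt (Xf v z) (fderiv ℝ (Xf v z) (x, y)) (x, y) :=
    ((X_smooth hv h).differentiableAt (by simp)).hasFDerivAt
  have hl : HasDerivAt (fun s : ℝ => (s, y)) ((1 : ℝ), (0 : ℝ)) x :=
    (hasDerivAt_id x).prodMk (hasDerivAt_const _ _)
  have h1 := HasFDerivAt.comp_hasDerivAt (x := x) (f := fun s : ℝ => (s, y)) hd hl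
  have h2 : HasDerivAt (fun s => Xf v z (s, y))
      ((4 * (2 * Vf v (x, y, z) * V1) * (√2 + x) - 4 * Vf v (x, y, z) ^ 2) / (√2 + x) ^ 2) x := by
    have h3 := ((hV.pow 2).const_mul 4).div ((hasDerivAt_id x).const_add (√2)) (rho_pos h).ne'
    refine HasDerivAt.congr_deriv h3 ?_
    simp only [id_eq]
    congr 1
    simp
  exact h1.unique h2

theorem energy_pt : Fu (Uf v) (x, y, z) =
    (1 - T ^ 2) ^ 2 / Nn T (x, y) ^ 2 * Md v ((Ph T (x, y)).1, (Ph T (x, y)).2, z) -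
      fderiv ℝ (Xf v z) (x, y) (1, 0) := by
  have hr := rho_pos h
  have hr' := Real.sqrt_pos.2 hr
  have hrr : √(√2 + x) ^ 2 = √2 + x := Real.sq_sqrt hr.le
  have hU := (Uf_smooth (z := z) hv h).differentiableAt (by simp)
  have hV1 := V_d1 (z := z) hv h
  have hV2 := V_d2 (z := z) hv h
  have hV3 := V_d3 (z := z) hv h
  set V1 := da T (x, y) * D1 v ((Ph T (x, y)).1, (Ph T (x, y)).2, z) +
      db T (x, y) * D2 v ((Ph T (x, y)).1, (Ph T (x, y)).2, z) with hV1e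
  set V2 := -db T (x, y) * D1 v ((Ph T (x, y)).1, (Ph T (x, y)).2, z) +
      da T (x, y) * D2 v ((Ph T (x, y)).1, (Ph T (x, y)).2, z) with hV2e
  set V3 := D3 v ((Ph T (x, y)).1, (Ph T (x, y)).2, z) with hV3e
  set r := √(√2 + x) with hre
  set V := Vf v (x, y, z) with hVe
  have e1 : D1 (Uf v) (x, y, z) = (V1 * r - V * (1 / (2 * r))) / r ^ 2 := by
    refine D1_eq hU ?_
    exact hV1.div (((hasDerivAt_id x).const_add (√2)).sqrt hr.ne') hr'.ne'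
  have e2 : D2 (Uf v) (x, y, z) = V2 / r := D2_eq hU (hV2.div_const r)
  have e3 : D3 (Uf v) (x, y, z) = V3 / r := D3_eq hU (hV3.div_const r)
  have e4 := X_d1 (z := z) hv h hV1
  have e5 := dab (t := T) (y := (x, y)) (NT hv h).ne'
  have e6 := Ay_eq (z := z) h
  have e7 : v ((Ph T (x, y)).1, (Ph T (x, y)).2, z) = V := rfl
  have e8 : (1 - T ^ 2) ^ 2 / Nn T (x, y) ^ 2 * Md v ((Ph T (x, y)).1, (Ph T (x, y)).2, z) =
      8 * (V1 ^ 2 + V2 ^ 2) + 1 / (√2 + x) ^ 2 * (8 * V3 ^ 2 - 2 * V ^ 2) := by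
    rw [← e6]
    unfold Md
    rw [← hV3e, e7, ← e5, hV1e, hV2e]
    ring
  rw [e8, e4]
  unfold Fu
  rw [e1, e2, e3]
  simp only
  rw [← hrr]
  field_simp
  ring

end trans

theorem Ay_cont {p : ℝ × ℝ × ℝ} (h : p.1 ^ 2 + p.2.1 ^ 2 ≤ 1) : ContinuousAt Ay p := by
  have h1 : 0 < 1 - tau * TH600.YT.sq p := by
    have h2 : tau < 1 := by rw [T_tau]; exact T_sq_lt
    have h3 : 0 ≤ tau := by rw [T_tau]; positivity
    have h4 : TH600.YT.sq p ≤ 1 := h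
    have h5 : 0 ≤ TH600.YT.sq p := by unfold TH600.YT.sq; positivity
    nlinarith
  unfold Ay
  refine ContinuousAt.div continuousAt_const ?_ (by positivity)
  unfold TH600.YT.sq
  fun_prop

theorem Md_cont {v : ℝ × ℝ × ℝ → ℝ} {x y z : ℝ} (h : x ^ 2 + y ^ 2 ≤ 1)
    (hv : ContDiffAt ℝ ∞ v (x, y, z)) : ContinuousAt (Md v) (x, y, z) := by
  obtain ⟨h1, h2, h3⟩ := D_cont hv
  have h4 := Ay_cont (p := (x, y, z)) h
  have h5 := hv.continuousAt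
  unfold Md
  fun_prop

theorem Fu_cont {u : ℝ × ℝ × ℝ → ℝ} {x y z : ℝ} (h : x ^ 2 + y ^ 2 ≤ 1)
    (hu : ContDiffAt ℝ ∞ u (x, y, z)) : ContinuousAt (Fu u) (x, y, z) := by
  obtain ⟨h1, h2, h3⟩ := D_cont hu
  have h4 : ContinuousAt (fun p : ℝ × ℝ × ℝ => D3 u p / (√2 + p.1)) (x, y, z) :=
    h3.div (by fun_prop) (rho_pos h).ne'
  unfold Fu
  fun_prop

/-- boundary integrands are continuous -/
theorem circ_cont {w : ℝ × ℝ × ℝ → ℝ}
    (hw : ∀ x y z : ℝ, x ^ 2 + y ^ 2 ≤ 1 → ContDiffAt ℝ ∞ w (x, y, z)) :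
    Continuous fun p : ℝ × ℝ => w (cos p.2, sin p.2, p.1) := by
  rw [continuous_iff_continuousAt]
  intro p
  exact ContinuousAt.comp (x := p) (g := w) (f := fun p : ℝ × ℝ => (cos p.2, sin p.2, p.1))
    (hw _ _ _ (cos_sq_add_sin_sq p.2).le).continuousAt (by fun_prop)

theorem circ_cont1 {w : ℝ × ℝ × ℝ → ℝ}
    (hw : ∀ x y z : ℝ, x ^ 2 + y ^ 2 ≤ 1 → ContDiffAt ℝ ∞ w (x, y, z)) (z : ℝ) :
    Continuous fun φ : ℝ => w (cos φ, sin φ, z) := by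
  rw [continuous_iff_continuousAt]
  intro φ
  exact ContinuousAt.comp (x := φ) (g := w) (f := fun φ : ℝ => (cos φ, sin φ, z))
    (hw _ _ _ (cos_sq_add_sin_sq φ).le).continuousAt (by fun_prop)

section main
variable {v : ℝ × ℝ × ℝ → ℝ} (hv : ∀ x y z : ℝ, x ^ 2 + y ^ 2 ≤ 1 → ContDiffAt ℝ ∞ v (x, y, z))
include hv

theorem int_X (z : ℝ) : IntegrableOn (fun q : ℝ × ℝ => fderiv ℝ (Xf v z) q (1, 0)) Di := by
  refine disc_integrable _ fun p hp => ?_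
  have h1 : ContDiffAt ℝ ∞ (Xf v z) p := X_smooth hv hp
  exact ((h1.fderiv_right (m := ∞) (by simp)).continuousAt).clm_apply continuousAt_const

theorem int_M (z : ℝ) : IntegrableOn (fun q : ℝ × ℝ => (1 - T ^ 2) ^ 2 / Nn T q ^ 2 *
      Md v ((Ph T q).1, (Ph T q).2, z)) Di := by
  refine disc_integrable _ fun p hp => ?_
  have hN : 0 < Nn T p := Nn_pos T_sq_lt hp
  have c1 : ContinuousAt (fun q : ℝ × ℝ => (1 - T ^ 2) ^ 2 / Nn T q ^ 2) p := by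
    refine ContinuousAt.div continuousAt_const ?_ (by positivity)
    unfold Nn
    fun_prop
  have c2 : ContinuousAt (fun q : ℝ × ℝ => ((Ph T q).1, (Ph T q).2, z)) p := by
    have h0 : ContinuousAt (Ph T) p := (Ph_contDiff hN.ne').continuousAt
    exact h0.fst.prodMk (h0.snd.prodMk continuousAt_const)
  refine c1.mul (ContinuousAt.comp (x := p) (g := Md v)
    (f := fun q : ℝ × ℝ => ((Ph T q).1, (Ph T q).2, z)) ?_ c2)
  exact Md_cont (Ph_le T_sq_lt hp) (hv _ _ _ (Ph_le T_sq_lt hp))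

theorem interior (z : ℝ) : ∫ q in Di, Fu (Uf v) (q.1, q.2, z) =
    (∫ q in Di, Md v (q.1, q.2, z)) - ∫ q in Di, fderiv ℝ (Xf v z) q (1, 0) := by
  rw [cov T_sq_lt (fun q => Md v (q.1, q.2, z)), ← integral_sub (int_M hv z) (int_X hv z)]
  refine setIntegral_congr_fun Di_meas fun q hq => ?_
  exact energy_pt (x := q.1) (y := q.2) hv (le_of_lt hq)

theorem divX (div_disc : ∀ (X Y : ℝ × ℝ → ℝ),
      (∀ p : ℝ × ℝ, p.1 ^ 2 + p.2 ^ 2 ≤ 1 → ContDiffAt ℝ 1 X p) →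
      (∀ p : ℝ × ℝ, p.1 ^ 2 + p.2 ^ 2 ≤ 1 → ContDiffAt ℝ 1 Y p) →
      ∫ p in {p : ℝ × ℝ | p.1 ^ 2 + p.2 ^ 2 < 1}, (fderiv ℝ X p (1, 0) + fderiv ℝ Y p (0, 1)) =
        ∫ φ in (0 : ℝ)..(2 * π), (X (cos φ, sin φ) * cos φ + Y (cos φ, sin φ) * sin φ)) (z : ℝ) :
    ∫ q in Di, fderiv ℝ (Xf v z) q (1, 0) =
      ∫ φ in (0 : ℝ)..(2 * π), Xf v z (cos φ, sin φ) * cos φ := by
  have hX : ∀ p : ℝ × ℝ, p.1 ^ 2 + p.2 ^ 2 ≤ 1 → ContDiffAt ℝ 1 (Xf v z) p :=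
    fun p hp => (X_smooth (x := p.1) (y := p.2) hv hp).of_le (by simp)
  have a3 := div_disc (Xf v z) (fun _ => 0) hX (fun p _ => contDiffAt_const)
  simp only [zero_mul, add_zero] at a3
  rw [← a3]
  refine setIntegral_congr_fun Di_meas fun q _ => ?_
  simp

theorem bound (z : ℝ) : 2 * (∫ φ in (0 : ℝ)..(2 * π), (1 + cos φ / (√2 + cos φ)) *
      Uf v (cos φ, sin φ, z) ^ 2 * (√2 + cos φ)) -
      ∫ φ in (0 : ℝ)..(2 * π), Xf v z (cos φ, sin φ) * cos φ =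
      2 * √2 * ∫ φ in (0 : ℝ)..(2 * π), v (cos φ, sin φ, z) ^ 2 := by
  have cV : Continuous fun φ : ℝ => Vf v (cos φ, sin φ, z) :=
    circ_cont1 (fun x y z h => Vf_smooth hv h) z
  have cU : Continuous fun φ : ℝ => Uf v (cos φ, sin φ, z) :=
    circ_cont1 (fun x y z h => Uf_smooth hv h) z
  have cv : Continuous fun φ : ℝ => v (cos φ, sin φ, z) :=
    circ_cont1 hv z
  have cd : Continuous fun φ : ℝ => cos φ / (√2 + cos φ) :=
    continuous_cos.div (by fun_prop) fun φ => (den_pos φ).ne'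
  have cX0 : Continuous fun φ : ℝ => 4 * Vf v (cos φ, sin φ, z) ^ 2 / (√2 + cos φ) := by
    refine Continuous.div ?_ (by fun_prop) fun φ => (den_pos φ).ne'
    exact continuous_const.mul (cV.pow 2)
  have cX : Continuous fun φ : ℝ => Xf v z (cos φ, sin φ) * cos φ := cX0.mul continuous_cos
  have cB : Continuous fun φ : ℝ => 2 * ((1 + cos φ / (√2 + cos φ)) *
      Uf v (cos φ, sin φ, z) ^ 2 * (√2 + cos φ)) :=
    continuous_const.mul (((continuous_const.add cd).mul (cU.pow 2)).mul (by fun_prop))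
  have a5 := circ (fun q => v (q.1, q.2, z) ^ 2) (cv.pow 2)
  rw [← a5, ← intervalIntegral.integral_const_mul, ← intervalIntegral.integral_const_mul,
    ← intervalIntegral.integral_sub (cB.intervalIntegrable _ _) (cX.intervalIntegrable _ _)]
  refine intervalIntegral.integral_congr fun φ _ => ?_
  have h1 := den_pos φ
  have h2 : √(√2 + cos φ) ^ 2 = √2 + cos φ := Real.sq_sqrt h1.le
  have h3 : Uf v (cos φ, sin φ, z) ^ 2 = Vf v (cos φ, sin φ, z) ^ 2 / (√2 + cos φ) := by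
    unfold Uf
    rw [div_pow, h2]
  have h4 : Xf v z (cos φ, sin φ) = 4 * Vf v (cos φ, sin φ, z) ^ 2 / (√2 + cos φ) := rfl
  have h5 : v ((Ph T (cos φ, sin φ)).1, (Ph T (cos φ, sin φ)).2, z) = Vf v (cos φ, sin φ, z) := rfl
  rw [h3, h4, h5]
  field_simp
  ring

theorem slice (div_disc : ∀ (X Y : ℝ × ℝ → ℝ),
      (∀ p : ℝ × ℝ, p.1 ^ 2 + p.2 ^ 2 ≤ 1 → ContDiffAt ℝ 1 X p) →
      (∀ p : ℝ × ℝ, p.1 ^ 2 + p.2 ^ 2 ≤ 1 → ContDiffAt ℝ 1 Y p) →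
      ∫ p in {p : ℝ × ℝ | p.1 ^ 2 + p.2 ^ 2 < 1}, (fderiv ℝ X p (1, 0) + fderiv ℝ Y p (0, 1)) =
        ∫ φ in (0 : ℝ)..(2 * π), (X (cos φ, sin φ) * cos φ + Y (cos φ, sin φ) * sin φ)) (z : ℝ) :
    (∫ q in Di, Fu (Uf v) (q.1, q.2, z)) + 2 * (∫ φ in (0 : ℝ)..(2 * π),
      (1 + cos φ / (√2 + cos φ)) * Uf v (cos φ, sin φ, z) ^ 2 * (√2 + cos φ)) =
    (∫ q in Di, Md v (q.1, q.2, z)) + 2 * √2 * ∫ φ in (0 : ℝ)..(2 * π), v (cos φ, sin φ, z) ^ 2 := by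
  have h1 := interior hv z
  have h2 := divX hv div_disc z
  have h3 := bound hv z
  rw [h1, h2, ← h3]
  ring

theorem energy_eq (div_disc : ∀ (X Y : ℝ × ℝ → ℝ),
      (∀ p : ℝ × ℝ, p.1 ^ 2 + p.2 ^ 2 ≤ 1 → ContDiffAt ℝ 1 X p) →
      (∀ p : ℝ × ℝ, p.1 ^ 2 + p.2 ^ 2 ≤ 1 → ContDiffAt ℝ 1 Y p) →
      ∫ p in {p : ℝ × ℝ | p.1 ^ 2 + p.2 ^ 2 < 1}, (fderiv ℝ X p (1, 0) + fderiv ℝ Y p (0, 1)) =
        ∫ φ in (0 : ℝ)..(2 * π), (X (cos φ, sin φ) * cos φ + Y (cos φ, sin φ) * sin φ)) :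
    torusEnergy (√2) (Uf v) = Ey 1 (2 * π) v := by
  have h2π : (0 : ℝ) ≤ 2 * π := by positivity
  have hFu : ∀ x y z : ℝ, x ^ 2 + y ^ 2 ≤ 1 → ContinuousAt (Fu (Uf v)) (x, y, z) :=
    fun x y z h => Fu_cont h (Uf_smooth hv h)
  have hMd : ∀ x y z : ℝ, x ^ 2 + y ^ 2 ≤ 1 → ContinuousAt (Md v) (x, y, z) :=
    fun x y z h => Md_cont h (hv x y z h)
  have e1 : torusEnergy (√2) (Uf v) = (∫ p in Cyl (2 * π), Fu (Uf v) p) +
      2 * ∫ z in (0 : ℝ)..(2 * π), ∫ φ in (0 : ℝ)..(2 * π),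
        (1 + cos φ / (√2 + cos φ)) * Uf v (cos φ, sin φ, z) ^ 2 * (√2 + cos φ) := rfl
  have e2 : Ey 1 (2 * π) v = (∫ p in Cyl (2 * π), Md v p) + 2 * √2 *
      ∫ z in (0 : ℝ)..(2 * π), ∫ φ in (0 : ℝ)..(2 * π), v (cos φ, sin φ, z) ^ 2 := rfl
  rw [e1, e2, cyl_fub h2π _ hFu, cyl_fub h2π _ hMd, ← intervalIntegral.integral_const_mul,
    ← intervalIntegral.integral_const_mul, ← intervalIntegral.integral_add (cyl_slice h2π _ hFu),
    ← intervalIntegral.integral_add (cyl_slice h2π _ hMd)]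
  · refine intervalIntegral.integral_congr fun z _ => ?_
    exact slice hv div_disc z
  · refine (Continuous.intervalIntegrable ?_ _ _)
    refine continuous_const.mul ?_
    refine intervalIntegral.continuous_parametric_intervalIntegral_of_continuous' ?_ _ _
    exact (circ_cont hv).pow 2
  · refine (Continuous.intervalIntegrable ?_ _ _)
    refine continuous_const.mul ?_
    refine intervalIntegral.continuous_parametric_intervalIntegral_of_continuous' ?_ _ _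
    have cU := circ_cont (w := Uf v) fun x y z h => Uf_smooth hv h
    have cd : Continuous fun p : ℝ × ℝ => cos p.2 / (√2 + cos p.2) :=
      Continuous.div (by fun_prop) (by fun_prop) fun p => (den_pos p.2).ne'
    exact ((continuous_const.add cd).mul (cU.pow 2)).mul (by fun_prop)

theorem vol_eq : torusVol6 (√2) (Uf v) = ∫ p in Cyl (2 * π), Ay p * v p ^ 6 := by
  have h2π : (0 : ℝ) ≤ 2 * π := by positivity
  have c1 : ∀ x y z : ℝ, x ^ 2 + y ^ 2 ≤ 1 →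
      ContinuousAt (fun p : ℝ × ℝ × ℝ => Uf v p ^ 6 * (√2 + p.1)) (x, y, z) := fun x y z h =>
    ((Uf_smooth hv h).continuousAt.pow 6).mul (by fun_prop)
  have c2 : ∀ x y z : ℝ, x ^ 2 + y ^ 2 ≤ 1 →
      ContinuousAt (fun p : ℝ × ℝ × ℝ => Ay p * v p ^ 6) (x, y, z) := fun x y z h =>
    (Ay_cont (p := (x, y, z)) h).mul ((hv x y z h).continuousAt.pow 6)
  unfold torusVol6
  rw [cyl_fub h2π _ c1, cyl_fub h2π _ c2]
  refine intervalIntegral.integral_congr fun z _ => ?_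
  rw [cov T_sq_lt (fun q => Ay (q.1, q.2, z) * v (q.1, q.2, z) ^ 6)]
  refine setIntegral_congr_fun Di_meas fun q hq => ?_
  have hq' : q.1 ^ 2 + q.2 ^ 2 ≤ 1 := le_of_lt hq
  have hr := rho_pos hq'
  have h1 := Ay_eq (z := z) hq'
  have h2 : √(√2 + q.1) ^ 2 = √2 + q.1 := Real.sq_sqrt hr.le
  simp only
  rw [← mul_assoc]
  have h3 : (1 - T ^ 2) ^ 2 / Nn T q ^ 2 * Ay ((Ph T q).1, (Ph T q).2, z) = 1 / (√2 + q.1) ^ 2 := h1
  rw [h3]
  have h4 : Uf v (q.1, q.2, z) = v ((Ph T q).1, (Ph T q).2, z) / √(√2 + q.1) := rfl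
  rw [h4, div_pow]
  have h5 : √(√2 + q.1) ^ 6 = (√2 + q.1) ^ 3 := by
    calc √(√2 + q.1) ^ 6 = (√(√2 + q.1) ^ 2) ^ 3 := by ring
      _ = _ := by rw [h2]
  rw [h5]
  field_simp

end main

end Pool.Agent.TH515.J744

namespace Pool.Agent.TH600.YT

theorem clifford_bridge
    (div_disc : ∀ (X Y : ℝ × ℝ → ℝ),
      (∀ p : ℝ × ℝ, p.1 ^ 2 + p.2 ^ 2 ≤ 1 → ContDiffAt ℝ 1 X p) →
      (∀ p : ℝ × ℝ, p.1 ^ 2 + p.2 ^ 2 ≤ 1 → ContDiffAt ℝ 1 Y p) →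
      ∫ p in {p : ℝ × ℝ | p.1 ^ 2 + p.2 ^ 2 < 1}, (fderiv ℝ X p (1, 0) + fderiv ℝ Y p (0, 1)) =
        ∫ φ in (0 : ℝ)..(2 * π), (X (cos φ, sin φ) * cos φ + Y (cos φ, sin φ) * sin φ))
    (v : ℝ × ℝ × ℝ → ℝ) (hv : Adm (2 * π) v) :
    ∃ u : ℝ × ℝ × ℝ → ℝ, Adm (2 * π) u ∧ torusEnergy (√2) u = Ey 1 (2 * π) v ∧
      torusVol6 (√2) u = ∫ p in Cyl (2 * π), Ay p * v p ^ 6 := by
  open Pool.Agent.TH515.J744 in
  refine ⟨Uf v, ⟨fun x y z h => Uf_smooth hv.smooth h, fun x y z => ?_, fun x y z h => ?_⟩,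
    energy_eq hv.smooth div_disc, vol_eq hv.smooth⟩
  · unfold Uf Vf
    simp only
    rw [hv.periodic]
  · unfold Uf Vf
    exact div_pos (hv.pos _ _ _ (Ph_le T_sq_lt h)) (Real.sqrt_pos.2 (rho_pos h))

end Pool.Agent.TH600.YT

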