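import Pool.Agent.TH515.J875d
set_option autoImplicit false

/-! Job 875, part a: patterns. -/
namespace Pool.Agent.TH515.J875
open Pool.Agent.TH547.Arc
open Finset Equiv

/-! ### cycles on finite invariant sets -/

theorem sc_mem {α : Type} [DecidableEq α] {φ : Perm α} {A : Finset α} (h : ∀ s ∈ A, φ s ∈ A)
    {s t : α} (hs : s ∈ A) (hst : φ.SameCycle s t) : t ∈ A := by
  have hmap : A.map φ.toEmbedding = A := by
    refine Finset.eq_of_subset_of_card_le ?_ (by rw [Finset.card_map])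
    intro x hx
    rw [Finset.mem_map] at hx
    obtain ⟨y, hy, rfl⟩ := hx
    exact h y hy
  have h' : ∀ s ∈ A, φ⁻¹ s ∈ A := by
    intro s hs
    rw [← hmap, Finset.mem_map] at hs
    obtain ⟨y, hy, rfl⟩ := hs
    simpa using hy
  obtain ⟨i, rfl⟩ := hst
  induction i using Int.induction_on with
  | zero => simpa using hs
  | succ i ih =>
    rw [add_comm, zpow_add, zpow_one, Perm.mul_apply]
    exact h _ ih
  | pred i ih =>
    rw [sub_eq_add_neg, add_comm, zpow_add, zpow_neg_one, Perm.mul_apply]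
    exact h' _ ih

/-! ### names and symbols -/

theorem nmW {X : PW} {a : ℕ} : a ∈ W.nm X ↔ a ∈ X.ord := Sys.mem_nm

theorem nm_en {X : PW} {a : ℕ} (e : Bool) : a ∈ W.nm X ↔ en a e ∈ X.x := by
  rw [nmW, PW.mem_ord' e]

theorem nm_dlW (X : PW) (a : ℕ) : W.nm (X.dl a) = (W.nm X).erase a := Sys.nm_dl (S := W) X a

section
variable {θ : Perm Sy} {μ : PW} {P Dd : Finset Sy} {X : PW}

theorem ov_sub (hX : OvP μ P X) : ∀ s ∈ μ.x, s ∈ X.x := by
  intro s hs
  rw [← hX.1, List.mem_filter] at hs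
  exact hs.1

theorem ov_nm (hX : OvP μ P X) : W.nm μ ⊆ W.nm X := by
  intro a ha
  rw [nm_en false] at ha ⊢
  exact ov_sub hX _ ha

theorem ov_mr (hX : OvP μ P X) {n : ℕ} (h : mr n ∈ X.x) : mr n ∈ μ.x := hX.2.1 n h

/-! ### patterns -/

/-- free arcs whose ends have owners satisfying `T` -/
noncomputable def tau (μ : PW) (T : Option Sy → Option Sy → Prop) (X : PW) : Finset ℕ :=
  @Finset.filter ℕ (fun a => T (own μ.x X.x (en a false)) (own μ.x X.x (en a true)))
    (fun _ => Classical.propDecidable _) (W.nm X \ W.nm μ)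

/-- the pattern of a cell -/
noncomputable def pat (μ : PW) (T : Option Sy → Option Sy → Prop) (X : PW) : PW :=
  rsN (W.nm μ ∪ tau μ T X) X

variable {T : Option Sy → Option Sy → Prop}

theorem mem_tau {a : ℕ} : a ∈ tau μ T X ↔ (a ∈ W.nm X ∧ a ∉ W.nm μ) ∧
    T (own μ.x X.x (en a false)) (own μ.x X.x (en a true)) := by
  unfold tau
  refine (@Finset.mem_filter ℕ _ (fun _ => Classical.propDecidable _) _ _).trans ?_
  rw [Finset.mem_sdiff]

theorem nm_pat (hX : OvP μ P X) : W.nm (pat μ T X) = W.nm μ ∪ tau μ T X := by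
  unfold pat
  rw [nm_rsN]
  refine Finset.inter_eq_right.2 ?_
  intro a ha
  rcases Finset.mem_union.1 ha with h | h
  · exact ov_nm hX h
  · exact (mem_tau.1 h).1.1

theorem fix_mem {F : Finset ℕ} {π : Perm ℕ} (h : ∀ a ∈ F, π a = a) (a : ℕ) : π a ∈ F ↔ a ∈ F := by
  constructor
  · intro hF
    have := h _ hF
    rw [π.injective this] at hF
    exact hF
  · intro hF
    rw [h a hF]; exact hF

theorem tau_rn (hX : OvP μ P X) {π : Perm ℕ} (hπ : ∀ a ∈ W.nm μ, π a = a) :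
    tau μ T (X.rn π) = (tau μ T X).map π.toEmbedding := by
  ext b
  rw [Finset.mem_map, mem_tau]
  constructor
  · rintro ⟨⟨h1, h2⟩, h3⟩
    refine ⟨π.symm b, ?_, by simp⟩
    rw [mem_tau]
    have h4 : W.nm (X.rn π) = (W.nm X).map π.toEmbedding := Sys.nm_rn (S := W) π X
    rw [h4, Finset.mem_map] at h1
    obtain ⟨a, ha, rfl⟩ := h1
    simp only [Equiv.coe_toEmbedding, Equiv.symm_apply_apply] at h2 h3 ⊢
    refine ⟨⟨ha, fun hF => h2 ((fix_mem hπ a).2 hF)⟩, ?_⟩
    have e1 := OvP_own_rn hX hπ (en a false)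
    have e2 := OvP_own_rn hX hπ (en a true)
    rw [rnS_en] at e1 e2
    rw [e1, e2] at h3
    exact h3
  · rintro ⟨a, ha, rfl⟩
    rw [mem_tau] at ha
    simp only [Equiv.coe_toEmbedding]
    refine ⟨⟨(Sys.mem_nm_rn (S := W) π X a).2 ha.1.1, fun hF => ha.1.2 ((fix_mem hπ a).1 hF)⟩, ?_⟩
    have e1 := OvP_own_rn hX hπ (en a false)
    have e2 := OvP_own_rn hX hπ (en a true)
    rw [rnS_en] at e1 e2
    rw [e1, e2]
    exact ha.2

theorem map_fix {F : Finset ℕ} {π : Perm ℕ} (h : ∀ a ∈ F, π a = a) :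
    F.map π.toEmbedding = F := by
  ext b
  rw [Finset.mem_map]
  constructor
  · rintro ⟨a, ha, rfl⟩
    simp only [Equiv.coe_toEmbedding]
    rw [h a ha]; exact ha
  · intro hb
    exact ⟨b, hb, h b hb⟩

theorem pat_rn (hX : OvP μ P X) {π : Perm ℕ} (hπ : ∀ a ∈ W.nm μ, π a = a) :
    pat μ T (X.rn π) = (pat μ T X).rn π := by
  unfold pat
  rw [tau_rn hX hπ, ← rsN_rn, Finset.map_union, map_fix hπ]

theorem tau_dl (hX : OvP μ P X) {a : ℕ} (ha : a ∉ W.nm μ) :
    tau μ T (X.dl a) = (tau μ T X).erase a := by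
  ext b
  rw [Finset.mem_erase, mem_tau, mem_tau, nm_dlW, Finset.mem_erase]
  have haμ : a ∉ μ.ord := fun h => ha (nmW.2 h)
  by_cases hba : b = a
  · subst hba; simp
  · have e1 := OvP_own_dl hX haμ (s := en b false) ((offA_en a b false).2 hba)
    have e2 := OvP_own_dl hX haμ (s := en b true) ((offA_en a b true).2 hba)
    rw [e1, e2]
    tauto

theorem pat_dl (hX : OvP μ P X) {a : ℕ} (ha : a ∉ W.nm μ) (hτ : a ∉ tau μ T X) :
    pat μ T (X.dl a) = pat μ T X := by
  unfold pat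
  rw [tau_dl hX ha, rsN_dl, Finset.erase_eq_of_notMem hτ]
  congr 1
  refine Finset.erase_eq_of_notMem ?_
  rw [Finset.mem_union]
  tauto

/-- filtration by a pattern of arcs -/
theorem ex_pat {Pr : PW → Prop} (hP : ∀ X, Pr X → OvP μ P X) {F' : Finset ℕ} (hF : W.nm μ ⊆ F')
    (hinv : Sys.Inv (S := W) F' Pr) (hcvx : Sys.Cvx (S := W) F' Pr)
    (hF' : ∀ X, Pr X → F' ⊆ W.nm (pat μ T X)) {i : ℕ}
    (hex : ∀ (Y : PW) (j : ℕ), j + (W.nm Y \ F').card = i → F' ⊆ W.nm Y →
      (∃ X, Pr X ∧ pat μ T X = Y) →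
      Sys.Ex (S := W) (W.nm Y) (fun X => Pr X ∧ pat μ T X = Y) j) : Sys.Ex (S := W) F' Pr i := by
  refine Pool.Agent.TH304.J771.Ex_of_pattern hinv hcvx (pat μ T) hF' ?_ ?_ ?_ hex
  · intro (X : PW) hX
    rw [nm_pat (hP X hX)]
    intro a ha
    rcases Finset.mem_union.1 ha with h | h
    · exact ov_nm (hP X hX) h
    · exact (mem_tau.1 h).1.1
  · intro (X : PW) hX π hπ
    exact pat_rn (hP X hX) (fun a ha => hπ a (hF ha))
  · intro (X : PW) hX a ha (hdl : Pr (X.dl a))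
    have haF : a ∉ W.nm μ := fun h => (Finset.mem_sdiff.1 ha).2 (hF h)
    by_cases hτ : a ∈ tau μ T X
    · right
      have h1 : W.nm (pat μ T (X.dl a)) = (W.nm (pat μ T X)).erase a := by
        rw [nm_pat (hP _ hdl), nm_pat (hP X hX), tau_dl (hP X hX) haF]
        ext b
        simp only [Finset.mem_union, Finset.mem_erase]
        constructor
        · rintro (h | h)
          · exact ⟨fun hb => haF (hb ▸ h), Or.inl h⟩
          · exact ⟨h.1, Or.inr h.2⟩
        · rintro ⟨h1, h2 | h2⟩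
          · exact Or.inl h2
          · exact Or.inr ⟨h1, h2⟩
      show (W.nm (pat μ T (X.dl a))).card < (W.nm (pat μ T X)).card
      rw [h1]
      refine Finset.card_erase_lt_of_mem ?_
      rw [nm_pat (hP X hX)]
      exact Finset.mem_union_right _ hτ
    · left
      refine ⟨?_, pat_dl (hP X hX) haF hτ⟩
      rw [nm_pat (hP X hX), Finset.mem_union]
      tauto

theorem pat_rs {Y : PW} (hX : OvP μ P X) (h : pat μ T X = Y) :
    W.nm Y = W.nm μ ∪ tau μ T X ∧ rsN (W.nm Y) X = Y := by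
  have h1 : W.nm Y = W.nm μ ∪ tau μ T X := by rw [← h, nm_pat hX]
  refine ⟨h1, ?_⟩
  rw [h1, ← h]
  rfl

theorem pat_ov {Y : PW} (hX : OvP μ P X) (h : pat μ T X = Y) : OvP μ P Y := by
  rw [← h]
  exact OvP_rsN hX Finset.subset_union_left

end

end Pool.Agent.TH515.J875
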