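import Pool.Agent.TH515.J875a
set_option autoImplicit false

/-! Job 875, part b: pure symbols. -/
namespace Pool.Agent.TH515.J875
open Pool.Agent.TH547.Arc
open Finset Equiv

/-- both ends have owner `p` -/
def Tb (p : Sy) (x y : Option Sy) : Prop := x = some p ∧ y = some p

/-- an end has owner `p` -/
def Ts (p : Sy) (x y : Option Sy) : Prop := x = some p ∨ y = some p

/-- the boundary cycle of `s` contains a symbol which is not in `Y` -/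
def NE (θ : Perm Sy) (Y : PW) (s : Sy) (X : PW) : Prop :=
  ∃ t, (fp θ X.x).SameCycle s t ∧ t ∉ Y.x

/-- the hypotheses of the key lemma -/
structure Ctx (θ : Perm Sy) (μ : PW) (P Dd : Finset Sy) (p q : Sy) (Ψ : PW → Prop) : Prop where
  hE : Env θ μ P Dd
  hp : p ∈ P
  hq : q ∈ P
  hpq : p ≠ q
  hinv : Sys.Inv (S := W) (W.nm μ) (fun X => OvP μ P X ∧ Ψ X)
  hcvx : Sys.Cvx (S := W) (W.nm μ) (fun X => OvP μ P X ∧ Ψ X)
  hins : ∀ (X : PW) (c0 u v : Sy) (b : ℕ), OvP μ P X → c0 ∈ X.x → own μ.x X.x c0 = some p →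
      (∀ t, (fp θ X.x).SameCycle c0 t → t ∉ P.erase p ∧
        (t ∈ μ.x ∨ (own μ.x X.x t = some p ∧ own μ.x X.x (θ t) = some p))) →
      ((u = c0 ∧ v = q) ∨ (u = q ∧ v = c0)) → [u, v].Sublist X.x → b ∉ X.ord → b ∉ μ.ord →
      (Ψ (insP u v b X) ↔ Ψ X)

/-- cells with pattern `Y` -/
def PY (μ : PW) (P : Finset Sy) (p : Sy) (Ψ : PW → Prop) (Y X : PW) : Prop :=
  (OvP μ P X ∧ Ψ X) ∧ pat μ (Tb p) X = Y

/-- cells with pattern `Y` in which the boundary cycles of the symbols of `C` are large -/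
def PC (θ : Perm Sy) (μ : PW) (P : Finset Sy) (p : Sy) (Ψ : PW → Prop) (Y : PW) (C : Finset Sy)
    (X : PW) : Prop :=
  PY μ P p Ψ Y X ∧ ∀ s ∈ C, NE θ Y s X

/-- pure symbols -/
def Pure (θ : Perm Sy) (μ : PW) (P : Finset Sy) (p : Sy) (Y : PW) (s : Sy) : Prop :=
  s ∈ Y.x ∧ own μ.x Y.x s = some p ∧ ∀ t ∈ P.erase p, ¬ (fp θ Y.x).SameCycle s t

section
variable {θ : Perm Sy} {μ : PW} {P Dd : Finset Sy} {p q : Sy} {Ψ : PW → Prop} {X Y : PW}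

theorem mem_of_rs (hY : rsN (W.nm Y) X = Y) {t : Sy} (ht : t ∈ Y.x) : t ∈ X.x ∧ kp (W.nm Y) t = true := by
  rw [← hY] at ht
  exact mem_rsN.1 ht

theorem sub_of_rs (hY : rsN (W.nm Y) X = Y) : Y.x.Sublist X.x := by
  rw [← hY]
  exact List.filter_sublist

theorem mem_iff_rs (hY : rsN (W.nm Y) X = Y) {t : Sy} (ht : t ∈ X.x) :
    t ∈ Y.x ↔ kp (W.nm Y) t = true := by
  constructor
  · intro h; exact (mem_of_rs hY h).2
  · intro h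
    rw [← hY]
    exact mem_rsN.2 ⟨ht, h⟩

theorem nm_of_rs (hY : rsN (W.nm Y) X = Y) : W.nm Y ⊆ W.nm X := by
  intro a ha
  rw [nm_en false] at ha ⊢
  exact (mem_of_rs hY ha).1

/-- K1 -/
theorem cyc_eq (hE : Env θ μ P Dd) (hX : OvP μ P X) (hF : W.nm μ ⊆ W.nm Y)
    (hY : rsN (W.nm Y) X = Y) {s : Sy} (hs : s ∈ Y.x) (h : ¬ NE θ Y s X) :
    ∀ t, (fp θ Y.x).SameCycle s t ↔ (fp θ X.x).SameCycle s t := by
  have h1 := cycle_sub hE hX hF (mem_of_rs hY hs).1 (by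
    intro t ht
    rw [hY]
    by_contra hc
    exact h ⟨t, ht, hc⟩)
  rw [hY] at h1
  exact h1

theorem dl_eq_rs (X : PW) (a : ℕ) : X.dl a = rsN ((W.nm X).erase a) X := by
  rw [← dl_rsN, rsN_of_subset (Finset.Subset.refl _)]

theorem rs_dl (hY : rsN (W.nm Y) X = Y) {a : ℕ} (ha : a ∉ W.nm Y) :
    rsN (W.nm Y) (X.dl a) = Y := by
  rw [rsN_dl, Finset.erase_eq_of_notMem ha, hY]

/-- K2 -/
theorem cyc_dl (hE : Env θ μ P Dd) (hX : OvP μ P X) (hF : W.nm μ ⊆ W.nm Y)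
    (hY : rsN (W.nm Y) X = Y) {s : Sy} (hs : s ∈ Y.x) (h : ¬ NE θ Y s X) {a : ℕ}
    (ha : a ∉ W.nm Y) : ∀ t, (fp θ (X.dl a).x).SameCycle s t ↔ (fp θ X.x).SameCycle s t := by
  rw [dl_eq_rs X a]
  refine cycle_sub hE hX ?_ (mem_of_rs hY hs).1 ?_
  · intro b hb
    rw [Finset.mem_erase]
    exact ⟨fun e => ha (hF (e ▸ hb)), ov_nm hX hb⟩
  · intro t ht
    have htY : t ∈ Y.x := by
      by_contra hc
      exact h ⟨t, ht, hc⟩
    obtain ⟨h1, h2⟩ := mem_of_rs hY htY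
    refine mem_rsN.2 ⟨h1, ?_⟩
    rcases t with n | ⟨b, e⟩
    · rfl
    · rw [kp_en, decide_eq_true_eq] at h2 ⊢
      rw [Finset.mem_erase]
      exact ⟨fun e' => ha (e' ▸ h2), nm_of_rs hY h2⟩

theorem NE_dl (hE : Env θ μ P Dd) (hX : OvP μ P X) (hF : W.nm μ ⊆ W.nm Y)
    (hY : rsN (W.nm Y) X = Y) {s : Sy} (hs : s ∈ Y.x) (h : ¬ NE θ Y s X) {a : ℕ}
    (ha : a ∉ W.nm Y) : ¬ NE θ Y s (X.dl a) := by
  rintro ⟨t, h1, h2⟩
  exact h ⟨t, (cyc_dl hE hX hF hY hs h ha t).1 h1, h2⟩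

theorem NE_rn (hE : Env θ μ P Dd) (hF : W.nm μ ⊆ W.nm Y) {π : Perm ℕ}
    (hπ : ∀ a ∈ W.nm Y, π a = a) {s : Sy} (hs : s ∈ Y.x) (h : NE θ Y s X) :
    NE θ Y s (X.rn π) := by
  obtain ⟨t, h1, h2⟩ := h
  have hfix := (rnS_fix hπ (Finset.Subset.refl _)).1
  refine ⟨rnS π t, ?_, fun h3 => h2 ?_⟩
  · have := (rn_sc hE (fun a ha => hπ a (hF ha)) X s t).2 h1
    rwa [hfix s hs] at this
  · have h4 := hfix _ h3
    have h5 := (rnS π).injective h4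
    rwa [h5] at h3

theorem NE_rn_iff (hE : Env θ μ P Dd) (hF : W.nm μ ⊆ W.nm Y) {π : Perm ℕ}
    (hπ : ∀ a ∈ W.nm Y, π a = a) {s : Sy} (hs : s ∈ Y.x) :
    NE θ Y s (X.rn π) ↔ NE θ Y s X := by
  refine ⟨fun h => ?_, NE_rn hE hF hπ hs⟩
  have h1 : ∀ a ∈ W.nm Y, π⁻¹ a = a := fun a ha => by
    rw [Perm.inv_eq_iff_eq]; exact (hπ a ha).symm
  have h2 := NE_rn (X := X.rn π) hE hF h1 hs h
  rwa [← PW.rn_mul, inv_mul_cancel, PW.rn_one] at h2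

/-! ### the predicates -/

theorem PY_inv (K : Ctx θ μ P Dd p q Ψ) (hF : W.nm μ ⊆ W.nm Y) :
    Sys.Inv (S := W) (W.nm Y) (PY μ P p Ψ Y) := by
  intro π hπ X hX
  have hπ' : ∀ a ∈ W.nm μ, π a = a := fun a ha => hπ a (hF ha)
  refine ⟨K.hinv π hπ' X hX.1, ?_⟩
  show pat μ (Tb p) (PW.rn π X) = Y
  rw [pat_rn hX.1.1 hπ', hX.2]
  exact (rnS_fix hπ (Finset.Subset.refl _)).2

theorem not_tau {T : Option Sy → Option Sy → Prop} (hX : OvP μ P X) (h : pat μ T X = Y) {a : ℕ}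
    (ha : a ∉ W.nm Y) : a ∉ W.nm μ ∧ a ∉ tau μ T X := by
  rw [(pat_rs hX h).1, Finset.mem_union] at ha
  tauto

theorem PY_cvx (K : Ctx θ μ P Dd p q Ψ) (hF : W.nm μ ⊆ W.nm Y) :
    Sys.Cvx (S := W) (W.nm Y) (PY μ P p Ψ Y) := by
  intro (X : PW) hX a ha b hb hab hdd
  have ha' := Finset.mem_sdiff.1 ha
  have hb' := Finset.mem_sdiff.1 hb
  refine ⟨K.hcvx X hX.1 a (Finset.mem_sdiff.2 ⟨ha'.1, fun h => ha'.2 (hF h)⟩) b
    (Finset.mem_sdiff.2 ⟨hb'.1, fun h => hb'.2 (hF h)⟩) hab hdd.1, ?_⟩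
  have h1 := not_tau hX.1.1 hX.2 ha'.2
  show pat μ (Tb p) (PW.dl X a) = Y
  rw [pat_dl hX.1.1 h1.1 h1.2]
  exact hX.2

theorem PC_inv (K : Ctx θ μ P Dd p q Ψ) (hF : W.nm μ ⊆ W.nm Y) {C : Finset Sy}
    (hC : ∀ s ∈ C, s ∈ Y.x) : Sys.Inv (S := W) (W.nm Y) (PC θ μ P p Ψ Y C) := by
  intro π hπ X hX
  exact ⟨PY_inv K hF π hπ X hX.1, fun s hs => NE_rn K.hE hF hπ (hC s hs) (hX.2 s hs)⟩

theorem PC_cvx (K : Ctx θ μ P Dd p q Ψ) (hF : W.nm μ ⊆ W.nm Y) {C : Finset Sy}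
    (hC : ∀ s ∈ C, s ∈ Y.x) : Sys.Cvx (S := W) (W.nm Y) (PC θ μ P p Ψ Y C) := by
  intro (X : PW) hX a ha b hb hab hdd
  have h1 : PY μ P p Ψ Y (X.dl a) := PY_cvx K hF X hX.1 a ha b hb hab hdd.1
  refine ⟨h1, fun s hs => ?_⟩
  by_contra hc
  exact NE_dl K.hE h1.1.1 hF (pat_rs h1.1.1 h1.2).2 (hC s hs) hc
    (Finset.mem_sdiff.1 hb).2 (hdd.2 s hs)

/-- symbols with owner `p` or in `P` are not dead -/
theorem not_dead (hE : Env θ μ P Dd) (hX : OvP μ P X) {s m : Sy}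
    (h : own μ.x X.x s = some m) (hm : m ∈ P) : s ∉ Dd := by
  intro hs
  have h1 := hE.dsub s hs
  rw [own_self h1 (ov_sub hX s h1)] at h
  have h2 : s = m := Option.some.inj h
  exact (hE.sub m hm).2 (h2 ▸ hs)

/-- the live symbols are invariant -/
theorem sc_live (hE : Env θ μ P Dd) (hX : OvP μ P X) {s t : Sy} (hs : s ∈ X.x) (hsD : s ∉ Dd)
    (h : (fp θ X.x).SameCycle s t) : t ∈ X.x ∧ t ∉ Dd := by
  have h1 := sc_mem (φ := fp θ X.x) (A := X.x.toFinset \ Dd) (by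
    intro u hu
    rw [Finset.mem_sdiff, List.mem_toFinset] at hu ⊢
    exact fp_inv hE hX u hu.1 hu.2) (s := s) (t := t)
    (by rw [Finset.mem_sdiff, List.mem_toFinset]; exact ⟨hs, hsD⟩) h
  rw [Finset.mem_sdiff, List.mem_toFinset] at h1
  exact h1

/-- free letters of the pattern -/
theorem pat_letter {T : Option Sy → Option Sy → Prop} (hX : OvP μ P X) (h : pat μ T X = Y) {t : Sy}
    (ht : t ∈ Y.x) (htμ : t ∉ μ.x) : ∃ (a : ℕ) (e : Bool), t = en a e ∧ a ∉ W.nm μ ∧ a ∈ tau μ T X := by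
  obtain ⟨h1, h2⟩ := pat_rs hX h
  obtain ⟨h3, h4⟩ := mem_of_rs h2 ht
  rcases t with n | ⟨a, e⟩
  · exact absurd (ov_mr hX h3) htμ
  · refine ⟨a, e, rfl, ?_⟩
    rw [kp_en, decide_eq_true_eq, h1, Finset.mem_union] at h4
    have h5 : a ∉ W.nm μ := fun h => htμ ((nm_en e).1 h)
    tauto

end

end Pool.Agent.TH515.J875
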