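import Pool.Agent.TH547.Arc.Env
import Pool.Agent.TH553.J769
import Pool.Agent.TH304.J770
import Pool.Agent.TH304.J771
import Pool.Agent.TH286.J795
import Pool.Agent.TH286.J846
import Pool.Agent.TH817.J872
import Pool.Agent.TH628.J873
set_option autoImplicit false

/-! Job 875: the results of other jobs which are used, under short names. -/

namespace Pool.Agent.TH515.J875
open Pool.Agent.TH547.Arc
open Finset Equiv

/-! ### 795 -/

theorem own_self {μ x : List Sy} {s : Sy} (h1 : s ∈ μ) (h2 : s ∈ x) : own μ x s = some s := by apply Pool.Agent.TH286.J795.own_self <;> assumption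

theorem own_spec {μ x : List Sy} {s m : Sy} (h : own μ x s = some m) :
    m ∈ μ ∧ m ∈ x ∧ s ∈ x ∧ (s = m ∨ [s, m].Sublist x) := by apply Pool.Agent.TH286.J795.own_spec <;> assumption

theorem own_filter {μ x : List Sy} {f : Sy → Bool} (hf : ∀ t ∈ μ, t ∈ x → f t = true) {s : Sy}
    (hs : f s = true) : own μ (x.filter f) s = own μ x s := by apply Pool.Agent.TH286.J795.own_filter <;> assumption

theorem own_trans {μ ν x : List Sy} (hx : x.Nodup) (h : ∀ t ∈ μ, t ∈ ν) {s m : Sy}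
    (hm : own ν x s = some m) : own μ x s = own μ x m := by apply Pool.Agent.TH286.J795.own_trans <;> assumption

theorem own_exists {μ x : List Sy} {s : Sy} (hs : s ∈ x)
    (hl : ∃ (l : List Sy) (m : Sy), x = l ++ [m] ∧ m ∈ μ) : ∃ m, own μ x s = some m := by apply Pool.Agent.TH286.J795.own_exists <;> assumption

theorem own_formPerm_marker {μ x : List Sy} (hx : x.Nodup)
    (hf : x.filter (fun t => decide (t ∈ μ)) = μ) {u : Sy} (hu : u ∈ μ)
    (hl : ∃ (l : List Sy) (m : Sy), x = l ++ [m] ∧ m ∈ μ) :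
    own μ x (x.formPerm u) = some (μ.formPerm u) := by apply Pool.Agent.TH286.J795.own_formPerm_marker <;> assumption

/-! ### 846 -/

section
variable {c q : Sy} {b : ℕ} {X : PW} (hc : c ∈ X.x) (hq : q ∈ X.x)
  (h : c = q ∨ [c, q].Sublist X.x) (hb : b ∉ X.ord)
include hc hq h hb

theorem insP_nm : W.nm (insP c q b X) = insert b (W.nm X) := by apply Pool.Agent.TH286.J846.insP_nm <;> assumption
theorem insP_mem (s : Sy) : s ∈ (insP c q b X).x ↔ s ∈ X.x ∨ s = en b false ∨ s = en b true := by apply Pool.Agent.TH286.J846.insP_mem <;> assumption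
theorem insP_dl_self : (insP c q b X).dl b = X := by apply Pool.Agent.TH286.J846.insP_dl_self <;> assumption
theorem insP_dl {a : ℕ} (hab : a ≠ b) (hac : offA a c = true) (haq : offA a q = true) :
    (insP c q b X).dl a = insP c q b (X.dl a) := by apply Pool.Agent.TH286.J846.insP_dl <;> assumption
theorem insP_rn (π : Perm ℕ) (hπc : rnS π c = c) (hπq : rnS π q = q) :
    (insP c q b X).rn π = insP c q (π b) (X.rn π) := by apply Pool.Agent.TH286.J846.insP_rn <;> assumption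
theorem rsN_insP_of_not_mem {N : Finset ℕ} (hN : b ∉ N) : rsN N (insP c q b X) = rsN N X := by apply Pool.Agent.TH286.J846.rsN_insP_of_not_mem <;> assumption
end

theorem mem_rsN {N : Finset ℕ} {X : PW} {s : Sy} : s ∈ (rsN N X).x ↔ s ∈ X.x ∧ kp N s = true := by apply Pool.Agent.TH286.J846.mem_rsN <;> assumption
theorem nm_rsN (N : Finset ℕ) (X : PW) : W.nm (rsN N X) = W.nm X ∩ N := by apply Pool.Agent.TH286.J846.nm_rsN <;> assumption
theorem rsN_dl (N : Finset ℕ) (X : PW) (a : ℕ) : rsN N (X.dl a) = rsN (N.erase a) X := by apply Pool.Agent.TH286.J846.rsN_dl <;> assumption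
theorem dl_rsN (N : Finset ℕ) (X : PW) (a : ℕ) : (rsN N X).dl a = rsN (N.erase a) X := by apply Pool.Agent.TH286.J846.dl_rsN <;> assumption
theorem rsN_rsN (N M : Finset ℕ) (X : PW) : rsN N (rsN M X) = rsN (N ∩ M) X := by apply Pool.Agent.TH286.J846.rsN_rsN <;> assumption
theorem rsN_rn (N : Finset ℕ) (π : Perm ℕ) (X : PW) :
    rsN (N.map π.toEmbedding) (X.rn π) = (rsN N X).rn π := by apply Pool.Agent.TH286.J846.rsN_rn <;> assumption
theorem rsN_of_subset {N : Finset ℕ} {X : PW} (h : W.nm X ⊆ N) : rsN N X = X := by apply Pool.Agent.TH286.J846.rsN_of_subset <;> assumption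
theorem rsN_congr {N M : Finset ℕ} {X : PW} (h : W.nm X ∩ N = W.nm X ∩ M) : rsN N X = rsN M X := by apply Pool.Agent.TH286.J846.rsN_congr <;> assumption
theorem rnS_fix {F : Finset ℕ} {π : Perm ℕ} (h : ∀ a ∈ F, π a = a) {Y : PW} (hY : W.nm Y ⊆ F) :
    (∀ s ∈ Y.x, rnS π s = s) ∧ Y.rn π = Y := by apply Pool.Agent.TH286.J846.rnS_fix <;> assumption

/-! ### 872 -/

section
variable {θ : Perm Sy} {Dd : Finset Sy} {c q : Sy} {b : ℕ} {X : PW}
  (hinv : ∀ s ∈ X.x, s ∉ Dd → fp θ X.x s ∈ X.x ∧ fp θ X.x s ∉ Dd)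
  (hD : ∀ s ∈ Dd, s ∈ X.x)
  (h0 : θ (en b false) = en b true) (h1 : θ (en b true) = en b false)
  (hc : c ∈ X.x) (hcD : c ∉ Dd) (hq : q ∈ X.x) (hqD : q ∉ Dd)
  (hcq : c = q ∨ [c, q].Sublist X.x) (hb : b ∉ X.ord)
include hinv hD h0 h1 hc hcD hq hqD hcq hb

theorem insP_inv : ∀ s ∈ (insP c q b X).x, s ∉ Dd →
    fp θ (insP c q b X).x s ∈ (insP c q b X).x ∧ fp θ (insP c q b X).x s ∉ Dd := by apply Pool.Agent.TH817.J872.insP_inv <;> assumption
theorem insP_sc_merge (h : ¬ (fp θ X.x).SameCycle c q) {s t : Sy} (hs : s ∈ X.x) (hsD : s ∉ Dd)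
    (ht : t ∈ X.x) (htD : t ∉ Dd) : (fp θ (insP c q b X).x).SameCycle s t ↔
      (fp θ X.x).SameCycle s t ∨ (((fp θ X.x).SameCycle c s ∨ (fp θ X.x).SameCycle q s) ∧
        ((fp θ X.x).SameCycle c t ∨ (fp θ X.x).SameCycle q t)) := by apply Pool.Agent.TH817.J872.insP_sc_merge <;> assumption
theorem insP_sc_far {s t : Sy} (hs : s ∈ X.x) (hsD : s ∉ Dd) (ht : t ∈ X.x) (htD : t ∉ Dd)
    (h1' : ¬ (fp θ X.x).SameCycle c s) (h2' : ¬ (fp θ X.x).SameCycle q s) :
    (fp θ (insP c q b X).x).SameCycle s t ↔ (fp θ X.x).SameCycle s t := by apply Pool.Agent.TH817.J872.insP_sc_far <;> assumption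
theorem insP_sc_far_new {s : Sy} (hs : s ∈ X.x) (hsD : s ∉ Dd)
    (h1' : ¬ (fp θ X.x).SameCycle c s) (h2' : ¬ (fp θ X.x).SameCycle q s) :
    ¬ (fp θ (insP c q b X).x).SameCycle s (en b false) ∧
      ¬ (fp θ (insP c q b X).x).SameCycle s (en b true) := by apply Pool.Agent.TH817.J872.insP_sc_far_new <;> assumption
end

/-! ### 873 -/

section
variable {θ : Perm Sy} {μ : PW} {P Dd : Finset Sy} {X : PW}

theorem last_mem (hE : Env θ μ P Dd) (hX : OvP μ P X) :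
    ∃ (l : List Sy) (n : ℕ), X.x = l ++ [mr n] ∧ mr n ∈ μ.x := by apply Pool.Agent.TH628.J873.Env.last_mem <;> assumption
theorem own_ex (hE : Env θ μ P Dd) (hX : OvP μ P X) {s : Sy} (hs : s ∈ X.x) :
    ∃ m ∈ μ.x, own μ.x X.x s = some m := by apply Pool.Agent.TH628.J873.Env.own_ex <;> assumption
theorem theta_mem (hE : Env θ μ P Dd) (hX : OvP μ P X) : ∀ s ∈ X.x, θ s ∈ X.x := by apply Pool.Agent.TH628.J873.Env.theta_mem <;> assumption
theorem fp_mem (hE : Env θ μ P Dd) (hX : OvP μ P X) : ∀ s ∈ X.x, fp θ X.x s ∈ X.x := by apply Pool.Agent.TH628.J873.Env.fp_mem <;> assumption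
theorem fp_letter (hE : Env θ μ P Dd) (hX : OvP μ P X) {s : Sy} (hs : s ∈ X.x) (hsμ : s ∉ μ.x) :
    own μ.x X.x (fp θ X.x s) = own μ.x X.x (θ s) := by apply Pool.Agent.TH628.J873.Env.fp_letter <;> assumption
theorem fp_dead (hE : Env θ μ P Dd) (hX : OvP μ P X) : ∀ s ∈ Dd, fp θ X.x s = fp θ μ.x s := by apply Pool.Agent.TH628.J873.Env.fp_dead <;> assumption
theorem fp_inv (hE : Env θ μ P Dd) (hX : OvP μ P X) :
    ∀ s ∈ X.x, s ∉ Dd → fp θ X.x s ∈ X.x ∧ fp θ X.x s ∉ Dd := by apply Pool.Agent.TH628.J873.Env.fp_inv <;> assumption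
theorem live_own (hE : Env θ μ P Dd) (hX : OvP μ P X) {s : Sy} (hs : s ∈ X.x) (hsD : s ∉ Dd) :
    ∃ t ∈ X.x, (fp θ X.x).SameCycle s t ∧ ∃ p ∈ P, own μ.x X.x t = some p := by apply Pool.Agent.TH628.J873.Env.live_own <;> assumption
theorem cycle_sub (hE : Env θ μ P Dd) (hX : OvP μ P X) {N : Finset ℕ} (hN : W.nm μ ⊆ N) {s : Sy}
    (hs : s ∈ X.x) (h : ∀ t, (fp θ X.x).SameCycle s t → t ∈ (rsN N X).x) :
    ∀ t, (fp θ (rsN N X).x).SameCycle s t ↔ (fp θ X.x).SameCycle s t := by apply Pool.Agent.TH628.J873.Env.cycle_sub <;> assumption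

theorem OvP_dl (hX : OvP μ P X) {a : ℕ} (ha : a ∉ μ.ord) : OvP μ P (X.dl a) := by apply Pool.Agent.TH628.J873.OvP.dl <;> assumption
theorem OvP_own_dl (hX : OvP μ P X) {a : ℕ} (ha : a ∉ μ.ord) {s : Sy} (hs : offA a s = true) :
    own μ.x (X.dl a).x s = own μ.x X.x s := by apply Pool.Agent.TH628.J873.OvP.own_dl <;> assumption
theorem OvP_rsN (hX : OvP μ P X) {N : Finset ℕ} (hN : W.nm μ ⊆ N) : OvP μ P (rsN N X) := by apply Pool.Agent.TH628.J873.OvP.rsN <;> assumption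
theorem OvP_own_rsN (hX : OvP μ P X) {N : Finset ℕ} (hN : W.nm μ ⊆ N) {s : Sy} (hs : kp N s = true) :
    own μ.x (rsN N X).x s = own μ.x X.x s := by apply Pool.Agent.TH628.J873.OvP.own_rsN <;> assumption
theorem OvP_rn (hX : OvP μ P X) {π : Perm ℕ} (hπ : ∀ a ∈ W.nm μ, π a = a) : OvP μ P (X.rn π) := by apply Pool.Agent.TH628.J873.OvP.rn <;> assumption
theorem OvP_own_rn (hX : OvP μ P X) {π : Perm ℕ} (hπ : ∀ a ∈ W.nm μ, π a = a) (s : Sy) :
    own μ.x (X.rn π).x (rnS π s) = own μ.x X.x s := by apply Pool.Agent.TH628.J873.OvP.own_rn <;> assumption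
theorem OvP_insP (hX : OvP μ P X) {c q : Sy} {b : ℕ} (hc : c ∈ X.x) (hq : q ∈ X.x)
    (hcq : c = q ∨ [c, q].Sublist X.x) (hb : b ∉ X.ord) (hbμ : b ∉ μ.ord)
    (hco : ∃ p ∈ P, own μ.x X.x c = some p) (hqo : ∃ p ∈ P, own μ.x X.x q = some p) :
    OvP μ P (insP c q b X) ∧ own μ.x (insP c q b X).x (en b false) = own μ.x X.x c ∧
      own μ.x (insP c q b X).x (en b true) = own μ.x X.x q ∧
      ∀ s ∈ X.x, own μ.x (insP c q b X).x s = own μ.x X.x s := by apply Pool.Agent.TH628.J873.OvP.insP <;> assumption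
theorem rn_sc {θ : Perm Sy} {μ : PW} {P Dd : Finset Sy} (hE : Env θ μ P Dd) {π : Perm ℕ}
    (hπ : ∀ a ∈ W.nm μ, π a = a) (X : PW) (s t : Sy) :
    (fp θ (X.rn π).x).SameCycle (rnS π s) (rnS π t) ↔ (fp θ X.x).SameCycle s t := by apply Pool.Agent.TH628.J873.Env.rn_sc <;> assumption
end

end Pool.Agent.TH515.J875
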