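import Pool.Agent.TH515.J875c
set_option autoImplicit false

/-! Job 875, part e: step 3 and the key lemma. -/
namespace Pool.Agent.TH515.J875
open Pool.Agent.TH547.Arc
open Finset Equiv

section
variable {θ : Perm Sy} {μ : PW} {P Dd : Finset Sy} {p q : Sy} {Ψ : PW → Prop} {X Y Z : PW}

/-- the finite set of pure symbols -/
noncomputable def Cp (θ : Perm Sy) (μ : PW) (P : Finset Sy) (p : Sy) (Y : PW) : Finset Sy :=
  @Finset.filter Sy (Pure θ μ P p Y) (fun _ => Classical.propDecidable _) Y.x.toFinset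

theorem mem_Cp {s : Sy} : s ∈ Cp θ μ P p Y ↔ Pure θ μ P p Y s := by
  unfold Cp
  refine (@Finset.mem_filter Sy _ (fun _ => Classical.propDecidable _) _ _).trans ?_
  rw [List.mem_toFinset]
  exact ⟨fun h => h.2, fun h => ⟨h.1, h⟩⟩

theorem step2_all (K : Ctx θ μ P Dd p q Ψ) (hYo : OvP μ P Y) {j : ℕ}
    (e : Sys.Ex (S := W) (W.nm Y) (PC θ μ P p Ψ Y (Cp θ μ P p Y)) j) :
    Sys.Ex (S := W) (W.nm Y) (PY μ P p Ψ Y) j := by
  classical
  have key : ∀ C : Finset Sy, (∀ s ∈ C, Pure θ μ P p Y s) →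
      Sys.Ex (S := W) (W.nm Y) (PC θ μ P p Ψ Y C) j →
      Sys.Ex (S := W) (W.nm Y) (PC θ μ P p Ψ Y ∅) j := by
    intro C
    induction C using Finset.induction_on with
    | empty => exact fun _ h => h
    | insert s C _ ih =>
      intro h1 h2
      exact ih (fun t ht => h1 t (Finset.mem_insert_of_mem ht))
        (step2 K hYo (fun t ht => h1 t (Finset.mem_insert_of_mem ht))
          (h1 s (Finset.mem_insert_self _ _)) h2)
  have h3 := key _ (fun s hs => mem_Cp.1 hs) e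
  have heq : PC θ μ P p Ψ Y ∅ = PY μ P p Ψ Y := by
    funext X
    apply propext
    exact ⟨fun h => h.1, fun h => ⟨h, fun s hs => absurd hs (Finset.notMem_empty _)⟩⟩
  rw [heq] at h3
  exact h3

/-! ### words over the pattern -/

/-- the allowed blocks over the pattern -/
noncomputable def Pp (μ : PW) (P : Finset Sy) (p : Sy) (Z : PW) : Finset Sy :=
  @Finset.filter Sy (fun m => ∃ o ∈ P.erase p, own μ.x Z.x m = some o)
    (fun _ => Classical.propDecidable _) Z.x.toFinset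

theorem mem_Pp {m : Sy} : m ∈ Pp μ P p Z ↔ m ∈ Z.x ∧ ∃ o ∈ P.erase p, own μ.x Z.x m = some o := by
  unfold Pp
  refine (@Finset.mem_filter Sy _ (fun _ => Classical.propDecidable _) _ _).trans ?_
  rw [List.mem_toFinset]

theorem filt_rs (hZ : rsN (W.nm Z) X = Z) : X.x.filter (fun t => decide (t ∈ Z.x)) = Z.x := by
  have h1 : X.x.filter (kp (W.nm Z)) = Z.x := congrArg PW.x hZ
  refine Eq.trans ?_ h1
  refine List.filter_congr fun t ht => ?_
  rw [Bool.eq_iff_iff, decide_eq_true_eq]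
  exact mem_iff_rs hZ ht

/-- free letters of a cell with pattern `Z` do not have owner `p` -/
theorem free_own (hX : OvP μ P X) (h : pat μ (Ts p) X = Z) {s : Sy} (hs : s ∈ X.x)
    (hsZ : s ∉ Z.x) : ∃ o ∈ P.erase p, own μ.x X.x s = some o := by
  obtain ⟨hnm, hrs⟩ := pat_rs hX h
  rcases s with n | ⟨a, e⟩
  · exact absurd ((mem_iff_rs hrs hs).2 rfl) hsZ
  · have haX : a ∈ W.nm X := (nm_en e).2 hs
    have haZ : a ∉ W.nm Z := fun h' => hsZ ((nm_en e).1 h')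
    obtain ⟨h1, h2⟩ := not_tau hX h haZ
    have hsμ : en a e ∉ μ.x := fun h' => h1 ((nm_en e).2 h')
    obtain ⟨o, ho, ho'⟩ := hX.2.2 _ hs hsμ
    refine ⟨o, Finset.mem_erase.2 ⟨?_, ho⟩, ho'⟩
    rintro rfl
    refine h2 (mem_tau.2 ⟨⟨haX, h1⟩, ?_⟩)
    cases e
    · exact Or.inl ho'
    · exact Or.inr ho'

theorem last' (hE : Env θ μ P Dd) (hX : OvP μ P X) (hsub : ∀ s ∈ μ.x, s ∈ Z.x) :
    ∃ (l : List Sy) (m : Sy), X.x = l ++ [m] ∧ m ∈ Z.x := by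
  obtain ⟨l, n, h1, h2⟩ := last_mem hE hX
  exact ⟨l, mr n, h1, hsub _ h2⟩

theorem over_of (hE : Env θ μ P Dd) (hX : OvP μ P X) (h : pat μ (Ts p) X = Z) :
    OvP Z (Pp μ P p Z) X := by
  obtain ⟨hnm, hrs⟩ := pat_rs hX h
  have hZo := pat_ov hX h
  refine ⟨filt_rs hrs, fun n hn => (mem_iff_rs hrs hn).2 rfl, fun s hs hsZ => ?_⟩
  obtain ⟨m, hm⟩ := own_exists hs (last' hE hX (ov_sub hZo))
  have hmZ := (own_spec hm).1
  have h1 := own_trans X.nd (ov_sub hZo) hm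
  obtain ⟨o, ho, ho'⟩ := free_own hX h hs hsZ
  refine ⟨m, mem_Pp.2 ⟨hmZ, o, ho, ?_⟩, hm⟩
  rw [← own_of_rs hX (ov_nm hZo) hrs hmZ, ← h1, ho']

theorem own_ov {Q : Finset Sy} (hZ : OvP μ P Z) (hX : OvP Z Q X) {s : Sy} (hs : s ∈ Z.x) :
    own μ.x X.x s = own μ.x Z.x s := by
  have h1 := own_filter (μ := μ.x) (x := X.x) (f := fun t => decide (t ∈ Z.x))
    (fun t ht _ => decide_eq_true (ov_sub hZ t ht)) (s := s) (decide_eq_true hs)
  rw [hX.1] at h1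
  exact h1.symm

theorem over_free (hZ : OvP μ P Z) (hX : OvP Z (Pp μ P p Z) X) {s : Sy} (hs : s ∈ X.x)
    (hsZ : s ∉ Z.x) : ∃ o ∈ P.erase p, own μ.x X.x s = some o := by
  obtain ⟨m, hm, hm'⟩ := hX.2.2 s hs hsZ
  obtain ⟨h1, o, ho, ho'⟩ := mem_Pp.1 hm
  refine ⟨o, ho, ?_⟩
  rw [own_trans X.nd (ov_sub hZ) hm', own_ov hZ hX h1, ho']

theorem over_ov (hZ : OvP μ P Z) (hX : OvP Z (Pp μ P p Z) X) : OvP μ P X := by
  refine ⟨?_, fun n hn => hZ.2.1 n (hX.2.1 n hn), fun s hs hsμ => ?_⟩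
  · have e1 : (X.x.filter (fun t => decide (t ∈ Z.x))).filter (fun t => decide (t ∈ μ.x)) = μ.x := by
      rw [hX.1]; exact hZ.1
    rw [List.filter_filter] at e1
    refine Eq.trans ?_ e1
    refine List.filter_congr fun t _ => ?_
    rw [Bool.eq_iff_iff]
    simp only [decide_eq_true_eq, Bool.and_eq_true]
    exact ⟨fun h => ⟨h, ov_sub hZ t h⟩, fun h => h.1⟩
  · by_cases hsZ : s ∈ Z.x
    · rw [own_ov hZ hX hsZ]
      exact hZ.2.2 s hsZ hsμ
    · obtain ⟨o, ho, ho'⟩ := over_free hZ hX hs hsZ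
      exact ⟨o, (Finset.mem_erase.1 ho).2, ho'⟩

theorem over_rs {Q : Finset Sy} (hX : OvP Z Q X) : rsN (W.nm Z) X = Z := by
  refine PW.ext ?_
  show X.x.filter (kp (W.nm Z)) = Z.x
  refine Eq.trans ?_ hX.1
  refine List.filter_congr fun t ht => ?_
  rw [Bool.eq_iff_iff, decide_eq_true_eq]
  rcases t with n | ⟨a, e⟩
  · exact ⟨fun _ => hX.2.1 n ht, fun _ => rfl⟩
  · rw [kp_en, decide_eq_true_eq, nm_en e]

theorem over_tau (hZ : OvP μ P Z) (hX : OvP Z (Pp μ P p Z) X) (hZt : ∀ a ∈ W.nm Z, a ∉ W.nm μ →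
    Ts p (own μ.x Z.x (en a false)) (own μ.x Z.x (en a true))) :
    W.nm μ ∪ tau μ (Ts p) X = W.nm Z := by
  have hrs := over_rs hX
  ext a
  rw [Finset.mem_union, mem_tau]
  constructor
  · rintro (h | ⟨⟨h1, h2⟩, h3⟩)
    · exact ov_nm hZ h
    · by_contra hc
      have key : ∀ e, ¬ (own μ.x X.x (en a e) = some p) := by
        intro e he
        obtain ⟨o, ho, ho'⟩ := over_free hZ hX (s := en a e) ((nm_en e).1 h1)
          (fun h' => hc ((nm_en e).2 h'))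
        rw [he] at ho'
        exact (Finset.mem_erase.1 ho).1 (Option.some.inj ho').symm
      rcases h3 with h3 | h3
      · exact key _ h3
      · exact key _ h3
  · intro h
    by_cases hμ : a ∈ W.nm μ
    · exact Or.inl hμ
    · right
      refine ⟨⟨nm_of_rs hrs h, hμ⟩, ?_⟩
      have h1 := hZt a h hμ
      rw [← own_ov hZ hX ((nm_en false).1 h), ← own_ov hZ hX ((nm_en true).1 h)] at h1
      exact h1

/-- the base point: a cell with both patterns -/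
structure Bs (θ : Perm Sy) (μ : PW) (P : Finset Sy) (p : Sy) (Ψ : PW → Prop) (Y Z X0 : PW) :
    Prop where
  pc : PC θ μ P p Ψ Y (Cp θ μ P p Y) X0
  pt : pat μ (Ts p) X0 = Z

theorem Bs.o {X0 : PW} (B : Bs θ μ P p Ψ Y Z X0) : OvP μ P X0 := B.pc.1.1.1
theorem Bs.oY {X0 : PW} (B : Bs θ μ P p Ψ Y Z X0) : OvP μ P Y := pat_ov B.o B.pc.1.2
theorem Bs.oZ {X0 : PW} (B : Bs θ μ P p Ψ Y Z X0) : OvP μ P Z := pat_ov B.o B.pt

theorem tau_sub (X : PW) : tau μ (Tb p) X ⊆ tau μ (Ts p) X := by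
  intro a ha
  rw [mem_tau] at ha ⊢
  exact ⟨ha.1, Or.inl ha.2.1⟩

theorem Bs.nmYZ {X0 : PW} (B : Bs θ μ P p Ψ Y Z X0) : W.nm Y ⊆ W.nm Z := by
  rw [(pat_rs B.o B.pc.1.2).1, (pat_rs B.o B.pt).1]
  exact Finset.union_subset_union_right (tau_sub X0)

theorem Bs.rsY {X0 : PW} (B : Bs θ μ P p Ψ Y Z X0) : rsN (W.nm Y) Z = Y := by
  have h1 := (pat_rs B.o B.pc.1.2).2
  have h2 := (pat_rs B.o B.pt).2
  calc rsN (W.nm Y) Z = rsN (W.nm Y) (rsN (W.nm Z) X0) := by rw [h2]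
    _ = rsN (W.nm Y ∩ W.nm Z) X0 := rsN_rsN _ _ _
    _ = rsN (W.nm Y) X0 := by rw [Finset.inter_eq_left.2 B.nmYZ]
    _ = Y := h1

/-- the type of the arcs of `Z` -/
theorem Bs.tyZ {X0 : PW} (B : Bs θ μ P p Ψ Y Z X0) {a : ℕ} (ha : a ∈ W.nm Z) (haμ : a ∉ W.nm μ) :
    Ts p (own μ.x Z.x (en a false)) (own μ.x Z.x (en a true)) := by
  obtain ⟨h1, h2⟩ := pat_rs B.o B.pt
  rw [h1, Finset.mem_union] at ha
  have h3 := ha.resolve_left haμ
  have h4 : a ∈ W.nm Z := by rw [h1]; exact Finset.mem_union_right _ h3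
  have h5 := (mem_tau.1 h3).2
  rw [own_of_rs B.o (ov_nm B.oZ) h2 ((nm_en false).1 h4),
    own_of_rs B.o (ov_nm B.oZ) h2 ((nm_en true).1 h4)] at h5
  exact h5

/-- the type of the arcs of `Y` -/
theorem Bs.tyY {X0 : PW} (B : Bs θ μ P p Ψ Y Z X0) {a : ℕ} (ha : a ∈ W.nm Z) (haμ : a ∉ W.nm μ) :
    a ∈ W.nm Y ↔ Tb p (own μ.x Z.x (en a false)) (own μ.x Z.x (en a true)) := by
  obtain ⟨h1, h2⟩ := pat_rs B.o B.pt
  have h3 := (pat_rs B.o B.pc.1.2).1
  rw [h3, Finset.mem_union, mem_tau, own_of_rs B.o (ov_nm B.oZ) h2 ((nm_en false).1 ha),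
    own_of_rs B.o (ov_nm B.oZ) h2 ((nm_en true).1 ha)]
  constructor
  · rintro (h | h)
    · exact absurd h haμ
    · exact h.2
  · intro h
    exact Or.inr ⟨⟨nm_of_rs h2 ha, haμ⟩, h⟩

end

end Pool.Agent.TH515.J875
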