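import Pool.Agent.TH515.J875e
set_option autoImplicit false

/-! Job 875, part f: step 3 and the key lemma. -/
namespace Pool.Agent.TH515.J875
open Pool.Agent.TH547.Arc
open Finset Equiv

section
variable {θ : Perm Sy} {μ : PW} {P Dd : Finset Sy} {p q : Sy} {Ψ : PW → Prop} {X Y Z X0 : PW}

theorem own_some_of_Y (B : Bs θ μ P p Ψ Y Z X0) {t o : Sy} (ht : t ∈ Y.x) (hO : t ∉ P.erase p)
    (ho : own μ.x Z.x t = some o) : o ∉ P.erase p := by
  have htZ : t ∈ Z.x := (mem_of_rs B.rsY ht).1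
  by_cases htμ : t ∈ μ.x
  · rw [own_self htμ htZ] at ho
    rw [← Option.some.inj ho]
    exact hO
  · obtain ⟨a, e, rfl, haμ, haτ⟩ := pat_letter B.o B.pc.1.2 ht htμ
    have haY : a ∈ W.nm Y := (nm_en e).2 ht
    have haZ : a ∈ W.nm Z := B.nmYZ haY
    have h1 := (B.tyY haZ haμ).1 haY
    intro hc
    have h2 : own μ.x Z.x (en a e) = some p := by
      cases e
      · exact h1.1
      · exact h1.2
    rw [h2] at ho
    rw [← Option.some.inj ho] at hc
    exact (Finset.mem_erase.1 hc).1 rfl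

/-- pure symbols have large cycles in `Z` -/
theorem NE_Z (hE : Env θ μ P Dd) (B : Bs θ μ P p Ψ Y Z X0) {s : Sy} (hs : Pure θ μ P p Y s) :
    NE θ Y s Z := by
  by_contra hcon
  have hcyc := cyc_eq hE B.oZ (ov_nm B.oY) B.rsY hs.1 hcon
  have hin : ∀ t, (fp θ Z.x).SameCycle s t → t ∈ Y.x := by
    intro t ht
    by_contra hc
    exact hcon ⟨t, ht, hc⟩
  have hO : ∀ t, (fp θ Z.x).SameCycle s t → t ∉ P.erase p := by
    intro t ht h
    exact hs.2.2 t h ((hcyc t).2 ht)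
  have hrs := (pat_rs B.o B.pt).2
  -- the face permutations agree
  have hfp : ∀ t, (fp θ Z.x).SameCycle s t → fp θ X0.x t = fp θ Z.x t := by
    intro t ht
    have htZ : t ∈ Z.x := (mem_of_rs B.rsY (hin t ht)).1
    have hu : θ t ∈ Z.x := theta_mem hE B.oZ t htZ
    have h1 : own Z.x X0.x (fp θ X0.x t) = some (fp θ Z.x t) :=
      own_formPerm_marker X0.nd (filt_rs hrs) hu (last' hE B.o (ov_sub B.oZ))
    have ht' : (fp θ Z.x).SameCycle s (fp θ Z.x t) := ht.trans (Perm.sameCycle_apply_right.2 (Perm.SameCycle.refl _ _))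
    have hwX : fp θ X0.x t ∈ X0.x := fp_mem hE B.o t (mem_of_rs hrs htZ).1
    by_cases hw : fp θ X0.x t ∈ Z.x
    · rw [own_self hw hwX] at h1
      exact Option.some.inj h1
    · exfalso
      obtain ⟨o, ho, ho'⟩ := free_own B.o B.pt hwX hw
      have h2 := own_trans X0.nd (ov_sub B.oZ) h1
      have h3 : fp θ Z.x t ∈ Z.x := (own_spec h1).1
      rw [own_of_rs B.o (ov_nm B.oZ) hrs h3, ho'] at h2
      exact own_some_of_Y B (hin _ ht') (hO _ ht') h2.symm ho
  obtain ⟨t, ht1, ht2⟩ := B.pc.2 s (mem_Cp.2 hs)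
  have hmem := sc_mem (φ := fp θ X0.x)
    (A := @Finset.filter Sy (fun t => (fp θ Z.x).SameCycle s t) (fun _ => Classical.propDecidable _) Y.x.toFinset) (by
      intro u hu
      have hu' := (@Finset.mem_filter Sy _ (fun _ => Classical.propDecidable _) _ _).1 hu
      refine (@Finset.mem_filter Sy _ (fun _ => Classical.propDecidable _) _ _).2 ?_
      rw [hfp u hu'.2]
      have h1 : (fp θ Z.x).SameCycle s (fp θ Z.x u) := hu'.2.trans (Perm.sameCycle_apply_right.2 (Perm.SameCycle.refl _ _))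
      exact ⟨List.mem_toFinset.2 (hin _ h1), h1⟩) (s := s) (t := t)
    ((@Finset.mem_filter Sy _ (fun _ => Classical.propDecidable _) _ _).2
      ⟨List.mem_toFinset.2 hs.1, Perm.SameCycle.refl _ _⟩) ht1
  have hmem' := (@Finset.mem_filter Sy _ (fun _ => Classical.propDecidable _) _ _).1 hmem
  exact ht2 (List.mem_toFinset.1 hmem'.1)

/-- pure symbols have large cycles in cells over `Z` -/
theorem NE_X (hE : Env θ μ P Dd) (B : Bs θ μ P p Ψ Y Z X0) {s : Sy} (hs : Pure θ μ P p Y s)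
    (hX : OvP Z (Pp μ P p Z) X) : NE θ Y s X := by
  by_contra hcon
  have hin : ∀ t, (fp θ X.x).SameCycle s t → t ∈ Y.x := by
    intro t ht
    by_contra hc
    exact hcon ⟨t, ht, hc⟩
  have hrs := over_rs hX
  have hsZ : s ∈ Z.x := (mem_of_rs B.rsY hs.1).1
  have h1 := cycle_sub hE (over_ov B.oZ hX) (ov_nm B.oZ) (mem_of_rs hrs hsZ).1 (by
    intro t ht
    rw [hrs]
    exact (mem_of_rs B.rsY (hin t ht)).1)
  rw [hrs] at h1
  obtain ⟨t, ht1, ht2⟩ := NE_Z hE B hs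
  exact ht2 (hin t ((h1 t).1 ht1))

/-- claim (A) -/
theorem claimA (hE : Env θ μ P Dd) (B : Bs θ μ P p Ψ Y Z X0) (X : PW) :
    (PC θ μ P p Ψ Y (Cp θ μ P p Y) X ∧ pat μ (Ts p) X = Z) ↔ (OvP Z (Pp μ P p Z) X ∧ Ψ X) := by
  constructor
  · rintro ⟨h1, h2⟩
    exact ⟨over_of hE h1.1.1.1 h2, h1.1.1.2⟩
  · rintro ⟨hX, hΨ⟩
    have hXo := over_ov B.oZ hX
    have hrs := over_rs hX
    have hσ := over_tau B.oZ hX (fun a ha haμ => B.tyZ ha haμ)
    have hβ : W.nm μ ∪ tau μ (Tb p) X = W.nm Y := by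
      ext a
      rw [Finset.mem_union]
      constructor
      · rintro (h | h)
        · exact ov_nm B.oY h
        · have h1 : a ∈ W.nm Z := by
            rw [← hσ]; exact Finset.mem_union_right _ (tau_sub X h)
          obtain ⟨⟨_, h2⟩, h3⟩ := mem_tau.1 h
          rw [B.tyY h1 h2, ← own_ov B.oZ hX ((nm_en false).1 h1), ← own_ov B.oZ hX ((nm_en true).1 h1)]
          exact h3
      · intro h
        by_cases haμ : a ∈ W.nm μ
        · exact Or.inl haμ
        · right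
          have h1 := B.nmYZ h
          have h2 := (B.tyY h1 haμ).1 h
          rw [← own_ov B.oZ hX ((nm_en false).1 h1), ← own_ov B.oZ hX ((nm_en true).1 h1)] at h2
          exact mem_tau.2 ⟨⟨nm_of_rs hrs h1, haμ⟩, h2⟩
    refine ⟨⟨⟨⟨hXo, hΨ⟩, ?_⟩, fun s hs => NE_X hE B (mem_Cp.1 hs) hX⟩, ?_⟩
    · show rsN (W.nm μ ∪ tau μ (Tb p) X) X = Y
      rw [hβ]
      calc rsN (W.nm Y) X = rsN (W.nm Y ∩ W.nm Z) X := by rw [Finset.inter_eq_left.2 B.nmYZ]
        _ = rsN (W.nm Y) (rsN (W.nm Z) X) := (rsN_rsN _ _ _).symm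
        _ = rsN (W.nm Y) Z := by rw [hrs]
        _ = Y := B.rsY
    · show rsN (W.nm μ ∪ tau μ (Ts p) X) X = Z
      rw [hσ]
      exact hrs

/-- claim (B) -/
theorem claimB (hE : Env θ μ P Dd) (hq : q ∈ P) (hpq : p ≠ q) (B : Bs θ μ P p Ψ Y Z X0) :
    Env θ Z (Pp μ P p Z) Dd := by
  have hZ := B.oZ
  refine ⟨?_, theta_mem hE hZ, ?_, ?_, ?_, ?_, ?_, ?_⟩
  · intro a ha e
    exact hE.flip a (fun h => ha (nmW.1 (ov_nm hZ (nmW.2 h)))) e
  · obtain ⟨l, n, h, _⟩ := last_mem hE hZ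
    exact ⟨l, n, h⟩
  · intro s hs
    obtain ⟨h1, o, ho, ho'⟩ := mem_Pp.1 hs
    exact ⟨h1, not_dead hE hZ ho' (Finset.mem_erase.1 ho).2⟩
  · intro s hs
    exact ov_sub hZ s (hE.dsub s hs)
  · intro s hs
    rw [fp_dead hE hZ s hs]
    exact hE.dinv s hs
  · intro s hs hsD
    by_contra hcon
    push Not at hcon
    -- the cycle of `s` is contained in `Y`
    have hin : ∀ t, (fp θ Z.x).SameCycle s t → t ∈ Y.x := by
      intro t ht
      by_contra htY
      have htZ := (sc_live hE hZ hs hsD ht).1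
      have htP : t ∉ Pp μ P p Z := fun h => hcon t h ht
      rcases t with n | ⟨a, e⟩
      · exact htY (ov_sub B.oY _ (ov_mr hZ htZ))
      · have haμ : a ∉ W.nm μ := fun h => htY (ov_sub B.oY _ ((nm_en e).1 h))
        have haZ : a ∈ W.nm Z := (nm_en e).2 htZ
        have haY : a ∉ W.nm Y := fun h => htY ((nm_en e).1 h)
        have haμ' : a ∉ μ.ord := fun h => haμ (nmW.2 h)
        have howner : ∀ e', en a e' ∉ Pp μ P p Z → own μ.x Z.x (en a e') = some p := by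
          intro e' he'
          obtain ⟨o, ho, ho'⟩ := hZ.2.2 (en a e') ((nm_en e').1 haZ) (fun h => haμ ((nm_en e').2 h))
          by_cases hop : o = p
          · rw [ho', hop]
          · exact absurd (mem_Pp.2 ⟨(nm_en e').1 haZ, o, Finset.mem_erase.2 ⟨hop, ho⟩, ho'⟩) he'
        have h1 := howner e htP
        have h2 : en a (!e) ∈ Pp μ P p Z := by
          by_contra hc
          have h3 := howner _ hc
          refine haY ((B.tyY haZ haμ).2 ?_)
          cases e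
          · exact ⟨h1, h3⟩
          · exact ⟨h3, h1⟩
        obtain ⟨h3, o, ho, ho'⟩ := mem_Pp.1 h2
        have h4 : own μ.x Z.x (fp θ Z.x (en a e)) = some o := by
          rw [fp_letter hE hZ htZ (fun h => haμ ((nm_en e).2 h)), hE.flip a haμ' e, ho']
        have h5 : fp θ Z.x (en a e) ∈ Pp μ P p Z :=
          mem_Pp.2 ⟨fp_mem hE hZ _ htZ, o, ho, h4⟩
        exact hcon _ h5 (ht.trans (Perm.sameCycle_apply_right.2 (Perm.SameCycle.refl _ _)))
    have hsY : s ∈ Y.x := hin s (Perm.SameCycle.refl _ _)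
    obtain ⟨t, htZ, hst, p1, hp1, hp1'⟩ := live_own hE hZ hs hsD
    have htP : t ∉ Pp μ P p Z := fun h => hcon t h hst
    have hp1p : p1 = p := by
      by_contra hne
      exact htP (mem_Pp.2 ⟨htZ, p1, Finset.mem_erase.2 ⟨hne, hp1⟩, hp1'⟩)
    subst hp1p
    have htY := hin t hst
    have hNs : ¬ NE θ Y s Z := by
      rintro ⟨t', h1, h2⟩
      exact h2 (hin t' h1)
    have hcyc := cyc_eq hE hZ (ov_nm B.oY) B.rsY hsY hNs
    have hpure : Pure θ μ P p1 Y t := by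
      refine ⟨htY, ?_, ?_⟩
      · rw [← own_of_rs hZ (ov_nm B.oY) B.rsY htY, hp1']
      · intro t1 ht1 hsc
        have h1 : (fp θ Y.x).SameCycle s t1 := ((hcyc t).2 hst).trans hsc
        have h2 := (hcyc t1).1 h1
        have h3 : t1 ∈ μ.x := (hE.sub t1 (Finset.mem_erase.1 ht1).2).1
        exact hcon t1 (mem_Pp.2 ⟨ov_sub hZ _ h3, t1, ht1, own_self h3 (ov_sub hZ _ h3)⟩) h2
    obtain ⟨t2, h1, h2⟩ := NE_Z hE B hpure
    exact h2 (hin t2 (hst.trans h1))
  · have h1 := (hE.sub q hq).1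
    exact ⟨q, mem_Pp.2 ⟨ov_sub hZ _ h1, q, Finset.mem_erase.2 ⟨hpq.symm, hq⟩,
      own_self h1 (ov_sub hZ _ h1)⟩⟩

end

end Pool.Agent.TH515.J875
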