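import Mathlib
import Pool.Agent.H289R2.NormLayer

set_option autoImplicit false

/-!
# Sets without long progressions in `F_p^n`

For all primes `p ≥ k ≥ 3` we show `λ_{k,p} ≥ 2^(-4/k) p`.

Let `D = ⌊(k - 1) / 2⌋`. There is a function `F` on `F_p^M`, `M = D (D + 1) / 2`, whose restriction
to every line is a polynomial of degree between `1` and `D` (a sum of norm forms). We take the
points where `F` has its value in the short interval `[0, m)`, `m = ⌈p / 2^D⌉`. Along a progression
in this set the values of `F` are the values of an integer valued polynomial of degree at most `D`,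
since the difference of order `D + 1` is smaller than `p`. In a large power of this set we fix the
sum of the squares of the values of `F`. On a progression of length `2 D + 1` this sum is a
polynomial of degree at most `2 D`, hence it is constant as a polynomial, and all polynomials are
constant.
-/

open Finset Polynomial

namespace Pool.Agent.TH515.LongProgressions

/-- `A ⊆ F_p^n` contains no nontrivial `k`-term progression `x, x+y, …, x+(k-1)y` with `y ≠ 0`. -/
def APFree (k p n : ℕ) (A : Finset (Fin n → ZMod p)) : Prop :=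
  ∀ x y : Fin n → ZMod p, (∀ i : ℕ, i < k → x + i • y ∈ A) → y = 0

/-- `r_k(F_p^n)`: the largest size of a subset of `F_p^n` without nontrivial `k`-term
progressions. -/
noncomputable def r (k p n : ℕ) : ℕ :=
  sSup {m : ℕ | ∃ A : Finset (Fin n → ZMod p), APFree k p n A ∧ A.card = m}

/-- `λ_{k,p} = sup_{n ≥ 1} r_k(F_p^n)^{1/n}`. -/
noncomputable def lam (k p : ℕ) : ℝ :=
  ⨆ n : ℕ, (r k p (n + 1) : ℝ) ^ (1 / ((n : ℝ) + 1))

/-! ### The growth rate -/

section

variable {p : ℕ} [hpf : Fact p.Prime]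

lemma card_le_r {k n : ℕ} {A : Finset (Fin n → ZMod p)} (hA : APFree k p n A) :
    A.card ≤ r k p n := by
  unfold r
  apply le_csSup
  · refine ⟨Fintype.card (Fin n → ZMod p), ?_⟩
    rintro m ⟨B, _, rfl⟩
    exact Finset.card_le_univ B
  · exact ⟨A, hA, rfl⟩

lemma r_le (k n : ℕ) : r k p n ≤ p ^ n := by
  unfold r
  apply csSup_le'
  rintro m ⟨B, _, rfl⟩
  calc B.card ≤ Fintype.card (Fin n → ZMod p) := Finset.card_le_univ B
    _ = p ^ n := by simp [ZMod.card]

lemma le_lam (k n : ℕ) : (r k p (n + 1) : ℝ) ^ (1 / ((n : ℝ) + 1)) ≤ lam k p := by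
  unfold lam
  refine le_ciSup (f := fun n : ℕ => (r k p (n + 1) : ℝ) ^ (1 / ((n : ℝ) + 1))) ?_ n
  refine ⟨(p : ℝ), ?_⟩
  rintro _ ⟨m, rfl⟩
  have h1 : (r k p (m + 1) : ℝ) ≤ (p : ℝ) ^ (m + 1) := by exact_mod_cast r_le k (m + 1)
  have h2 : (0 : ℝ) ≤ (r k p (m + 1) : ℝ) := by positivity
  calc (r k p (m + 1) : ℝ) ^ (1 / ((m : ℝ) + 1))
      ≤ ((p : ℝ) ^ (m + 1)) ^ (1 / ((m : ℝ) + 1)) :=
        Real.rpow_le_rpow h2 h1 (by positivity)
    _ = (p : ℝ) := by
        have : ((m : ℝ) + 1) = ((m + 1 : ℕ) : ℝ) := by push_cast; ring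
        rw [this, one_div, Real.pow_rpow_inv_natCast (by positivity) (by omega)]

lemma lam_nonneg (k : ℕ) : 0 ≤ lam k p :=
  le_trans (Real.rpow_nonneg (by positivity) _) (le_lam (p := p) k 0)

lemma r_le_lam_pow (k : ℕ) {n : ℕ} (hn : 1 ≤ n) : (r k p n : ℝ) ≤ lam k p ^ n := by
  obtain ⟨m, rfl⟩ : ∃ m, n = m + 1 := ⟨n - 1, by omega⟩
  have h1 := le_lam (p := p) k m
  have h2 : (0 : ℝ) ≤ (r k p (m + 1) : ℝ) := by positivity
  have h3 : ((m : ℝ) + 1) = ((m + 1 : ℕ) : ℝ) := by push_cast; ring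
  calc (r k p (m + 1) : ℝ) = ((r k p (m + 1) : ℝ) ^ (1 / ((m : ℝ) + 1))) ^ (m + 1) := by
        rw [h3, one_div, Real.rpow_inv_natCast_pow h2 (by omega)]
    _ ≤ lam k p ^ (m + 1) := pow_le_pow_left₀ (Real.rpow_nonneg h2 _) h1 _

/-- If `a^N ≤ (N B + 1) b^N` for all `N ≥ 1` then `a ≤ b`. -/
lemma le_of_pow_le {a b B : ℝ} (hb : 0 ≤ b)
    (h : ∀ N : ℕ, 1 ≤ N → a ^ N ≤ (N * B + 1) * b ^ N) : a ≤ b := by
  by_contra hab
  push Not at hab
  have ha0 : 0 < a := lt_of_le_of_lt hb hab
  have hq0 : 0 ≤ b / a := by positivity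
  have hq1 : b / a < 1 := (div_lt_one ha0).2 hab
  have h1 := tendsto_pow_const_mul_const_pow_of_abs_lt_one 1
    (show |b / a| < 1 by rwa [abs_of_nonneg hq0])
  have h2 := tendsto_pow_atTop_nhds_zero_of_lt_one hq0 hq1
  have h3 : Filter.Tendsto (fun n : ℕ => B * ((n : ℝ) ^ 1 * (b / a) ^ n) + (b / a) ^ n)
      Filter.atTop (nhds (B * 0 + 0)) := (h1.const_mul B).add h2
  rw [mul_zero, add_zero] at h3
  have h4 := (h3.eventually (gt_mem_nhds (show (0 : ℝ) < 1 by norm_num))).and
    (Filter.eventually_ge_atTop 1)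
  obtain ⟨N, hN, hN1⟩ := h4.exists
  have h5 := h N hN1
  have h6 : (0 : ℝ) < a ^ N := by positivity
  have h7 : 1 ≤ (N * B + 1) * (b / a) ^ N := by
    rw [div_pow, mul_div_assoc', le_div_iff₀ h6, one_mul]
    exact h5
  rw [pow_one] at hN
  nlinarith

/-- The product construction: a set `A0` with a function `f`, such that progressions in powers of
`A0` on which the sum of the squares of `f` is constant are trivial. -/
lemma sphere {k M : ℕ} (hM : 1 ≤ M) (A0 : Finset (Fin M → ZMod p)) (f : (Fin M → ZMod p) → ℕ)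
    (B : ℕ) (hB : ∀ x ∈ A0, f x ≤ B)
    (hfree : ∀ (N : ℕ) (x y : Fin N → Fin M → ZMod p),
      (∀ j < k, ∀ i, x i + j • y i ∈ A0) →
      (∃ s : ℕ, ∀ j < k, ∑ i, f (x i + j • y i) ^ 2 = s) → y = 0) :
    (A0.card : ℝ) ≤ lam k p ^ M := by
  classical
  have key : ∀ N : ℕ, 1 ≤ N → A0.card ^ N ≤ (N * B ^ 2 + 1) * r k p (N * M) := by
    intro N _
    set P : Finset (Fin N → Fin M → ZMod p) := Fintype.piFinset fun _ => A0 with hP
    have hcard : P.card = A0.card ^ N := by
      rw [hP, Fintype.card_piFinset]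
      simp
    have hmaps : ∀ x ∈ P, ∑ i, f (x i) ^ 2 ∈ Finset.range (N * B ^ 2 + 1) := by
      intro x hx
      rw [hP, Fintype.mem_piFinset] at hx
      rw [Finset.mem_range]
      have : ∑ i, f (x i) ^ 2 ≤ ∑ _i : Fin N, B ^ 2 :=
        Finset.sum_le_sum fun i _ => Nat.pow_le_pow_left (hB _ (hx i)) 2
      rw [Finset.sum_const, Finset.card_univ, Fintype.card_fin, smul_eq_mul] at this
      omega
    rw [← hcard, Finset.card_eq_sum_card_fiberwise hmaps]
    have hle : ∀ s ∈ Finset.range (N * B ^ 2 + 1),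
        (P.filter fun x => ∑ i, f (x i) ^ 2 = s).card ≤ r k p (N * M) := by
      intro s _
      let e : Fin N × Fin M ≃ Fin (N * M) := finProdFinEquiv
      let Φ : (Fin N → Fin M → ZMod p) ↪ (Fin (N * M) → ZMod p) :=
        ⟨fun x a => x (e.symm a).1 (e.symm a).2, by
          intro x y hxy
          funext i t
          have := congrFun hxy (e (i, t))
          simpa using this⟩
      have hA : APFree k p (N * M)
          ((P.filter fun x => ∑ i, f (x i) ^ 2 = s).map Φ) := by
        intro X Y hXY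
        set x : Fin N → Fin M → ZMod p := fun i t => X (e (i, t)) with hx
        set y : Fin N → Fin M → ZMod p := fun i t => Y (e (i, t)) with hy
        have hmem : ∀ j < k, (fun i => x i + j • y i) ∈
            P.filter fun x => ∑ i, f (x i) ^ 2 = s := by
          intro j hj
          have h1 := hXY j hj
          rw [Finset.mem_map] at h1
          obtain ⟨z, hz, hz2⟩ := h1
          have : z = fun i => x i + j • y i := by
            funext i t
            have h2 := congrFun hz2 (e (i, t))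
            have h3 : Φ z (e (i, t)) = z i t := by
              change z (e.symm (e (i, t))).1 (e.symm (e (i, t))).2 = z i t
              rw [Equiv.symm_apply_apply]
            rw [h3] at h2
            rw [h2]
            rfl
          rwa [← this]
        have hy0 : y = 0 := by
          refine hfree N x y ?_ ⟨s, ?_⟩
          · intro j hj i
            have := (Finset.mem_filter.1 (hmem j hj)).1
            rw [hP, Fintype.mem_piFinset] at this
            exact this i
          · intro j hj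
            exact (Finset.mem_filter.1 (hmem j hj)).2
        funext a
        have := congrFun (congrFun hy0 (e.symm a).1) (e.symm a).2
        simpa [hy] using this
      have := card_le_r hA
      rwa [Finset.card_map] at this
    calc ∑ s ∈ Finset.range (N * B ^ 2 + 1), (P.filter fun x => ∑ i, f (x i) ^ 2 = s).card
        ≤ ∑ _s ∈ Finset.range (N * B ^ 2 + 1), r k p (N * M) := Finset.sum_le_sum hle
      _ = (N * B ^ 2 + 1) * r k p (N * M) := by
          rw [Finset.sum_const, Finset.card_range, smul_eq_mul]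
  refine le_of_pow_le (B := (B : ℝ) ^ 2) (pow_nonneg (lam_nonneg k) _) ?_
  intro N hN
  have h1 := key N hN
  have h2 : ((A0.card : ℝ)) ^ N ≤ ((N : ℝ) * (B : ℝ) ^ 2 + 1) * (r k p (N * M) : ℝ) := by
    exact_mod_cast h1
  refine h2.trans ?_
  have h3 := r_le_lam_pow (p := p) k (n := N * M) (Nat.mul_pos hN hM)
  have h4 : lam k p ^ (N * M) = (lam k p ^ M) ^ N := by rw [← pow_mul, Nat.mul_comm]
  rw [h4] at h3
  exact mul_le_mul_of_nonneg_left h3 (by positivity)

end

/-! ### Polynomial sequences -/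

/-- The difference of order `n` of a polynomial of degree less than `n` vanishes. -/
lemma diff_zero {R : Type*} [CommRing R] {P : R[X]} {n : ℕ} (hP : P.natDegree < n) (a : R) :
    ∑ l ∈ Finset.range (n + 1), ((-1 : ℤ) ^ (n - l) * n.choose l) • P.eval (a + l) = 0 := by
  have h := congrFun (Polynomial.fwdDiff_iter_eq_zero_of_degree_lt hP) a
  rw [fwdDiff_iter_eq_sum_shift] at h
  simpa using h

/-- From congruences to equalities. -/
lemma diff_int {p k D m : ℕ} (hm : 2 ^ D * (m - 1) < p) (u : ℕ → ℕ)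
    (hu : ∀ j < k, u j < m) (g : (ZMod p)[X]) (hg : g.natDegree ≤ D)
    (hgu : ∀ j < k, (u j : ZMod p) = g.eval (j : ZMod p)) :
    ∀ j, j + (D + 1) < k →
      ∑ l ∈ Finset.range (D + 1 + 1), ((-1 : ℤ) ^ (D + 1 - l) * (D + 1).choose l) *
        (u (j + l) : ℤ) = 0 := by
  intro j hj
  set S : ℤ := ∑ l ∈ Finset.range (D + 1 + 1), ((-1 : ℤ) ^ (D + 1 - l) * (D + 1).choose l) *
        (u (j + l) : ℤ) with hS
  have hdvd : (p : ℤ) ∣ S := by
    rw [← ZMod.intCast_zmod_eq_zero_iff_dvd]
    have h := diff_zero (P := g) (n := D + 1) (by omega) (j : ZMod p)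
    rw [← h, hS, Int.cast_sum]
    refine Finset.sum_congr rfl fun l hl => ?_
    rw [Finset.mem_range] at hl
    rw [Int.cast_mul, Int.cast_natCast, hgu (j + l) (by omega), zsmul_eq_mul]
    push_cast
    ring
  have hc0 : ∑ l ∈ Finset.range (D + 1 + 1), ((-1 : ℤ) ^ (D + 1 - l) * (D + 1).choose l) = 0 := by
    have h := diff_zero (P := (1 : ℤ[X])) (n := D + 1) (by rw [natDegree_one]; omega) 0
    simpa using h
  have habs : |2 * S| ≤ 2 ^ (D + 1) * ((m : ℤ) - 1) := by
    have h1 : 2 * S = ∑ l ∈ Finset.range (D + 1 + 1),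
        ((-1 : ℤ) ^ (D + 1 - l) * (D + 1).choose l) * (2 * (u (j + l) : ℤ) - ((m : ℤ) - 1)) := by
      have h2 : ∑ l ∈ Finset.range (D + 1 + 1),
          ((-1 : ℤ) ^ (D + 1 - l) * (D + 1).choose l) * (2 * (u (j + l) : ℤ) - ((m : ℤ) - 1)) =
          2 * S - (∑ l ∈ Finset.range (D + 1 + 1),
            ((-1 : ℤ) ^ (D + 1 - l) * (D + 1).choose l)) * ((m : ℤ) - 1) := by
        rw [hS, Finset.mul_sum, Finset.sum_mul, ← Finset.sum_sub_distrib]
        refine Finset.sum_congr rfl fun l _ => ?_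
        ring
      rw [h2, hc0]
      ring
    rw [h1]
    refine (Finset.abs_sum_le_sum_abs _ _).trans ?_
    have h3 : ∀ l ∈ Finset.range (D + 1 + 1),
        |((-1 : ℤ) ^ (D + 1 - l) * (D + 1).choose l) * (2 * (u (j + l) : ℤ) - ((m : ℤ) - 1))| ≤
          ((D + 1).choose l : ℤ) * ((m : ℤ) - 1) := by
      intro l hl
      rw [Finset.mem_range] at hl
      have hul := hu (j + l) (by omega)
      rw [abs_mul, abs_mul, abs_pow, abs_neg, abs_one, one_pow, one_mul, Nat.abs_cast]
      refine mul_le_mul_of_nonneg_left ?_ (by positivity)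
      rw [abs_le]
      constructor <;> omega
    refine (Finset.sum_le_sum h3).trans (le_of_eq ?_)
    rw [← Finset.sum_mul]
    congr 1
    have := Nat.sum_range_choose (D + 1)
    exact_mod_cast this
  have habs2 : |S| < (p : ℤ) := by
    have h1 : |2 * S| = 2 * |S| := by rw [abs_mul]; simp
    rw [h1, pow_succ] at habs
    have hmk : 1 ≤ m := by
      have := hu j (by omega)
      omega
    have h2 : (2 : ℤ) ^ D * ((m : ℤ) - 1) < p := by
      have h3 : ((2 ^ D * (m - 1) : ℕ) : ℤ) < (p : ℤ) := by exact_mod_cast hm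
      push_cast [Nat.cast_sub hmk] at h3
      exact h3
    nlinarith
  exact Int.eq_zero_of_abs_lt_dvd hdvd habs2

/-- Interpolation. -/
lemma exists_poly {k D : ℕ} (u : ℕ → ℝ)
    (hu : ∀ j, j + (D + 1) < k →
      ∑ l ∈ Finset.range (D + 1 + 1), ((-1 : ℝ) ^ (D + 1 - l) * (D + 1).choose l) *
        u (j + l) = 0) :
    ∃ U : ℝ[X], U.natDegree ≤ D ∧ ∀ j < k, U.eval (j : ℝ) = u j := by
  classical
  have hinj : Set.InjOn (fun i : ℕ => (i : ℝ)) (Finset.range (D + 1) : Set ℕ) :=
    fun a _ b _ h => by simpa using h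
  set U : ℝ[X] := Lagrange.interpolate (Finset.range (D + 1)) (fun i : ℕ => (i : ℝ)) u with hU
  have hdeg : U.natDegree ≤ D := by
    have h1 := Lagrange.degree_interpolate_lt (r := u) hinj
    rw [Finset.card_range] at h1
    rw [← hU] at h1
    by_cases h0 : U = 0
    · rw [h0, natDegree_zero]
      exact Nat.zero_le _
    · have h2 := (natDegree_lt_iff_degree_lt h0).2 h1
      omega
  refine ⟨U, hdeg, ?_⟩
  intro j
  induction j using Nat.strong_induction_on with
  | _ j ih =>
    intro hj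
    by_cases hjD : j < D + 1
    · have := Lagrange.eval_interpolate_at_node (r := u) hinj (Finset.mem_range.2 hjD)
      exact this
    · obtain ⟨i, rfl⟩ : ∃ i, j = i + (D + 1) := ⟨j - (D + 1), by omega⟩
      have h1 := hu i hj
      have h2 := diff_zero (P := U) (n := D + 1) (by omega) (i : ℝ)
      rw [Finset.sum_range_succ] at h1 h2
      have h3 : ∑ l ∈ Finset.range (D + 1), ((-1 : ℤ) ^ (D + 1 - l) * (D + 1).choose l) •
          U.eval ((i : ℝ) + l) = ∑ l ∈ Finset.range (D + 1),
          ((-1 : ℝ) ^ (D + 1 - l) * (D + 1).choose l) * u (i + l) := by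
        refine Finset.sum_congr rfl fun l hl => ?_
        rw [Finset.mem_range] at hl
        have h4 := ih (i + l) (by omega) (by omega)
        rw [← h4, zsmul_eq_mul]
        push_cast
        ring
      rw [h3] at h2
      simp only [tsub_self, pow_zero, Nat.choose_self, Nat.cast_one, mul_one, one_mul,
        one_smul] at h1 h2
      push_cast at h2 ⊢
      linarith

/-- Polynomials with constant sum of squares are constant. -/
lemma const_of_sq {ι : Type*} [Fintype ι] (D : ℕ) (U : ι → ℝ[X])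
    (hU : ∀ i, (U i).natDegree ≤ D) (s : ℝ) (h : ∑ i, U i ^ 2 = C s) :
    ∀ i, (U i).natDegree = 0 := by
  induction D with
  | zero => exact fun i => Nat.le_zero.1 (hU i)
  | succ D ih =>
    apply ih
    intro i
    have h1 : ∑ i, (U i).coeff (D + 1) ^ 2 = 0 := by
      have h2 := congrArg (fun P : ℝ[X] => P.coeff (2 * (D + 1))) h
      simp only [finsetSum_coeff] at h2
      rw [coeff_C, if_neg (by omega)] at h2
      rw [← h2]
      refine Finset.sum_congr rfl fun i _ => ?_
      rw [coeff_pow_of_natDegree_le (hU i)]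
    have h3 : (U i).coeff (D + 1) = 0 := by
      have := (Finset.sum_eq_zero_iff_of_nonneg (fun i _ => sq_nonneg _)).1 h1 i
        (Finset.mem_univ i)
      exact pow_eq_zero_iff (two_ne_zero) |>.1 this
    by_contra h4
    have h5 : (U i).natDegree = D + 1 := le_antisymm (hU i) (by omega)
    rw [← h5] at h3
    have h6 : U i = 0 := leadingCoeff_eq_zero.1 h3
    rw [h6, natDegree_zero] at h5
    omega

lemma const_of_sum_sq {ι : Type*} [Fintype ι] (D k : ℕ) (hk : 2 * D + 1 ≤ k) (U : ι → ℝ[X])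
    (hU : ∀ i, (U i).natDegree ≤ D) (s : ℝ) (h : ∀ j < k, ∑ i, (U i).eval (j : ℝ) ^ 2 = s) :
    ∀ i, (U i).natDegree = 0 := by
  refine const_of_sq D U hU s ?_
  rw [← sub_eq_zero]
  have hdeg : (∑ i, U i ^ 2 - C s).natDegree ≤ 2 * D := by
    refine (natDegree_sub_le _ _).trans (max_le ?_ (by rw [natDegree_C]; omega))
    refine natDegree_sum_le_of_forall_le _ _ fun i _ => ?_
    exact (natDegree_pow_le).trans (Nat.mul_le_mul_left 2 (hU i))
  refine eq_zero_of_natDegree_lt_card_of_eval_eq_zero (ι := Fin k) _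
    (f := fun j : Fin k => ((j : ℕ) : ℝ)) ?_ ?_ ?_
  · intro a b hab
    simpa [Fin.ext_iff] using hab
  · intro j
    have := h j j.2
    simp only [eval_sub, eval_finsetSum, eval_pow, eval_C]
    rw [this, sub_self]
  · rw [Fintype.card_fin]
    omega

/-! ### Progressions with values in a short interval -/

section

variable {p : ℕ} [hpf : Fact p.Prime]

/-- The main step. -/
lemma free {k D M m : ℕ} (hkD : 2 * D + 1 ≤ k) (hkp : k ≤ p)
    (hm : 2 ^ D * (m - 1) < p) (F : (Fin M → ZMod p) → ZMod p)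
    (hF : ∀ x u : Fin M → ZMod p, u ≠ 0 → ∃ g : (ZMod p)[X],
      1 ≤ g.natDegree ∧ g.natDegree ≤ D ∧ ∀ s : ZMod p, F (x + s • u) = g.eval s)
    (N : ℕ) (x y : Fin N → Fin M → ZMod p)
    (hx : ∀ j < k, ∀ i, (F (x i + j • y i)).val < m)
    (hs : ∃ s : ℕ, ∀ j < k, ∑ i, (F (x i + j • y i)).val ^ 2 = s) : y = 0 := by
  classical
  have hg : ∀ i, ∃ g : (ZMod p)[X], (y i ≠ 0 → 1 ≤ g.natDegree) ∧ g.natDegree ≤ D ∧
      ∀ s : ZMod p, F (x i + s • y i) = g.eval s := by
    intro i
    by_cases hy : y i = 0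
    · refine ⟨C (F (x i)), fun h => absurd hy h, by rw [natDegree_C]; exact Nat.zero_le _, ?_⟩
      intro s
      rw [hy, smul_zero, add_zero, eval_C]
    · obtain ⟨g, h1, h2, h3⟩ := hF (x i) (y i) hy
      exact ⟨g, fun _ => h1, h2, h3⟩
  choose g hg1 hg2 hg3 using hg
  have hg4 : ∀ i (j : ℕ), F (x i + j • y i) = (g i).eval (j : ZMod p) := by
    intro i j
    rw [← hg3 i (j : ZMod p), Nat.cast_smul_eq_nsmul]
  have hU : ∀ i, ∃ U : ℝ[X], U.natDegree ≤ D ∧
      ∀ j < k, U.eval (j : ℝ) = ((F (x i + j • y i)).val : ℝ) := by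
    intro i
    refine exists_poly (fun j => ((F (x i + j • y i)).val : ℝ)) ?_
    intro j hj
    have h1 := diff_int hm (fun j => (F (x i + j • y i)).val) (fun j hj => hx j hj i) (g i)
      (hg2 i) (fun j _ => by rw [ZMod.natCast_zmod_val, hg4]) j hj
    exact_mod_cast h1
  choose U hU1 hU2 using hU
  obtain ⟨s, hs⟩ := hs
  have hconst := const_of_sum_sq D k hkD U hU1 (s : ℝ) (by
    intro j hj
    rw [← hs j hj]
    push_cast
    exact Finset.sum_congr rfl fun i _ => by rw [hU2 i j hj])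
  funext i
  by_contra hyi
  have hval : ∀ j < k, (g i).eval (j : ZMod p) = (g i).eval 0 := by
    intro j hj
    have h1 := hU2 i j hj
    have h2 := hU2 i 0 (by omega)
    rw [eq_C_of_natDegree_eq_zero (hconst i), eval_C] at h1 h2
    have h3 : (F (x i + j • y i)).val = (F (x i + 0 • y i)).val := by
      have : ((F (x i + j • y i)).val : ℝ) = ((F (x i + 0 • y i)).val : ℝ) := by
        rw [← h1, ← h2]
      exact_mod_cast this
    have h4 := ZMod.val_injective p h3
    rw [hg4, hg4, Nat.cast_zero] at h4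
    exact h4
  have hzero : g i - C ((g i).eval 0) = 0 := by
    refine eq_zero_of_natDegree_lt_card_of_eval_eq_zero (ι := Fin k) _
      (f := fun j : Fin k => ((j : ℕ) : ZMod p)) ?_ ?_ ?_
    · intro a b hab
      have h1 := (ZMod.natCast_eq_natCast_iff' _ _ _).1 hab
      rw [Nat.mod_eq_of_lt (lt_of_lt_of_le a.2 hkp), Nat.mod_eq_of_lt (lt_of_lt_of_le b.2 hkp)] at h1
      exact Fin.ext h1
    · intro j
      rw [eval_sub, eval_C, hval j j.2, sub_self]
    · rw [Fintype.card_fin]
      refine lt_of_le_of_lt ((natDegree_sub_le _ _).trans (max_le (hg2 i) ?_)) (b := D) (by omega)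
      rw [natDegree_C]
      exact Nat.zero_le _
  have h1 := hg1 i hyi
  rw [sub_eq_zero] at hzero
  rw [hzero, natDegree_C] at h1
  omega

/-- Averaging over the translates of the interval `[0, m)`. -/
lemma exists_translate {V : Type*} [Fintype V] {m : ℕ} (hm : m ≤ p) (F : V → ZMod p) :
    ∃ c : ZMod p, Fintype.card V * m ≤
      p * (Finset.univ.filter fun x => (F x - c).val < m).card := by
  classical
  by_contra hcon
  push Not at hcon
  have hsum : ∑ c : ZMod p, (Finset.univ.filter fun x => (F x - c).val < m).card =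
      Fintype.card V * m := by
    simp only [Finset.card_filter]
    rw [Finset.sum_comm]
    have : ∀ x : V, ∑ c : ZMod p, (if (F x - c).val < m then 1 else 0) = m := by
      intro x
      rw [← (Equiv.subLeft (F x)).sum_comp fun c : ZMod p => if (F x - c).val < m then 1 else 0]
      simp only [Equiv.subLeft_apply, sub_sub_cancel]
      rw [← Finset.card_filter]
      have h1 : (Finset.univ.filter fun c : ZMod p => c.val < m) =
          (Finset.range m).image (fun a : ℕ => (a : ZMod p)) := by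
        ext c
        simp only [Finset.mem_filter, Finset.mem_univ, true_and, Finset.mem_image,
          Finset.mem_range]
        constructor
        · intro h
          exact ⟨c.val, h, ZMod.natCast_zmod_val c⟩
        · rintro ⟨a, ha, rfl⟩
          rwa [ZMod.val_natCast_of_lt (by omega)]
      rw [h1, Finset.card_image_of_injOn, Finset.card_range]
      intro a ha b hb hab
      rw [Finset.coe_range, Set.mem_Iio] at ha hb
      have h2 := (ZMod.natCast_eq_natCast_iff' _ _ _).1 hab
      rwa [Nat.mod_eq_of_lt (by omega), Nat.mod_eq_of_lt (by omega)] at h2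
    rw [Finset.sum_congr rfl fun x _ => this x, Finset.sum_const, Finset.card_univ, smul_eq_mul]
  have hlt : ∑ c : ZMod p, p * (Finset.univ.filter fun x => (F x - c).val < m).card <
      ∑ _c : ZMod p, Fintype.card V * m :=
    Finset.sum_lt_sum_of_nonempty Finset.univ_nonempty fun c _ => hcon c
  rw [← Finset.mul_sum, hsum, Finset.sum_const, Finset.card_univ, ZMod.card, smul_eq_mul] at hlt
  exact lt_irrefl _ hlt

/-- The bound for given `D`. -/
lemma bound {k D : ℕ} (hD : 1 ≤ D) (hkD : 2 * D + 1 ≤ k) (hkp : k ≤ p) :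
    (p : ℝ) * 2 ^ (-(2 : ℝ) / (D + 1)) ≤ lam k p := by
  classical
  obtain ⟨M, hM, F, hF⟩ := Pool.Agent.H289R2.NormLayer.layer (ZMod p) D
  have hM1 : 1 ≤ M := by nlinarith
  have hp1 : 1 ≤ p := hpf.out.one_lt.le
  set m : ℕ := (p - 1) / 2 ^ D + 1 with hmdef
  have h2D : 1 ≤ 2 ^ D := Nat.one_le_two_pow
  have hm1 : 2 ^ D * (m - 1) < p := by
    rw [hmdef, Nat.add_sub_cancel]
    have := Nat.mul_div_le (p - 1) (2 ^ D)
    omega
  have hm2 : p ≤ 2 ^ D * m := by
    rw [hmdef]
    have := Nat.lt_mul_div_succ (p - 1) (show 0 < 2 ^ D by omega)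
    omega
  have hm3 : m ≤ p := by
    have : (p - 1) / 2 ^ D ≤ p - 1 := Nat.div_le_self _ _
    omega
  obtain ⟨c, hc⟩ := exists_translate hm3 F
  have hF' : ∀ x u : Fin M → ZMod p, u ≠ 0 → ∃ g : (ZMod p)[X],
      1 ≤ g.natDegree ∧ g.natDegree ≤ D ∧ ∀ s : ZMod p, F (x + s • u) - c = g.eval s := by
    intro x u hu
    obtain ⟨g, h1, h2, h3⟩ := hF x u hu
    refine ⟨g - C c, by rwa [natDegree_sub_C], by rwa [natDegree_sub_C], ?_⟩
    intro s
    rw [eval_sub, eval_C, h3]
  have hsph := sphere (k := k) hM1 (Finset.univ.filter fun x => (F x - c).val < m)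
    (fun x => (F x - c).val) m (fun x hx => (Finset.mem_filter.1 hx).2.le) (by
      intro N x y hx hs
      exact free hkD hkp hm1 (fun x => F x - c) hF' N x y
        (fun j hj i => (Finset.mem_filter.1 (hx j hj i)).2) hs)
  have hcard : (p : ℝ) ^ M ≤ 2 ^ D * lam k p ^ M := by
    have h1 : ((p ^ M * m : ℕ) : ℝ) ≤
        ((p * (Finset.univ.filter fun x => (F x - c).val < m).card : ℕ) : ℝ) := by
      have : Fintype.card (Fin M → ZMod p) = p ^ M := by simp [ZMod.card]
      rw [this] at hc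
      exact_mod_cast hc
    have h2 : ((p : ℕ) : ℝ) ≤ ((2 ^ D * m : ℕ) : ℝ) := by exact_mod_cast hm2
    push_cast at h1 h2
    have hp0 : (0 : ℝ) < p := by exact_mod_cast hp1
    have h3 : (p : ℝ) ^ M * p ≤ p * (2 ^ D * lam k p ^ M) := by
      calc (p : ℝ) ^ M * p ≤ p ^ M * (2 ^ D * m) := by gcongr
        _ = 2 ^ D * (p ^ M * m) := by ring
        _ ≤ 2 ^ D * (p * ((Finset.univ.filter fun x => (F x - c).val < m).card : ℝ)) := by gcongr
        _ ≤ 2 ^ D * (p * lam k p ^ M) := by gcongr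
        _ = p * (2 ^ D * lam k p ^ M) := by ring
    rw [mul_comm ((p : ℝ) ^ M) p] at h3
    exact le_of_mul_le_mul_left h3 hp0
  have hexp : (-(2 : ℝ) / (D + 1)) * M = -D := by
    have hMr : 2 * (M : ℝ) = D * (D + 1) := by exact_mod_cast hM
    have hD0 : (D : ℝ) + 1 ≠ 0 := by positivity
    field_simp
    linarith
  have hpow : ((p : ℝ) * 2 ^ (-(2 : ℝ) / (D + 1))) ^ M ≤ lam k p ^ M := by
    rw [mul_pow, ← Real.rpow_natCast ((2 : ℝ) ^ (-(2 : ℝ) / (D + 1))) M, ← Real.rpow_mul (by norm_num),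
      hexp, Real.rpow_neg (by norm_num), Real.rpow_natCast]
    rw [← div_eq_mul_inv, div_le_iff₀ (by positivity), mul_comm]
    exact hcard
  exact le_of_pow_le_pow_left₀ (by omega) (lam_nonneg k) hpow

end

/-- **Theorem.** For all primes `p ≥ k ≥ 3`, `(1 - 3/k) p ≤ 2^(-2/⌈k/2⌉) p ≤ λ_{k,p}`. -/
theorem result (p k : ℕ) [Fact p.Prime] (hk : 3 ≤ k) (hkp : k ≤ p) :
    (1 - 3 / (k : ℝ)) * p ≤ 2 ^ (-(2 : ℝ) / (((k + 1) / 2 : ℕ) : ℝ)) * p ∧
    2 ^ (-(2 : ℝ) / (((k + 1) / 2 : ℕ) : ℝ)) * p ≤ lam k p := by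
  have hk0 : (0 : ℝ) < k := by positivity
  have h1 : (p : ℝ) * 2 ^ (-(2 : ℝ) / (((k + 1) / 2 : ℕ) : ℝ)) ≤ lam k p := by
    have h := bound (p := p) (k := k) (D := (k - 1) / 2) (by omega) (by omega) hkp
    have h2 : (((k + 1) / 2 : ℕ) : ℝ) = (((k - 1) / 2 : ℕ) : ℝ) + 1 := by
      have : (k + 1) / 2 = (k - 1) / 2 + 1 := by omega
      rw [this]
      push_cast
      ring
    rw [h2]
    exact h
  refine ⟨?_, by rwa [mul_comm]⟩
  have h3 : (k : ℝ) ≤ 2 * (((k + 1) / 2 : ℕ) : ℝ) := by
    have : k ≤ 2 * ((k + 1) / 2) := by omega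
    exact_mod_cast this
  have h4 : (0 : ℝ) < (((k + 1) / 2 : ℕ) : ℝ) := by linarith
  refine mul_le_mul_of_nonneg_right ?_ (by positivity)
  refine le_trans (b := (2 : ℝ) ^ (-(4 : ℝ) / k)) ?_ ?_
  · rw [Real.rpow_def_of_pos (by norm_num)]
    have h5 := Real.add_one_le_exp (Real.log 2 * (-(4 : ℝ) / k))
    have h6 := Real.log_two_lt_d9
    have h7 : 4 * Real.log 2 / k ≤ 3 / k := div_le_div_of_nonneg_right (by linarith) hk0.le
    have h8 : Real.log 2 * (-(4 : ℝ) / k) = -(4 * Real.log 2 / k) := by ring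
    rw [h8] at h5 ⊢
    linarith
  · refine Real.rpow_le_rpow_of_exponent_le (by norm_num) ?_
    rw [neg_div, neg_div, neg_le_neg_iff, div_le_div_iff₀ h4 hk0]
    linarith

end Pool.Agent.TH515.LongProgressions
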